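import Pool.Agent.MP_e0ec03_al.asy.Parse

/-! ROW FINU: the lower bound for the mass of the bad words. -/

namespace Pool.Agent.MP_e0ec03_al.Asy

open Classical Finset

namespace Finu

theorem vtx_le_mu (p q : ℕ) (a b : Edge) (h : inn p q a - out p q b ≠ 0) :
    vtx 0 p q a b ≤ mu (inn p q a - out p q b) := by
  have h1 := mu_pos (inn p q a - out p q b)
  unfold vtx kk ps
  by_cases e : a.1 = b.1
  · simp only [e, if_true]
    split_ifs <;> linarith
  · simp only [e, if_false, h]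
    split_ifs <;> linarith

theorem vtx_le_one (p q : ℕ) (a b : Edge) : vtx 0 p q a b ≤ 1 := by
  have h1 := mu_pos (inn p q a - out p q b)
  have h2 := mu_le_two (inn p q a - out p q b)
  unfold vtx kk ps
  by_cases e : a.1 = b.1
  · simp only [e, if_true]
    split_ifs <;> linarith
  · simp only [e, if_false]
    split_ifs <;> linarith

theorem pw_le_one (p q : ℕ) : ∀ (a : Edge) (v : List Edge), pw 0 p q a v ≤ 1
  | _, [] => le_rfl
  | a, b :: l => mul_le_one₀ (vtx_le_one p q a b) (pw_nonneg le_rfl (by norm_num) p q b l)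
      (pw_le_one p q b l)

theorem pw_le_mu (p q D : ℕ) : ∀ (a : Edge) (v : List Edge) (d : ℤ), d ∈ dl p q a v →
    (D : ℤ) < |d| → pw 0 p q a v ≤ mu D
  | _, [], _, h, _ => by simp [dl] at h
  | a, b :: l, d, h, hd => by
    have v0 := vtx_nonneg le_rfl (by norm_num) p q a b
    have p0 := pw_nonneg le_rfl (by norm_num) p q b l
    rw [pw]
    rcases List.mem_cons.1 h with e | h
    · have h0 : inn p q a - out p q b ≠ 0 := by
        rw [← e]
        rintro rfl
        simp only [abs_zero] at hd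
        omega
      have h1 : mu (inn p q a - out p q b) ≤ mu D := mu_anti (by rw [← e, Nat.abs_cast]; exact hd.le)
      calc _ ≤ vtx 0 p q a b * 1 := mul_le_mul_of_nonneg_left (pw_le_one p q b l) v0
        _ ≤ _ := by rw [mul_one]; exact (vtx_le_mu p q a b h0).trans h1
    · calc _ ≤ 1 * pw 0 p q b l := mul_le_mul_of_nonneg_right (vtx_le_one p q a b) p0
        _ ≤ _ := by rw [one_mul]; exact pw_le_mu p q D b l d h hd

theorem r_le_one : (1 / √3 : ℝ) ≤ 1 := by
  have := sqrt3_bounds.1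
  rw [div_le_one (by positivity)]
  linarith

theorem gs_bd (s k : ℤ) : 0 ≤ gs s k ∧ gs s k ≤ 1 := by
  unfold gs
  split_ifs
  · norm_num
  · norm_num
  · exact ⟨by positivity, r_le_one⟩

theorem r_pow {p n D : ℕ} (h : 2 * p + D ≤ n) : (1 / √3 : ℝ) ^ n ≤ (1 / 3) ^ p * (1 / √3) ^ D := by
  have h1 : (1 / √3 : ℝ) ^ 2 = 1 / 3 := by
    rw [div_pow, one_pow, Real.sq_sqrt (by norm_num)]
  rw [← h1, ← pow_mul, ← pow_add]
  exact pow_le_pow_of_le_one (by positivity) r_le_one h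

theorem r_le_mu (D : ℕ) : (1 / √3 : ℝ) ^ D ≤ mu D := by
  rw [mu, Int.natAbs_natCast, div_pow, one_pow]
  have : (0 : ℝ) ≤ D := Nat.cast_nonneg D
  exact div_le_div_of_nonneg_right (by linarith) (by positivity)

theorem ends_ge {p q : ℕ} (hpq : p < q) (e : Edge) (he : e.2 = 1 ∨ e.2 = -1) :
    p ≤ (out p q e).natAbs ∧ p ≤ (inn p q e).natAbs := by
  obtain ⟨b, c⟩ := e
  simp only at he
  rcases he with rfl | rfl <;> cases b <;> simp [out, inn] <;> omega

/-- the hypotheses of row LOC -/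
def good (p q D : ℕ) (v : List Edge) : Prop :=
  ∃ e u, v = e :: u ∧ (∀ d ∈ dl p q e u, |d| ≤ D) ∧ |out p q e| ≤ p + D ∧
    |inn p q (lastE e u)| ≤ p + D

theorem core_bad {p q D : ℕ} (hpq : p < q) {v : List Edge} {s : ℤ} (hs : s = 1 ∨ s = -1)
    (hv : ∀ e u, v = e :: u → e.2 = s ∧ (lastE e u).2 = s) (h : ¬ good p q D v) :
    core 0 p q v ≤ (1 / 3) ^ p * mu D := by
  have hm := mu_pos (D : ℤ)
  cases v with
  | nil => rw [core]; positivity
  | cons e u =>
    obtain ⟨h1, h2⟩ := hv e u rfl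
    have o1 := (ends_ge hpq e (by rw [h1]; exact hs)).1
    have o2 := (ends_ge hpq (lastE e u) (by rw [h2]; exact hs)).2
    have p0 := pw_nonneg le_rfl (by norm_num) p q e u
    have p1 := pw_le_one p q e u
    obtain ⟨g0, g1⟩ := gs_bd e.2 (out p q e + inn p q (lastE e u) + (dl p q e u).sum)
    rw [core, mul_assoc]
    by_cases hd : ∀ d ∈ dl p q e u, |d| ≤ D
    · have h3 : 2 * p + D ≤ (out p q e).natAbs + (inn p q (lastE e u)).natAbs := by
        by_contra hn
        refine h ⟨e, u, rfl, hd, ?_, ?_⟩ <;> rw [← Int.natCast_natAbs] <;> omega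
      calc _ ≤ _ * 1 := mul_le_mul_of_nonneg_left (mul_le_one₀ g1 p0 p1) (by positivity)
        _ ≤ _ := by
          rw [mul_one]
          exact (r_pow h3).trans (mul_le_mul_of_nonneg_left (r_le_mu D) (by positivity))
    · push Not at hd
      obtain ⟨d, h3, h4⟩ := hd
      have h5 := pw_le_mu p q D e u d h3 h4
      have h6 := r_pow (p := p) (D := 0)
        (n := (out p q e).natAbs + (inn p q (lastE e u)).natAbs) (by omega)
      rw [pow_zero, mul_one] at h6
      refine mul_le_mul h6 ?_ (mul_nonneg g0 p0) (by positivity)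
      calc _ ≤ 1 * pw 0 p q e u := mul_le_mul_of_nonneg_right g1 p0
        _ ≤ _ := by rw [one_mul]; exact h5

/-- the two canonical decorations of a shape -/
def vv (p q : ℕ) (x : Up Unit × Bool) : List Edge :=
  if x.2 then flatA (decA (nxt p q) 1 x.1) else flatA (decA (nneg p q) (-1) x.1)

def sn (b : Bool) : ℤ := if b then 1 else -1

theorem sn_cases (b : Bool) : sn b = 1 ∨ sn b = -1 := by cases b <;> simp [sn]

theorem vv_spec (h3 : MbStmt) {p q : ℕ} (hp : 1 ≤ p) (hpq : p < q) (x : Up Unit × Bool) :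
    (vv p q x).map Prod.fst = (flatA x.1).map Prod.fst ∧
      ∀ e u, vv p q x = e :: u → e.2 = sn x.2 ∧ (lastE e u).2 = sn x.2 := by
  obtain ⟨γ, b⟩ := x
  cases b
  · exact (h3 p q hp hpq γ).1 (nneg p q) (-1)
  · exact (h3 p q hp hpq γ).1 (nxt p q) 1

theorem vv_inj (h3 : MbStmt) (h5 : ParseStmt) {p q : ℕ} (hp : 1 ≤ p) (hpq : p < q)
    {x y : Up Unit × Bool} {e : Edge} {u u' : List Edge} (hx : vv p q x = e :: u)
    (hy : vv p q y = e :: u') (h : u.map Prod.fst = u'.map Prod.fst) : x = y := by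
  obtain ⟨a1, a2⟩ := vv_spec h3 hp hpq x
  obtain ⟨b1, b2⟩ := vv_spec h3 hp hpq y
  refine Prod.ext (h5.2 Unit _ _ ?_) ?_
  · refine List.map_injective_iff.2 (fun a b k => Prod.ext k rfl) ?_
    rw [← a1, ← b1, hx, hy, List.map_cons, List.map_cons, h]
  · have := ((a2 e u hx).1).symm.trans (b2 e u' hy).1
    revert this
    cases x.2 <;> cases y.2 <;> simp [sn]

theorem small (c η : ℝ) (hη : 0 < η) {x : ℝ} (h0 : 0 ≤ x) (h1 : x < 1) (k0 : ℕ) :
    ∃ k, k0 ≤ k ∧ c * x ^ k ≤ η := by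
  have h := (tendsto_pow_atTop_nhds_zero_of_lt_one h0 h1).const_mul c
  rw [mul_zero] at h
  obtain ⟨k, h2, h3⟩ := ((Filter.eventually_ge_atTop k0).and
    (h.eventually (eventually_le_nhds hη))).exists
  exact ⟨k, h2, h3⟩

theorem num {l ε η : ℝ} (h0 : 0 < η) (h1 : η ≤ 1 / 10) (h2 : 3000 * η ≤ ε) (l0 : 1 / 5 ≤ l)
    (l1 : l ≤ 1000) : 2 / 3 * l - ε ≤ (1 - η) * (1 - η) * ((1 - η) / 3 * (2 * l - 2 * η)) := by
  have h3 : 1 - 3 * η ≤ (1 - η) * (1 - η) * (1 - η) := by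
    nlinarith [mul_nonneg (mul_nonneg h0.le h0.le) (show 0 ≤ 3 - η by linarith)]
  have h4 := mul_le_mul_of_nonneg_right h3 (show 0 ≤ l - η by linarith)
  nlinarith [mul_nonneg h0.le (show 0 ≤ 1000 - l by linarith), mul_nonneg h0.le h0.le]

end Finu

open Finu in
theorem finu_of (h1 : LocStmt) (h2 : BlkStmt) (h3 : MbStmt) (h4 : MtailStmt) (h5 : ParseStmt) :
    FinuStmt := by
  intro ε hε
  obtain ⟨η, η0, η1, η2⟩ : ∃ η : ℝ, 0 < η ∧ η ≤ 1 / 10 ∧ 3000 * η ≤ ε :=
    ⟨min (1 / 10) (ε / 3000), by positivity, min_le_left _ _, by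
      have := min_le_right (1 / 10) (ε / 3000)
      linarith⟩
  obtain ⟨S, p1, δ0, -, hS⟩ := h4.2 η η0
  obtain ⟨L, hL⟩ : ∃ L : ℕ, ∀ γ ∈ S, (flatA γ).length ≤ L :=
    ⟨S.sup fun γ => (flatA γ).length, fun γ h => le_sup (f := fun γ => (flatA γ).length) h⟩
  obtain ⟨D, -, hD⟩ := small (2 * S.card * 60) η η0 (x := 3 / 5) (by norm_num) (by norm_num) 0
  obtain ⟨L0, hL0⟩ := exists_nat_ge ((L + 1 : ℝ) / η)
  rw [div_le_iff₀ η0] at hL0
  have L0n : (0 : ℝ) ≤ L0 := Nat.cast_nonneg L0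
  have Ln : (0 : ℝ) ≤ L := Nat.cast_nonneg L
  have hLL : L + 1 ≤ L0 := by
    have : (L + 1 : ℝ) ≤ L0 := by nlinarith
    exact_mod_cast this
  obtain ⟨k0, hk0⟩ := h1 η η0 L D
  obtain ⟨k, hk1, hk2⟩ := small (L0 * 2) η η0 (x := 1 / 3) (by norm_num) (by norm_num) (k0 + 1)
  obtain ⟨p2, hp2⟩ := hk0 k (by omega)
  refine ⟨L0, p1 + p2 + k, by omega, fun p q hp hpq a => ?_⟩
  have hp1 : 1 ≤ p := by omega
  obtain ⟨l0, l1⟩ := h4.1 p q hp1 hpq
  set T := (S ×ˢ (univ : Finset Bool)).filter fun x => good p q D (vv p q x) with hT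
  have len : ∀ x ∈ T, (vv p q x).length ≤ L := fun x hx => by
    have := congrArg List.length (vv_spec h3 hp1 hpq x).1
    rw [List.length_map, List.length_map] at this
    rw [this]
    exact hL _ (mem_product.1 (mem_filter.1 hx).1).1
  have blk := h2 p q k L L0 (by omega) (by omega) hpq (by omega) (T.image (vv p q))
    (fun v hv => by
      obtain ⟨x, hx, rfl⟩ := mem_image.1 hv
      obtain ⟨e, u, e1, -⟩ := (mem_filter.1 hx).2
      refine ⟨len x hx, e, u, e1, ?_⟩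
      rw [((vv_spec h3 hp1 hpq x).2 e u e1).1]
      exact sn_cases _)
    (fun e u e' u' hu hu' e1 e2 => by
      obtain ⟨x, -, hx⟩ := mem_image.1 hu
      obtain ⟨y, -, hy⟩ := mem_image.1 hu'
      subst e1
      have := vv_inj h3 h5 hp1 hpq hx hy e2
      subst this
      exact (List.cons.inj (hx.symm.trans hy)).2) a
  rw [sum_image fun x hx y _ e => by
    obtain ⟨e', u, e1, -⟩ := (mem_filter.1 hx).2
    exact vv_inj h3 h5 hp1 hpq e1 (e ▸ e1) rfl] at blk
  have pn : (0 : ℝ) ≤ p := Nat.cast_nonneg p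
  have w0 : (0 : ℝ) < (1 / 3) ^ p := by positivity
  have hm := mu_pos (D : ℤ)
  have s1 : ∑ x ∈ S ×ˢ (univ : Finset Bool), core 0 p q (vv p q x) =
      2 / 3 * (1 / 3) ^ p * ∑ γ ∈ S, MW 0 p q (Gm 0 p q) γ := by
    rw [sum_product, mul_sum]
    refine sum_congr rfl fun γ _ => ?_
    rw [Fintype.sum_bool]
    exact (h3 p q hp1 hpq γ).2 0 le_rfl (by norm_num)
  have s2 : ∑ x ∈ S ×ˢ (univ : Finset Bool), (core 0 p q (vv p q x) - (1 / 3) ^ p * mu D) ≤
      ∑ x ∈ T, core 0 p q (vv p q x) := by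
    rw [hT, sum_filter]
    refine sum_le_sum fun x _ => ?_
    split_ifs with h
    · linarith [mul_pos w0 hm]
    · linarith [core_bad hpq (sn_cases x.2) (vv_spec h3 hp1 hpq x).2 h]
  have s3 : (1 / 3) ^ p * (2 * lead p q - 2 * η) ≤ ∑ x ∈ T, core 0 p q (vv p q x) := by
    refine le_trans ?_ s2
    rw [sum_sub_distrib, s1, sum_const, card_product, card_univ, Fintype.card_bool, nsmul_eq_mul]
    have a1 := (hS p q (by omega) hpq).1
    have a2 := mu_le_exp (D : ℤ)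
    rw [Int.natAbs_natCast] at a2
    have a3 : (2 * S.card : ℝ) * mu D ≤ η :=
      (mul_le_mul_of_nonneg_left a2 (by positivity)).trans (by linarith)
    push_cast
    nlinarith [mul_le_mul_of_nonneg_left a1 w0.le, mul_le_mul_of_nonneg_left a3 w0.le,
      mul_pos w0 η0]
  have s4 : (1 - η) * (p / 3) * ((1 / 3) ^ p * (2 * lead p q - 2 * η)) ≤
      ∑ x ∈ T, Loc p q k (vv p q x) := by
    refine (mul_le_mul_of_nonneg_left s3
      (mul_nonneg (by linarith) (by positivity))).trans ?_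
    rw [mul_sum]
    refine sum_le_sum fun x hx => ?_
    obtain ⟨e, u, e1, g1, g2, g3⟩ := (mem_filter.1 hx).2
    obtain ⟨a1, a2⟩ := (vv_spec h3 hp1 hpq x).2 e u e1
    have a3 := len x hx
    rw [e1] at a3 ⊢
    exact hp2 p q (by omega) hpq e u (by rw [a1]; exact sn_cases _) (a2.trans a1.symm)
      (by simp at a3; omega) g1 g2 g3
  have b1 : 1 - η ≤ (1 - 2 * (1 / 3 : ℝ) ^ k) ^ L0 := by
    have t1 : (1 / 3 : ℝ) ^ k ≤ 1 := pow_le_one₀ (by norm_num) (by norm_num)
    have := one_add_mul_le_pow (a := -(2 * (1 / 3 : ℝ) ^ k)) (by linarith) L0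
    rw [← sub_eq_add_neg] at this
    linarith
  have b2 : (L0 : ℝ) * (1 - η) ≤ L0 - L := by linarith
  have b3 : (L0 : ℝ) * (1 - η) * (1 - η) ≤ ((L0 : ℝ) - L) * (1 - 2 * (1 / 3) ^ k) ^ L0 :=
    mul_le_mul b2 b1 (by linarith) (by nlinarith)
  have b4 : 0 ≤ (1 - η) * (p / 3) * ((1 / 3) ^ p * (2 * lead p q - 2 * η)) :=
    mul_nonneg (mul_nonneg (by linarith) (by positivity)) (mul_nonneg w0.le (by linarith))
  have b5 : 0 ≤ (L0 : ℝ) * (1 - η) * (1 - η) :=
    mul_nonneg (mul_nonneg L0n (by linarith)) (by linarith)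
  refine le_trans ?_ ((mul_le_mul b3 s4 b4 (b5.trans b3)).trans blk)
  have b6 := mul_le_mul_of_nonneg_right (num η0 η1 η2 l0 l1)
    (show (0 : ℝ) ≤ p * (1 / 3) ^ p * L0 by positivity)
  calc _ = (2 / 3 * lead p q - ε) * (p * (1 / 3) ^ p * L0) := by ring
    _ ≤ _ := b6
    _ = _ := by ring

end Pool.Agent.MP_e0ec03_al.Asy
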