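import Mathlib.Analysis.Real.Sqrt
import Pool.Agent.MP_e0ec03_al.Defs

namespace Pool.Agent.MP_e0ec03_al.Asy

/-- `mu d = (|d| + 2) / 3 ^ (|d| / 2)`. -/
noncomputable def mu (d : ℤ) : ℝ := ((d.natAbs : ℝ) + 2) / √3 ^ d.natAbs

/-- The balanced residue of `q c` modulo `p`. -/
def dig (p q : ℕ) (c : ℤ) : ℤ := Int.bmod (q * c) p

/-- The next carry: `q c - dig` divided by `p`. -/
def nxt (p q : ℕ) (c : ℤ) : ℤ := (q * c - dig p q c) / p

/-- The continued fraction of depth `h` along the digits of the carry `c`. -/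
noncomputable def cf (p q : ℕ) : ℕ → ℤ → ℝ
  | 0, _ => 0
  | h + 1, c => (1 + mu (dig p q c) ^ 2 * (cf p q h (nxt p q c) / (1 - cf p q h (nxt p q c)))) / 9

/-- An explicit rational function of three real numbers. -/
noncomputable def ends (x τ m : ℝ) : ℝ :=
  (1 + (τ * (1 - x) + x * m) / (3 * (1 - x) - m)) ^ 2 / (1 - x) - 1

/-- The leading constant `C(p,q)`. -/
noncomputable def lead (p q : ℕ) : ℝ :=
  (1 + √3 / 2) * ends (cf p q p 1) (1 / √3 ^ (q - p)) (mu ((q : ℤ) - p)) +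
    (1 - √3 / 2) * ends (cf p q p 1) ((-1) ^ (q - p) / √3 ^ (q - p))
      ((-1) ^ (q - p) * mu ((q : ℤ) - p))

end Pool.Agent.MP_e0ec03_al.Asy
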