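import Mathlib.Algebra.Order.Star.Real
import Pool.Agent.MP_e0ec03_al.Gen
import Pool.Agent.MP_e0ec03_al.asy.Defs

-- ======== part 0: formerly Pool.Agent.MP_e0ec03_al.asy.Spec
section MrgPart0

/-! Definitions and row statements for THEOREM ASY (blueprint: ASY_BLUEPRINT.md). -/

namespace Pool.Agent.MP_e0ec03_al.Asy

open Classical Finset
open scoped ENNReal

noncomputable section

/-! ## Words, carries -/

/-- An edge: the letter (`true` is `t`, `false` is `t⁻¹`) and the carry across it. -/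
abbrev Edge := Bool × ℤ

def inn (p q : ℕ) (a : Edge) : ℤ := if a.1 then p * a.2 else q * a.2

def out (p q : ℕ) (b : Edge) : ℤ := if b.1 then q * b.2 else p * b.2

/-- changes of the exponents of `a` caused by a list of carries -/
def dl (p q : ℕ) : Edge → List Edge → List ℤ
  | _, [] => []
  | a, b :: l => (inn p q a - out p q b) :: dl p q b l

def lastE {α : Type} : α → List α → α
  | a, [] => a
  | _, b :: l => lastE b l

def delta : List ℤ → List ℤ → ℤ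
  | x :: xs, d :: ds => |x + d| - |x| + delta xs ds
  | _, _ => 0

def lexneg : List ℤ → Prop
  | [] => False
  | d :: l => d < 0 ∨ (d = 0 ∧ lexneg l)

def win (xs ds : List ℤ) : Prop := delta xs ds < 0 ∨ (delta xs ds = 0 ∧ lexneg ds)

def Lat (p q : ℕ) (a : Bool) (es : List Bool) (ds : List ℤ) : Prop :=
  ∃ v : List Edge, v.map Prod.fst = es ∧ (lastE (a, (0 : ℤ)) v).2 = 0 ∧ ds = dl p q (a, 0) v

def Av (p q : ℕ) (a : Bool) (l : List (ℤ × Bool)) : Prop :=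
  ∀ ds, Lat p q a (l.map Prod.snd) ds → ¬ win (l.map Prod.fst) ds

def lists {α : Type} (s : Finset α) : ℕ → Finset (List α)
  | 0 => {[]}
  | n + 1 => (s ×ˢ lists s n).image (fun x => x.1 :: x.2)

def words (K n : ℕ) : Finset (List (ℤ × Bool)) := lists (Ioo (-(K : ℤ)) K ×ˢ univ) n

def Ok : Bool → List (ℤ × Bool) → Prop
  | _, [] => True
  | a, s :: l => ¬ (s.1 = 0 ∧ a ≠ s.2) ∧ Ok s.2 l

def wl : List (ℤ × Bool) → ℕ
  | [] => 0
  | s :: l => s.1.natAbs + 1 + wl l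

def wt (z : ℝ) : Bool → List (ℤ × Bool) → ℝ
  | _, [] => 1
  | a, s :: l => (if s.1 = 0 ∧ a ≠ s.2 then 0 else z ^ (s.1.natAbs + 1)) * wt z s.2 l

def Zav (p q K : ℕ) (z : ℝ) (n : ℕ) (a : Bool) : ℝ :=
  ∑ l ∈ words K n, if Av p q a l then wt z a l else 0

def Zbad (p q n : ℕ) (a : Bool) : ℝ :=
  ∑ l ∈ words p n, if Av p q a l then 0 else wt (1 / 3) a l

def tl (p q : ℕ) (e : Bool) : PresentedGroup (rels p q) := if e then gT p q else (gT p q)⁻¹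

def evw (p q : ℕ) : List (ℤ × Bool) → PresentedGroup (rels p q)
  | [] => 1
  | s :: l => gA p q ^ s.1 * tl p q s.2 * evw p q l

def Rate (p q : ℕ) (ω : ℝ) : Prop :=
  1 ≤ ω ∧ (∀ n : ℕ, ω ^ n ≤ (ball p q n).ncard) ∧
    ∀ x : ℝ, 0 ≤ x → x * ω < 1 → Summable (fun n : ℕ => ((ball p q n).ncard : ℝ) * x ^ n)

/-- ROW GINJ -/
def GinjStmt : Prop := ∀ p q : ℕ, 1 ≤ p → p < q → ∀ (n : ℕ) (a a' : Bool) (l l' : List (ℤ × Bool)),
  l ∈ words p n → l' ∈ words p n → Ok a l → Ok a' l' → Av p q a l → Av p q a' l' →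
  tl p q a * evw p q l = tl p q a' * evw p q l' → a = a' ∧ l = l'

/-- ROW GCAN -/
def GcanStmt : Prop := ∀ p q : ℕ, 1 ≤ p → p < q → ∀ (N : ℕ) (z : ℝ), 0 < z → z ≤ 1 / 2 →
  ((ball p q N).ncard : ℝ) * z ^ N ≤
    3 + 9 * ∑ a : Bool, ∑ n ∈ range (N + 1), Zav p q (N + 1) z n a

/-- ROW UP -/
def UpStmt : Prop := ∀ η : ℝ, 0 < η → ∀ L0 : ℕ, 1 ≤ L0 → ∃ b0 : ℝ, 0 < b0 ∧
  ∀ p q : ℕ, 1 ≤ p → p < q → ∀ ω b : ℝ, Rate p q ω → 0 < b → b ≤ b0 →
    (∀ a, b * L0 ≤ Zbad p q L0 a) → (3 / 2 - η) * b ≤ 3 - ω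

/-- ROW LOW -/
def LowStmt : Prop := ∀ η : ℝ, 0 < η → ∃ θ0 : ℝ, 0 < θ0 ∧
  ∀ p q : ℕ, 1 ≤ p → p < q → ∀ ω θ : ℝ, Rate p q ω → 0 ≤ θ → θ ≤ θ0 →
    (∀ n : ℕ, Real.exp (-(θ * n)) ≤ ∑ a : Bool, Zav p q p (1 / 3) n a) →
    3 - ω ≤ (3 / 2 + η) * θ

/-! ## The valley grammar -/

/-- forests of valleys -/
inductive Fo (M : Type) : Type
  | nil : Fo M
  | cons (c c' : M) (I R : Fo M) : Fo M

/-- descending part of a pattern -/
inductive Dn (M : Type) : Type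
  | fin (F : Fo M) : Dn M
  | step (F : Fo M) (c : M) (d : Dn M) : Dn M

/-- a pattern: ascending part, then descending part -/
inductive Up (M : Type) : Type
  | top (d : Dn M) : Up M
  | step (F : Fo M) (c : M) (r : Up M) : Up M

def flatF {M : Type} : Fo M → List (Bool × M)
  | .nil => []
  | .cons c c' I R => (false, c) :: (flatF I ++ (true, c') :: flatF R)

def flatD {M : Type} : Dn M → List (Bool × M)
  | .fin F => flatF F
  | .step F c d => flatF F ++ (false, c) :: flatD d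

def flatA {M : Type} : Up M → List (Bool × M)
  | .top d => flatD d
  | .step F c r => flatF F ++ (true, c) :: flatA r

def shF : Fo ℤ → Fo Unit
  | .nil => .nil
  | .cons _ _ I R => .cons () () (shF I) (shF R)

def shD : Dn ℤ → Dn Unit
  | .fin F => .fin (shF F)
  | .step F _ d => .step (shF F) () (shD d)

def shA : Up ℤ → Up Unit
  | .top d => .top (shD d)
  | .step F _ r => .step (shF F) () (shA r)

/-- canonical carries: `c` on the top level, `nx c` one level below, and so on -/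
def decF (nx : ℤ → ℤ) : ℤ → Fo Unit → Fo ℤ
  | _, .nil => .nil
  | c, .cons _ _ I R => .cons c c (decF nx (nx c) I) (decF nx c R)

def decD (nx : ℤ → ℤ) (s : ℤ) : Dn Unit → Dn ℤ
  | .fin F => .fin (decF nx s F)
  | .step F _ d => .step (decF nx s F) s (decD nx s d)

def decA (nx : ℤ → ℤ) (s : ℤ) : Up Unit → Up ℤ
  | .top d => .top (decD nx s d)
  | .step F _ r => .step (decF nx s F) s (decA nx s r)

def dep {M : Type} : Fo M → ℕ
  | .nil => 0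
  | .cons _ _ I R => max (dep I + 1) (dep R)

def ht {M : Type} : Fo M → ℕ
  | .nil => 0
  | .cons _ _ I R => max (ht I) (ht R) + 1

def pn (p q : ℕ) (c : ℤ) : ℤ := q * c / p

def Free (p q : ℕ) : ℕ → ℤ → Prop
  | 0, _ => True
  | h + 1, c => (p : ℤ) ∣ q * c ∧ Free p q h (pn p q c)

def NRtop (p q : ℕ) (c c' : ℤ) (I : Fo ℤ) : Prop :=
  c = c' → Free p q (dep I) c → I = decF (pn p q) (pn p q c) (shF I)

def NRF (p q : ℕ) : Fo ℤ → Prop
  | .nil => True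
  | .cons c c' I R => c ≠ 0 ∧ c' ≠ 0 ∧ NRtop p q c c' I ∧ NRF p q I ∧ NRF p q R

def NRD (p q : ℕ) : Dn ℤ → Prop
  | .fin F => NRF p q F
  | .step F c d => NRF p q F ∧ c ≠ 0 ∧ NRD p q d

def NRA (p q : ℕ) : Up ℤ → Prop
  | .top d => NRD p q d
  | .step F c r => NRF p q F ∧ c ≠ 0 ∧ NRA p q r

def Pat (p q : ℕ) (γ : Up ℤ) : Prop := NRA p q γ ∧ flatA γ ≠ []

def vec (es : List Bool) (i : ℕ) (u : List Edge) : List Edge :=
  (es.take i).map (fun e => (e, (0 : ℤ))) ++ u ++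
    (es.drop (i + u.length)).map (fun e => (e, (0 : ℤ)))

def Fits (es : List Bool) (i : ℕ) (u : List Edge) : Prop :=
  i + u.length < es.length ∧ (vec es i u).map Prod.fst = es

def Good (p q : ℕ) (a : Bool) (l : List (ℤ × Bool)) : Prop :=
  ∀ (γ : Up ℤ) (i : ℕ), Pat p q γ → Fits (l.map Prod.snd) i (flatA γ) →
    ¬ win (l.map Prod.fst) (dl p q (a, 0) (vec (l.map Prod.snd) i (flatA γ)))

/-- ROW PARSE -/
def ParseStmt : Prop :=
  (∀ (M : Type) (v : List (Bool × M)), ∃ γ : Up M, flatA γ = v) ∧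
    ∀ (M : Type) (γ γ' : Up M), flatA γ = flatA γ' → γ = γ'

/-- ROW DEC -/
def DecStmt : Prop := ∀ p q : ℕ, 1 ≤ p → p < q → ∀ (a : Bool) (l : List (ℤ × Bool)),
  Good p q a l → Av p q a l

/-! ## The probabilistic part -/

/-- law of the size of an exponent, given its sign (the value `p` carries the whole tail) -/
def law (p : ℕ) (a b : Bool) (m : ℕ) : ℝ :=
  if a = b then (if m = 0 then 1 / 2 else if m < p then (1 / 3) ^ m else 3 / 2 * (1 / 3) ^ p)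
  else (if m = 0 then 0 else if m < p then 2 * (1 / 3) ^ m else 3 * (1 / 3) ^ p)

def sg (σ : Bool) (m : ℕ) : ℤ := if σ then m else -m

/-- expectation over the sizes, given letters and signs -/
def EM (p : ℕ) : Bool → List (Bool × Bool) → (List ℤ → ℝ) → ℝ
  | _, [], f => f []
  | a, e :: l, f => ∑ m ∈ range (p + 1), law p a e.1 m * EM p e.1 l (fun xs => f (sg e.2 m :: xs))

def kk (δ : ℝ) (a b : Bool) : ℝ := (if a = b then 2 / 3 else 1 / 3) + (if b then δ else -δ)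

def st0 (δ : ℝ) (a : Bool) : ℝ := 1 / 2 + (if a then 3 / 2 * δ else -(3 / 2 * δ))

/-- expectation over letters (chain with drift `δ`) and signs -/
def NE (δ : ℝ) : ℕ → Bool → (List (Bool × Bool) → ℝ) → ℝ
  | 0, _, F => F []
  | n + 1, a, F => ∑ e : Bool × Bool, kk δ a e.1 / 2 * NE δ n e.1 (fun l => F (e :: l))

def PW (p : ℕ) (a : Bool) (e : List (Bool × Bool)) (ds : List ℤ) : ℝ :=
  EM p a e (fun xs => if win xs ds then 1 else 0)

def nz (ds : List ℤ) : ℕ := ds.countP (fun d => decide (d ≠ 0))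

def locW (δ : ℝ) (p q : ℕ) (u : List Edge) (g : ℝ → ℝ) : ℝ :=
  ∑ a : Bool, ∑ b : Bool, st0 δ a * NE δ (u.length + 1) a (fun e =>
    if e.map Prod.fst = u.map Prod.fst ++ [b] then g (PW p a e (dl p q (a, 0) (u ++ [(b, 0)])))
    else 0)

def nzu (p q : ℕ) (u : List Edge) : ℕ := nz (dl p q (true, 0) (u ++ [(true, 0)]))

def hW (δ : ℝ) (p q : ℕ) (u : List Edge) : ℝ :=
  locW δ p q u (fun P => P + 3 * nzu p q u * P ^ 2)

def ps (a b : Bool) (d : ℤ) : ℝ := if a = b then mu d / 2 else if d = 0 then 1 else mu d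

def vtx (δ : ℝ) (p q : ℕ) (a b : Edge) : ℝ := kk δ a.1 b.1 * ps a.1 b.1 (inn p q a - out p q b)

def pw (δ : ℝ) (p q : ℕ) : Edge → List Edge → ℝ
  | _, [] => 1
  | a, b :: l => vtx δ p q a b * pw δ p q b l

def ChW (δ : ℝ) (p q : ℕ) (u : List Edge) : ℝ :=
  ∑ a : Bool, ∑ b : Bool, st0 δ a * pw δ p q (a, 0) (u ++ [(b, 0)])

def mS (p : ℕ) (a b σ : Bool) (d : ℤ) : ℝ :=
  ∑ m ∈ range (p + 1), law p a b m * (1 / √3) ^ (|sg σ m + d| - |sg σ m|)

def gs (s k : ℤ) : ℝ := if Even k then (if s = 1 then 1 else 1 / 3) else 1 / √3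

def core (δ : ℝ) (p q : ℕ) : List Edge → ℝ
  | [] => 0
  | e :: u => (1 / √3) ^ ((out p q e).natAbs + (inn p q (lastE e u)).natAbs) *
      gs e.2 (out p q e + inn p q (lastE e u) + (dl p q e u).sum) * pw δ p q e u

/-- ROW HAR -/
def HarStmt : Prop := ∀ p q : ℕ, 3 ≤ p → p < q →
  ∀ (a : Bool) (e : List (Bool × Bool)) (ι : Type) (s : Finset ι) (D : ι → List ℤ),
    (∀ i ∈ s, Lat p q a (e.map Prod.fst) (D i)) →
    Real.exp (-(6 * (1 / 3) ^ p * e.length +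
        ∑ i ∈ s, (PW p a e (D i) + 3 * nz (D i) * PW p a e (D i) ^ 2))) ≤
      EM p a e (fun xs => if (∀ x ∈ xs, |x| < p) ∧ ∀ i ∈ s, ¬ win xs (D i) then 1 else 0)

/-- ROW JEN, first part -/
def BrStmt : Prop := ∀ p : ℕ, 1 ≤ p → ∀ (n : ℕ) (a : Bool) (f : List (ℤ × Bool) → ℝ),
  ∑ l ∈ words p n, wt (1 / 3) a l * f l =
    NE 0 n a (fun e => EM p a e (fun xs =>
      if ∀ x ∈ xs, |x| < p then f (xs.zip (e.map Prod.fst)) else 0))

/-- ROW JEN, second part -/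
def JenStmt : Prop := ∀ δ : ℝ, 0 ≤ δ → δ ≤ 1 / 6 →
  ∀ (n : ℕ) (F H : Bool → List (Bool × Bool) → ℝ),
    (∀ a e, e.length = n → Real.exp (-H a e) ≤ F a e) →
    Real.exp (-(5 * δ ^ 2 * n + ∑ a : Bool, st0 δ a * NE δ n a (H a))) ≤
      ∑ a : Bool, NE 0 n a (F a)

/-- ROW PLC -/
def PlcStmt : Prop :=
  (∀ (δ : ℝ) (p q : ℕ), 1 ≤ p → ∀ (n i : ℕ) (u : List Edge) (g : ℝ → ℝ), i + u.length < n →
    ∑ a : Bool, st0 δ a * NE δ n a (fun e => if Fits (e.map Prod.fst) i u then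
      g (PW p a e (dl p q (a, 0) (vec (e.map Prod.fst) i u))) else 0) = locW δ p q u g) ∧
  ∀ (p q : ℕ) (a : Bool) (es : List Bool) (i : ℕ) (u : List Edge), Fits es i u →
    nz (dl p q (a, 0) (vec es i u)) = nzu p q u ∧ Lat p q a es (dl p q (a, 0) (vec es i u))

/-- ROW LOWZ -/
def LowzStmt : Prop := ∀ (δ : ℝ) (p q : ℕ) (Λ : ℝ), 0 ≤ δ → δ ≤ 1 / 6 → 3 ≤ p → p < q →
  (∀ s : Finset (Up ℤ), (∀ γ ∈ s, Pat p q γ) → ∑ γ ∈ s, hW δ p q (flatA γ) ≤ Λ) →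
  ∀ n : ℕ, Real.exp (-((5 * δ ^ 2 + 6 * (1 / 3) ^ p + Λ) * n)) ≤
    ∑ a : Bool, Zav p q p (1 / 3) n a

/-- ROW VTX -/
def VtxStmt : Prop :=
  (∀ p : ℕ, 1 ≤ p → ∀ (a b : Bool) (d : ℤ),
    (mS p a b true d + mS p a b false d) / 2 ≤ ps a b d) ∧
  ∃ p0 : ℕ, ∀ p : ℕ, p0 ≤ p → ∀ (a b : Bool) (d : ℤ),
    (d ≠ 0 → (a ≠ b → (p : ℤ) ≤ |d|) →
      103 / 100 * ((mS p a b true d ^ 2 + mS p a b false d ^ 2) / 2) ≤ ps a b d) ∧
    ((p : ℤ) ≤ |d| →
      103 * ((mS p a b true d ^ 2 + mS p a b false d ^ 2) / 2) ≤ (33 / 50) ^ p * ps a b d)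

/-- ROW CHE -/
def CheStmt : Prop := ∃ p0 : ℕ, ∀ p q : ℕ, p0 ≤ p → p < q → ∀ δ : ℝ, 0 ≤ δ → δ ≤ 1 / 3 →
  ∀ (e : Edge) (u : List Edge), e.2 ≠ 0 →
    locW δ p q (e :: u) id ≤ ChW δ p q (e :: u) ∧
    hW δ p q (e :: u) ≤ locW δ p q (e :: u) id + (33 / 50) ^ p * ChW δ p q (e :: u)

/-- ROW SHP -/
def ShpStmt : Prop := ∀ p q : ℕ, 1 ≤ p → p < q → ∀ δ : ℝ, 0 ≤ δ → δ ≤ 1 / 3 →
  ∀ (e : Edge) (u : List Edge), (e.2 = 1 ∨ e.2 = -1) → (lastE e u).2 = e.2 →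
    locW δ p q (e :: u) id ≤ ((p : ℝ) + 11) / 3 * (1 + 5 * δ) * core δ p q (e :: u)

/-! ## Arithmetic of the vertex weights -/

def sE (d : ℤ) : ℝ≥0∞ := ENNReal.ofReal (mu d / 2)

def tE (d : ℤ) : ℝ≥0∞ := ENNReal.ofReal (if d = 0 then 1 else mu d)

/-- bound `a` on the diagonal, bound `b` on the weighted rows off the diagonal -/
def Bd (X : ℤ → ℤ → ℝ≥0∞) (a b : ℝ≥0∞) : Prop :=
  ∀ u, X u u ≤ a ∧ ∑' v, (if v = u then 0 else 2 ^ (u - v).natAbs * X u v) ≤ b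

def Near (p q : ℕ) (nx : ℤ → ℤ) : Prop := ∀ c : ℤ, 2 * |(q : ℤ) * c - p * nx c| ≤ p

structure Ar1 (p q : ℕ) (T : ℝ≥0∞) : Prop where
  turn : ∀ m : ℕ, p ≤ m → Bd (fun u c => tE (m * u - m * c)) 1 T
  sq1 : ∀ c n : ℤ, 2 * |(q : ℤ) * c - p * n| ≤ p →
    ∑' c1 : ℤ, (if c1 = n then 0 else sE (q * c - p * c1) ^ 2) ≤ T
  sq2 : ∀ c n : ℤ, (q : ℤ) * c = p * n →
    ∑' c1 : ℤ, (if c1 = n then 0 else sE (q * c - p * c1) ^ 2) ≤ T ^ 2
  le1 : ∀ d, sE d ≤ 1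
  le34 : ∀ d, d ≠ 0 → sE d ^ 2 ≤ 3 / 4
  le9 : ∀ d, d ≠ 0 → sE d ≤ 9 / 10
  big : ∀ d : ℤ, (p : ℤ) ≤ |d| → sE d ≤ T
  end1 : ∀ (e b : Bool) (c : ℤ), c ≠ 0 →
    ENNReal.ofReal (ps e b (inn p q (e, c) - out p q (b, 0))) * 2 ^ c.natAbs ≤ T
  end2 : ∀ (e b : Bool) (c : ℤ), 2 ≤ |c| →
    ENNReal.ofReal (ps e b (inn p q (e, c) - out p q (b, 0))) * 2 ^ c.natAbs ≤ T ^ 2
  sta1 : ∀ a e : Bool, ∑' c : ℤ, (if c = 0 then 0 else
    ENNReal.ofReal (ps a e (inn p q (a, 0) - out p q (e, c))) * 2 ^ c.natAbs) ≤ T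
  sta2 : ∀ a e : Bool, ∑' c : ℤ, (if 2 ≤ |c| then
    ENNReal.ofReal (ps a e (inn p q (a, 0) - out p q (e, c))) * 2 ^ c.natAbs else 0) ≤ T ^ 2

/-- the sandwich of a kernel between a down-down and an up-up vertex -/
def sand (p q : ℕ) (Y : ℤ → ℤ → ℝ≥0∞) (c c' : ℤ) : ℝ≥0∞ :=
  ∑' c1 : ℤ, ∑' u : ℤ, sE (q * c - p * c1) * Y c1 u * sE (p * u - q * c')

def Ar2 (p q : ℕ) (T : ℝ≥0∞) : Prop := ∀ (Y : ℤ → ℤ → ℝ≥0∞) (a b : ℝ≥0∞), Bd Y a b → ∀ c : ℤ,
  sand p q Y c c ≤ ∑' c1 : ℤ, sE (q * c - p * c1) ^ 2 * Y c1 c1 + T * b ∧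
  ∑' c' : ℤ, (if c' = c then 0 else 2 ^ (c - c').natAbs * sand p q Y c c') ≤ T * a + 9 / 10 * b

structure Ar3 (p q : ℕ) (T : ℝ≥0∞) : Prop where
  up1 : ∀ u : ℤ, u ≠ 0 → ∑' c : ℤ, (if c = 0 then 0 else sE (p * u - q * c) * 2 ^ c.natAbs) ≤
    9 / 10 * 2 ^ u.natAbs
  up2 : ∀ s : ℤ, (s = 1 ∨ s = -1) →
    ∑' c : ℤ, (if c = 0 ∨ c = s then 0 else sE (p * s - q * c) * 2 ^ c.natAbs) ≤ T
  dn1 : ∀ c : ℤ, c ≠ 0 →
    ∑' c1 : ℤ, (if c1 = 0 then 0 else sE (q * c - p * c1) * 2⁻¹ ^ c1.natAbs) ≤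
      9 / 10 * 2⁻¹ ^ c.natAbs
  dn2 : ∀ c s : ℤ, 2 ≤ |c| → (s = 1 ∨ s = -1) → sE (q * c - p * s) * 2 ^ c.natAbs ≤ T

/-- ROW AR1 -/
def Ar1Stmt : Prop :=
  ∃ p0 : ℕ, ∀ p q : ℕ, p0 ≤ p → p < q → Ar1 p q (ENNReal.ofReal ((33 / 50) ^ p))

/-- ROW AR2 -/
def Ar2Stmt : Prop :=
  ∃ p0 : ℕ, ∀ p q : ℕ, p0 ≤ p → p < q → Ar2 p q (ENNReal.ofReal ((33 / 50) ^ p))

/-- ROW AR3 -/
def Ar3Stmt : Prop :=
  ∃ p0 : ℕ, ∀ p q : ℕ, p0 ≤ p → p < q → Ar3 p q (ENNReal.ofReal ((33 / 50) ^ p))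

/-! ## Valley kernels -/

def vE (δ : ℝ) (p q : ℕ) (a b : Edge) : ℝ≥0∞ := ENNReal.ofReal (vtx δ p q a b)

def pE (δ : ℝ) (p q : ℕ) (a : Edge) (v : List Edge) : ℝ≥0∞ := ENNReal.ofReal (pw δ p q a v)

/-- inside of one valley -/
def KK (δ : ℝ) (p q : ℕ) (P : Fo ℤ → Prop) (c c' : ℤ) : ℝ≥0∞ :=
  ∑' I : Fo ℤ, if P I then pE δ p q (false, c) (flatF I ++ [(true, c')]) else 0

/-- a chain of valleys after an up edge -/
def CH (δ : ℝ) (p q : ℕ) (P : Fo ℤ → Prop) (u u' : ℤ) : ℝ≥0∞ :=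
  ∑' R : Fo ℤ, if P R ∧ lastE (true, u) (flatF R) = (true, u') then
    pE δ p q (true, u) (flatF R) else 0

/-- a nonempty chain of valleys, after its first edge -/
def YY (δ : ℝ) (p q : ℕ) (P : Fo ℤ → Prop) (c u : ℤ) : ℝ≥0∞ :=
  ∑' x : ℤ × Fo ℤ × Fo ℤ,
    if P (.cons c x.1 x.2.1 x.2.2) ∧ lastE (true, x.1) (flatF x.2.2) = (true, u) then
      pE δ p q (false, c) (flatF x.2.1 ++ [(true, x.1)]) * pE δ p q (true, x.1) (flatF x.2.2)
    else 0

/-- all valleys of the top level have both carries equal to `c` -/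
def Top (c : ℤ) : Fo ℤ → Prop
  | .nil => True
  | .cons c1 c2 _ R => c1 = c ∧ c2 = c ∧ Top c R

def Lv (p q J i : ℕ) (c : ℤ) : Prop := i ≤ J → ¬ Free p q i c

/-- The inequalities closing the induction (`al1 = 1/3 - δ`, `al2 = 1/3 + δ`, `ga = 4/9 - δ^2`). -/
structure Num (al1 al2 ga T : ℝ≥0∞) (J : ℕ) (a b ρ t : ℕ → ℝ≥0∞) (n0 nJ P : ℝ≥0∞) : Prop where
  hJ : 1 ≤ J
  hT : T ≤ 1 / 4
  k0 : ∀ i, i ≤ J + 1 → al2 + ga * ((3 / 4 + T) * a 0 + T * b 0) ≤ ρ i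
  k1 : ∀ i, i + 1 ≤ J → al2 + ga * (t i + n0 + T ^ 2 * a 0 + T * b 0) ≤ ρ (i + 1)
  k2 : al2 + ga * (t (J + 1) + nJ + T ^ 2 * a J + T * b J) ≤ ρ (J + 1)
  k3 : ρ J ≤ ρ (J + 1)
  p0 : al2 * T + ga * (T * a 0 + 9 / 10 * b 0) ≤ P
  t0 : ∀ i, i ≤ J + 1 → ρ i * (1 + al1 * t i) ≤ t i
  a0 : ρ (J + 1) * (1 + al1 * (a 0 + T * b 0)) + P * (al1 * (b 0 + T * a 0 + T * b 0)) ≤ a 0
  b0 : ρ (J + 1) * (al1 * (b 0 + T * a 0 + T * b 0)) + P * (1 + al1 * (a 0 + T * b 0)) +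
    P * (al1 * (b 0 + T * a 0 + T * b 0)) ≤ b 0
  aj : ∀ j, j + 1 ≤ J → ∃ H, 1 + al1 * (a 0 + T * b 0) = al1 * (a (j + 1) + T * b (j + 1)) + H ∧
    ga * ((1 + T ^ 2) * a j + T * b j) * H + ρ (J + 1) * (al1 * (a (j + 1) + T * b (j + 1))) +
      ga * (T * a j + 9 / 10 * b j) * (al1 * (b 0 + T * a 0 + T * b 0)) +
      P * (al1 * (b (j + 1) + T * a (j + 1) + T * b (j + 1))) ≤ a (j + 1)
  bj : ∀ j, j + 1 ≤ J →
    ga * ((1 + T ^ 2) * a j + T * b j) * (al1 * (b 0 + T * a 0 + T * b 0)) +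
      ga * (T * a j + 9 / 10 * b j) * (1 + al1 * (a 0 + T * b 0)) +
      ga * (T * a j + 9 / 10 * b j) * (al1 * (b 0 + T * a 0 + T * b 0)) +
      ρ (J + 1) * (al1 * (b (j + 1) + T * a (j + 1) + T * b (j + 1))) +
      P * (al1 * (a (j + 1) + T * b (j + 1))) +
      P * (al1 * (b (j + 1) + T * a (j + 1) + T * b (j + 1))) ≤ b (j + 1)
  m0 : ρ (J + 1) * (al1 * (n0 + T * b 0)) + P * (al1 * (b 0 + T * a 0 + T * b 0)) ≤ n0
  mJ : ∀ j, j + 1 = J →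
    ga * ((1 + T ^ 2) * a j + T * b j) * (al1 * (n0 + T * b 0)) +
      ρ (J + 1) * (al1 * (nJ + T * b J)) +
      ga * (T * a j + 9 / 10 * b j) * (al1 * (b 0 + T * a 0 + T * b 0)) +
      P * (al1 * (b J + T * a J + T * b J)) ≤ nJ

structure InvY (δ : ℝ) (p q J : ℕ) (a b t : ℕ → ℝ≥0∞) (n0 nJ : ℝ≥0∞) (H : Fo ℤ → Prop) :
    Prop where
  y1 : ∀ j, j ≤ J → Bd (YY δ p q (fun F => NRF p q F ∧ H F ∧ j < dep F)) (a j) (b j)
  y2 : ∀ i, i ≤ J + 1 → ∀ c, Lv p q J i c →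
    YY δ p q (fun F => NRF p q F ∧ H F ∧ Top c F) c c ≤ t i
  y3 : ∀ c, YY δ p q (fun F => NRF p q F ∧ H F ∧ ¬ Top c F) c c ≤ n0
  y4 : ∀ c, YY δ p q (fun F => NRF p q F ∧ H F ∧ J < dep F ∧ ¬ Top c F) c c ≤ nJ

structure InvK (δ : ℝ) (p q J : ℕ) (al1 ga T : ℝ≥0∞) (a b ρ t : ℕ → ℝ≥0∞) (n0 nJ P : ℝ≥0∞)
    (H : Fo ℤ → Prop) : Prop where
  k1 : ∀ i, i ≤ J + 1 → ∀ c, Lv p q J i c →
    KK δ p q (fun I => NRF p q I ∧ H I ∧ NRtop p q c c I) c c ≤ ρ i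
  k2 : Bd (fun c c' => KK δ p q (fun I => NRF p q I ∧ H I ∧ NRtop p q c c' I) c c') (ρ (J + 1)) P
  k3 : ∀ j, j + 1 ≤ J → Bd (KK δ p q (fun I => NRF p q I ∧ H I ∧ j < dep I))
    (ga * ((1 + T ^ 2) * a j + T * b j)) (ga * (T * a j + 9 / 10 * b j))
  c1 : Bd (CH δ p q (fun R => NRF p q R ∧ H R)) (1 + al1 * (a 0 + T * b 0))
    (al1 * (b 0 + T * a 0 + T * b 0))
  c2 : ∀ j, j ≤ J → Bd (CH δ p q (fun R => NRF p q R ∧ H R ∧ j < dep R))
    (al1 * (a j + T * b j)) (al1 * (b j + T * a j + T * b j))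
  c3 : ∀ i, i ≤ J + 1 → ∀ u, Lv p q J i u →
    CH δ p q (fun R => NRF p q R ∧ H R ∧ Top u R) u u ≤ 1 + al1 * t i
  c4 : ∀ u, CH δ p q (fun R => NRF p q R ∧ H R ∧ ¬ Top u R) u u ≤ al1 * (n0 + T * b 0)
  c5 : ∀ u, CH δ p q (fun R => NRF p q R ∧ H R ∧ J < dep R ∧ ¬ Top u R) u u ≤
    al1 * (nJ + T * b J)

def Par (δ T : ℝ) : Prop := 0 < δ ∧ δ ≤ T ∧ T ≤ 1 / 10 ^ 6 ∧ 10 ^ 19 * T ^ 4 ≤ δ ^ 3

structure Val (δ : ℝ) (p q : ℕ) (T : ℝ) : Prop where
  vy : Bd (YY δ p q (NRF p q)) (ENNReal.ofReal (151 / 100)) (ENNReal.ofReal (100 * T))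
  vk : Bd (fun c c' => KK δ p q (fun I => NRF p q I ∧ NRtop p q c c' I) c c')
    (ENNReal.ofReal (1 + δ)) (ENNReal.ofReal (42 * T))
  vc : Bd (CH δ p q (NRF p q)) (ENNReal.ofReal (1 / (1 - (1 / 3 - δ) * (1 + δ)) + 800 * T ^ 2))
    (ENNReal.ofReal (34 * T))

/-- ROW VNUM -/
def VnumStmt : Prop := ∀ δ T : ℝ, Par δ T →
  ∃ (J : ℕ) (a b ρ t : ℕ → ℝ≥0∞) (n0 nJ P : ℝ≥0∞),
    Num (ENNReal.ofReal (1 / 3 - δ)) (ENNReal.ofReal (1 / 3 + δ))
      (ENNReal.ofReal (4 / 9 - δ ^ 2)) (ENNReal.ofReal T) J a b ρ t n0 nJ P ∧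
    a 0 ≤ ENNReal.ofReal (151 / 100) ∧ b 0 ≤ ENNReal.ofReal (100 * T) ∧
    ρ (J + 1) ≤ ENNReal.ofReal (1 + δ) ∧ P ≤ ENNReal.ofReal (42 * T) ∧
    1 + ENNReal.ofReal (1 / 3 - δ) * (a 0 + ENNReal.ofReal T * b 0) ≤
      ENNReal.ofReal (1 / (1 - (1 / 3 - δ) * (1 + δ)) + 800 * T ^ 2) ∧
    ENNReal.ofReal (1 / 3 - δ) * (b 0 + ENNReal.ofReal T * a 0 + ENNReal.ofReal T * b 0) ≤
      ENNReal.ofReal (34 * T)

/-- ROW VK -/
def VkStmt : Prop := ∀ (δ : ℝ) (p q J : ℕ) (T : ℝ≥0∞) (a b ρ t : ℕ → ℝ≥0∞) (n0 nJ P : ℝ≥0∞),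
  0 ≤ δ → δ ≤ 1 / 3 → 1 ≤ p → p < q → Ar1 p q T → Ar2 p q T →
  Num (ENNReal.ofReal (1 / 3 - δ)) (ENNReal.ofReal (1 / 3 + δ))
    (ENNReal.ofReal (4 / 9 - δ ^ 2)) T J a b ρ t n0 nJ P →
  ∀ H : Fo ℤ → Prop, InvY δ p q J a b t n0 nJ H →
    InvK δ p q J (ENNReal.ofReal (1 / 3 - δ)) (ENNReal.ofReal (4 / 9 - δ ^ 2)) T a b ρ t n0 nJ P H

/-- ROW VY -/
def VyStmt : Prop := ∀ (δ : ℝ) (p q J : ℕ) (al1 al2 ga T : ℝ≥0∞) (a b ρ t : ℕ → ℝ≥0∞)
  (n0 nJ P : ℝ≥0∞), Num al1 al2 ga T J a b ρ t n0 nJ P → ∀ h : ℕ,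
  InvK δ p q J al1 ga T a b ρ t n0 nJ P (fun F => ht F ≤ h) →
    InvY δ p q J a b t n0 nJ (fun F => ht F ≤ h + 1)

/-- assembly of VNUM, VK, VY (architect) -/
def ValStmt : Prop := ∀ (δ T : ℝ) (p q : ℕ), Par δ T → 1 ≤ p → p < q →
  Ar1 p q (ENNReal.ofReal T) → Ar2 p q (ENNReal.ofReal T) → Val δ p q T

def Vnm (δ : ℝ) (p q : ℕ) (S : ℝ) : Prop := ∀ nx : ℤ → ℤ, Near p q nx → ∀ c : ℤ,
  YY δ p q (fun F => NRF p q F ∧ F ≠ decF nx c (shF F)) c c ≤ ENNReal.ofReal S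

/-- ROW VNM -/
def VnmStmt : Prop := ∀ (δ T : ℝ) (p q : ℕ), Par δ T → 1 ≤ p → p < q →
  Ar1 p q (ENNReal.ofReal T) → Ar2 p q (ENNReal.ofReal T) → Val δ p q T →
  Vnm δ p q (10 ^ 5 * T ^ 2 / δ)

/-! ## The spine -/

def eW (δ : ℝ) (p q : ℕ) (a : Edge) (v : List Edge) : ℝ≥0∞ :=
  ∑ b : Bool, pE δ p q a (v ++ [(b, 0)])

def HD (δ : ℝ) (p q : ℕ) (P : Dn ℤ → Prop) (a : Edge) : ℝ≥0∞ :=
  ∑' d : Dn ℤ, if P d then eW δ p q a (flatD d) else 0

def HA (δ : ℝ) (p q : ℕ) (P : Up ℤ → Prop) (a : Edge) : ℝ≥0∞ :=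
  ∑' γ : Up ℤ, if P γ then eW δ p q a (flatA γ) else 0

def wS (S : ℝ) (c : ℤ) : ℝ≥0∞ := (if |c| = 1 then 1 else ENNReal.ofReal S) * 2⁻¹ ^ c.natAbs

def Sm (δ T S : ℝ) : Prop :=
  0 < δ ∧ δ ≤ T ∧ T ≤ 1 / 10 ^ 6 ∧ 10 ^ 5 * T ≤ S ∧ S ≤ 1 / 1000

structure Spd (δ : ℝ) (p q : ℕ) (T S : ℝ) : Prop where
  d1 : ∀ (e : Bool) (c : ℤ), c ≠ 0 →
    HD δ p q (NRD p q) (e, c) ≤ ENNReal.ofReal (100 * T) * wS S c
  d2 : ∀ nx : ℤ → ℤ, Near p q nx → ∀ s : ℤ, (s = 1 ∨ s = -1) → ∀ e : Bool,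
    HD δ p q (fun d => NRD p q d ∧ d ≠ decD nx s (shD d)) (e, s) ≤ ENNReal.ofReal (10 ^ 4 * T * S)
  d3 : ∀ a : Bool, HD δ p q (fun d => NRD p q d ∧ flatD d ≠ []) (a, 0) ≤
    ENNReal.ofReal (10 ^ 3 * T ^ 2)
  d4 : ∀ n1 n2 : ℤ → ℤ, Near p q n1 → Near p q n2 → ∀ a : Bool,
    HD δ p q (fun d => NRD p q d ∧ d ≠ decD n1 1 (shD d) ∧ d ≠ decD n2 (-1) (shD d)) (a, 0) ≤
      ENNReal.ofReal (10 ^ 5 * T ^ 2 * S)

structure Spa (δ : ℝ) (p q : ℕ) (T S : ℝ) : Prop where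
  a1 : ∀ a : Bool, HA δ p q (Pat p q) (a, 0) ≤ ENNReal.ofReal (10 ^ 5 * T ^ 2)
  a2 : ∀ n1 n2 : ℤ → ℤ, Near p q n1 → Near p q n2 → ∀ a : Bool,
    HA δ p q (fun γ => NRA p q γ ∧ γ ≠ decA n1 1 (shA γ) ∧ γ ≠ decA n2 (-1) (shA γ)) (a, 0) ≤
      ENNReal.ofReal (10 ^ 7 * T ^ 2 * S)

/-- ROW SPD1 (fields `d1`, `d3` of `Spd`) -/
def Spd1Stmt : Prop := ∀ (δ T S : ℝ) (p q : ℕ), Sm δ T S → 1 ≤ p → p < q →
  Ar1 p q (ENNReal.ofReal T) → Ar3 p q (ENNReal.ofReal T) → Val δ p q T →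
  (∀ (e : Bool) (c : ℤ), c ≠ 0 →
    HD δ p q (NRD p q) (e, c) ≤ ENNReal.ofReal (100 * T) * wS S c) ∧
  ∀ a : Bool, HD δ p q (fun d => NRD p q d ∧ flatD d ≠ []) (a, 0) ≤
    ENNReal.ofReal (10 ^ 3 * T ^ 2)

/-- ROW SPD2 (fields `d2`, `d4` of `Spd`) -/
def Spd2Stmt : Prop := ∀ (δ T S : ℝ) (p q : ℕ), Sm δ T S → 1 ≤ p → p < q →
  Ar1 p q (ENNReal.ofReal T) → Ar3 p q (ENNReal.ofReal T) → Val δ p q T → Vnm δ p q S →
  (∀ (e : Bool) (c : ℤ), c ≠ 0 →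
    HD δ p q (NRD p q) (e, c) ≤ ENNReal.ofReal (100 * T) * wS S c) →
  (∀ nx : ℤ → ℤ, Near p q nx → ∀ s : ℤ, (s = 1 ∨ s = -1) → ∀ e : Bool,
    HD δ p q (fun d => NRD p q d ∧ d ≠ decD nx s (shD d)) (e, s) ≤
      ENNReal.ofReal (10 ^ 4 * T * S)) ∧
  ∀ n1 n2 : ℤ → ℤ, Near p q n1 → Near p q n2 → ∀ a : Bool,
    HD δ p q (fun d => NRD p q d ∧ d ≠ decD n1 1 (shD d) ∧ d ≠ decD n2 (-1) (shD d)) (a, 0) ≤
      ENNReal.ofReal (10 ^ 5 * T ^ 2 * S)

/-- ROW SPA1 -/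
def Spa1Stmt : Prop := ∀ (δ T S : ℝ) (p q : ℕ), Sm δ T S → 1 ≤ p → p < q →
  Ar1 p q (ENNReal.ofReal T) → Ar3 p q (ENNReal.ofReal T) → Val δ p q T → Spd δ p q T S →
  (∀ c : ℤ, c ≠ 0 →
    HA δ p q (NRA p q) (true, c) ≤ ENNReal.ofReal (10 ^ 4 * T) * 2 ^ c.natAbs) ∧
  ∀ a : Bool, HA δ p q (Pat p q) (a, 0) ≤ ENNReal.ofReal (10 ^ 5 * T ^ 2)

/-- ROW SPA2 -/
def Spa2Stmt : Prop := ∀ (δ T S : ℝ) (p q : ℕ), Sm δ T S → 1 ≤ p → p < q →
  Ar1 p q (ENNReal.ofReal T) → Ar3 p q (ENNReal.ofReal T) → Val δ p q T → Vnm δ p q S →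
  Spd δ p q T S →
  (∀ c : ℤ, c ≠ 0 →
    HA δ p q (NRA p q) (true, c) ≤ ENNReal.ofReal (10 ^ 4 * T) * 2 ^ c.natAbs) →
  ∀ n1 n2 : ℤ → ℤ, Near p q n1 → Near p q n2 → ∀ a : Bool,
    HA δ p q (fun γ => NRA p q γ ∧ γ ≠ decA n1 1 (shA γ) ∧ γ ≠ decA n2 (-1) (shA γ)) (a, 0) ≤
      ENNReal.ofReal (10 ^ 7 * T ^ 2 * S)

/-- assembly of the kernel rows (architect) -/
def SpaStmt : Prop := ∃ p0 : ℕ, ∀ p q : ℕ, p0 ≤ p → p < q →
  Par ((1 / √3) ^ p) ((33 / 50) ^ p) ∧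
  Spa ((1 / √3) ^ p) p q ((33 / 50) ^ p) (10 ^ 5 * ((33 / 50) ^ p) ^ 2 / (1 / √3) ^ p)

/-! ## The main term -/

def chW (δ : ℝ) (r : ℤ → ℝ) (nx : ℤ → ℤ) : ℤ → Fo Unit → ℝ
  | _, .nil => 1
  | c, .cons _ _ I R =>
      (if I = .nil then 1 / 9 - δ ^ 2 else (4 / 9 - δ ^ 2) * r c * chW δ r nx (nx c) I) *
        chW δ r nx c R

def dW (δ τ m : ℝ) (G : Fo Unit → ℝ) : Dn Unit → ℝ
  | .fin F => if F = .nil then τ else (2 / 3 - δ) * m * G F / (1 / 3 - δ)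
  | .step F _ d => (2 / 3 - δ) * m * G F * dW δ τ m G d

def uW (δ τ m : ℝ) (G : Fo Unit → ℝ) : Dn Unit → ℝ
  | .fin F => G F
  | .step F _ d => G F * (1 / 3 - δ) * dW δ τ m G d

def sW (δ τ m : ℝ) (G : Fo Unit → ℝ) : Dn Unit → ℝ
  | .fin F => if F = .nil then 0 else G F / (1 / 3 - δ)
  | .step F _ d => G F * dW δ τ m G d

def aW (δ τ m : ℝ) (G : Fo Unit → ℝ) : Up Unit → ℝ
  | .top d => uW δ τ m G d
  | .step F _ r => G F * (2 / 3 + δ) * m * aW δ τ m G r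

def SW (δ τ m : ℝ) (G : Fo Unit → ℝ) : Up Unit → ℝ
  | .top d => sW δ τ m G d
  | .step F _ r =>
      (if F = .nil then τ else G F / (1 / 3 - δ) * (2 / 3 + δ) * m) * aW δ τ m G r

def MW (δ : ℝ) (p q : ℕ) (G : Fo Unit → ℝ) (γ : Up Unit) : ℝ :=
  (1 + √3 / 2) * SW δ (1 / √3 ^ (q - p)) (mu ((q : ℤ) - p) / 2) G γ +
    (1 - √3 / 2) * SW δ ((-1) ^ (q - p) / √3 ^ (q - p))
      ((-1) ^ (q - p) * mu ((q : ℤ) - p) / 2) G γ

def Gm (δ : ℝ) (p q : ℕ) : Fo Unit → ℝ :=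
  chW δ (fun c => (mu (dig p q c) / 2) ^ 2) (nxt p q) 1

/-- the pure weight of a chain of valleys -/
def Gp : Fo Unit → ℝ := chW 0 (fun _ => 1) id 0

def nneg (p q : ℕ) (c : ℤ) : ℤ := -nxt p q (-c)

/-- ROW MSUM -/
def MsumStmt : Prop := ∀ (G : Fo Unit → ℝ) (x τ m : ℝ), (∀ F, 0 ≤ G F) → G .nil = 1 → x < 1 →
  HasSum G (1 / (1 - x)) → 2 * |m| < 3 * (1 - x) →
  HasSum (SW 0 τ m G) (3 * ends x τ (2 * m))

/-- ROW MCF -/
def McfStmt : Prop :=
  (∀ (p q h : ℕ) (c : ℤ), 0 ≤ cf p q h c ∧ cf p q h c ≤ 1 / 3 ∧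
    HasSum (fun F => if dep F ≤ h then
      chW 0 (fun c => (mu (dig p q c) / 2) ^ 2) (nxt p q) c F else 0) (1 / (1 - cf p q h c))) ∧
  (∃ x : ℝ, 0 ≤ x ∧ x ≤ 1 / 3 ∧ HasSum Gp (1 / (1 - x))) ∧
  ∀ (δ : ℝ) (r : ℤ → ℝ) (nx : ℤ → ℤ), 0 ≤ δ → δ ≤ 1 / 3 → (∀ c, 0 ≤ r c ∧ r c ≤ 1) →
    ∀ (c : ℤ) (F : Fo Unit), 0 ≤ chW δ r nx c F ∧ chW δ r nx c F ≤ chW 0 r nx c F ∧
      chW 0 r nx c F ≤ Gp F

/-- ROW MB -/
def MbStmt : Prop := ∀ p q : ℕ, 1 ≤ p → p < q → ∀ γ : Up Unit,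
  (∀ (nx : ℤ → ℤ) (s : ℤ), (flatA (decA nx s γ)).map Prod.fst = (flatA γ).map Prod.fst ∧
    ∀ e u, flatA (decA nx s γ) = e :: u → e.2 = s ∧ (lastE e u).2 = s) ∧
  ∀ δ : ℝ, 0 ≤ δ → δ < 1 / 3 →
    core δ p q (flatA (decA (nxt p q) 1 γ)) + core δ p q (flatA (decA (nneg p q) (-1) γ)) =
      2 / 3 * (1 / 3) ^ p * MW δ p q (Gm δ p q) γ

/-- ROW MTAIL -/
def MtailStmt : Prop :=
  (∀ p q : ℕ, 1 ≤ p → p < q → 1 / 5 ≤ lead p q ∧ lead p q ≤ 1000) ∧
  ∀ ε : ℝ, 0 < ε → ∃ (S : Finset (Up Unit)) (p0 : ℕ) (δ0 : ℝ), 0 < δ0 ∧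
    ∀ p q : ℕ, p0 ≤ p → p < q →
      3 * lead p q - ε ≤ ∑ γ ∈ S, MW 0 p q (Gm 0 p q) γ ∧
      ∀ δ : ℝ, 0 ≤ δ → δ ≤ δ0 → ∀ S' : Finset (Up Unit),
        (∀ γ, 0 ≤ MW δ p q (Gm δ p q) γ) ∧
        ∑ γ ∈ S', MW δ p q (Gm δ p q) γ ≤ 3 * lead p q + ε

/-! ## Blocks -/

def locWord (s : ℤ) (e : Bool) (es : List Bool) (X : ℕ) (xs : List ℤ) (Y : ℕ) (b : Bool) :
    List (ℤ × Bool) := (s * X, e) :: (xs.zip es ++ [(-(s * Y), b)])

def Loc (p q k : ℕ) : List Edge → ℝ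
  | [] => 0
  | e :: u => ∑ X ∈ Ico k p, ∑ Y ∈ Ico k p, ∑ b : Bool,
      ∑ xs ∈ lists (Ioo (-(k : ℤ)) k) u.length,
        if win ((locWord e.2 e.1 (u.map Prod.fst) X xs Y b).map Prod.fst)
            (dl p q (true, 0) (e :: u ++ [(b, 0)])) then
          wt (1 / 3) true (locWord e.2 e.1 (u.map Prod.fst) X xs Y b) else 0

/-- ROW LOC -/
def LocStmt : Prop := ∀ ε : ℝ, 0 < ε → ∀ L D : ℕ, ∃ k0 : ℕ, ∀ k : ℕ, k0 ≤ k → ∃ p0 : ℕ,
  ∀ p q : ℕ, p0 ≤ p → p < q → ∀ (e : Edge) (u : List Edge), (e.2 = 1 ∨ e.2 = -1) →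
    (lastE e u).2 = e.2 → u.length ≤ L → (∀ d ∈ dl p q e u, |d| ≤ D) →
    |out p q e| ≤ p + D → |inn p q (lastE e u)| ≤ p + D →
    (1 - ε) * (p / 3) * core 0 p q (e :: u) ≤ Loc p q k (e :: u)

/-- ROW BLK -/
def BlkStmt : Prop := ∀ p q k L L0 : ℕ, 1 ≤ k → k ≤ p → p < q → L ≤ L0 →
  ∀ U : Finset (List Edge),
    (∀ v ∈ U, v.length ≤ L ∧ ∃ e u, v = e :: u ∧ (e.2 = 1 ∨ e.2 = -1)) →
    (∀ e u e' u', e :: u ∈ U → e' :: u' ∈ U → e = e' → u.map Prod.fst = u'.map Prod.fst → u = u') →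
    ∀ a : Bool,
      ((L0 : ℝ) - L) * (1 - 2 * (1 / 3) ^ k) ^ L0 * ∑ v ∈ U, Loc p q k v ≤ Zbad p q L0 a

/-- ROW FINU -/
def FinuStmt : Prop := ∀ ε : ℝ, 0 < ε → ∃ L0 p0 : ℕ, 1 ≤ L0 ∧ ∀ p q : ℕ, p0 ≤ p → p < q →
  ∀ a : Bool, (2 / 3 * lead p q - ε) * (p * (1 / 3) ^ p) * L0 ≤ Zbad p q L0 a

/-- ROW FINL -/
def FinlStmt : Prop := ∀ ε : ℝ, 0 < ε → ∃ p0 : ℕ, ∀ p q : ℕ, p0 ≤ p → p < q →
  ∀ s : Finset (Up ℤ), (∀ γ ∈ s, Pat p q γ) →
    ∑ γ ∈ s, hW ((1 / √3) ^ p) p q (flatA γ) ≤ (2 / 3 * lead p q + ε) * (p * (1 / 3) ^ p)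

end

end Pool.Agent.MP_e0ec03_al.Asy

end MrgPart0

-- ======== part 1: formerly Pool.Agent.MP_e0ec03_al.asy.Basic
section MrgPart1

/-! Small lemmas shared by the rows of THEOREM ASY: lists, words, laws, weights. -/

namespace Pool.Agent.MP_e0ec03_al.Asy

open Classical Finset

theorem mem_lists {α : Type} (s : Finset α) : ∀ (n : ℕ) (l : List α),
    l ∈ lists s n ↔ l.length = n ∧ ∀ x ∈ l, x ∈ s
  | 0, l => by
    simp only [lists, mem_singleton, List.length_eq_zero_iff]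
    exact ⟨fun h => ⟨h, by simp [h]⟩, fun h => h.1⟩
  | n + 1, l => by
    simp only [lists, mem_image, mem_product, mem_lists s n]
    constructor
    · rintro ⟨⟨x, l'⟩, ⟨h1, h2, h3⟩, rfl⟩
      exact ⟨by simpa using h2, by simpa using ⟨h1, h3⟩⟩
    · rintro ⟨h1, h2⟩
      cases l with
      | nil => simp at h1
      | cons x l' =>
        exact ⟨(x, l'), ⟨h2 x (by simp), by simpa using h1, fun y hy => h2 y (by simp [hy])⟩, rfl⟩

theorem sum_lists_zero {α M : Type} [AddCommMonoid M] (s : Finset α) (f : List α → M) :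
    ∑ l ∈ lists s 0, f l = f [] := by simp [lists]

theorem sum_lists_succ {α M : Type} [AddCommMonoid M] (s : Finset α) (n : ℕ) (f : List α → M) :
    ∑ l ∈ lists s (n + 1), f l = ∑ x ∈ s, ∑ l ∈ lists s n, f (x :: l) := by
  rw [lists, sum_image, sum_product]
  rintro ⟨x, l⟩ _ ⟨y, l'⟩ _ h
  simpa using h

theorem mem_words {K n : ℕ} {l : List (ℤ × Bool)} :
    l ∈ words K n ↔ l.length = n ∧ ∀ s ∈ l, |s.1| < K := by
  simp [words, mem_lists, abs_lt]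

theorem sum_words_succ (K n : ℕ) (f : List (ℤ × Bool) → ℝ) :
    ∑ l ∈ words K (n + 1), f l =
      ∑ x ∈ Ioo (-(K : ℤ)) K, ∑ b : Bool, ∑ l ∈ words K n, f ((x, b) :: l) := by
  rw [words, sum_lists_succ, sum_product]
  rfl

theorem lastE_append {α : Type} (a : α) : ∀ l l' : List α,
    lastE a (l ++ l') = lastE (lastE a l) l'
  | [], _ => rfl
  | b :: l, l' => lastE_append b l l'

theorem lastE_map {α β : Type} (f : α → β) (a : α) : ∀ l : List α,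
    lastE (f a) (l.map f) = f (lastE a l)
  | [] => rfl
  | b :: l => lastE_map f b l

theorem dl_length (p q : ℕ) : ∀ (a : Edge) (v : List Edge), (dl p q a v).length = v.length
  | _, [] => rfl
  | _, b :: l => by simp [dl, dl_length p q b l]

theorem dl_append (p q : ℕ) : ∀ (a : Edge) (v w : List Edge),
    dl p q a (v ++ w) = dl p q a v ++ dl p q (lastE a v) w
  | _, [], _ => rfl
  | _, b :: l, w => by simp [dl, lastE, dl_append p q b l w]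

@[simp] theorem inn_zero (p q : ℕ) (a : Bool) : inn p q (a, 0) = 0 := by simp [inn]

@[simp] theorem out_zero (p q : ℕ) (a : Bool) : out p q (a, 0) = 0 := by simp [out]

theorem dl_zeros (p q : ℕ) : ∀ (a : Bool) (es : List Bool),
    dl p q (a, 0) (es.map fun e => (e, (0 : ℤ))) = List.replicate es.length 0
  | _, [] => rfl
  | _, b :: l => by simp [dl, dl_zeros p q b l, List.replicate_succ]

theorem dl_start (p q : ℕ) (a a' : Bool) : ∀ v : List Edge, dl p q (a, 0) v = dl p q (a', 0) v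
  | [] => rfl
  | _ :: _ => by simp [dl]

/-- at a turn the change is a multiple of `p` or of `q` -/
theorem turn_dd {p q : ℕ} (hpq : p ≤ q) {a b : Edge} (h : a.1 ≠ b.1)
    (hd : inn p q a - out p q b ≠ 0) : (p : ℤ) ≤ |inn p q a - out p q b| := by
  obtain ⟨a, c⟩ := a
  obtain ⟨b, c'⟩ := b
  have key : ∀ m : ℕ, p ≤ m → (m : ℤ) * c - m * c' ≠ 0 → (p : ℤ) ≤ |(m : ℤ) * c - m * c'| := by
    intro m hm h0
    rw [← mul_sub] at h0 ⊢
    have h1 : 1 ≤ |c - c'| := Int.one_le_abs (right_ne_zero_of_mul h0)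
    have h2 : (p : ℤ) ≤ m := by exact_mod_cast hm
    rw [abs_mul, Nat.abs_cast]
    nlinarith [Int.natCast_nonneg p]
  cases a <;> cases b <;> simp only [inn, out] at hd ⊢ <;> simp at h
  · simpa using key q hpq (by simpa using hd)
  · simpa using key p le_rfl (by simpa using hd)

@[simp] theorem delta_nil_left (ds : List ℤ) : delta [] ds = 0 := by cases ds <;> rfl

@[simp] theorem delta_nil_right (xs : List ℤ) : delta xs [] = 0 := by cases xs <;> rfl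

@[simp] theorem delta_cons (x d : ℤ) (xs ds : List ℤ) :
    delta (x :: xs) (d :: ds) = |x + d| - |x| + delta xs ds := rfl

theorem delta_append : ∀ (xs ds xs' ds' : List ℤ), xs.length = ds.length →
    delta (xs ++ xs') (ds ++ ds') = delta xs ds + delta xs' ds'
  | [], [], _, _, _ => by simp
  | [], _ :: _, _, _, h => by simp at h
  | _ :: _, [], _, _, h => by simp at h
  | x :: xs, d :: ds, xs', ds', h => by
    simp only [List.cons_append, delta_cons, delta_append xs ds xs' ds' (by simpa using h)]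
    ring

theorem delta_zeros : ∀ (xs : List ℤ) (n : ℕ), delta xs (List.replicate n 0) = 0
  | [], _ => by simp
  | _ :: _, 0 => by simp
  | _ :: xs, n + 1 => by simp [List.replicate_succ, delta_zeros xs n]

theorem lexneg_zeros_append : ∀ (n : ℕ) (ds : List ℤ),
    lexneg (List.replicate n 0 ++ ds) ↔ lexneg ds
  | 0, _ => by simp
  | n + 1, ds => by simp [List.replicate_succ, lexneg, lexneg_zeros_append n ds]

theorem lexneg_append_zeros (n : ℕ) : ∀ ds : List ℤ,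
    lexneg (ds ++ List.replicate n 0) ↔ lexneg ds
  | [] => by simpa [lexneg] using (lexneg_zeros_append n []).not.2 (by simp [lexneg])
  | d :: ds => by simp [lexneg, lexneg_append_zeros n ds]

theorem win_cons_zero (x : ℤ) (xs ds : List ℤ) : win (x :: xs) (0 :: ds) ↔ win xs ds := by
  simp [win, lexneg]

theorem win_zeros_append (xs xs' ds : List ℤ) :
    win (xs ++ xs') (List.replicate xs.length 0 ++ ds) ↔ win xs' ds := by
  simp only [win, delta_append xs (List.replicate xs.length 0) xs' ds (by simp), delta_zeros,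
    zero_add, lexneg_zeros_append]

theorem win_append_zeros (xs xs' ds : List ℤ) (n : ℕ) (h : xs.length = ds.length) :
    win (xs ++ xs') (ds ++ List.replicate n 0) ↔ win xs ds := by
  simp only [win, delta_append xs ds xs' _ h, delta_zeros, add_zero, lexneg_append_zeros]

theorem wt_nonneg {z : ℝ} (hz : 0 ≤ z) : ∀ (a : Bool) (l : List (ℤ × Bool)), 0 ≤ wt z a l
  | _, [] => zero_le_one
  | a, s :: l => mul_nonneg (by split_ifs <;> positivity) (wt_nonneg hz s.2 l)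

theorem wt_eq (z : ℝ) : ∀ (a : Bool) (l : List (ℤ × Bool)),
    wt z a l = if Ok a l then z ^ wl l else 0
  | _, [] => by simp [wt, Ok, wl]
  | a, s :: l => by
    rw [wt, wt_eq z s.2 l, Ok, wl]
    by_cases h : s.1 = 0 ∧ a ≠ s.2 <;> by_cases h' : Ok s.2 l <;> simp [h, h', pow_add]

theorem wt_append (z : ℝ) : ∀ (a : Bool) (l l' : List (ℤ × Bool)),
    wt z a (l ++ l') = wt z a l * wt z (lastE a (l.map Prod.snd)) l'
  | _, [], _ => by simp [wt, lastE]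
  | a, s :: l, l' => by simp [wt, lastE, wt_append z s.2 l l', mul_assoc]

theorem mu_pos (d : ℤ) : 0 < mu d := by unfold mu; positivity

@[simp] theorem mu_neg (d : ℤ) : mu (-d) = mu d := by simp [mu]

@[simp] theorem mu_zero : mu 0 = 2 := by simp [mu]

theorem sqrt3_bounds : (1.732 : ℝ) < √3 ∧ √3 < 1.7321 :=
  ⟨Real.lt_sqrt_of_sq_lt (by norm_num), (Real.sqrt_lt' (by norm_num)).2 (by norm_num)⟩

theorem mu_anti {d d' : ℤ} (h : |d| ≤ |d'|) : mu d' ≤ mu d := by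
  have h3 := sqrt3_bounds.1
  have key : Antitone (fun n : ℕ => ((n : ℝ) + 2) / √3 ^ n) := by
    refine antitone_nat_of_succ_le fun n => ?_
    rw [div_le_div_iff₀ (by positivity) (by positivity), pow_succ]
    push_cast
    have : (0 : ℝ) ≤ n := Nat.cast_nonneg n
    have h4 : (0 : ℝ) < √3 ^ n := by positivity
    have h5 : (n : ℝ) + 1 + 2 ≤ (n + 2) * √3 := by nlinarith
    nlinarith
  rw [← Int.natCast_natAbs, ← Int.natCast_natAbs] at h
  exact key (by exact_mod_cast h)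

theorem mu_le_two (d : ℤ) : mu d ≤ 2 := mu_zero ▸ mu_anti (by simp)

theorem mu_le_sqrt {d : ℤ} (h : d ≠ 0) : mu d ≤ √3 := by
  have h1 : mu 1 = √3 := by
    have : (0 : ℝ) < √3 := by positivity
    simp only [mu, Int.natAbs_one, Nat.cast_one, pow_one]
    rw [div_eq_iff this.ne', Real.mul_self_sqrt (by norm_num)]
    norm_num
  exact h1 ▸ mu_anti (by simpa using Int.one_le_abs h)

/-- exponential bound for `mu` -/
theorem mu_le_exp (d : ℤ) : mu d ≤ 60 * (3 / 5) ^ d.natAbs := by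
  have h3 := sqrt3_bounds.1
  unfold mu
  generalize d.natAbs = n
  rw [div_le_iff₀ (by positivity), mul_assoc, ← mul_pow]
  have h1 : (1 + 0.039 : ℝ) ^ n ≤ (3 / 5 * √3) ^ n :=
    pow_le_pow_left₀ (by norm_num) (by linarith) n
  have h2 := one_add_mul_le_pow (a := (0.039 : ℝ)) (by norm_num) n
  have : (0 : ℝ) ≤ n := Nat.cast_nonneg n
  nlinarith

theorem ps_nonneg (a b : Bool) (d : ℤ) : 0 ≤ ps a b d := by
  have := mu_pos d
  unfold ps
  split_ifs <;> positivity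

@[simp] theorem ps_zero (a b : Bool) : ps a b 0 = 1 := by
  by_cases h : a = b <;> simp [ps, h]

theorem kk_nonneg {δ : ℝ} (h0 : 0 ≤ δ) (h1 : δ ≤ 1 / 3) (a b : Bool) : 0 ≤ kk δ a b := by
  cases a <;> cases b <;> simp [kk] <;> linarith

theorem kk_sum (δ : ℝ) (a : Bool) : ∑ b : Bool, kk δ a b = 1 := by
  cases a <;> simp [kk] <;> ring

theorem st0_nonneg {δ : ℝ} (h0 : 0 ≤ δ) (h1 : δ ≤ 1 / 3) (a : Bool) : 0 ≤ st0 δ a := by
  cases a <;> simp [st0] <;> linarith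

theorem st0_sum (δ : ℝ) : ∑ a : Bool, st0 δ a = 1 := by simp [st0]; ring

theorem st0_stat (δ : ℝ) (b : Bool) : ∑ a : Bool, st0 δ a * kk δ a b = st0 δ b := by
  cases b <;> simp [st0, kk] <;> ring

theorem vtx_nonneg {δ : ℝ} (h0 : 0 ≤ δ) (h1 : δ ≤ 1 / 3) (p q : ℕ) (a b : Edge) :
    0 ≤ vtx δ p q a b := mul_nonneg (kk_nonneg h0 h1 _ _) (ps_nonneg _ _ _)

theorem pw_nonneg {δ : ℝ} (h0 : 0 ≤ δ) (h1 : δ ≤ 1 / 3) (p q : ℕ) :
    ∀ (a : Edge) (v : List Edge), 0 ≤ pw δ p q a v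
  | _, [] => zero_le_one
  | a, b :: l => mul_nonneg (vtx_nonneg h0 h1 p q a b) (pw_nonneg h0 h1 p q b l)

theorem pw_append (δ : ℝ) (p q : ℕ) : ∀ (a : Edge) (v w : List Edge),
    pw δ p q a (v ++ w) = pw δ p q a v * pw δ p q (lastE a v) w
  | _, [], _ => by simp [pw, lastE]
  | a, b :: l, w => by simp [pw, lastE, pw_append δ p q b l w, mul_assoc]

theorem law_nonneg (p : ℕ) (a b : Bool) (m : ℕ) : 0 ≤ law p a b m := by
  unfold law
  split_ifs <;> positivity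

theorem law_sum {p : ℕ} (hp : 1 ≤ p) (a b : Bool) : ∑ m ∈ range (p + 1), law p a b m = 1 := by
  obtain ⟨n, rfl⟩ : ∃ n, p = n + 1 := ⟨p - 1, by omega⟩
  have hg : ∑ m ∈ range n, ((1 : ℝ) / 3) ^ (m + 1) = (1 - (1 / 3) ^ n) / 2 := by
    induction n with
    | zero => simp
    | succ n ih => rw [sum_range_succ, ih (by omega)]; ring
  rw [sum_range_succ, sum_range_succ']
  by_cases h : a = b
  · rw [sum_congr rfl (g := fun m => ((1 : ℝ) / 3) ^ (m + 1)), hg]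
    · simp [law, h]; ring
    · intro m hm
      have := mem_range.1 hm
      simp [law, h, this]
  · rw [sum_congr rfl (g := fun m => 2 * ((1 : ℝ) / 3) ^ (m + 1)), ← mul_sum, hg]
    · simp [law, h]; ring
    · intro m hm
      have := mem_range.1 hm
      simp [law, h, this]

theorem EM_mono (p : ℕ) : ∀ (a : Bool) (e : List (Bool × Bool)) (f g : List ℤ → ℝ),
    (∀ xs : List ℤ, xs.length = e.length → (∀ x ∈ xs, |x| ≤ p) → f xs ≤ g xs) →
      EM p a e f ≤ EM p a e g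
  | _, [], _, _, h => h [] rfl (by simp)
  | a, e :: l, f, g, h => by
    refine sum_le_sum fun m hm => mul_le_mul_of_nonneg_left ?_ (law_nonneg _ _ _ _)
    refine EM_mono p e.1 l _ _ fun xs h1 h2 => h _ (by simp [h1]) ?_
    intro x hx
    rcases List.mem_cons.1 hx with rfl | hx
    · have := mem_range.1 hm
      unfold sg
      split_ifs <;> simp <;> omega
    · exact h2 x hx

theorem EM_congr (p : ℕ) (a : Bool) (e : List (Bool × Bool)) (f g : List ℤ → ℝ)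
    (h : ∀ xs : List ℤ, xs.length = e.length → (∀ x ∈ xs, |x| ≤ p) → f xs = g xs) :
    EM p a e f = EM p a e g :=
  le_antisymm (EM_mono p a e f g fun xs h1 h2 => (h xs h1 h2).le)
    (EM_mono p a e g f fun xs h1 h2 => (h xs h1 h2).ge)

theorem EM_const {p : ℕ} (hp : 1 ≤ p) (c : ℝ) : ∀ (a : Bool) (e : List (Bool × Bool)),
    EM p a e (fun _ => c) = c
  | _, [] => rfl
  | a, e :: l => by simp only [EM, EM_const hp c e.1 l, ← sum_mul, law_sum hp, one_mul]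

theorem EM_add (p : ℕ) : ∀ (a : Bool) (e : List (Bool × Bool)) (f g : List ℤ → ℝ),
    EM p a e (fun xs => f xs + g xs) = EM p a e f + EM p a e g
  | _, [], _, _ => rfl
  | a, e :: l, f, g => by
    simp only [EM, EM_add p e.1 l, mul_add, sum_add_distrib]

theorem EM_mul (p : ℕ) (c : ℝ) : ∀ (a : Bool) (e : List (Bool × Bool)) (f : List ℤ → ℝ),
    EM p a e (fun xs => c * f xs) = c * EM p a e f
  | _, [], _ => rfl
  | a, e :: l, f => by
    simp only [EM, EM_mul p c e.1 l, mul_sum, mul_left_comm]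

theorem EM_sum (p : ℕ) (a : Bool) (e : List (Bool × Bool)) {ι : Type} (s : Finset ι)
    (f : ι → List ℤ → ℝ) : EM p a e (fun xs => ∑ i ∈ s, f i xs) = ∑ i ∈ s, EM p a e (f i) := by
  induction s using Finset.induction_on with
  | empty => simpa using EM_mul p 0 a e (fun _ => 0)
  | insert i s hi ih => simp only [sum_insert hi, EM_add, ih]

theorem EM_append (p : ℕ) : ∀ (a : Bool) (e e' : List (Bool × Bool)) (f : List ℤ → ℝ),
    EM p a (e ++ e') f =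
      EM p a e (fun xs => EM p (lastE a (e.map Prod.fst)) e' (fun ys => f (xs ++ ys)))
  | _, [], _, _ => rfl
  | a, x :: e, e', f => by simp only [List.cons_append, EM, EM_append p x.1 e e', List.map, lastE]

theorem PW_nonneg {p : ℕ} (hp : 1 ≤ p) (a : Bool) (e : List (Bool × Bool)) (ds : List ℤ) :
    0 ≤ PW p a e ds :=
  (EM_const hp 0 a e).ge.trans (EM_mono p a e _ _ fun _ _ _ => by split_ifs <;> norm_num)

theorem PW_le_one {p : ℕ} (hp : 1 ≤ p) (a : Bool) (e : List (Bool × Bool)) (ds : List ℤ) :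
    PW p a e ds ≤ 1 :=
  (EM_mono p a e _ _ fun _ _ _ => by split_ifs <;> norm_num).trans (EM_const hp 1 a e).le

theorem NE_mono {δ : ℝ} (h0 : 0 ≤ δ) (h1 : δ ≤ 1 / 3) : ∀ (n : ℕ) (a : Bool)
    (F G : List (Bool × Bool) → ℝ), (∀ e, e.length = n → F e ≤ G e) → NE δ n a F ≤ NE δ n a G
  | 0, _, _, _, h => h [] rfl
  | n + 1, a, _, _, h => sum_le_sum fun e _ => mul_le_mul_of_nonneg_left
      (NE_mono h0 h1 n e.1 _ _ fun l hl => h _ (by simp [hl]))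
      (div_nonneg (kk_nonneg h0 h1 a e.1) zero_le_two)

theorem NE_congr (δ : ℝ) : ∀ (n : ℕ) (a : Bool) (F G : List (Bool × Bool) → ℝ),
    (∀ e, e.length = n → F e = G e) → NE δ n a F = NE δ n a G
  | 0, _, _, _, h => h [] rfl
  | n + 1, _, _, _, h => sum_congr rfl fun e _ => by
      rw [NE_congr δ n e.1 _ _ fun l hl => h (e :: l) (by simp [hl])]

theorem NE_const (δ c : ℝ) : ∀ (n : ℕ) (a : Bool), NE δ n a (fun _ => c) = c
  | 0, _ => rfl
  | n + 1, a => by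
    simp only [NE, NE_const δ c n, Fintype.sum_prod_type, Fintype.sum_bool]
    have := kk_sum δ a
    rw [Fintype.sum_bool] at this
    linear_combination c * this

theorem NE_add (δ : ℝ) : ∀ (n : ℕ) (a : Bool) (F G : List (Bool × Bool) → ℝ),
    NE δ n a (fun e => F e + G e) = NE δ n a F + NE δ n a G
  | 0, _, _, _ => rfl
  | n + 1, _, _, _ => by simp only [NE, NE_add δ n, mul_add, sum_add_distrib]

theorem NE_mul (δ c : ℝ) : ∀ (n : ℕ) (a : Bool) (F : List (Bool × Bool) → ℝ),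
    NE δ n a (fun e => c * F e) = c * NE δ n a F
  | 0, _, _ => rfl
  | n + 1, _, _ => by simp only [NE, NE_mul δ c n, mul_sum, mul_left_comm]

theorem NE_sum (δ : ℝ) (n : ℕ) (a : Bool) {ι : Type} (s : Finset ι)
    (F : ι → List (Bool × Bool) → ℝ) :
    NE δ n a (fun e => ∑ i ∈ s, F i e) = ∑ i ∈ s, NE δ n a (F i) := by
  induction s using Finset.induction_on with
  | empty => simpa using NE_const δ 0 n a
  | insert i s hi ih => simp only [sum_insert hi, NE_add, ih]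

theorem NE_append (δ : ℝ) (k : ℕ) : ∀ (m : ℕ) (a : Bool) (F : List (Bool × Bool) → ℝ),
    NE δ (m + k) a F =
      NE δ m a (fun e => NE δ k (lastE a (e.map Prod.fst)) (fun e' => F (e ++ e')))
  | 0, _, _ => by simp [NE, lastE]
  | m + 1, a, F => by
    rw [Nat.add_right_comm]
    simp only [NE, NE_append δ k m, List.map, lastE, List.cons_append]

theorem dig_eq (p q : ℕ) (c : ℤ) :
    (q : ℤ) * c - p * nxt p q c = dig p q c := by
  have h : (p : ℤ) ∣ q * c - dig p q c := by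
    have := Int.dvd_bmod_sub_self (x := (q : ℤ) * c) (m := p)
    rw [← dvd_neg, neg_sub] at this
    exact this
  rw [nxt, Int.mul_ediv_cancel' h]
  ring

theorem near_nxt {p : ℕ} (hp : 1 ≤ p) (q : ℕ) : Near p q (nxt p q) := by
  intro c
  rw [dig_eq, dig]
  have h1 := Int.le_bmod (x := (q : ℤ) * c) (m := p) hp
  have h2 := Int.bmod_le (x := (q : ℤ) * c) (m := p) hp
  rcases abs_cases (Int.bmod ((q : ℤ) * c) p) with h | h <;> omega

theorem near_nneg {p : ℕ} (hp : 1 ≤ p) (q : ℕ) : Near p q (nneg p q) := by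
  intro c
  have := near_nxt hp q (-c)
  rwa [show (q : ℤ) * -c - p * nxt p q (-c) = -(q * c - p * nneg p q c) by simp [nneg]; ring,
    abs_neg] at this

end Pool.Agent.MP_e0ec03_al.Asy

end MrgPart1

-- ======== part 2: formerly Pool.Agent.MP_e0ec03_al.asy.Dec
section MrgPart2

/-! ROW DEC: splitting of carry vectors into irreducible patterns. -/

namespace Pool.Agent.MP_e0ec03_al.Asy

namespace Dec

/-- splitting of a list into two lists with disjoint supports -/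
inductive Sp : List ℤ → List ℤ → List ℤ → Prop
  | nil : Sp [] [] []
  | lft (x : ℤ) {d d1 d2 : List ℤ} : Sp d d1 d2 → Sp (x :: d) (x :: d1) (0 :: d2)
  | rgt (x : ℤ) {d d1 d2 : List ℤ} : Sp d d1 d2 → Sp (x :: d) (0 :: d1) (x :: d2)

variable {d d1 d2 e e1 e2 : List ℤ}

theorem Sp.append (h : Sp d d1 d2) (k : Sp e e1 e2) : Sp (d ++ e) (d1 ++ e1) (d2 ++ e2) := by
  induction h with
  | nil => exact k
  | lft x _ ih => exact Sp.lft x ih
  | rgt x _ ih => exact Sp.rgt x ih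

theorem sp_left : ∀ d z : List ℤ, z.length = d.length → (∀ x ∈ z, x = 0) → Sp d d z
  | [], [], _, _ => Sp.nil
  | [], _ :: _, h, _ => by simp at h
  | _ :: _, [], h, _ => by simp at h
  | x :: d, y :: z, h, k => by
    rw [k y (by simp)]
    exact Sp.lft x (sp_left d z (by simpa using h) fun t m => k t (by simp [m]))

theorem Sp.symm (h : Sp d d1 d2) : Sp d d2 d1 := by
  induction h with
  | nil => exact Sp.nil
  | lft x _ ih => exact Sp.rgt x ih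
  | rgt x _ ih => exact Sp.lft x ih

theorem Sp.delta_eq (h : Sp d d1 d2) : ∀ xs, delta xs d = delta xs d1 + delta xs d2 := by
  induction h with
  | nil => simp
  | lft x _ ih =>
    rintro (_ | ⟨y, xs⟩)
    · simp
    · simp only [delta_cons, ih xs, add_zero]
      ring
  | rgt x _ ih =>
    rintro (_ | ⟨y, xs⟩)
    · simp
    · simp only [delta_cons, ih xs, add_zero]
      ring

theorem Sp.lex (h : Sp d d1 d2) : lexneg d → lexneg d1 ∨ lexneg d2 := by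
  induction h with
  | nil => exact Or.inl
  | lft x _ ih =>
    rintro (k | ⟨k1, k2⟩)
    · exact Or.inl (Or.inl k)
    · exact (ih k2).imp (fun m => Or.inr ⟨k1, m⟩) fun m => Or.inr ⟨rfl, m⟩
  | rgt x _ ih =>
    rintro (k | ⟨k1, k2⟩)
    · exact Or.inr (Or.inl k)
    · exact (ih k2).imp (fun m => Or.inr ⟨rfl, m⟩) fun m => Or.inr ⟨k1, m⟩

theorem Sp.win_or (h : Sp d d1 d2) {xs : List ℤ} (k : win xs d) : win xs d1 ∨ win xs d2 := by
  have h1 := h.delta_eq xs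
  unfold win at k ⊢
  by_cases k1 : delta xs d1 < 0
  · exact Or.inl (Or.inl k1)
  by_cases k2 : delta xs d2 < 0
  · exact Or.inr (Or.inl k2)
  obtain ⟨k3, k4⟩ := k.resolve_left (by omega)
  exact (h.lex k4).imp (fun m => Or.inr ⟨by omega, m⟩) fun m => Or.inr ⟨by omega, m⟩

theorem Sp.nz_eq (h : Sp d d1 d2) : nz d = nz d1 + nz d2 := by
  unfold nz
  induction h with
  | nil => rfl
  | lft x _ ih =>
    simp only [List.countP_cons, ih, ne_eq, not_true, decide_false]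
    simp only [Bool.false_eq_true, if_false]
    omega
  | rgt x _ ih =>
    simp only [List.countP_cons, ih, ne_eq, not_true, decide_false]
    simp only [Bool.false_eq_true, if_false]
    omega

/-- the same letters with zero carries -/
def zr (w : List Edge) : List Edge := (w.map Prod.fst).map fun e => (e, (0 : ℤ))

theorem zr_fst (w : List Edge) : (zr w).map Prod.fst = w.map Prod.fst := by
  simp [zr, Function.comp_def]

theorem zr_mem {w : List Edge} {y : Edge} (h : y ∈ zr w) : y.2 = 0 := by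
  obtain ⟨_, _, rfl⟩ := List.mem_map.1 h
  rfl

theorem zr_eq : ∀ w : List Edge, (∀ y ∈ w, y.2 = 0) → zr w = w
  | [], _ => rfl
  | (b, c) :: w, h => by
    have h1 : c = 0 := h (b, c) (by simp)
    have h2 := zr_eq w fun y m => h y (by simp [m])
    subst h1
    exact congrArg (List.cons _) h2

theorem last_zr : ∀ (a : Edge) (w : List Edge), lastE (a.1, 0) (zr w) = ((lastE a w).1, 0)
  | _, [] => rfl
  | _, b :: w => last_zr b w

theorem len_eq {v w : List Edge} (h : v.map Prod.fst = w.map Prod.fst) : v.length = w.length := by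
  simpa using congrArg List.length h

variable {p q : ℕ}

theorem dl_zr (a : Bool) (w : List Edge) : ∀ x ∈ dl p q (a, 0) (zr w), x = 0 := fun x hx => by
  rw [zr, dl_zeros] at hx
  exact List.eq_of_mem_replicate hx

theorem nz_pos (hp : 1 ≤ p) (hq : p < q) : ∀ (a : Bool) (w : List Edge), (∃ y ∈ w, y.2 ≠ 0) →
    0 < nz (dl p q (a, 0) w)
  | _, [], h => by simp at h
  | a, (b, c) :: w, h => by
    unfold nz
    rw [dl, List.countP_cons]
    by_cases hc : c = 0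
    · subst hc
      exact Nat.add_pos_left (nz_pos hp hq b w (by simpa using h)) _
    · refine Nat.add_pos_right _ ?_
      rw [if_pos]
      · exact one_pos
      · cases b <;> simp [out, hc] <;> omega

/-- difference of the carries -/
def sb (v w : List Edge) : List Edge := List.zipWith (fun x y => (x.1, x.2 - y.2)) v w

theorem sb_spec : ∀ (v w : List Edge) (x y : Edge), x.1 = y.1 → v.map Prod.fst = w.map Prod.fst →
    (∀ t ∈ dl p q y w, t = 0) → (sb v w).map Prod.fst = v.map Prod.fst ∧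
      dl p q (x.1, x.2 - y.2) (sb v w) = dl p q x v ∧
      lastE (x.1, x.2 - y.2) (sb v w) = ((lastE x v).1, (lastE x v).2 - (lastE y w).2) ∧
      ((∀ t ∈ sb v w, t.2 = 0) → v = w)
  | [], [], _, _, _, _, _ => ⟨rfl, rfl, rfl, fun _ => rfl⟩
  | [], _ :: _, _, _, _, h, _ => by simp at h
  | _ :: _, [], _, _, _, h, _ => by simp at h
  | (b, c) :: v, (b', c') :: w, (a, t), (a', t'), h0, h, hz => by
    obtain ⟨rfl, h2⟩ : b = b' ∧ v.map Prod.fst = w.map Prod.fst := by simpa using h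
    obtain rfl : a = a' := h0
    obtain ⟨k1, k2, k3, k4⟩ := sb_spec v w (b, c) (b, c') rfl h2 fun t m => hz t (by simp [dl, m])
    have k5 := hz _ List.mem_cons_self
    refine ⟨congrArg (List.cons _) k1, ?_, k3, fun m => ?_⟩
    · refine List.cons_eq_cons.2 ⟨?_, k2⟩
      cases a <;> cases b <;> simp only [inn, out, Bool.false_eq_true, if_true, if_false] at k5 ⊢ <;>
        linear_combination -k5
    · have k6 : c - c' = 0 := m (b, c - c') List.mem_cons_self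
      rw [k4 fun t m' => m t (List.mem_cons_of_mem _ m'), sub_eq_zero.1 k6]

/-- a block that can be replaced by a block without changes is that block -/
theorem step (hp : 1 ≤ p) (hq : p < q) {a : Bool} {xs : List ℤ} {X M M0 Y : List Edge}
    (ih : ∀ v : List Edge, v.map Prod.fst = (X ++ M ++ Y).map Prod.fst →
      (lastE (a, (0 : ℤ)) v).2 = 0 →
      nz (dl p q (a, 0) v) < nz (dl p q (a, 0) (X ++ M ++ Y)) → ¬win xs (dl p q (a, 0) v))
    (h0 : (lastE (a, (0 : ℤ)) (X ++ M ++ Y)).2 = 0) (hw : win xs (dl p q (a, 0) (X ++ M ++ Y)))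
    (hX : ∃ y ∈ X, y.2 ≠ 0) (hl : M.map Prod.fst = M0.map Prod.fst)
    (hm : lastE (lastE (a, 0) X) M0 = lastE (lastE (a, 0) X) M)
    (hz : ∀ t ∈ dl p q (lastE (a, 0) X) M0, t = 0) : M = M0 := by
  obtain ⟨k1, k2, k3, k4⟩ := sb_spec M M0 (lastE (a, 0) X) _ rfl hl hz
  rw [sub_self] at k2
  rw [hm, sub_self, sub_self] at k3
  have k5 : lastE (a, 0) (zr X) = _ := last_zr (a, 0) X
  have sp : Sp (dl p q (a, 0) (X ++ M ++ Y)) (dl p q (a, 0) (X ++ M0 ++ Y))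
      (dl p q (a, 0) (zr X ++ sb M M0 ++ zr Y)) := by
    simp only [dl_append, lastE_append, k5, k2, k3, hm]
    refine ((sp_left _ _ ?_ (dl_zr _ _)).append (sp_left _ _ ?_ hz).symm).append
      (sp_left _ _ ?_ (dl_zr _ _))
    · rw [dl_length, dl_length, len_eq (zr_fst X)]
    · rw [dl_length, dl_length, len_eq hl]
    · rw [dl_length, dl_length, len_eq (zr_fst Y)]
  by_contra k
  obtain ⟨y, m1, m2⟩ := hX
  have n0 := sp.nz_eq
  have n1 := nz_pos hp hq a (X ++ M0 ++ Y) ⟨y, by simp [m1], m2⟩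
  have n2 := nz_pos hp hq a (zr X ++ sb M M0 ++ zr Y) (by
    by_contra m
    exact k (k4 fun t m' => by_contra fun m'' => m ⟨t, by simp [m'], m''⟩))
  refine (sp.win_or hw).elim (ih _ ?_ ?_ (by omega)) (ih _ ?_ ?_ (by omega))
  · simp only [List.map_append, hl]
  · simpa only [lastE_append, hm] using h0
  · simp only [List.map_append, zr_fst, k1]
  · rw [lastE_append, lastE_append, k5, k3, last_zr]

theorem free_mono : ∀ {h h' : ℕ} {c : ℤ}, h ≤ h' → Free p q h' c → Free p q h c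
  | 0, _, _, _, _ => trivial
  | _ + 1, 0, _, k, _ => by omega
  | _ + 1, _ + 1, _, k, m => ⟨m.1, free_mono (by omega) m.2⟩

theorem fst_dec (nx : ℤ → ℤ) : ∀ (I : Fo ℤ) (c : ℤ),
    (flatF I).map Prod.fst = (flatF (decF nx c (shF I))).map Prod.fst
  | .nil, _ => rfl
  | .cons _ _ I R, c => by
    simp only [shF, decF, flatF, List.map_cons, List.map_append, ← fst_dec nx I, ← fst_dec nx R]

theorem dl_dec : ∀ (I : Fo ℤ) (c : ℤ) (x : Edge), inn p q x = q * c → Free p q (dep I) c →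
    ∀ t ∈ dl p q x (flatF (decF (pn p q) (pn p q c) (shF I)) ++ [(true, c)]), t = 0
  | .nil, c, x, h, _ => by simp [shF, decF, flatF, dl, out, h]
  | .cons _ _ I R, c, x, h, k => by
    have k1 : Free p q (dep I + 1) c := free_mono (le_max_left _ _) k
    have k2 : (p : ℤ) * pn p q c = q * c := Int.mul_ediv_cancel' k1.1
    have k3 := dl_dec I (pn p q c) (false, pn p q c) rfl k1.2
    have k4 := dl_dec R c (true, pn p q c) k2 (free_mono (le_max_right _ _) k)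
    intro t ht
    rw [shF, decF, flatF, List.cons_append, dl, List.append_cons _ (true, pn p q c),
      List.append_assoc, dl_append, lastE_append] at ht
    rcases List.mem_cons.1 ht with rfl | ht
    · rw [h, ← k2]
      simp [out]
    · exact (List.mem_append.1 ht).elim (k3 t) (k4 t)

/-- no zero carry and no reducible valley -/
def Irr (p q : ℕ) (w : List Edge) : Prop := (∀ y ∈ w, y.2 ≠ 0) ∧
  ∀ (P S : List Edge) (c : ℤ) (I : Fo ℤ), w = P ++ (false, c) :: (flatF I ++ (true, c) :: S) →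
    Free p q (dep I) c → I = decF (pn p q) (pn p q c) (shF I)

theorem Irr.left {v w : List Edge} (h : Irr p q (v ++ w)) : Irr p q v :=
  ⟨fun y m => h.1 y (List.mem_append_left _ m), fun P S c I m => h.2 P (S ++ w) c I (by simp [m])⟩

theorem Irr.right {v w : List Edge} (h : Irr p q (v ++ w)) : Irr p q w :=
  ⟨fun y m => h.1 y (List.mem_append_right _ m), fun P S c I m => h.2 (v ++ P) S c I (by simp [m])⟩

theorem Irr.tail {x : Edge} {w : List Edge} (h : Irr p q (x :: w)) : Irr p q w :=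
  Irr.right (v := [x]) h

theorem Irr.head {x : Edge} {w : List Edge} (h : Irr p q (x :: w)) : x.2 ≠ 0 :=
  h.1 x List.mem_cons_self

theorem nrf : ∀ F : Fo ℤ, Irr p q (flatF F) → NRF p q F
  | .nil, _ => trivial
  | .cons _ _ I R, h => ⟨h.head, h.tail.right.head, fun m => by
      subst m
      exact h.2 [] _ _ I rfl, nrf I h.tail.left, nrf R h.tail.right.tail⟩

theorem nrd : ∀ D : Dn ℤ, Irr p q (flatD D) → NRD p q D
  | .fin F, h => nrf F h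
  | .step F _ D, h => ⟨nrf F h.left, h.right.head, nrd D h.right.tail⟩

theorem nra : ∀ γ : Up ℤ, Irr p q (flatA γ) → NRA p q γ
  | .top D, h => nrd D h
  | .step F _ r, h => ⟨nrf F h.left, h.right.head, nra r h.right.tail⟩

theorem cut1 : ∀ v : List Edge, (∃ y ∈ v, y.2 ≠ 0) →
    ∃ Z x w, v = Z ++ x :: w ∧ x.2 ≠ 0 ∧ ∀ y ∈ Z, y.2 = 0
  | [], h => by simp at h
  | x :: v, h => by
    by_cases k : x.2 = 0
    · obtain ⟨Z, y, w, rfl, h1, h2⟩ := cut1 v (by simpa [k] using h)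
      exact ⟨x :: Z, y, w, rfl, h1, List.forall_mem_cons.2 ⟨k, h2⟩⟩
    · exact ⟨[], x, v, rfl, k, by simp⟩

theorem cut2 : ∀ (x : Edge) (w : List Edge), x.2 ≠ 0 → (lastE x w).2 = 0 →
    ∃ u y r, w = u ++ y :: r ∧ y.2 = 0 ∧ ∀ t ∈ u, t.2 ≠ 0
  | _, [], h, k => absurd k h
  | _, y :: w, _, k => by
    by_cases m : y.2 = 0
    · exact ⟨[], y, w, rfl, m, by simp⟩
    · obtain ⟨u, t, r, rfl, h1, h2⟩ := cut2 y w m k
      exact ⟨y :: u, t, r, rfl, h1, List.forall_mem_cons.2 ⟨m, h2⟩⟩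

theorem vec_eq (Z u T : List Edge) (h1 : ∀ y ∈ Z, y.2 = 0) (h2 : ∀ y ∈ T, y.2 = 0) :
    vec ((Z ++ u ++ T).map Prod.fst) Z.length u = Z ++ u ++ T := by
  have k1 : ((Z ++ u ++ T).map Prod.fst).take Z.length = Z.map Prod.fst := by
    rw [← List.map_take, List.append_assoc, List.take_left]
  have k2 : ((Z ++ u ++ T).map Prod.fst).drop (Z.length + u.length) = T.map Prod.fst := by
    rw [← List.map_drop, ← List.length_append, List.drop_left]
  rw [vec, k1, k2]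
  exact congrArg₂ (· ++ ·) (congrArg (· ++ u) (zr_eq Z h1)) (zr_eq T h2)

end Dec

open Dec

theorem dec_of (h : ParseStmt) : DecStmt := by
  intro p q hp hq a l hg
  suffices H : ∀ (n : ℕ) (v : List Edge), v.map Prod.fst = l.map Prod.snd →
      (lastE (a, (0 : ℤ)) v).2 = 0 → nz (dl p q (a, 0) v) = n →
      ¬win (l.map Prod.fst) (dl p q (a, 0) v) by
    rintro _ ⟨v, h1, h2, rfl⟩
    exact H _ v h1 h2 rfl
  intro n
  induction n using Nat.strong_induction_on with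
  | _ n ih =>
  intro v h1 h2 h3 hw
  have ih' : ∀ w : List Edge, w.map Prod.fst = v.map Prod.fst → (lastE (a, (0 : ℤ)) w).2 = 0 →
      nz (dl p q (a, 0) w) < nz (dl p q (a, 0) v) → ¬win (l.map Prod.fst) (dl p q (a, 0) w) :=
    fun w k1 k2 k3 => ih _ (h3 ▸ k3) w (k1.trans h1) k2 rfl
  clear ih h3
  by_cases hv : ∃ y ∈ v, y.2 ≠ 0
  swap
  · rw [← zr_eq v fun y m => by_contra fun k => hv ⟨y, m, k⟩, zr, dl_zeros] at hw
    rcases hw with k | k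
    · rw [delta_zeros] at k
      exact lt_irrefl _ k
    · exact (lexneg_append_zeros _ []).1 k.2
  obtain ⟨Z, x, w, rfl, hx, hZ⟩ := cut1 v hv
  obtain ⟨u, y, r, rfl, hy, hu⟩ := cut2 x w hx (by rwa [lastE_append] at h2)
  obtain ⟨e, c0⟩ := y
  obtain rfl : c0 = 0 := hy
  have e1 : Z ++ x :: (u ++ (e, 0) :: r) = Z ++ x :: u ++ [(e, 0)] ++ r ++ [] := by simp
  have hr : r = zr r := by
    rw [e1] at ih' h2 hw
    have k : lastE (a, (0 : ℤ)) (Z ++ x :: u ++ [(e, 0)]) = (e, 0) := lastE_append _ _ _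
    refine step hp hq ih' h2 hw ⟨x, by simp, hx⟩ (zr_fst r).symm ?_ ?_
    · rw [List.append_nil, lastE_append, k] at h2
      rw [k]
      exact (last_zr (e, 0) r).trans (Prod.ext rfl h2.symm)
    · rw [k]
      exact dl_zr e r
  obtain ⟨γ, hγ⟩ := h.1 ℤ (x :: u)
  have e2 : Z ++ x :: (u ++ (e, 0) :: r) = Z ++ flatA γ ++ (e, 0) :: r := by simp [hγ]
  rw [e2] at ih' h1 h2 hw
  have e3 := vec_eq Z (flatA γ) ((e, 0) :: r) hZ
    (List.forall_mem_cons.2 ⟨rfl, fun y m => zr_mem (hr ▸ m)⟩)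
  rw [h1] at e3
  have nzc : ∀ y ∈ flatA γ, y.2 ≠ 0 := hγ ▸ List.forall_mem_cons.2 ⟨hx, hu⟩
  refine hg γ Z.length ⟨nra γ ⟨nzc, fun P S c I m1 m2 => ?_⟩, by simp [hγ]⟩
    ⟨by rw [← h1]; simp, by rw [e3, h1]⟩ (by rwa [e3])
  have e4 : Z ++ flatA γ ++ (e, 0) :: r =
      Z ++ P ++ [(false, c)] ++ (flatF I ++ [(true, c)]) ++ (S ++ (e, 0) :: r) := by simp [m1]
  rw [e4] at ih' h2 hw
  have k : lastE (a, (0 : ℤ)) (Z ++ P ++ [(false, c)]) = (false, c) := lastE_append _ _ _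
  have k2 := step hp hq (M0 := flatF (decF (pn p q) (pn p q c) (shF I)) ++ [(true, c)]) ih' h2 hw
    ⟨(false, c), by simp, nzc _ (by simp [m1])⟩
    (by rw [List.map_append, List.map_append, ← fst_dec])
    (by rw [k, lastE_append, lastE_append]; rfl) (by rw [k]; exact dl_dec I c _ rfl m2)
  have k3 := h.2 ℤ (.top (.fin I)) (.top (.fin _)) (List.append_cancel_right k2)
  exact Dn.fin.inj (Up.top.inj k3)

end Pool.Agent.MP_e0ec03_al.Asy

end MrgPart2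

-- ======== part 3: formerly Pool.Agent.MP_e0ec03_al.asy.Parse
section MrgPart3

/-! THEOREM ASY, row PARSE: the valley grammar is unambiguous. -/

namespace Pool.Agent.MP_e0ec03_al.Asy

namespace Parse

variable {M : Type}

def appF : Fo M → Fo M → Fo M
  | .nil, G => G
  | .cons c c' I R, G => .cons c c' I (appF R G)

def preD (F : Fo M) : Dn M → Dn M
  | .fin G => .fin (appF F G)
  | .step G c d => .step (appF F G) c d

def preA (F : Fo M) : Up M → Up M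
  | .top d => .top (preD F d)
  | .step G c r => .step (appF F G) c r

def down (c : M) : Up M → Up M
  | .top d => .top (.step .nil c d)
  | .step F c' r => preA (.cons c c' F .nil) r

def prs : List (Bool × M) → Up M
  | [] => .top (.fin .nil)
  | (true, c) :: l => .step .nil c (prs l)
  | (false, c) :: l => down c (prs l)

theorem appF_nil (F : Fo M) : appF F .nil = F := by
  induction F with
  | nil => rfl
  | cons c c' I R _ ih => rw [appF, ih]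

theorem flat_appF (F G : Fo M) : flatF (appF F G) = flatF F ++ flatF G := by
  induction F with
  | nil => rfl
  | cons c c' I R _ ih => simp [appF, flatF, ih]

theorem flat_preA (F : Fo M) (r : Up M) : flatA (preA F r) = flatF F ++ flatA r := by
  rcases r with (_ | _) | _ <;> simp [preA, preD, flatA, flatD, flat_appF]

theorem flat_prs (l : List (Bool × M)) : flatA (prs l) = l := by
  induction l with
  | nil => rfl
  | cons e l ih =>
    obtain ⟨_ | _, c⟩ := e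
    · rw [prs]
      generalize prs l = r at ih
      cases r <;> simp [← ih, down, flat_preA, flatA, flatD, flatF]
    · simp [prs, flatA, flatF, ih]

theorem prs_flatF (F : Fo M) (l : List (Bool × M)) : prs (flatF F ++ l) = preA F (prs l) := by
  induction F generalizing l with
  | nil =>
    rw [flatF, List.nil_append]
    rcases prs l with (_ | _) | _ <;> rfl
  | cons c c' I R i j =>
    rw [flatF, List.cons_append, List.append_assoc, prs, i, List.cons_append, prs, j, preA,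
      appF_nil, down]
    rcases prs l with (_ | _) | _ <;> rfl

theorem prs_flatD (d : Dn M) : prs (flatD d) = .top d := by
  induction d with
  | fin F => rw [flatD, ← List.append_nil (flatF F), prs_flatF, prs, preA, preD, appF_nil]
  | step F c d ih => rw [flatD, prs_flatF, prs, ih, down, preA, preD, appF_nil]

theorem prs_flatA (r : Up M) : prs (flatA r) = r := by
  induction r with
  | top d => exact prs_flatD d
  | step F c r ih => rw [flatA, prs_flatF, prs, ih, preA, appF_nil]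

end Parse

theorem parse : ParseStmt :=
  ⟨fun _ v => ⟨_, Parse.flat_prs v⟩, fun _ γ γ' h => by
    rw [← Parse.prs_flatA γ, h, Parse.prs_flatA]⟩

end Pool.Agent.MP_e0ec03_al.Asy

end MrgPart3

-- marker of a merged file
example : 731051 + 164737 = 731051 + 164737 := rfl
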