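import Pool.Agent.MP_e0ec03_al.asy.Spa1
import Pool.Agent.MP_e0ec03_al.asy.Parse

-- ======== part 0: formerly Pool.Agent.MP_e0ec03_al.asy.Ar2
section MrgPart0

/-! Row AR2 of THEOREM ASY: the sandwich of a kernel. -/

namespace Pool.Agent.MP_e0ec03_al.Asy

open Classical Finset
open scoped ENNReal

namespace Ar2

/-- the geometric weight -/
noncomputable def g (d : ℤ) : ℝ≥0∞ := ENNReal.ofReal ((24 / 25 : ℝ) ^ d.natAbs)

theorem g_le (d : ℤ) : g d ≤ 1 :=
  ENNReal.ofReal_le_one.2 (pow_le_one₀ (by norm_num) (by norm_num))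

theorem g_all : ∑' d : ℤ, g d ≤ ENNReal.ofReal 50 := by
  have h := tsum_nat_add_neg (ENNReal.summable (f := g))
  have hs : Summable fun n : ℕ => (24 / 25 : ℝ) ^ n :=
    summable_geometric_of_lt_one (by norm_num) (by norm_num)
  have e : ∑' n : ℕ, (g n + g (-n)) = ENNReal.ofReal (∑' n : ℕ, 2 * (24 / 25 : ℝ) ^ n) := by
    rw [ENNReal.ofReal_tsum_of_nonneg (fun n => by positivity) (hs.mul_left 2)]
    refine tsum_congr fun n => ?_
    simp only [g, Int.natAbs_neg, Int.natAbs_natCast]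
    rw [← ENNReal.ofReal_add (by positivity) (by positivity), two_mul]
  rw [tsum_mul_left, tsum_geometric_of_lt_one (by norm_num) (by norm_num), h] at e
  refine le_trans le_self_add (e.le.trans (ENNReal.ofReal_le_ofReal (by norm_num)))

theorem g_sum {m : ℕ} (hm : 1 ≤ m) (x : ℤ) : ∑' c : ℤ, g (x - m * c) ≤ ENNReal.ofReal 50 := by
  refine le_trans (ENNReal.tsum_comp_le_tsum_of_injective (f := fun c : ℤ => x - m * c) ?_ g) g_all
  intro c c' h
  have h0 : (m : ℤ) ≠ 0 := by omega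
  have h1 : (m : ℤ) * c = m * c' := by simpa using h
  exact mul_left_cancel₀ h0 h1

theorem nearest {m : ℕ} (hm : 1 ≤ m) (x : ℤ) : ∃ n : ℤ, 2 * (x - m * n).natAbs ≤ m ∧
    ∀ c, c ≠ n → m ≤ 2 * (x - m * c).natAbs := by
  have h := near_nxt hm 1 x
  simp only [Nat.cast_one, one_mul] at h
  generalize nxt m 1 x = n at h
  have h1 : 2 * (x - m * n).natAbs ≤ m := by
    rw [← Int.natCast_natAbs] at h
    exact_mod_cast h
  refine ⟨n, h1, fun c hc => ?_⟩
  have h2 : ((m : ℤ) * (c - n)).natAbs ≤ (x - m * n).natAbs + (x - m * c).natAbs := by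
    rw [show (m : ℤ) * (c - n) = (x - m * n) - (x - m * c) by ring]
    exact Int.natAbs_sub_le _ _
  rw [Int.natAbs_mul, Int.natAbs_natCast] at h2
  have h3 : m * 1 ≤ m * (c - n).natAbs := Nat.mul_le_mul_left m (by omega)
  omega

theorem tri (p q : ℕ) (c c' c1 u : ℤ) : q * (c - c').natAbs ≤
    ((q : ℤ) * c - p * c1).natAbs + ((p : ℤ) * u - q * c').natAbs + p * (c1 - u).natAbs := by
  have h : ((q : ℤ) * (c - c')).natAbs ≤
      ((q : ℤ) * c - p * c1).natAbs + ((p : ℤ) * u - q * c').natAbs +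
        ((p : ℤ) * (c1 - u)).natAbs := by
    rw [show (q : ℤ) * (c - c') = (q * c - p * c1) + (p * u - q * c') + p * (c1 - u) by ring]
    exact (Int.natAbs_add_le _ _).trans (Nat.add_le_add_right (Int.natAbs_add_le _ _) _)
  simpa only [Int.natAbs_mul, Int.natAbs_natCast] using h

theorem tri' (p q : ℕ) (c c1 u : ℤ) : p * (c1 - u).natAbs ≤
    ((q : ℤ) * c - p * c1).natAbs + ((p : ℤ) * u - q * c).natAbs := by
  have h : ((p : ℤ) * (c1 - u)).natAbs ≤
      ((q : ℤ) * c - p * c1).natAbs + ((p : ℤ) * u - q * c).natAbs := by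
    rw [show (p : ℤ) * (c1 - u) = -((q * c - p * c1) + (p * u - q * c)) by ring, Int.natAbs_neg]
    exact Int.natAbs_add_le _ _
  simpa only [Int.natAbs_mul, Int.natAbs_natCast] using h

theorem cast_eq (n : ℕ) (d e : ℤ) : (2 : ℝ≥0∞) ^ n * (sE d * sE e) =
    ENNReal.ofReal (2 ^ n * (mu d / 2 * (mu e / 2))) := by
  have := mu_pos d
  rw [ENNReal.ofReal_mul (by positivity), ENNReal.ofReal_mul (by positivity),
    ENNReal.ofReal_pow (by norm_num), ENNReal.ofReal_ofNat, sE, sE]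

theorem cast_two (m : ℕ) (x : ℝ) :
    ENNReal.ofReal (2 ^ m * x) = (2 : ℝ≥0∞) ^ m * ENNReal.ofReal x := by
  rw [ENNReal.ofReal_mul (by positivity), ENNReal.ofReal_pow (by norm_num), ENNReal.ofReal_ofNat]

theorem key (n m : ℕ) (d e : ℤ) (h : 18 * (n - m) ≤ d.natAbs + e.natAbs) (x : ℝ)
    (hx : (13 / 20 : ℝ) ^ (d.natAbs + e.natAbs) ≤ x) :
    (2 : ℝ≥0∞) ^ n * (sE d * sE e) ≤ 2 ^ m * (ENNReal.ofReal (900 * x) * g d * g e) := by
  have hx0 : 0 ≤ x := le_trans (by positivity) hx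
  rw [cast_eq, g, g, ← ENNReal.ofReal_mul (by positivity), ← ENNReal.ofReal_mul (by positivity),
    ← cast_two]
  refine ENNReal.ofReal_le_ofReal ?_
  have a1 : (2 : ℝ) ^ n ≤ 2 ^ m * (26 / 25) ^ (d.natAbs + e.natAbs) := by
    calc (2 : ℝ) ^ n ≤ 2 ^ (m + (n - m)) := pow_le_pow_right₀ one_le_two (by omega)
      _ = 2 ^ m * 2 ^ (n - m) := pow_add _ _ _
      _ ≤ 2 ^ m * ((26 / 25) ^ 18) ^ (n - m) :=
        mul_le_mul_of_nonneg_left (pow_le_pow_left₀ (by norm_num) (by norm_num) _) (by positivity)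
      _ ≤ _ := by
        rw [← pow_mul]
        exact mul_le_mul_of_nonneg_left (pow_le_pow_right₀ (by norm_num) h) (by positivity)
  have a2 : mu d / 2 * (mu e / 2) ≤ 900 * (3 / 5) ^ (d.natAbs + e.natAbs) := by
    have b1 := mu_le_exp d
    have b2 := mu_le_exp e
    have b3 := mu_pos e
    calc mu d / 2 * (mu e / 2) ≤ (30 * (3 / 5) ^ d.natAbs) * (30 * (3 / 5) ^ e.natAbs) :=
        mul_le_mul (by linarith) (by linarith) (by positivity) (by positivity)
      _ = _ := by rw [pow_add]; ring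
  have a3 : (26 / 25 : ℝ) ^ (d.natAbs + e.natAbs) * (3 / 5) ^ (d.natAbs + e.natAbs) =
      (13 / 20) ^ (d.natAbs + e.natAbs) * ((24 / 25) ^ d.natAbs * (24 / 25) ^ e.natAbs) := by
    rw [← pow_add, ← mul_pow, ← mul_pow]
    norm_num
  have b1 := mu_pos d
  have b2 := mu_pos e
  calc (2 : ℝ) ^ n * (mu d / 2 * (mu e / 2))
      ≤ (2 ^ m * (26 / 25) ^ (d.natAbs + e.natAbs)) * (900 * (3 / 5) ^ (d.natAbs + e.natAbs)) :=
        mul_le_mul a1 a2 (by positivity) (by positivity)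
    _ = 2 ^ m * 900 * ((26 / 25 : ℝ) ^ (d.natAbs + e.natAbs) * (3 / 5) ^ (d.natAbs + e.natAbs)) := by
        ring
    _ ≤ 2 ^ m * 900 * (x * ((24 / 25) ^ d.natAbs * (24 / 25) ^ e.natAbs)) := by
        rw [a3]
        exact mul_le_mul_of_nonneg_left (mul_le_mul_of_nonneg_right hx (by positivity))
          (by positivity)
    _ = _ := by ring

theorem near (n m : ℕ) (d e : ℤ) (h : n ≤ m) (h0 : d = 0 → e = 0 → n + 1 ≤ m) :
    (2 : ℝ≥0∞) ^ n * (sE d * sE e) ≤ 2 ^ m * ENNReal.ofReal (87 / 100) := by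
  rw [cast_eq, ← cast_two]
  refine ENNReal.ofReal_le_ofReal ?_
  have s3 := sqrt3_bounds.2
  have b1 := mu_pos d
  have b2 := mu_pos e
  have b3 := mu_le_two d
  have b4 := mu_le_two e
  have hp : (2 : ℝ) ^ n ≤ 2 ^ m := pow_le_pow_right₀ one_le_two h
  by_cases hd : d = 0
  · by_cases he : e = 0
    · have h1 : (2 : ℝ) ^ (n + 1) ≤ 2 ^ m := pow_le_pow_right₀ one_le_two (h0 hd he)
      have h2 : (0 : ℝ) < 2 ^ n := by positivity
      rw [hd, he, mu_zero]
      rw [pow_succ] at h1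
      linarith
    · have := mu_le_sqrt he
      exact mul_le_mul hp (by nlinarith) (by positivity) (by positivity)
  · have := mu_le_sqrt hd
    exact mul_le_mul hp (by nlinarith) (by positivity) (by positivity)

theorem small {D p : ℕ} (h : p ≤ D) : (13 / 20 : ℝ) ^ D ≤ (13 / 20) ^ p :=
  pow_le_pow_of_le_one (by norm_num) (by norm_num) h

theorem small' {D p : ℕ} (h : p ≤ 2 * D) : (13 / 20 : ℝ) ^ D ≤ (9 / 10) ^ p := by
  calc (13 / 20 : ℝ) ^ D ≤ ((9 / 10) ^ 2) ^ D := pow_le_pow_left₀ (by norm_num) (by norm_num) _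
    _ ≤ _ := by
      rw [← pow_mul]
      exact pow_le_pow_of_le_one (by norm_num) (by norm_num) h

theorem p1 (p q : ℕ) {c c1 u : ℤ} (h : u ≠ c1) : sE (q * c - p * c1) * sE (p * u - q * c) ≤
    ENNReal.ofReal (900 * (13 / 20) ^ p) * g (q * c - p * c1) := by
  have h1 := tri' p q c c1 u
  have h2 : p * 1 ≤ p * (c1 - u).natAbs := Nat.mul_le_mul_left p (by omega)
  have h3 := key 0 0 (q * c - p * c1) (p * u - q * c) (by omega) _ (small (p := p) (by omega))
  rw [pow_zero, one_mul, one_mul] at h3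
  exact h3.trans (mul_le_of_le_one_right' (g_le _))

theorem p2 {p q : ℕ} (hp : 18 ≤ p) (hq : p < q) {c c' : ℤ} (c1 : ℤ) (h : c' ≠ c) :
    2 ^ (c - c').natAbs * (sE (q * c - p * c1) * sE (p * c1 - q * c')) ≤
    ENNReal.ofReal (900 * (13 / 20) ^ p) * g (q * c - p * c1) * g (p * c1 - q * c') := by
  have h1 := tri p q c c' c1 c1
  rw [sub_self, Int.natAbs_zero, mul_zero, add_zero] at h1
  have h2 : q * 1 ≤ q * (c - c').natAbs := Nat.mul_le_mul_left q (by omega)
  have h4 : 18 * (c - c').natAbs ≤ q * (c - c').natAbs := Nat.mul_le_mul_right _ (by omega)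
  have h3 := key (c - c').natAbs 0 (q * c - p * c1) (p * c1 - q * c') (by omega) _
    (small (p := p) (by omega))
  rwa [pow_zero, one_mul] at h3

theorem p3 {p q : ℕ} (hp : 18 ≤ p) (hq : p < q) {c c1 u n1 n2 : ℤ} (c' : ℤ) (h : u ≠ c1)
    (a1 : 2 * ((q : ℤ) * c - p * n1).natAbs ≤ p)
    (a2 : ∀ x, x ≠ n1 → p ≤ 2 * ((q : ℤ) * c - p * x).natAbs)
    (b1 : 2 * ((p : ℤ) * u - q * n2).natAbs ≤ q)
    (b2 : ∀ x, x ≠ n2 → q ≤ 2 * ((p : ℤ) * u - q * x).natAbs) :
    2 ^ (c - c').natAbs * (sE (q * c - p * c1) * sE (p * u - q * c')) ≤ 2 ^ (c1 - u).natAbs *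
      ((if c' = n2 then (if c1 = n1 then ENNReal.ofReal (87 / 100) else 0) else 0) +
        ENNReal.ofReal (900 * (9 / 10) ^ p) * g (q * c - p * c1) * g (p * u - q * c')) := by
  have h1 := tri p q c c' c1 u
  have hm : 1 ≤ (c1 - u).natAbs := by omega
  generalize (c - c').natAbs = n at h1 ⊢
  generalize (c1 - u).natAbs = m at h1 hm ⊢
  have h2 : p * m + m ≤ q * m := by
    rw [← Nat.succ_mul]
    exact Nat.mul_le_mul_right m hq
  have h3 : q * (n - m) = q * n - q * m := Nat.mul_sub q n m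
  by_cases hc : c' = n2 ∧ c1 = n1
  · obtain ⟨rfl, rfl⟩ := hc
    rw [if_pos rfl, if_pos rfl]
    refine le_trans (near n m _ _ ?_ fun e1 e2 => ?_) (mul_le_mul_right le_self_add _)
    · by_contra hn
      have h4 : q * (m + 1) ≤ q * n := Nat.mul_le_mul_left q (by omega)
      rw [Nat.mul_succ] at h4
      omega
    · rw [e1, e2, Int.natAbs_zero] at h1
      by_contra hn
      have h4 : q * m ≤ q * n := Nat.mul_le_mul_left q (by omega)
      omega
  · have h4 : 18 * (n - m) ≤ q * (n - m) := Nat.mul_le_mul_right _ (by omega)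
    refine le_trans (key n m _ _ (by omega) _ (small' (p := p) ?_)) (mul_le_mul_right le_add_self _)
    by_cases e : c' = n2
    · have := a2 c1 fun e' => hc ⟨e, e'⟩
      omega
    · have := b2 c' e
      omega

theorem num1 {p : ℕ} (hp : 10 ^ 10 ≤ p) :
    ENNReal.ofReal (900 * (13 / 20) ^ p) * ENNReal.ofReal 50 * ENNReal.ofReal 50 ≤
      ENNReal.ofReal ((33 / 50) ^ p) := by
  rw [← ENNReal.ofReal_mul (by positivity), ← ENNReal.ofReal_mul (by positivity)]
  refine ENNReal.ofReal_le_ofReal ?_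
  have h1 := one_add_mul_le_pow (a := (1 / 65 : ℝ)) (by norm_num) p
  have h2 : (10 : ℝ) ^ 10 ≤ p := by exact_mod_cast hp
  have h3 : (33 / 50 : ℝ) ^ p = (13 / 20) ^ p * (1 + 1 / 65) ^ p := by
    rw [← mul_pow]; norm_num
  have h4 : (0 : ℝ) < (13 / 20) ^ p := by positivity
  rw [h3]
  nlinarith

theorem num2 {p : ℕ} (hp : 10 ^ 10 ≤ p) : ENNReal.ofReal (87 / 100) +
    ENNReal.ofReal (900 * (9 / 10) ^ p) * ENNReal.ofReal 50 * ENNReal.ofReal 50 ≤ 9 / 10 := by
  have e : (9 / 10 : ℝ≥0∞) = ENNReal.ofReal (9 / 10) := by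
    rw [ENNReal.ofReal_div_of_pos (by norm_num), ENNReal.ofReal_ofNat, ENNReal.ofReal_ofNat]
  rw [← ENNReal.ofReal_mul (by positivity), ← ENNReal.ofReal_mul (by positivity),
    ← ENNReal.ofReal_add (by positivity) (by positivity), e]
  refine ENNReal.ofReal_le_ofReal ?_
  have h1 := one_add_mul_le_pow (a := (1 / 9 : ℝ)) (by norm_num) p
  have h2 : (10 : ℝ) ^ 10 ≤ p := by exact_mod_cast hp
  have h3 : (9 / 10 : ℝ) ^ p * (1 + 1 / 9) ^ p = 1 := by
    rw [← mul_pow]; norm_num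
  have h4 : (0 : ℝ) < (9 / 10) ^ p := by positivity
  nlinarith

theorem diag {p q : ℕ} (hp : 10 ^ 10 ≤ p) {Y : ℤ → ℤ → ℝ≥0∞} {a b : ℝ≥0∞} (hY : Bd Y a b)
    (c : ℤ) : sand p q Y c c ≤ ∑' c1 : ℤ, sE (q * c - p * c1) ^ 2 * Y c1 c1 +
      ENNReal.ofReal ((33 / 50) ^ p) * b := by
  have h : ∀ c1 : ℤ, ∑' u : ℤ, sE (q * c - p * c1) * Y c1 u * sE (p * u - q * c) ≤
      sE (q * c - p * c1) ^ 2 * Y c1 c1 +
        ENNReal.ofReal (900 * (13 / 20) ^ p) * g (q * c - p * c1) * b := by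
    intro c1
    rw [tsum_split _ c1]
    refine add_le_add (le_of_eq ?_) (le_trans ?_ (mul_le_mul_right (hY c1).2 _))
    · rw [← sE_neg ((p : ℤ) * c1 - q * c), neg_sub]
      ring
    · rw [← ENNReal.tsum_mul_left]
      refine ENNReal.tsum_le_tsum fun u => ?_
      split_ifs with hu
      · simp
      · rw [mul_right_comm]
        exact mul_le_mul' (p1 p q hu) (le_mul_of_one_le_left' (one_le_pow₀ one_le_two))
  refine le_trans (ENNReal.tsum_le_tsum h) ?_
  rw [ENNReal.tsum_add, ENNReal.tsum_mul_right, ENNReal.tsum_mul_left]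
  refine add_le_add le_rfl (mul_le_mul_left (le_trans ?_ (num1 hp)) b)
  refine le_trans (mul_le_mul_right (g_sum (by omega) _) _) (le_mul_of_one_le_right' ?_)
  exact ENNReal.one_le_ofReal.2 (by norm_num)

theorem off {p q : ℕ} (hp : 10 ^ 10 ≤ p) (hq : p < q) {Y : ℤ → ℤ → ℝ≥0∞} {a b : ℝ≥0∞}
    (hY : Bd Y a b) (c : ℤ) :
    ∑' c' : ℤ, (if c' = c then 0 else 2 ^ (c - c').natAbs * sand p q Y c c') ≤
      ENNReal.ofReal ((33 / 50) ^ p) * a + 9 / 10 * b := by
  have e : ∑' c' : ℤ, (if c' = c then 0 else 2 ^ (c - c').natAbs * sand p q Y c c') =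
      ∑' c1 : ℤ, ∑' u : ℤ, Y c1 u * ∑' c' : ℤ, (if c' = c then 0 else
        2 ^ (c - c').natAbs * (sE (q * c - p * c1) * sE (p * u - q * c'))) := by
    simp only [← ENNReal.tsum_mul_left]
    refine Eq.trans ?_ (ENNReal.tsum_comm.trans (tsum_congr fun c1 => ENNReal.tsum_comm))
    refine tsum_congr fun c' => ?_
    split_ifs
    · simp
    · simp only [sand, ← ENNReal.tsum_mul_left]
      exact tsum_congr fun c1 => tsum_congr fun u => by ring
  obtain ⟨n1, a1, a2⟩ := nearest (m := p) (by omega) ((q : ℤ) * c)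
  have h : ∀ c1 : ℤ, ∑' u : ℤ, Y c1 u * ∑' c' : ℤ, (if c' = c then 0 else
        2 ^ (c - c').natAbs * (sE (q * c - p * c1) * sE (p * u - q * c'))) ≤
      a * (ENNReal.ofReal (900 * (13 / 20) ^ p) * ENNReal.ofReal 50 * g (q * c - p * c1)) +
        b * ((if c1 = n1 then ENNReal.ofReal (87 / 100) else 0) +
          ENNReal.ofReal (900 * (9 / 10) ^ p) * ENNReal.ofReal 50 * g (q * c - p * c1)) := by
    intro c1
    refine le_trans (hY.pot _ c1 _ fun u hu => ?_) (add_le_add (mul_le_mul_right ?_ a) le_rfl)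
    · obtain ⟨n2, b1, b2⟩ := nearest (m := q) (by omega) ((p : ℤ) * u)
      refine le_trans (ENNReal.tsum_le_tsum fun c' => le_trans ?_
        (p3 (by omega) hq c' hu a1 a2 b1 b2)) ?_
      · split_ifs
        · simp
        · rfl
      · rw [ENNReal.tsum_mul_left, ENNReal.tsum_add, tsum_ite_eq, ENNReal.tsum_mul_left,
          mul_right_comm _ (ENNReal.ofReal 50)]
        exact mul_le_mul_right (add_le_add le_rfl (mul_le_mul_right (g_sum (by omega) _) _)) _
    · rw [mul_right_comm _ (ENNReal.ofReal 50)]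
      refine le_trans ?_ (mul_le_mul_right (g_sum (m := q) (by omega) ((p : ℤ) * c1)) _)
      rw [← ENNReal.tsum_mul_left]
      refine ENNReal.tsum_le_tsum fun c' => ?_
      split_ifs with hc
      · simp
      · exact p2 (by omega) hq c1 hc
  rw [e]
  refine le_trans (ENNReal.tsum_le_tsum h) ?_
  rw [ENNReal.tsum_add, ENNReal.tsum_mul_left, ENNReal.tsum_mul_left, ENNReal.tsum_mul_left,
    ENNReal.tsum_add, tsum_ite_eq, ENNReal.tsum_mul_left, mul_comm a, mul_comm b]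
  have hg := g_sum (m := p) (by omega) ((q : ℤ) * c)
  exact add_le_add (mul_le_mul_left (le_trans (mul_le_mul_right hg _) (num1 hp)) a)
    (mul_le_mul_left (le_trans (add_le_add le_rfl (mul_le_mul_right hg _)) (num2 hp)) b)

end Ar2

theorem ar2 : Ar2Stmt :=
  ⟨10 ^ 10, fun _ _ hp hq _ _ _ hY c => ⟨Ar2.diag hp hY c, Ar2.off hp hq hY c⟩⟩

end Pool.Agent.MP_e0ec03_al.Asy

end MrgPart0

-- ======== part 1: formerly Pool.Agent.MP_e0ec03_al.asy.Gcan
section MrgPart1

/-! ROW GCAN of THEOREM ASY: every element of a ball has a minimal word, which avoids all wins. -/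

namespace Pool.Agent.MP_e0ec03_al.Asy

open Classical Finset

namespace Gcan

/-- change the exponents of a word by a list of integers -/
def ap : List (ℤ × Bool) → List ℤ → List (ℤ × Bool)
  | s :: l, d :: ds => (s.1 + d, s.2) :: ap l ds
  | l, _ => l

theorem tl_move (p q : ℕ) (b : Edge) :
    tl p q b.1 * gA p q ^ inn p q b = gA p q ^ out p q b * tl p q b.1 := by
  obtain ⟨e, c⟩ := b
  cases e
  · simpa [tl, inn, out] using (Core.rel_zpow' (g_rel (p := p) (q := q)) c).symm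
  · simpa [tl, inn, out] using (Core.rel_zpow (g_rel (p := p) (q := q)) c).symm

theorem move (p q : ℕ) : ∀ (l : List (ℤ × Bool)) (a : Edge) (v : List Edge),
    v.map Prod.fst = l.map Prod.snd →
    gA p q ^ inn p q a * evw p q l =
      evw p q (ap l (dl p q a v)) * gA p q ^ inn p q (lastE a v)
  | [], _, [], _ => by simp [ap, evw, lastE]
  | [], _, _ :: _, h => by simp at h
  | _ :: _, _, [], h => by simp at h
  | s :: l, a, b :: v, h => by
    simp only [List.map_cons, List.cons.injEq] at h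
    have ih := move p q l b v h.2
    have h1 := tl_move p q b
    simp only [ap, dl, evw, lastE, mul_assoc]
    rw [← ih, ← h.1, ← mul_assoc (tl p q b.1), h1]
    simp only [← mul_assoc, ← zpow_add]
    congr 3
    ring

theorem wl_ap : ∀ (l : List (ℤ × Bool)) (ds : List ℤ),
    (wl (ap l ds) : ℤ) = wl l + delta (l.map Prod.fst) ds
  | [], _ => by simp [ap]
  | _ :: _, [] => by simp [ap]
  | s :: l, d :: ds => by
    simp only [ap, wl, List.map_cons, delta_cons, Nat.cast_add, Nat.cast_one, wl_ap l ds,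
      Int.natCast_natAbs]
    ring

theorem ap_lt : ∀ (l : List (ℤ × Bool)) (ds : List ℤ), ds.length = l.length → lexneg ds →
    (ap l ds).map Prod.fst < l.map Prod.fst
  | _, [], _, h => by simp [lexneg] at h
  | [], _ :: _, h, _ => by simp at h
  | s :: l, d :: ds, h, h' => by
    simp only [ap, List.map_cons, List.cons_lt_cons_iff]
    rcases h' with h' | ⟨h1, h2⟩
    · left; omega
    · right; exact ⟨by simp [h1], ap_lt l ds (by simpa using h) h2⟩

theorem prepend (p q : ℕ) (x : ℤ) (l : List (ℤ × Bool)) (y : ℤ) : ∃ (l' : List (ℤ × Bool)) (y' : ℤ),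
    evw p q l' * gA p q ^ y' = gA p q ^ x * (evw p q l * gA p q ^ y) ∧
      wl l' + y'.natAbs ≤ x.natAbs + (wl l + y.natAbs) := by
  cases l with
  | nil => exact ⟨[], x + y, by simp [evw, zpow_add], by simp only [wl]; omega⟩
  | cons s l =>
    exact ⟨(x + s.1, s.2) :: l, y, by simp [evw, zpow_add, mul_assoc], by simp only [wl]; omega⟩

theorem rep (p q : ℕ) : ∀ w : List (Bool × Bool), ∃ (l : List (ℤ × Bool)) (y : ℤ),
    evw p q l * gA p q ^ y = (w.map (letter (gA p q) (gT p q))).prod ∧ wl l + y.natAbs ≤ w.length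
  | [] => ⟨[], 0, by simp [evw], by simp [wl]⟩
  | (c, e) :: w => by
    obtain ⟨l, y, h1, h2⟩ := rep p q w
    rw [List.map_cons, List.prod_cons, ← h1, List.length_cons]
    cases c
    · obtain ⟨l', y', h3, h4⟩ := prepend p q (if e then 1 else -1) l y
      refine ⟨l', y', ?_, ?_⟩
      · rw [h3]; cases e <;> simp [letter]
      · cases e <;> simp at h4 <;> omega
    · refine ⟨(0, e) :: l, y, ?_, ?_⟩
      · cases e <;> simp [letter, evw, tl, mul_assoc]
      · simp only [wl]; omega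

theorem shorten (p q : ℕ) (y : ℤ) : ∀ (l : List (ℤ × Bool)) (s : ℤ × Bool), ¬ Ok s.2 l →
    ∃ (l' : List (ℤ × Bool)) (y' : ℤ),
      evw p q l' * gA p q ^ y' = evw p q (s :: l) * gA p q ^ y ∧
        wl l' + y'.natAbs < wl (s :: l) + y.natAbs
  | [], _, h => by simp [Ok] at h
  | r :: l, s, h => by
    by_cases h0 : r.1 = 0 ∧ s.2 ≠ r.2
    · obtain ⟨l', y', h3, h4⟩ := prepend p q s.1 l y
      refine ⟨l', y', ?_, by simp only [wl]; omega⟩
      have h5 : tl p q s.2 * tl p q r.2 = 1 := by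
        have := h0.2
        revert this
        cases s.2 <;> cases r.2 <;> simp [tl]
      rw [h3]
      simp only [evw, h0.1, zpow_zero, one_mul, mul_assoc]
      rw [← mul_assoc (tl p q s.2), h5, one_mul]
    · obtain ⟨l', y', h3, h4⟩ := shorten p q y l r (fun h1 => h ⟨h0, h1⟩)
      refine ⟨s :: l', y', ?_, by simp only [wl] at h4 ⊢; omega⟩
      rw [evw, mul_assoc, h3]
      simp only [evw, mul_assoc]

theorem wl_bound : ∀ l : List (ℤ × Bool), l.length ≤ wl l ∧ ∀ s ∈ l, s.1.natAbs < wl l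
  | [] => by simp
  | r :: l => by
    obtain ⟨h1, h2⟩ := wl_bound l
    refine ⟨by simp only [wl, List.length_cons]; omega, fun s hs => ?_⟩
    rcases List.mem_cons.1 hs with rfl | hs
    · simp only [wl]; omega
    · have := h2 s hs
      simp only [wl]; omega

/-- the index set of the count -/
noncomputable def idx (N : ℕ) : Finset ((Σ _ : ℕ, List (ℤ × Bool)) × ℤ) :=
  (range (N + 1)).sigma (fun n => words (N + 1) n) ×ˢ Ioo (-((N + 1 : ℕ) : ℤ)) (N + 1 : ℕ)

theorem mem_idx {N : ℕ} {l : List (ℤ × Bool)} {y : ℤ} (h : wl l + y.natAbs ≤ N) :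
    (⟨l.length, l⟩, y) ∈ idx N := by
  obtain ⟨h1, h2⟩ := wl_bound l
  simp only [idx, mem_product, mem_sigma, mem_range, mem_words, mem_Ioo, true_and]
  refine ⟨⟨by omega, fun s hs => ?_⟩, by omega, by omega⟩
  have := h2 s hs
  rw [← Int.natCast_natAbs]
  omega

/-- a minimal word for an element of the ball -/
theorem exists_min {p q N : ℕ} {g : PresentedGroup (rels p q)} (hg : g ∈ ball p q N) :
    ∃ (l : List (ℤ × Bool)) (y : ℤ), evw p q l * gA p q ^ y = g ∧ wl l + y.natAbs ≤ N ∧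
      ∀ (l' : List (ℤ × Bool)) (y' : ℤ), evw p q l' * gA p q ^ y' = g →
        wl l + y.natAbs ≤ wl l' + y'.natAbs ∧
          (wl l' + y'.natAbs = wl l + y.natAbs → ¬ l'.map Prod.fst < l.map Prod.fst) := by
  obtain ⟨w, hw, rfl⟩ := mem_ball.1 hg
  obtain ⟨l0, y0, h1, h2⟩ := rep p q w
  obtain ⟨⟨⟨n, l⟩, y⟩, hx, hm⟩ := exists_min_image
    ((idx N).filter fun x => evw p q x.1.2 * gA p q ^ x.2 = (w.map (letter (gA p q) (gT p q))).prod)
    (fun x => (toLex (wl x.1.2 + x.2.natAbs, x.1.2.map Prod.fst) : ℕ ×ₗ List ℤ))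
    ⟨_, mem_filter.2 ⟨mem_idx (h2.trans hw), h1⟩⟩
  have h3 := hm _ (mem_filter.2 ⟨mem_idx (h2.trans hw), h1⟩)
  rw [Prod.Lex.toLex_le_toLex] at h3
  have h4 : wl l + y.natAbs ≤ N := by
    simp only at h3
    omega
  refine ⟨l, y, (mem_filter.1 hx).2, h4, fun l' y' h => ?_⟩
  by_cases h5 : wl l' + y'.natAbs ≤ N
  · have h6 := hm _ (mem_filter.2 ⟨mem_idx h5, h⟩)
    rw [Prod.Lex.toLex_le_toLex] at h6
    simp only at h6
    rcases h6 with h6 | ⟨h6, h7⟩
    · exact ⟨h6.le, fun h8 => by omega⟩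
    · exact ⟨h6.le, fun _ => not_lt.2 h7⟩
  · exact ⟨by omega, fun h8 => by omega⟩

/-- the weight of a word whose first letter is free -/
noncomputable def gw (p q : ℕ) (z : ℝ) : List (ℤ × Bool) → ℝ
  | [] => 1
  | s :: l => z ^ (s.1.natAbs + 1) * if Av p q s.2 l then wt z s.2 l else 0

theorem gw_nonneg (p q : ℕ) {z : ℝ} (hz : 0 ≤ z) : ∀ l, 0 ≤ gw p q z l
  | [] => zero_le_one
  | s :: l => mul_nonneg (by positivity) (by split_ifs; exacts [wt_nonneg hz _ _, le_rfl])

theorem exists_good {p q N : ℕ} (z : ℝ) {g : PresentedGroup (rels p q)} (hg : g ∈ ball p q N) :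
    ∃ (l : List (ℤ × Bool)) (y : ℤ), evw p q l * gA p q ^ y = g ∧ wl l + y.natAbs ≤ N ∧
      gw p q z l = z ^ wl l := by
  obtain ⟨l, y, h1, h2, h3⟩ := exists_min hg
  refine ⟨l, y, h1, h2, ?_⟩
  cases l with
  | nil => simp [gw, wl]
  | cons s l =>
    have hok : Ok s.2 l := by
      by_contra h
      obtain ⟨l', y', h4, h5⟩ := shorten p q y l s h
      exact absurd (h3 l' y' (h4.trans h1)).1 (not_le.2 h5)
    have hav : Av p q s.2 l := by
      rintro ds ⟨v, hv1, hv2, rfl⟩ hw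
      have h4 := move p q l (s.2, 0) v hv1
      have h5 : inn p q (lastE (s.2, (0 : ℤ)) v) = 0 := by simp [inn, hv2]
      rw [h5, inn_zero, zpow_zero, one_mul, mul_one] at h4
      obtain ⟨h6, h7⟩ := h3 (s :: ap l (dl p q (s.2, 0) v)) y (by rw [← h1, evw, evw, ← h4])
      have h8 := wl_ap l (dl p q (s.2, 0) v)
      simp only [wl] at h6 h7
      rcases hw with hw | ⟨hw, hw'⟩
      · omega
      · refine h7 (by omega) ?_
        simp only [List.map_cons, List.cons_lt_cons_iff]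
        refine Or.inr ⟨trivial, ap_lt l _ ?_ hw'⟩
        rw [dl_length]
        simpa using congrArg List.length hv1
    rw [gw, if_pos hav, wt_eq, if_pos hok, wl, pow_add z (s.1.natAbs + 1)]

theorem count {G ι : Type} (S : Set G) (T : Finset ι) (F : ι → G) (w : ι → ℝ) (c : ℝ)
    (hw : ∀ i ∈ T, 0 ≤ w i) (hc : 0 ≤ c) (h : ∀ g ∈ S, ∃ i ∈ T, F i = g ∧ c ≤ w i) :
    (S.ncard : ℝ) * c ≤ ∑ i ∈ T, w i := by
  have h1 : S ⊆ F '' (T.filter fun i => c ≤ w i : Finset ι) := fun g hg => by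
    obtain ⟨i, hi, h2, h3⟩ := h g hg
    exact ⟨i, by simp [hi, h3], h2⟩
  have h2 : S.ncard ≤ (T.filter fun i => c ≤ w i).card :=
    (Set.ncard_le_ncard h1 ((Finset.finite_toSet _).image _)).trans
      ((Set.ncard_image_le (Finset.finite_toSet _)).trans (Set.ncard_coe_finset _).le)
  calc (S.ncard : ℝ) * c ≤ (T.filter fun i => c ≤ w i).card * c :=
        mul_le_mul_of_nonneg_right (by exact_mod_cast h2) hc
    _ ≤ ∑ i ∈ T.filter fun i => c ≤ w i, w i := by
        rw [← nsmul_eq_mul]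
        exact card_nsmul_le_sum _ _ _ fun i hi => (mem_filter.1 hi).2
    _ ≤ _ := sum_le_sum_of_subset_of_nonneg (filter_subset _ _) fun i hi _ => hw i hi

theorem geo {z : ℝ} (h0 : 0 < z) (h1 : z ≤ 1 / 2) (N : ℕ) :
    ∑ x ∈ Ioo (-((N + 1 : ℕ) : ℤ)) (N + 1 : ℕ), z ^ x.natAbs ≤ 3 := by
  have key : ∀ N : ℕ, ∑ x ∈ Ioo (-((N + 1 : ℕ) : ℤ)) (N + 1 : ℕ), z ^ x.natAbs ≤
      3 - 2 * (1 / 2) ^ N := by
    intro N
    induction N with
    | zero =>
      have : Ioo (-((0 + 1 : ℕ) : ℤ)) (0 + 1 : ℕ) = {0} := by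
        ext x; simp only [mem_Ioo, mem_singleton]; omega
      rw [this]; norm_num
    | succ n ih =>
      have : Ioo (-((n + 1 + 1 : ℕ) : ℤ)) (n + 1 + 1 : ℕ) = insert ((n + 1 : ℕ) : ℤ)
          (insert (-((n + 1 : ℕ) : ℤ)) (Ioo (-((n + 1 : ℕ) : ℤ)) (n + 1 : ℕ))) := by
        ext x; simp only [mem_Ioo, mem_insert]; omega
      rw [this, sum_insert (by simp only [mem_Ioo, mem_insert]; omega), sum_insert (by simp),
        Int.natAbs_neg, Int.natAbs_natCast]
      have h2 : z ^ (n + 1) ≤ (1 / 2) ^ (n + 1) := pow_le_pow_left₀ h0.le h1 _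
      rw [pow_succ (1 / 2 : ℝ)] at h2 ⊢
      linarith
  have : (0 : ℝ) ≤ (1 / 2) ^ N := by positivity
  linarith [key N]

end Gcan

open Gcan in
theorem gcan : GcanStmt := by
  intro p q _ _ N z h0 h1
  have hz : z ≤ 1 := by linarith
  have hZ : ∀ n a, 0 ≤ Zav p q (N + 1) z n a := fun n a =>
    sum_nonneg fun l _ => by split_ifs; exacts [wt_nonneg h0.le _ _, le_rfl]
  have h2 := count (ball p q N) (idx N) (fun x => evw p q x.1.2 * gA p q ^ x.2)
    (fun x => gw p q z x.1.2 * z ^ x.2.natAbs) (z ^ N)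
    (fun x _ => mul_nonneg (gw_nonneg p q h0.le _) (by positivity)) (by positivity)
    (fun g hg => by
      obtain ⟨l, y, h2, h3, h4⟩ := exists_good z hg
      refine ⟨_, mem_idx h3, h2, ?_⟩
      simp only [h4, ← pow_add]
      exact pow_le_pow_of_le_one h0.le hz h3)
  refine h2.trans ?_
  have h3 : ∀ n, ∑ l ∈ words (N + 1) (n + 1), gw p q z l ≤
      3 * ∑ a : Bool, Zav p q (N + 1) z n a := by
    intro n
    rw [sum_words_succ]
    simp only [gw, ← mul_sum]
    rw [← sum_mul]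
    refine mul_le_mul_of_nonneg_right ((sum_le_sum fun x _ => ?_).trans (geo h0 h1 N))
      (sum_nonneg fun a _ => hZ n a)
    exact pow_le_pow_of_le_one h0.le hz (Nat.le_succ _)
  have h4 : ∑ n ∈ range (N + 1), ∑ l ∈ words (N + 1) n, gw p q z l ≤
      1 + 3 * ∑ a : Bool, ∑ n ∈ range (N + 1), Zav p q (N + 1) z n a := by
    rw [sum_range_succ', add_comm, sum_comm (s := univ), mul_sum]
    refine add_le_add (by rw [words, sum_lists_zero, gw]) ((sum_le_sum fun n _ => h3 n).trans ?_)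
    exact sum_le_sum_of_subset_of_nonneg (range_mono (Nat.le_succ N)) fun n _ _ =>
      mul_nonneg (by norm_num) (sum_nonneg fun a _ => hZ n a)
  rw [idx, sum_product]
  simp only [← mul_sum]
  rw [← sum_mul, sum_sigma]
  have h5 : 0 ≤ ∑ n ∈ range (N + 1), ∑ l ∈ words (N + 1) n, gw p q z l :=
    sum_nonneg fun n _ => sum_nonneg fun l _ => gw_nonneg p q h0.le l
  have h6 := mul_le_mul_of_nonneg_left (geo h0 h1 N) h5
  linarith

end Pool.Agent.MP_e0ec03_al.Asy

end MrgPart1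

-- marker of a merged file
example : 731051 + 329914 = 731051 + 329914 := rfl
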