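import Pool.Agent.MP_e0ec03_al.asy.Parse

/-! Lower bound for the weight of the local winning words. -/

namespace Pool.Agent.MP_e0ec03_al.Asy

open Classical Finset

namespace Loc

theorem r_pos : (0 : ℝ) < 1 / √3 := by positivity

theorem r_sq : (1 / √3 : ℝ) ^ 2 = 1 / 3 := by
  rw [div_pow, Real.sq_sqrt (by norm_num), one_pow]

theorem geo (j : ℕ) : ∑ i ∈ range j, (1 / 3 : ℝ) ^ i = 3 / 2 * (1 - (1 / 3) ^ j) := by
  induction j with
  | zero => simp
  | succ j ih => rw [sum_range_succ, ih]; ring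

theorem icc_succ (a b : ℤ) (h : a ≤ b) (f : ℤ → ℝ) :
    ∑ x ∈ Icc (a - 1) (b + 1), f x = f (a - 1) + (f (b + 1) + ∑ x ∈ Icc a b, f x) := by
  rw [← sum_insert (by simp), ← sum_insert (by simp; omega)]
  refine sum_congr (ext fun x => ?_) fun _ _ => rfl
  simp only [mem_Icc, mem_insert]
  omega

theorem stay (d : ℤ) (j : ℕ) :
    ∑ x ∈ Icc (min 0 (-d) - j) (max 0 (-d) + j), (1 / √3 : ℝ) ^ (x.natAbs + (x + d).natAbs) =
      (1 / √3) ^ d.natAbs * (d.natAbs + 2 - (1 / 3) ^ j) := by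
  induction j with
  | zero =>
    rw [sum_congr rfl (g := fun _ => (1 / √3 : ℝ) ^ d.natAbs) fun x hx => by
      rw [mem_Icc] at hx
      congr 1
      omega, sum_const, Int.card_Icc,
      show (max 0 (-d) + (0 : ℕ) + 1 - (min 0 (-d) - (0 : ℕ))).toNat = d.natAbs + 1 by omega]
    simp only [nsmul_eq_mul]
    push_cast
    ring
  | succ j ih =>
    rw [Nat.cast_succ, ← sub_sub, ← add_assoc, icc_succ _ _ (by omega), ih,
      show (min 0 (-d) - j - 1).natAbs + (min 0 (-d) - j - 1 + d).natAbs =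
        d.natAbs + 2 * (j + 1) by omega,
      show (max 0 (-d) + j + 1).natAbs + (max 0 (-d) + j + 1 + d).natAbs =
        d.natAbs + 2 * (j + 1) by omega, pow_add, pow_mul, r_sq]
    ring

theorem conv (x d : ℤ) : (1 / 3 : ℝ) ^ (x.natAbs + 1) * (1 / √3) ^ (|x + d| - |x|) =
    1 / 3 * (1 / √3) ^ (x.natAbs + (x + d).natAbs) := by
  rw [pow_succ, ← r_sq, ← pow_mul, ← zpow_natCast, ← zpow_natCast _ (x.natAbs + _), mul_right_comm,
    ← zpow_add₀ r_pos.ne', mul_comm]
  congr 2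
  push_cast
  ring

/-- one vertex -/
theorem vert {p q k j D : ℕ} (hpq : p ≤ q) (hD : D < p) (hk : D + j < k) (a b : Edge)
    (hd : |inn p q a - out p q b| ≤ D) :
    (1 - (1 / 3) ^ j) * vtx 0 p q a b ≤ ∑ x ∈ Ioo (-(k : ℤ)) k,
      (if x = 0 ∧ a.1 ≠ b.1 then 0 else (1 / 3 : ℝ) ^ (x.natAbs + 1)) *
        (1 / √3) ^ (|x + (inn p q a - out p q b)| - |x|) := by
  have t0 : (0 : ℝ) ≤ (1 / 3) ^ j := by positivity
  have key : ∀ d : ℤ, |d| ≤ D → 1 / 3 * ((1 / √3 : ℝ) ^ d.natAbs * (d.natAbs + 2 - (1 / 3) ^ j)) ≤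
      ∑ x ∈ Ioo (-(k : ℤ)) k, (1 / 3 : ℝ) ^ (x.natAbs + 1) * (1 / √3) ^ (|x + d| - |x|) := by
    intro d h
    simp only [conv, ← mul_sum]
    rw [← stay]
    refine mul_le_mul_of_nonneg_left (sum_le_sum_of_subset_of_nonneg (fun x hx => ?_)
      fun _ _ _ => by positivity) (by norm_num)
    rw [mem_Icc] at hx
    rw [abs_le] at h
    exact mem_Ioo.2 (by omega)
  unfold vtx kk ps
  by_cases h : a.1 = b.1
  · simp only [h, ne_eq, not_true_eq_false, and_false, if_true, if_false, neg_zero, ite_self]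
    refine le_trans ?_ (key _ hd)
    generalize inn p q a - out p q b = d
    have : (0 : ℝ) ≤ d.natAbs := Nat.cast_nonneg _
    have h1 : (0 : ℝ) < (1 / √3) ^ d.natAbs := pow_pos r_pos _
    rw [mu, div_eq_mul_one_div _ (√3 ^ _), ← one_div_pow]
    nlinarith [mul_nonneg h1.le (mul_nonneg t0 this), mul_nonneg h1.le t0]
  · have h0 : inn p q a - out p q b = 0 := by
      by_contra m
      have := turn_dd hpq h m
      omega
    have k0 := key 0 (by simp)
    rw [← add_sum_erase _ _ (show (0 : ℤ) ∈ Ioo (-(k : ℤ)) k from mem_Ioo.2 (by omega))] at k0 ⊢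
    rw [sum_congr rfl (g := fun x : ℤ => (1 / 3 : ℝ) ^ (x.natAbs + 1) * (1 / √3) ^ (|x + 0| - |x|))
      fun x hx => by rw [if_neg fun m => (mem_erase.1 hx).1 m.1, h0]]
    simp only [h, h0, if_true, if_false, ne_eq, not_false_eq_true, and_self, neg_zero, ite_self]
    norm_num at k0 ⊢
    linarith

/-- the middle part -/
theorem mid {p q k j D : ℕ} (hpq : p ≤ q) (hD : D < p) (hk : D + j < k) :
    ∀ (u : List Edge) (e : Edge), (∀ d ∈ dl p q e u, |d| ≤ D) →
      (1 - (1 / 3) ^ j) ^ u.length * pw 0 p q e u ≤ ∑ xs ∈ lists (Ioo (-(k : ℤ)) k) u.length,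
        wt (1 / 3) e.1 (xs.zip (u.map Prod.fst)) * (1 / √3) ^ delta xs (dl p q e u)
  | [], e, _ => by simp [pw, lists, wt, dl]
  | b :: u, e, h => by
    have t1 : (0 : ℝ) ≤ 1 - (1 / 3) ^ j := sub_nonneg.2 (pow_le_one₀ (by norm_num) (by norm_num))
    have h1 := vert hpq hD hk e b (h _ (by simp [dl]))
    have h2 := mid hpq hD hk u b fun d hd => h d (by simp [dl, hd])
    rw [List.length_cons, sum_lists_succ]
    simp only [List.map_cons, List.zip_cons_cons, wt, dl, delta_cons, zpow_add₀ r_pos.ne', pw]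
    calc _ = ((1 - (1 / 3) ^ j) * vtx 0 p q e b) * ((1 - (1 / 3) ^ j) ^ u.length * pw 0 p q b u) := by
          ring
      _ ≤ _ := mul_le_mul h1 h2 (mul_nonneg (pow_nonneg t1 _) (pw_nonneg le_rfl (by norm_num) _ _ _ _))
          ((mul_nonneg t1 (vtx_nonneg le_rfl (by norm_num) _ _ _ _)).trans h1)
      _ = _ := by
          rw [sum_mul_sum]
          exact sum_congr rfl fun _ _ => sum_congr rfl fun _ _ => by ring

theorem delta_abs {D : ℕ} : ∀ xs ds : List ℤ, (∀ d ∈ ds, |d| ≤ D) →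
    |delta xs ds| ≤ ds.length * D
  | [], _, _ => by simp; positivity
  | _ :: _, [], _ => by simp
  | x :: xs, d :: ds, h => by
    have h1 := delta_abs xs ds fun y hy => h y (by simp [hy])
    have h2 := h d (by simp)
    have h3 := abs_abs_sub_abs_le_abs_sub (x + d) x
    rw [add_sub_cancel_left] at h3
    rw [delta_cons, List.length_cons]
    push_cast
    linarith [abs_add_le (|x + d| - |x|) (delta xs ds)]

theorem delta_even : ∀ xs ds : List ℤ, xs.length = ds.length → (delta xs ds - ds.sum) % 2 = 0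
  | [], [], _ => by simp
  | [], _ :: _, h => by simp at h
  | _ :: _, [], h => by simp at h
  | x :: xs, d :: ds, h => by
    have := delta_even xs ds (by simpa using h)
    rw [delta_cons, List.sum_cons]
    rcases abs_cases (x + d) with a | a <;> rcases abs_cases x with b | b <;> omega

/-- the threshold -/
theorem thr {s κ κ' : ℤ} (hs : s = 1 ∨ s = -1) (h0 : 0 ≤ κ) (h : (κ - κ') % 2 = 0) :
    ∃ M : ℕ, κ ≤ 2 * M ∧ 2 * M ≤ κ + 2 ∧ (1 / 3 : ℝ) ^ M = (1 / √3) ^ κ * gs s κ' ∧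
      ∀ t : ℕ, κ - 2 * t < 0 ∨ κ - 2 * t = 0 ∧ s = 1 ↔ M ≤ t := by
  obtain ⟨n, rfl⟩ := Int.eq_ofNat_of_zero_le h0
  rw [zpow_natCast, gs]
  rcases Nat.even_or_odd' n with ⟨m, rfl | rfl⟩
  · rw [if_pos (Int.even_iff.2 (by omega)), pow_mul, r_sq]
    rcases hs with rfl | rfl
    · exact ⟨m, by omega, by omega, by simp, fun t => by omega⟩
    · exact ⟨m + 1, by omega, by omega, by rw [if_neg (by omega), pow_succ], fun t => by omega⟩
  · refine ⟨m + 1, by omega, by omega, ?_, fun t => by omega⟩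
    rw [if_neg fun x => by have := Int.even_iff.1 x; omega, ← pow_succ,
      show 2 * m + 1 + 1 = 2 * (m + 1) by ring, pow_mul, r_sq]

/-- the two ends -/
theorem pairs {p k j A M : ℕ} (h1 : k ≤ A) (h2 : p + k ≤ M + A) (h3 : M + j ≤ p + A) :
    ((p : ℝ) - 2 * A) * (1 / 6 * (1 - (1 / 3) ^ j) * (1 / 3) ^ M) ≤
      ∑ X ∈ Ico k p, ∑ Y ∈ Ico k p,
        if M ≤ X + Y then (1 / 3 : ℝ) ^ (X + 1) * (1 / 3) ^ (Y + 1) else 0 := by
  have t1 : (0 : ℝ) ≤ 1 - (1 / 3) ^ j := sub_nonneg.2 (pow_le_one₀ (by norm_num) (by norm_num))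
  refine le_trans ?_ (sum_le_sum_of_subset_of_nonneg (Ico_subset_Ico h1 (Nat.sub_le p A))
    fun _ _ _ => sum_nonneg fun _ _ => by split_ifs <;> positivity)
  refine le_trans ?_ (card_nsmul_le_sum _ _ (1 / 6 * (1 - (1 / 3) ^ j) * (1 / 3) ^ M) fun X hX => ?_)
  · rw [nsmul_eq_mul, Nat.card_Ico]
    refine mul_le_mul_of_nonneg_right ?_ (by positivity)
    have : (p : ℝ) ≤ (p - A - A : ℕ) + 2 * A := by exact_mod_cast (by omega : p ≤ p - A - A + 2 * A)
    linarith
  · rw [mem_Ico] at hX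
    obtain ⟨Y, rfl⟩ := Nat.exists_eq_add_of_le (show X ≤ M by omega)
    refine le_trans (le_of_eq ?_) (sum_le_sum_of_subset_of_nonneg
      (Ico_subset_Ico (show k ≤ Y by omega) (show Y + j ≤ p by omega))
      fun _ _ _ => by split_ifs <;> positivity)
    rw [sum_Ico_eq_sum_range, Nat.add_sub_cancel_left,
      sum_congr rfl (g := fun i => 1 / 9 * (1 / 3 : ℝ) ^ (X + Y) * (1 / 3) ^ i)
        fun i _ => by rw [if_pos (by omega)]; ring, ← mul_sum, geo]
    ring

end Loc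

open Loc in
theorem loc : LocStmt := by
  intro ε hε L D
  obtain ⟨j, hj⟩ := exists_pow_lt_of_lt_one (show 0 < ε / 2 / (L + 1) by positivity)
    (show (1 / 3 : ℝ) < 1 by norm_num)
  refine ⟨D + j + 1, fun k hk => ?_⟩
  obtain ⟨A, hA⟩ : ∃ A, A = k + j + D + L * D + 1 := ⟨_, rfl⟩
  obtain ⟨p1, hp1⟩ := exists_nat_ge (4 * (A : ℝ) / ε)
  refine ⟨p1 + A, fun p q hp hpq e u hs hl hL hd ho hi => ?_⟩
  obtain ⟨o, o1, o2⟩ : ∃ o : ℕ, p ≤ o ∧ out p q e = e.2 * o := by
    unfold out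
    split_ifs
    exacts [⟨q, hpq.le, mul_comm _ _⟩, ⟨p, le_rfl, mul_comm _ _⟩]
  obtain ⟨i, i1, i2⟩ : ∃ i : ℕ, p ≤ i ∧ inn p q (lastE e u) = e.2 * i := by
    unfold inn
    rw [hl]
    split_ifs
    exacts [⟨p, le_rfl, mul_comm _ _⟩, ⟨q, hpq.le, mul_comm _ _⟩]
  have ab : ∀ n : ℕ, (e.2 * n).natAbs = n := fun n => by
    rcases hs with h | h <;> simp [h]
  have o3 : o ≤ p + D := by
    rw [o2, ← Int.natCast_natAbs, ab] at ho
    exact_mod_cast ho
  have i3 : i ≤ p + D := by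
    rw [i2, ← Int.natCast_natAbs, ab] at hi
    exact_mod_cast hi
  have t0 : (0 : ℝ) ≤ (1 / 3) ^ j := by positivity
  have t1 : (0 : ℝ) ≤ 1 - (1 / 3) ^ j := sub_nonneg.2 (pow_le_one₀ (by norm_num) (by norm_num))
  have g0 : 0 ≤ gs e.2 (out p q e + inn p q (lastE e u) + (dl p q e u).sum) := by
    unfold gs
    split_ifs <;> positivity
  have pA : (0 : ℝ) ≤ p - 2 * A ∨ (p : ℝ) - 2 * A ≤ 0 := le_total _ _
  have key : ∀ xs ∈ lists (Ioo (-(k : ℤ)) k) u.length,
      ((p : ℝ) - 2 * A) / 3 * (1 - (1 / 3) ^ j) * ((1 / √3) ^ (o + i) *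
        gs e.2 (out p q e + inn p q (lastE e u) + (dl p q e u).sum)) *
        (wt (1 / 3) e.1 (xs.zip (u.map Prod.fst)) * (1 / √3) ^ delta xs (dl p q e u)) ≤
      ∑ X ∈ Ico k p, ∑ Y ∈ Ico k p, ∑ b : Bool,
        if win ((locWord e.2 e.1 (u.map Prod.fst) X xs Y b).map Prod.fst)
            (dl p q (true, 0) (e :: u ++ [(b, 0)])) then
          wt (1 / 3) true (locWord e.2 e.1 (u.map Prod.fst) X xs Y b) else 0 := fun xs hx => by
    have l1 := ((mem_lists _ _ _).1 hx).1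
    have l2 : xs.length = (dl p q e u).length := by rw [dl_length, l1]
    have d1 := delta_abs xs _ hd
    have d2 := delta_even xs _ l2
    have d3 : (u.length : ℤ) * D ≤ (L * D : ℕ) := by exact_mod_cast Nat.mul_le_mul_right D hL
    rw [dl_length, abs_le] at d1
    obtain ⟨M, m1, m2, m3, m4⟩ := thr (κ := o + i + delta xs (dl p q e u))
      (κ' := out p q e + inn p q (lastE e u) + (dl p q e u).sum) hs (by omega)
      (by rw [o2, i2]; rcases hs with h | h <;> rw [h] <;> omega)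
    have w0 := wt_nonneg (show (0 : ℝ) ≤ 1 / 3 by norm_num) e.1 (xs.zip (u.map Prod.fst))
    have := mul_le_mul_of_nonneg_left (pairs (p := p) (k := k) (j := j) (A := A) (M := M)
      (by omega) (by omega) (by omega)) (mul_nonneg zero_le_two w0)
    refine le_trans (le_of_eq ?_) (this.trans (le_of_eq ?_))
    · rw [m3, zpow_add₀ r_pos.ne', ← Nat.cast_add, zpow_natCast]
      ring
    rw [mul_sum]
    refine sum_congr rfl fun X hX => ?_
    rw [mul_sum]
    refine sum_congr rfl fun Y hY => ?_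
    rw [mem_Ico] at hX hY
    have e1 : ∀ b : Bool, win ((locWord e.2 e.1 (u.map Prod.fst) X xs Y b).map Prod.fst)
        (dl p q (true, 0) (e :: u ++ [(b, 0)])) ↔ M ≤ X + Y := fun b => by
      rw [← m4, locWord, List.map_cons, List.map_append, List.map_fst_zip (by simp [l1]),
        List.cons_append, dl, dl_append, win, delta_cons, delta_append _ _ _ _ l2, lexneg]
      simp only [dl, List.map_cons, List.map_nil, delta_cons, delta_nil_left, inn_zero, out_zero,
        o2, i2, ← Int.natCast_natAbs]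
      rcases hs with h | h <;> rw [h] <;> omega
    have e2 : ∀ b : Bool, wt (1 / 3) true (locWord e.2 e.1 (u.map Prod.fst) X xs Y b) =
        wt (1 / 3) e.1 (xs.zip (u.map Prod.fst)) * ((1 / 3) ^ (X + 1) * (1 / 3) ^ (Y + 1)) :=
      fun b => by
        have a1 := ab X
        have a2 := ab Y
        rw [locWord, wt, wt_append, wt, wt, if_neg fun m => by have := m.1; omega,
          if_neg fun m => by have := m.1; omega]
        simp only [Int.natAbs_neg, a1, a2]
        ring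
    simp only [e1, e2, Fintype.sum_bool]
    split_ifs <;> ring
  have m := mid (q := q) (k := k) (j := j) hpq.le (show D < p by omega) (by omega) u e hd
  have pw0 := pw_nonneg (δ := 0) le_rfl (by norm_num) p q e u
  have c0 : (0 : ℝ) ≤ (1 / √3) ^ (o + i) *
    gs e.2 (out p q e + inn p q (lastE e u) + (dl p q e u).sum) := by positivity
  have G1 : ((1 : ℝ) - (1 / 3) ^ j) ^ (u.length + 1) ≤ 1 := pow_le_one₀ t1 (by linarith)
  have G2 : 1 - ε / 2 ≤ ((1 : ℝ) - (1 / 3) ^ j) ^ (u.length + 1) := by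
    have a := one_add_mul_le_pow (a := -(1 / 3 : ℝ) ^ j) (by linarith) (u.length + 1)
    have b : (u.length : ℝ) ≤ L := by exact_mod_cast hL
    rw [lt_div_iff₀ (by positivity)] at hj
    push_cast at a
    rw [← sub_eq_add_neg] at a
    nlinarith
  have P1 : 4 * (A : ℝ) ≤ ε * p := by
    have : (p1 : ℝ) ≤ p := by exact_mod_cast (by omega : p1 ≤ p)
    rw [div_le_iff₀ hε] at hp1
    nlinarith
  have A0 : (0 : ℝ) ≤ A := Nat.cast_nonneg _
  have p0 : (0 : ℝ) ≤ p := Nat.cast_nonneg _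
  have fin : (1 - ε) * (p / 3) ≤
      ((p : ℝ) - 2 * A) / 3 * (1 - (1 / 3) ^ j) ^ (u.length + 1) := by nlinarith
  have ln : 0 ≤ Loc p q k (e :: u) := sum_nonneg fun _ _ => sum_nonneg fun _ _ =>
    sum_nonneg fun _ _ => sum_nonneg fun _ _ => by
      split_ifs
      exacts [wt_nonneg (by norm_num) _ _, le_rfl]
  rw [core, o2, i2, ab, ab, ← o2, ← i2]
  refine (mul_le_mul_of_nonneg_right fin (mul_nonneg c0 pw0)).trans ?_
  rcases pA with h | h
  · have s := sum_le_sum key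
    rw [← mul_sum] at s
    refine le_trans (le_trans (le_of_eq (by ring)) (mul_le_mul_of_nonneg_left m
      (mul_nonneg (mul_nonneg (div_nonneg h (by norm_num)) t1) c0))) (s.trans (le_of_eq ?_))
    rw [Loc, sum_comm]
    refine sum_congr rfl fun _ _ => ?_
    rw [sum_comm]
    refine sum_congr rfl fun _ _ => ?_
    rw [sum_comm]
  · exact le_trans (mul_nonpos_of_nonpos_of_nonneg (mul_nonpos_of_nonpos_of_nonneg (by linarith)
      (pow_nonneg t1 _)) (mul_nonneg c0 pw0)) ln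

end Pool.Agent.MP_e0ec03_al.Asy
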