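import Mathlib.Combinatorics.SimpleGraph.Basic
import Pool.Agent.MP_e0ec03_al.asy.Parse

-- ======== part 0: formerly Pool.Agent.MP_e0ec03_al.asy.Kern
section MrgPart0

/-! Recursions for the valley kernels of THEOREM ASY. -/

namespace Pool.Agent.MP_e0ec03_al.Asy

open Classical Finset
open scoped ENNReal

/-- bound an infinite sum through its truncations -/
theorem tsum_le_of_trunc {α : Type} (f : α → ℝ≥0∞) (n : α → ℕ) (B : ℝ≥0∞)
    (h : ∀ k : ℕ, ∑' x, (if n x ≤ k then f x else 0) ≤ B) : ∑' x, f x ≤ B := by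
  rw [ENNReal.tsum_eq_iSup_sum]
  refine iSup_le fun s => le_trans ?_ (h (s.sup n))
  refine le_trans (le_of_eq (sum_congr rfl fun x hx => ?_)) (ENNReal.sum_le_tsum s)
  rw [if_pos (le_sup hx)]

def foEquiv (M : Type) : Option (M × M × Fo M × Fo M) ≃ Fo M where
  toFun x := match x with
    | none => .nil
    | some y => .cons y.1 y.2.1 y.2.2.1 y.2.2.2
  invFun F := match F with
    | .nil => none
    | .cons c c' I R => some (c, c', I, R)
  left_inv x := by cases x <;> rfl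
  right_inv F := by cases F <;> rfl

def dnEquiv (M : Type) : Fo M ⊕ (Fo M × M × Dn M) ≃ Dn M where
  toFun x := match x with
    | .inl F => .fin F
    | .inr y => .step y.1 y.2.1 y.2.2
  invFun d := match d with
    | .fin F => .inl F
    | .step F c d => .inr (F, c, d)
  left_inv x := by cases x <;> rfl
  right_inv F := by cases F <;> rfl

def upEquiv (M : Type) : Dn M ⊕ (Fo M × M × Up M) ≃ Up M where
  toFun x := match x with
    | .inl d => .top d
    | .inr y => .step y.1 y.2.1 y.2.2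
  invFun d := match d with
    | .top d => .inl d
    | .step F c d => .inr (F, c, d)
  left_inv x := by cases x <;> rfl
  right_inv F := by cases F <;> rfl

theorem tsum_sum_type {α β : Type} (f : α ⊕ β → ℝ≥0∞) :
    ∑' x, f x = ∑' a, f (.inl a) + ∑' b, f (.inr b) :=
  (HasSum.sum ENNReal.summable.hasSum ENNReal.summable.hasSum).tsum_eq

theorem tsum_fo {M : Type} (f : Fo M → ℝ≥0∞) :
    ∑' F, f F = f .nil + ∑' c, ∑' x : M × Fo M × Fo M, f (.cons c x.1 x.2.1 x.2.2) := by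
  rw [← (foEquiv M).tsum_eq, ← (Equiv.optionEquivSumPUnit.{0} _).symm.tsum_eq, tsum_sum_type,
    add_comm, ENNReal.tsum_prod']
  simp [foEquiv]

theorem tsum_dn {M : Type} (f : Dn M → ℝ≥0∞) :
    ∑' d, f d = ∑' F, f (.fin F) + ∑' F, ∑' c, ∑' d, f (.step F c d) := by
  rw [← (dnEquiv M).tsum_eq, tsum_sum_type, ENNReal.tsum_prod']
  simp only [ENNReal.tsum_prod']
  rfl

theorem tsum_up {M : Type} (f : Up M → ℝ≥0∞) :
    ∑' γ, f γ = ∑' d, f (.top d) + ∑' F, ∑' c, ∑' r, f (.step F c r) := by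
  rw [← (upEquiv M).tsum_eq, tsum_sum_type, ENNReal.tsum_prod']
  simp only [ENNReal.tsum_prod']
  rfl

theorem lastE_flatF {M : Type} (c : M) : ∀ F : Fo M, (lastE (true, c) (flatF F)).1 = true
  | .nil => rfl
  | .cons _ c' _ R => by
    simp only [flatF, lastE, lastE_append]
    exact lastE_flatF c' R

theorem lastE_cons {M : Type} (a : Bool × M) (c c' : M) (I R : Fo M) :
    lastE a (flatF (.cons c c' I R)) = lastE (true, c') (flatF R) := by
  simp only [flatF, lastE, lastE_append]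

theorem top_last {c : ℤ} : ∀ {R : Fo ℤ}, Top c R → lastE (true, c) (flatF R) = (true, c)
  | .nil, _ => rfl
  | .cons _ _ _ R, h => by
    rw [lastE_cons, h.2.1]
    exact top_last h.2.2

theorem top_decF (nx : ℤ → ℤ) (c : ℤ) : ∀ F : Fo Unit, Top c (decF nx c F)
  | .nil => trivial
  | .cons _ _ _ R => ⟨rfl, rfl, top_decF nx c R⟩

theorem nrf_last {p q : ℕ} : ∀ {R : Fo ℤ} {c : ℤ}, c ≠ 0 → NRF p q R →
    (lastE (true, c) (flatF R)).2 ≠ 0
  | .nil, _, hc, _ => hc
  | .cons _ _ _ R, _, _, h => by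
    rw [lastE_cons]
    exact nrf_last h.2.1 h.2.2.2.2

theorem Free.mono {p q : ℕ} : ∀ {h k : ℕ} {c : ℤ}, h ≤ k → Free p q k c → Free p q h c
  | 0, _, _, _, _ => trivial
  | _ + 1, 0, _, h, _ => by omega
  | _ + 1, _ + 1, _, h, hf => ⟨hf.1, Free.mono (by omega) hf.2⟩

theorem sE_zero : sE 0 = 1 := by simp [sE]

theorem tE_zero : tE 0 = 1 := by simp [tE]

theorem sE_neg (d : ℤ) : sE (-d) = sE d := by simp [sE]

theorem Bd.mono {X Y : ℤ → ℤ → ℝ≥0∞} {a b a' b' : ℝ≥0∞} (h : Bd Y a b)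
    (hXY : ∀ u v, X u v ≤ Y u v) (ha : a ≤ a') (hb : b ≤ b') : Bd X a' b' := fun u =>
  ⟨(hXY u u).trans ((h u).1.trans ha), le_trans (ENNReal.tsum_le_tsum fun v => by
    split_ifs
    · rfl
    · gcongr
      exact hXY u v) ((h u).2.trans hb)⟩

theorem Bd.off {X : ℤ → ℤ → ℝ≥0∞} {a b : ℝ≥0∞} (h : Bd X a b) {u v : ℤ} (huv : v ≠ u) :
    2 ^ (u - v).natAbs * X u v ≤ b := by
  refine le_trans ?_ (h u).2
  refine le_trans ?_ (ENNReal.le_tsum v)
  rw [if_neg huv]

theorem Bd.off' {X : ℤ → ℤ → ℝ≥0∞} {a b : ℝ≥0∞} (h : Bd X a b) {u v : ℤ} (huv : v ≠ u) :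
    X u v ≤ b :=
  le_trans (le_mul_of_one_le_left' (one_le_pow₀ one_le_two)) (h.off huv)

theorem Bd.add {X Y : ℤ → ℤ → ℝ≥0∞} {a b a' b' : ℝ≥0∞} (h : Bd X a b) (h' : Bd Y a' b') :
    Bd (fun u v => X u v + Y u v) (a + a') (b + b') := fun u =>
  ⟨add_le_add (h u).1 (h' u).1, by
    refine le_trans (le_of_eq ?_) (add_le_add (h u).2 (h' u).2)
    rw [← ENNReal.tsum_add]
    refine tsum_congr fun v => ?_
    split_ifs <;> simp [mul_add]⟩

theorem Bd.smul {X : ℤ → ℤ → ℝ≥0∞} {a b : ℝ≥0∞} (h : Bd X a b) (k : ℝ≥0∞) :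
    Bd (fun u v => k * X u v) (k * a) (k * b) := fun u =>
  ⟨mul_le_mul_right (h u).1 k, by
    refine le_trans (le_of_eq ?_) (mul_le_mul_right (h u).2 k)
    rw [← ENNReal.tsum_mul_left]
    refine tsum_congr fun v => ?_
    split_ifs <;> simp [mul_left_comm]⟩

theorem Bd_one : Bd (fun u v => if u = v then 1 else 0) 1 0 := fun u =>
  ⟨by simp, by
    refine le_of_eq (ENNReal.tsum_eq_zero.2 fun v => ?_)
    by_cases h : v = u
    · simp [h]
    · simp [h, Ne.symm h]⟩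

theorem tsum_split (f : ℤ → ℝ≥0∞) (u : ℤ) :
    ∑' v, f v = f u + ∑' v, if v = u then 0 else f v := by
  convert ENNReal.tsum_eq_add_tsum_ite (f := f) u

/-- transport of a potential `w` along a kernel -/
theorem Bd.pot {X : ℤ → ℤ → ℝ≥0∞} {a b : ℝ≥0∞} (h : Bd X a b) (w : ℤ → ℝ≥0∞) (u : ℤ)
    (k : ℝ≥0∞) (hw : ∀ v, v ≠ u → w v ≤ 2 ^ (u - v).natAbs * k) :
    ∑' v, X u v * w v ≤ a * w u + b * k := by
  rw [tsum_split _ u]
  refine add_le_add (mul_le_mul_left (h u).1 _) (le_trans ?_ (mul_le_mul_left (h u).2 k))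
  rw [← ENNReal.tsum_mul_right]
  refine ENNReal.tsum_le_tsum fun v => ?_
  split_ifs with hv
  · simp
  · calc X u v * w v ≤ X u v * (2 ^ (u - v).natAbs * k) := mul_le_mul_right (hw v hv) _
      _ = _ := by ring

/-- the part of the diagonal of a product that leaves the diagonal -/
theorem Bd.offoff {X Y : ℤ → ℤ → ℝ≥0∞} {a b a' b' : ℝ≥0∞} (h : Bd X a b) (h' : Bd Y a' b')
    (u : ℤ) : ∑' w, (if w = u then 0 else X u w * Y w u) ≤ b * b' := by
  refine le_trans ?_ (mul_le_mul_left (h u).2 b')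
  rw [← ENNReal.tsum_mul_right]
  refine ENNReal.tsum_le_tsum fun w => ?_
  split_ifs with hw
  · simp
  · exact mul_le_mul' (le_mul_of_one_le_left' (one_le_pow₀ one_le_two)) (h'.off' (Ne.symm hw))

theorem Bd.comp {X Y : ℤ → ℤ → ℝ≥0∞} {a b a' b' : ℝ≥0∞} (h : Bd X a b) (h' : Bd Y a' b') :
    Bd (fun u v => ∑' w, X u w * Y w v) (a * a' + b * b') (a * b' + b * a' + b * b') := fun u =>
  ⟨(tsum_split _ u).le.trans (add_le_add (mul_le_mul' (h u).1 (h' u).1) (h.offoff h' u)), by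
    have e : ∑' v, (if v = u then 0 else 2 ^ (u - v).natAbs * ∑' w, X u w * Y w v) =
        ∑' w, X u w * ∑' v, (if v = u then 0 else 2 ^ (u - v).natAbs * Y w v) := by
      simp only [← ENNReal.tsum_mul_left]
      rw [ENNReal.tsum_comm]
      refine tsum_congr fun v => ?_
      split_ifs
      · simp
      · exact tsum_congr fun w => by ring
    rw [e, add_assoc, ← mul_add]
    refine (h.pot _ u (a' + b') fun w _ => ?_).trans (by gcongr; exact (h' u).2)
    rw [tsum_split _ w, mul_add]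
    refine add_le_add ?_ (le_trans ?_ (mul_le_mul_right (h' w).2 _))
    · split_ifs
      · simp
      · gcongr
        exact (h' w).1
    · rw [← ENNReal.tsum_mul_left]
      refine ENNReal.tsum_le_tsum fun v => ?_
      split_ifs
      · simp
      · simp
      · rw [← mul_assoc, ← pow_add]
        gcongr
        · exact one_le_two
        · omega⟩

section
variable {δ : ℝ} {p q : ℕ}

theorem pE_nil (a : Edge) : pE δ p q a [] = 1 := by simp [pE, pw]

theorem pE_cons (h0 : 0 ≤ δ) (h1 : δ ≤ 1 / 3) (a b : Edge) (v : List Edge) :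
    pE δ p q a (b :: v) = vE δ p q a b * pE δ p q b v := by
  rw [pE, pw, ENNReal.ofReal_mul (vtx_nonneg h0 h1 p q a b)]
  rfl

theorem pE_append (h0 : 0 ≤ δ) (h1 : δ ≤ 1 / 3) (a : Edge) (v w : List Edge) :
    pE δ p q a (v ++ w) = pE δ p q a v * pE δ p q (lastE a v) w := by
  rw [pE, pw_append, ENNReal.ofReal_mul (pw_nonneg h0 h1 p q a v)]
  rfl

theorem vE_eq (h0 : 0 ≤ δ) (h1 : δ ≤ 1 / 3) (a b : Edge) : vE δ p q a b =
    ENNReal.ofReal (kk δ a.1 b.1) * ENNReal.ofReal (ps a.1 b.1 (inn p q a - out p q b)) := by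
  rw [vE, vtx, ENNReal.ofReal_mul (kk_nonneg h0 h1 _ _)]

theorem vE_dd (h0 : 0 ≤ δ) (h1 : δ ≤ 1 / 3) (c c1 : ℤ) : vE δ p q (false, c) (false, c1) =
    ENNReal.ofReal (2 / 3 - δ) * sE (q * c - p * c1) := by
  rw [vE_eq h0 h1]; simp [kk, ps, inn, out, sE, sub_eq_add_neg]

theorem vE_uu (h0 : 0 ≤ δ) (h1 : δ ≤ 1 / 3) (u c : ℤ) : vE δ p q (true, u) (true, c) =
    ENNReal.ofReal (2 / 3 + δ) * sE (p * u - q * c) := by
  rw [vE_eq h0 h1]; simp [kk, ps, inn, out, sE]

theorem vE_ud (h0 : 0 ≤ δ) (h1 : δ ≤ 1 / 3) (u c : ℤ) : vE δ p q (true, u) (false, c) =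
    ENNReal.ofReal (1 / 3 - δ) * tE (p * u - p * c) := by
  rw [vE_eq h0 h1]; simp [kk, ps, inn, out, tE, sub_eq_add_neg]

theorem vE_du (h0 : 0 ≤ δ) (h1 : δ ≤ 1 / 3) (c u : ℤ) : vE δ p q (false, c) (true, u) =
    ENNReal.ofReal (1 / 3 + δ) * tE (q * c - q * u) := by
  rw [vE_eq h0 h1]; simp [kk, ps, inn, out, tE]

theorem ga_eq (h1 : δ ≤ 1 / 3) : ENNReal.ofReal (2 / 3 - δ) * ENNReal.ofReal (2 / 3 + δ) =
    ENNReal.ofReal (4 / 9 - δ ^ 2) := by
  rw [← ENNReal.ofReal_mul (by linarith)]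
  congr 1
  ring

theorem kkE_sum (h0 : 0 ≤ δ) (h1 : δ ≤ 1 / 3) (a : Bool) :
    ∑ b : Bool, ENNReal.ofReal (kk δ a b) = 1 := by
  rw [← ENNReal.ofReal_sum_of_nonneg fun b _ => kk_nonneg h0 h1 a b, kk_sum, ENNReal.ofReal_one]

theorem eW_append (h0 : 0 ≤ δ) (h1 : δ ≤ 1 / 3) (a : Edge) (v w : List Edge) :
    eW δ p q a (v ++ w) = pE δ p q a v * eW δ p q (lastE a v) w := by
  simp only [eW, List.append_assoc, pE_append h0 h1 a v, mul_sum]

theorem eW_cons (h0 : 0 ≤ δ) (h1 : δ ≤ 1 / 3) (a b : Edge) (w : List Edge) :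
    eW δ p q a (b :: w) = vE δ p q a b * eW δ p q b w := by
  simp only [eW, List.cons_append, pE_cons h0 h1, mul_sum]

theorem eW_nil (h0 : 0 ≤ δ) (h1 : δ ≤ 1 / 3) (a : Edge) :
    eW δ p q a [] = ∑ b : Bool, vE δ p q a (b, 0) := by
  simp only [eW, List.nil_append, pE_cons h0 h1, pE_nil, mul_one]

/-- transfer through a forest -/
theorem ft (h0 : 0 ≤ δ) (h1 : δ ≤ 1 / 3) (P : Fo ℤ → Prop) (a : Edge) (f : Edge → ℝ≥0∞) :
    ∑' F, (if P F then pE δ p q a (flatF F) * f (lastE a (flatF F)) else 0) =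
      (if P .nil then f a else 0) +
        ∑' c, ∑' u, vE δ p q a (false, c) * YY δ p q P c u * f (true, u) := by
  rw [tsum_fo]
  congr 1
  · simp [flatF, pE_nil, lastE]
  refine tsum_congr fun c => ?_
  simp only [YY, ← ENNReal.tsum_mul_left, ← ENNReal.tsum_mul_right]
  rw [ENNReal.tsum_comm]
  refine tsum_congr fun x => ?_
  have e : lastE (true, x.1) (flatF x.2.2) = (true, (lastE (true, x.1) (flatF x.2.2)).2) :=
    Prod.ext (lastE_flatF _ _) rfl
  rw [tsum_eq_single (lastE (true, x.1) (flatF x.2.2)).2]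
  · rw [← e, lastE_cons]
    by_cases hP : P (.cons c x.1 x.2.1 x.2.2)
    · rw [if_pos hP, if_pos ⟨hP, rfl⟩, flatF, pE_cons h0 h1,
        show flatF x.2.1 ++ (true, x.1) :: flatF x.2.2 =
          (flatF x.2.1 ++ [(true, x.1)]) ++ flatF x.2.2 by simp, pE_append h0 h1 _ _ (flatF x.2.2),
        lastE_append]
      rfl
    · simp [hP]
  · intro u hu
    rw [if_neg, mul_zero, zero_mul]
    rintro ⟨-, h⟩
    exact hu (by rw [h])

theorem kk_eq (h0 : 0 ≤ δ) (h1 : δ ≤ 1 / 3) (P : Fo ℤ → Prop) (c c' : ℤ) :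
    KK δ p q P c c' =
      (if P .nil then ENNReal.ofReal (1 / 3 + δ) * tE (q * c - q * c') else 0) +
        ENNReal.ofReal (4 / 9 - δ ^ 2) * sand p q (YY δ p q P) c c' := by
  have := ft (p := p) (q := q) h0 h1 P (false, c) (fun e => vE δ p q e (true, c'))
  simp only [vE_dd h0 h1, vE_uu h0 h1, vE_du h0 h1] at this
  rw [sand, ← ga_eq h1]
  simp only [← ENNReal.tsum_mul_left]
  refine Eq.trans ?_ (this.trans ?_)
  · simp only [KK, pE_append h0 h1, pE_cons h0 h1, pE_nil, mul_one]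
  · congr 1
    exact tsum_congr fun c1 => tsum_congr fun u => by ring

theorem ch_eq (h0 : 0 ≤ δ) (h1 : δ ≤ 1 / 3) (P : Fo ℤ → Prop) (u u' : ℤ) :
    CH δ p q P u u' = (if P .nil ∧ u = u' then 1 else 0) +
      ENNReal.ofReal (1 / 3 - δ) * ∑' c, tE (p * u - p * c) * YY δ p q P c u' := by
  have := ft (p := p) (q := q) h0 h1 P (true, u) (fun e => if e = (true, u') then 1 else 0)
  rw [← ENNReal.tsum_mul_left]
  refine Eq.trans ?_ (this.trans ?_)
  · refine tsum_congr fun R => ?_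
    by_cases h : P R <;> by_cases h' : lastE (true, u) (flatF R) = (true, u') <;> simp [h, h']
  · congr 1
    · by_cases h : P .nil <;> simp [h]
    · refine tsum_congr fun c => ?_
      rw [tsum_eq_single u' (fun v hv => by simp [hv]), vE_ud h0 h1]
      simp [mul_assoc]

theorem yy_le (P : Fo ℤ → Prop) (A B : ℤ → Fo ℤ → Prop) (c u : ℤ)
    (h : ∀ c' I R, P (.cons c c' I R) → A c' I ∧ B c' R) :
    YY δ p q P c u ≤ ∑' c', KK δ p q (A c') c c' * CH δ p q (B c') c' u := by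
  simp only [YY, KK, CH, ENNReal.tsum_prod', ← ENNReal.tsum_mul_left, ← ENNReal.tsum_mul_right]
  refine ENNReal.tsum_le_tsum fun c' => ?_
  rw [ENNReal.tsum_comm]
  refine ENNReal.tsum_le_tsum fun R => ENNReal.tsum_le_tsum fun I => ?_
  by_cases h1 : P (.cons c c' I R) ∧ lastE (true, c') (flatF R) = (true, u)
  · rw [if_pos h1, if_pos (h _ _ _ h1.1).1, if_pos ⟨(h _ _ _ h1.1).2, h1.2⟩]
  · simp only [if_neg h1, zero_le]

theorem yy_or (P P1 P2 : Fo ℤ → Prop) (c u : ℤ)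
    (h : ∀ c' I R, P (.cons c c' I R) → P1 (.cons c c' I R) ∨ P2 (.cons c c' I R)) :
    YY δ p q P c u ≤ YY δ p q P1 c u + YY δ p q P2 c u := by
  simp only [YY, ← ENNReal.tsum_add]
  refine ENNReal.tsum_le_tsum fun x => ?_
  by_cases h1 : P (.cons c x.1 x.2.1 x.2.2) ∧ lastE (true, x.1) (flatF x.2.2) = (true, u)
  · rcases h _ _ _ h1.1 with h2 | h2
    · rw [if_pos h1, if_pos ⟨h2, h1.2⟩]; exact le_self_add
    · rw [if_pos h1, if_pos (c := P2 _ ∧ _) ⟨h2, h1.2⟩]; exact le_add_self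
  · simp only [if_neg h1, zero_le]

theorem yy_zero (P : Fo ℤ → Prop) (c u : ℤ)
    (h : ∀ c' I R, P (.cons c c' I R) → lastE (true, c') (flatF R) ≠ (true, u)) :
    YY δ p q P c u = 0 :=
  ENNReal.tsum_eq_zero.2 fun _ => if_neg fun h1 => h _ _ _ h1.1 h1.2

theorem yy_mono (P P1 : Fo ℤ → Prop) (c u : ℤ)
    (h : ∀ c' I R, P (.cons c c' I R) → P1 (.cons c c' I R)) :
    YY δ p q P c u ≤ YY δ p q P1 c u := by
  have := yy_or (δ := δ) (p := p) (q := q) P P1 (fun _ => False) c u fun c' I R h1 =>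
    Or.inl (h c' I R h1)
  rwa [yy_zero (fun _ => False) c u (fun _ _ _ h => h.elim), add_zero] at this

theorem yy_nrf_left (P : Fo ℤ → Prop) (hP : ∀ F, P F → NRF p q F) (u : ℤ) :
    YY δ p q P 0 u = 0 := yy_zero _ _ _ fun _ _ _ h => absurd rfl (hP _ h).1

theorem yy_nrf_right (P : Fo ℤ → Prop) (hP : ∀ F, P F → NRF p q F) (c : ℤ) :
    YY δ p q P c 0 = 0 := yy_zero _ _ _ fun _ _ _ h h' =>
  nrf_last (hP _ h).2.1 (hP _ h).2.2.2.2 (by rw [h'])

theorem yy_top (P : Fo ℤ → Prop) (s : ℤ) (hP : ∀ F, P F → Top s F) {c u : ℤ}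
    (h : c ≠ s ∨ u ≠ s) : YY δ p q P c u = 0 := yy_zero _ _ _ fun _ _ _ h1 h2 => by
  obtain ⟨rfl, rfl, h3⟩ := hP _ h1
  rw [top_last h3] at h2
  rcases h with h | h
  · exact h rfl
  · exact h (Prod.ext_iff.1 h2).2.symm

theorem kk_or (P P1 P2 : Fo ℤ → Prop) (c c' : ℤ) (h : ∀ I, P I → P1 I ∨ P2 I) :
    KK δ p q P c c' ≤ KK δ p q P1 c c' + KK δ p q P2 c c' := by
  simp only [KK, ← ENNReal.tsum_add]
  refine ENNReal.tsum_le_tsum fun I => ?_
  by_cases h1 : P I
  · rcases h _ h1 with h2 | h2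
    · rw [if_pos h1, if_pos h2]; exact le_self_add
    · rw [if_pos h1, if_pos (c := P2 _) h2]; exact le_add_self
  · simp only [if_neg h1, zero_le]

theorem kk_zero (P : Fo ℤ → Prop) (c c' : ℤ) (h : ∀ I, ¬ P I) : KK δ p q P c c' = 0 :=
  ENNReal.tsum_eq_zero.2 fun I => if_neg (h I)

theorem kk_mono (P P1 : Fo ℤ → Prop) (c c' : ℤ) (h : ∀ I, P I → P1 I) :
    KK δ p q P c c' ≤ KK δ p q P1 c c' := by
  have := kk_or (δ := δ) (p := p) (q := q) P P1 (fun _ => False) c c' fun I h1 => Or.inl (h I h1)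
  rwa [kk_zero (fun _ => False) c c' (fun _ h => h), add_zero] at this

theorem kk_add (P P1 P2 : Fo ℤ → Prop) (c c' : ℤ) (h1 : ∀ I, P1 I → P I) (h2 : ∀ I, P2 I → P I)
    (h : ∀ I, P1 I → ¬ P2 I) : KK δ p q P1 c c' + KK δ p q P2 c c' ≤ KK δ p q P c c' := by
  simp only [KK, ← ENNReal.tsum_add]
  refine ENNReal.tsum_le_tsum fun I => ?_
  by_cases k1 : P1 I
  · rw [if_pos k1, if_neg (h I k1), if_pos (h1 I k1), add_zero]
  · by_cases k2 : P2 I
    · rw [if_neg k1, if_pos k2, if_pos (h2 I k2), zero_add]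
    · simp [k1, k2]

theorem ch_mono (P P1 : Fo ℤ → Prop) (u u' : ℤ) (h : ∀ R, P R → P1 R) :
    CH δ p q P u u' ≤ CH δ p q P1 u u' := by
  refine ENNReal.tsum_le_tsum fun R => ?_
  split_ifs with h1 h2
  · rfl
  · exact absurd ⟨h _ h1.1, h1.2⟩ h2
  all_goals simp

theorem yy_lim (P : Fo ℤ → Prop) (c u : ℤ) (B : ℝ≥0∞)
    (h : ∀ k : ℕ, YY δ p q (fun F => P F ∧ ht F ≤ k) c u ≤ B) : YY δ p q P c u ≤ B := by
  refine tsum_le_of_trunc _ (fun x => ht (Fo.cons c x.1 x.2.1 x.2.2)) B fun k => ?_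
  refine le_trans (le_of_eq (tsum_congr fun x => ?_)) (h k)
  by_cases h1 : ht (Fo.cons c x.1 x.2.1 x.2.2) ≤ k <;> simp [h1]

theorem yy_lim_bd (P : Fo ℤ → Prop) (a b : ℝ≥0∞)
    (h : ∀ k : ℕ, Bd (YY δ p q (fun F => P F ∧ ht F ≤ k)) a b) : Bd (YY δ p q P) a b := by
  refine fun c => ⟨yy_lim P c c a fun k => (h k c).1, ?_⟩
  have e : ∀ Q : Fo ℤ → Prop,
      ∑' v, (if v = c then 0 else 2 ^ (c - v).natAbs * YY δ p q Q c v) =
      ∑' y : ℤ × ℤ × Fo ℤ × Fo ℤ, if y.1 = c then 0 else 2 ^ (c - y.1).natAbs *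
        (if Q (.cons c y.2.1 y.2.2.1 y.2.2.2) ∧
            lastE (true, y.2.1) (flatF y.2.2.2) = (true, y.1) then
          pE δ p q (false, c) (flatF y.2.2.1 ++ [(true, y.2.1)]) *
            pE δ p q (true, y.2.1) (flatF y.2.2.2) else 0) := by
    intro Q
    rw [ENNReal.tsum_prod']
    refine tsum_congr fun v => ?_
    split_ifs
    · simp
    · rw [YY, ← ENNReal.tsum_mul_left]
  rw [e]
  refine tsum_le_of_trunc _ (fun y => ht (Fo.cons c y.2.1 y.2.2.1 y.2.2.2)) b fun k => ?_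
  refine le_trans (le_of_eq ?_) (h k c).2
  rw [e]
  refine tsum_congr fun y => ?_
  by_cases h1 : ht (Fo.cons c y.2.1 y.2.2.1 y.2.2.2) ≤ k <;> simp [h1]

theorem hd_rec (h0 : 0 ≤ δ) (h1 : δ ≤ 1 / 3) (P : Dn ℤ → Prop) (a : Edge) :
    HD δ p q P a = ∑' F, pE δ p q a (flatF F) *
      ((if P (.fin F) then eW δ p q (lastE a (flatF F)) [] else 0) +
        ∑' c, vE δ p q (lastE a (flatF F)) (false, c) *
          HD δ p q (fun d => P (.step F c d)) (false, c)) := by
  rw [HD, tsum_dn, ← ENNReal.tsum_add]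
  refine tsum_congr fun F => ?_
  rw [mul_add]
  congr 1
  · split_ifs
    · rw [← eW_append h0 h1, List.append_nil, flatD]
    · simp
  · simp only [HD, ← ENNReal.tsum_mul_left]
    refine tsum_congr fun c => tsum_congr fun d => ?_
    split_ifs
    · rw [flatD, eW_append h0 h1, eW_cons h0 h1]
    · simp

theorem ha_rec (h0 : 0 ≤ δ) (h1 : δ ≤ 1 / 3) (P : Up ℤ → Prop) (a : Edge) :
    HA δ p q P a = HD δ p q (fun d => P (.top d)) a + ∑' F, pE δ p q a (flatF F) *
      ∑' c, vE δ p q (lastE a (flatF F)) (true, c) *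
        HA δ p q (fun r => P (.step F c r)) (true, c) := by
  rw [HA, tsum_up]
  congr 1
  refine tsum_congr fun F => ?_
  simp only [HA, ← ENNReal.tsum_mul_left]
  refine tsum_congr fun c => tsum_congr fun d => ?_
  split_ifs
  · rw [flatA, eW_append h0 h1, eW_cons h0 h1]
  · simp

theorem hd_mono (P P1 : Dn ℤ → Prop) (a : Edge) (h : ∀ d, P d → P1 d) :
    HD δ p q P a ≤ HD δ p q P1 a := by
  refine ENNReal.tsum_le_tsum fun R => ?_
  split_ifs with h1 h2
  · rfl
  · exact absurd (h _ h1) h2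
  all_goals simp

theorem ha_mono (P P1 : Up ℤ → Prop) (a : Edge) (h : ∀ d, P d → P1 d) :
    HA δ p q P a ≤ HA δ p q P1 a := by
  refine ENNReal.tsum_le_tsum fun R => ?_
  split_ifs with h1 h2
  · rfl
  · exact absurd (h _ h1) h2
  all_goals simp

theorem hd_zero (P : Dn ℤ → Prop) (a : Edge) (h : ∀ d, ¬ P d) : HD δ p q P a = 0 :=
  ENNReal.tsum_eq_zero.2 fun d => if_neg (h d)

theorem ha_zero (P : Up ℤ → Prop) (a : Edge) (h : ∀ d, ¬ P d) : HA δ p q P a = 0 :=
  ENNReal.tsum_eq_zero.2 fun d => if_neg (h d)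

/-- number of spine steps -/
def stepsD {M : Type} : Dn M → ℕ
  | .fin _ => 0
  | .step _ _ d => stepsD d + 1

/-- number of ascending spine steps -/
def stepsA {M : Type} : Up M → ℕ
  | .top _ => 0
  | .step _ _ r => stepsA r + 1

theorem hd_lim (P : Dn ℤ → Prop) (a : Edge) (B : ℝ≥0∞)
    (h : ∀ k : ℕ, HD δ p q (fun d => P d ∧ stepsD d < k) a ≤ B) : HD δ p q P a ≤ B := by
  refine tsum_le_of_trunc _ stepsD B fun k => ?_
  refine le_trans (le_of_eq (tsum_congr fun x => ?_)) (h (k + 1))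
  by_cases h1 : stepsD x ≤ k <;> simp [h1]

theorem ha_lim (P : Up ℤ → Prop) (a : Edge) (B : ℝ≥0∞)
    (h : ∀ k : ℕ, HA δ p q (fun d => P d ∧ stepsA d < k) a ≤ B) : HA δ p q P a ≤ B := by
  refine tsum_le_of_trunc _ stepsA B fun k => ?_
  refine le_trans (le_of_eq (tsum_congr fun x => ?_)) (h (k + 1))
  by_cases h1 : stepsA x ≤ k <;> simp [h1]

end

end Pool.Agent.MP_e0ec03_al.Asy

end MrgPart0

-- ======== part 1: formerly Pool.Agent.MP_e0ec03_al.asy.Ar3
section MrgPart1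

/-! Weighted sums of the vertex weights along the spines. -/

namespace Pool.Agent.MP_e0ec03_al.Asy

open Classical
open scoped ENNReal

namespace Ar3A

theorem geo {r : ℝ≥0∞} (hr : r ≤ 2⁻¹) (n : ℤ) :
    ∑' c : ℤ, (if c = n then 0 else r ^ (c - n).natAbs) ≤ 4 * r := by
  have a : ∑' m : ℕ, r ^ (m + 1) ≤ 2 * r := by
    rw [ENNReal.tsum_geometric_add_one, mul_comm]
    refine mul_le_mul_left (ENNReal.inv_le_iff_inv_le.2 ?_) r
    exact ENNReal.one_sub_inv_two.ge.trans (tsub_le_tsub_left hr 1)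
  rw [← (Equiv.addRight n).tsum_eq]
  simp only [Equiv.coe_addRight, add_eq_right, add_sub_cancel_right]
  rw [tsum_of_add_one_of_neg_add_one ENNReal.summable ENNReal.summable, if_pos rfl, add_zero,
    show (4 : ℝ≥0∞) = 2 + 2 by norm_num, add_mul]
  refine add_le_add (le_trans (le_of_eq (tsum_congr fun m => ?_)) a)
    (le_trans (le_of_eq (tsum_congr fun m => ?_)) a)
  · rw [if_neg (by omega)]
    rfl
  · rw [if_neg (by omega)]
    rfl

theorem core (f : ℤ → ℝ≥0∞) (n : ℤ) {A K r : ℝ≥0∞} (hr : r ≤ 2⁻¹) (h0 : f n ≤ A)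
    (h : ∀ c, c ≠ n → f c ≤ K * r ^ (c - n).natAbs) : ∑' c, f c ≤ A + K * (4 * r) := by
  rw [tsum_split f n]
  refine add_le_add h0 (le_trans ?_ (mul_le_mul_right (geo hr n) K))
  rw [← ENNReal.tsum_mul_left]
  refine ENNReal.tsum_le_tsum fun c => ?_
  split_ifs with e
  · simp
  · exact h c e

theorem sE_le {d : ℤ} {a : ℝ} {m : ℕ} (ha : 0 ≤ a) (h : (3 / 5 : ℝ) ^ d.natAbs ≤ a ^ m) :
    sE d ≤ 30 * ENNReal.ofReal a ^ m := by
  rw [← ENNReal.ofReal_pow ha, ← ENNReal.ofReal_ofNat 30, ← ENNReal.ofReal_mul (by norm_num)]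
  exact ENNReal.ofReal_le_ofReal (by linarith [mu_le_exp d])

theorem sE_half {d : ℤ} {p m : ℕ} (h : p * m ≤ 2 * d.natAbs) :
    sE d ≤ 30 * ENNReal.ofReal ((4 / 5) ^ p) ^ m := by
  refine sE_le (by positivity) ?_
  rw [← pow_mul]
  refine le_trans ?_ (pow_le_pow_of_le_one (by norm_num) (by norm_num) h)
  rw [pow_mul]
  exact pow_le_pow_left₀ (by norm_num) (by norm_num) _

theorem sE_full {d : ℤ} {p m : ℕ} (h : p * m ≤ d.natAbs) :
    sE d ≤ 30 * ENNReal.ofReal ((3 / 5) ^ p) ^ m := by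
  refine sE_le (by positivity) ?_
  rw [← pow_mul]
  exact pow_le_pow_of_le_one (by norm_num) (by norm_num) h

theorem sE_ne {d : ℤ} (h : d ≠ 0) : sE d ≤ ENNReal.ofReal (87 / 100) :=
  ENNReal.ofReal_le_ofReal (by linarith [mu_le_sqrt h, sqrt3_bounds.2])

theorem half_le : (2⁻¹ : ℝ≥0∞) ≤ ENNReal.ofReal (87 / 100) := by
  rw [← ENNReal.ofReal_ofNat 2, ← ENNReal.ofReal_inv_of_pos (by norm_num)]
  exact ENNReal.ofReal_le_ofReal (by norm_num)

theorem mul_of (k : ℕ) [k.AtLeastTwo] (y : ℝ) :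
    (ofNat(k) : ℝ≥0∞) * ENNReal.ofReal y = ENNReal.ofReal (ofNat(k) * y) := by
  rw [ENNReal.ofReal_mul (Nat.ofNat_nonneg k), ENNReal.ofReal_ofNat]

theorem two_le {y : ℝ} (h : y ≤ 1 / 4) : 2 * ENNReal.ofReal y ≤ 2⁻¹ := by
  rw [mul_of, ← ENNReal.ofReal_ofNat 2, ← ENNReal.ofReal_inv_of_pos (by norm_num)]
  exact ENNReal.ofReal_le_ofReal (by linarith)

/-- the sum around a nearest integer -/
theorem near (f : ℤ → ℝ≥0∞) (n : ℤ) {B : ℝ≥0∞} {y : ℝ} (y0 : 0 ≤ y) (hy : y ≤ 1 / 8000)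
    (h0 : f n ≤ ENNReal.ofReal (87 / 100) * B)
    (h : ∀ c, c ≠ n → f c ≤ 30 * ENNReal.ofReal y ^ (c - n).natAbs * (2 ^ (c - n).natAbs * B)) :
    ∑' c, f c ≤ 9 / 10 * B := by
  refine (core f n (K := 30 * B) (two_le (y := y) (by linarith)) h0 fun c e =>
    (h c e).trans (le_of_eq (by rw [mul_pow]; ring))).trans ?_
  have a : ENNReal.ofReal (87 / 100) + 30 * (4 * (2 * ENNReal.ofReal y)) ≤ 9 / 10 := by
    rw [mul_of, mul_of, mul_of, ← ENNReal.ofReal_add (by norm_num) (by positivity),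
      ← ENNReal.ofReal_ofNat 9, ← ENNReal.ofReal_ofNat 10,
      ← ENNReal.ofReal_div_of_pos (by norm_num)]
    exact ENNReal.ofReal_le_ofReal (by linarith)
  exact le_trans (le_of_eq (by ring)) (mul_le_mul_left a B)

theorem far {d e j : ℤ} {p m : ℕ} (hp : p ≤ m) (h : 2 * |d| ≤ m) (he : e = d - m * j)
    (hj : j ≠ 0) : p * j.natAbs ≤ 2 * e.natAbs := by
  have a : (m * j).natAbs = m * j.natAbs := by rw [Int.natAbs_mul, Int.natAbs_natCast]
  have b : m ≤ m * j.natAbs := Nat.le_mul_of_pos_right _ (Int.natAbs_pos.2 hj)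
  have c := Nat.mul_le_mul_right j.natAbs hp
  rw [← Int.natCast_natAbs] at h
  omega

theorem ex_near (a : ℤ) {m : ℕ} (hm : 1 ≤ m) : ∃ n : ℤ, 2 * |a - m * n| ≤ m := by
  simpa using (⟨_, near_nxt hm 1 a⟩ : ∃ n : ℤ, 2 * |((1 : ℕ) : ℤ) * a - m * n| ≤ m)

variable {p q : ℕ}

theorem up1 (hp : 1 ≤ p) (hq : p < q) (hy : (4 / 5 : ℝ) ^ p ≤ 1 / 8000) (u : ℤ) (hu : u ≠ 0) :
    ∑' c : ℤ, (if c = 0 then 0 else sE (p * u - q * c) * 2 ^ c.natAbs) ≤
      9 / 10 * 2 ^ u.natAbs := by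
  obtain ⟨n, hn⟩ := ex_near (p * u) (show 1 ≤ q by omega)
  have a1 : ((p : ℤ) * u).natAbs = p * u.natAbs := by rw [Int.natAbs_mul, Int.natAbs_natCast]
  have a2 : ((q : ℤ) * n).natAbs = q * n.natAbs := by rw [Int.natAbs_mul, Int.natAbs_natCast]
  have a3 : p * u.natAbs < q * u.natAbs := Nat.mul_lt_mul_of_pos_right hq (Int.natAbs_pos.2 hu)
  have le : n.natAbs ≤ u.natAbs := by
    by_contra k
    have := Nat.mul_le_mul_left q (not_le.1 k)
    rw [Nat.mul_succ] at this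
    rw [← Int.natCast_natAbs] at hn
    omega
  refine near _ n (by positivity) hy ?_ fun c e => ?_
  · split_ifs
    · simp
    by_cases z : (p : ℤ) * u - q * n = 0
    · have lt : n.natAbs < u.natAbs := Nat.lt_of_mul_lt_mul_left (a := q) (by omega)
      rw [z, sE_zero, one_mul]
      refine le_trans ?_ (mul_le_mul_left half_le _)
      calc (2 : ℝ≥0∞) ^ n.natAbs = 2⁻¹ * 2 ^ (n.natAbs + 1) := by
            rw [pow_succ', ← mul_assoc, ENNReal.inv_mul_cancel (by simp) (by simp), one_mul]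
        _ ≤ _ := mul_le_mul_right (pow_le_pow_right₀ one_le_two lt) _
    · exact mul_le_mul' (sE_ne z) (pow_le_pow_right₀ one_le_two le)
  · split_ifs
    · simp
    rw [← pow_add]
    exact mul_le_mul' (sE_half (far hq.le hn (by ring) (sub_ne_zero.2 e)))
      (pow_le_pow_right₀ one_le_two (by omega))

theorem dn1 (hp : 1 ≤ p) (hq : p < q) (hy : (4 / 5 : ℝ) ^ p ≤ 1 / 8000) (c : ℤ) (hc : c ≠ 0) :
    ∑' c1 : ℤ, (if c1 = 0 then 0 else sE (q * c - p * c1) * 2⁻¹ ^ c1.natAbs) ≤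
      9 / 10 * 2⁻¹ ^ c.natAbs := by
  obtain ⟨n, hn⟩ := ex_near (q * c) hp
  have a1 : ((q : ℤ) * c).natAbs = q * c.natAbs := by rw [Int.natAbs_mul, Int.natAbs_natCast]
  have a2 : ((p : ℤ) * n).natAbs = p * n.natAbs := by rw [Int.natAbs_mul, Int.natAbs_natCast]
  have a3 : p * c.natAbs < q * c.natAbs := Nat.mul_lt_mul_of_pos_right hq (Int.natAbs_pos.2 hc)
  have le : c.natAbs ≤ n.natAbs := by
    by_contra k
    have := Nat.mul_le_mul_left p (not_le.1 k)
    rw [Nat.mul_succ] at this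
    rw [← Int.natCast_natAbs] at hn
    omega
  have h1 : (2⁻¹ : ℝ≥0∞) ≤ 1 := ENNReal.inv_le_one.2 one_le_two
  refine near _ n (by positivity) hy ?_ fun c1 e => ?_
  · split_ifs
    · simp
    by_cases z : (q : ℤ) * c - p * n = 0
    · have lt : c.natAbs < n.natAbs := Nat.lt_of_mul_lt_mul_left (a := p) (by omega)
      rw [z, sE_zero, one_mul]
      refine le_trans ?_ (mul_le_mul_left half_le _)
      rw [← pow_succ']
      exact pow_le_pow_right_of_le_one' h1 lt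
    · exact mul_le_mul' (sE_ne z) (pow_le_pow_right_of_le_one' h1 le)
  · split_ifs
    · simp
    refine mul_le_mul' (sE_half (far le_rfl hn (by ring) (sub_ne_zero.2 e))) ?_
    calc (2⁻¹ : ℝ≥0∞) ^ c1.natAbs
        = 2 ^ (c1 - n).natAbs * 2⁻¹ ^ ((c1 - n).natAbs + c1.natAbs) := by
          rw [pow_add, ← mul_assoc, ← mul_pow, ENNReal.mul_inv_cancel (by simp) (by simp), one_pow,
            one_mul]
      _ ≤ _ := mul_le_mul_right (pow_le_pow_right_of_le_one' h1 (by omega)) _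

theorem up2 (hq : p < q) (hx : 480 * (3 / 5 : ℝ) ^ p ≤ (33 / 50) ^ p) (s : ℤ)
    (hs : s = 1 ∨ s = -1) :
    ∑' c : ℤ, (if c = 0 ∨ c = s then 0 else sE (p * s - q * c) * 2 ^ c.natAbs) ≤
      ENNReal.ofReal ((33 / 50) ^ p) := by
  have t : (33 / 50 : ℝ) ^ p ≤ 1 := pow_le_one₀ (by norm_num) (by norm_num)
  refine (core _ s (A := 0) (K := 60) (two_le (y := (3 / 5) ^ p) (by linarith)) (by simp)
    fun c e => ?_).trans ?_
  · split_ifs with k
    · simp
    have a : p * (c - s).natAbs ≤ ((p : ℤ) * s - q * c).natAbs := by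
      obtain ⟨r, rfl⟩ := Nat.exists_eq_add_of_lt hq
      have b : ((p : ℤ) * (c - s)).natAbs = p * (c - s).natAbs := by
        rw [Int.natAbs_mul, Int.natAbs_natCast]
      have f : (p : ℤ) * s - (p + r + 1 : ℕ) * c = -(p * (c - s) + (r + 1) * c) := by
        push_cast
        ring
      rw [f, ← b]
      rcases lt_or_gt_of_ne (not_or.1 k).1 with g | g
      · have := mul_nonpos_of_nonneg_of_nonpos (Int.natCast_nonneg p) (show c - s ≤ 0 by omega)
        have := mul_nonpos_of_nonneg_of_nonpos (show (0 : ℤ) ≤ r + 1 by omega) g.le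
        omega
      · have := mul_nonneg (Int.natCast_nonneg p) (show 0 ≤ c - s by omega)
        have := mul_nonneg (show (0 : ℤ) ≤ r + 1 by omega) g.le
        omega
    calc _ ≤ 30 * ENNReal.ofReal ((3 / 5) ^ p) ^ (c - s).natAbs * 2 ^ ((c - s).natAbs + 1) :=
          mul_le_mul' (sE_full a) (pow_le_pow_right₀ one_le_two (by omega))
      _ = _ := by rw [mul_pow]; ring
  · rw [zero_add, mul_of, mul_of, mul_of]
    exact ENNReal.ofReal_le_ofReal (by linarith)

end Ar3A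

open Ar3A in
theorem ar3 : Ar3Stmt := by
  refine ⟨65, fun p q hp hq => ?_⟩
  have hy : (4 / 5 : ℝ) ^ p ≤ 1 / 8000 :=
    (pow_le_pow_of_le_one (by norm_num) (by norm_num) hp).trans (by norm_num)
  have hx : 480 * (3 / 5 : ℝ) ^ p ≤ (33 / 50) ^ p := by
    rw [show (33 / 50 : ℝ) = 11 / 10 * (3 / 5) by norm_num, mul_pow]
    exact mul_le_mul_of_nonneg_right
      (le_trans (by norm_num) (pow_le_pow_right₀ (by norm_num) hp)) (by positivity)
  refine ⟨up1 (by omega) hq hy, up2 hq hx, dn1 (by omega) hq hy, fun c s hc hs => ?_⟩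
  refine le_trans ?_ ((ENNReal.le_tsum c).trans (up2 hq hx s hs))
  rw [← Int.natCast_natAbs] at hc
  rw [if_neg (by omega), ← sE_neg, neg_sub]

end Pool.Agent.MP_e0ec03_al.Asy

end MrgPart1

-- ======== part 2: formerly Pool.Agent.MP_e0ec03_al.asy.Lowz
section MrgPart2

/-! ROW LOWZ: the lower bound on the avoiding partition function. -/

namespace Pool.Agent.MP_e0ec03_al.Asy

open Classical Finset

namespace Lowz

theorem exists_witnesses {α β : Type} (Q : β → Prop) (R : α → β → Prop) (t : Finset α) :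
    ∃ s : Finset β, (∀ b ∈ s, Q b) ∧ ∀ x ∈ t, (∃ b, Q b ∧ R x b) → ∃ b ∈ s, R x b := by
  induction t using Finset.induction_on with
  | empty => exact ⟨∅, by simp, by simp⟩
  | insert x t _ ih =>
    obtain ⟨s, hs, ht⟩ := ih
    by_cases hx : ∃ b, Q b ∧ R x b
    · obtain ⟨b, hb, hr⟩ := hx
      refine ⟨insert b s, ?_, ?_⟩
      · intro c hc
        rcases mem_insert.1 hc with rfl | hc
        · exact hb
        · exact hs c hc
      · intro y hy hy'
        rcases mem_insert.1 hy with rfl | hy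
        · exact ⟨b, mem_insert_self _ _, hr⟩
        · obtain ⟨c, hc, hc'⟩ := ht y hy hy'
          exact ⟨c, mem_insert_of_mem hc, hc'⟩
    · refine ⟨s, hs, ?_⟩
      intro y hy hy'
      rcases mem_insert.1 hy with rfl | hy
      · exact absurd hy' hx
      · exact ht y hy hy'

/-- no listed pattern wins -/
def NoWin (p q n : ℕ) (s : Finset (Up ℤ)) (a : Bool) (xs : List ℤ) (es : List Bool) : Prop :=
  ∀ x ∈ (range n ×ˢ s).filter (fun x => Fits es x.1 (flatA x.2)),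
    ¬ win xs (dl p q (a, 0) (vec es x.1 (flatA x.2)))

theorem exists_patterns (h5 : DecStmt) {p q : ℕ} (hp : 1 ≤ p) (hpq : p < q) (n : ℕ) :
    ∃ s : Finset (Up ℤ), (∀ γ ∈ s, Pat p q γ) ∧ ∀ (a : Bool), ∀ l ∈ words p n,
      NoWin p q n s a (l.map Prod.fst) (l.map Prod.snd) → Av p q a l := by
  obtain ⟨s, hs, ht⟩ := exists_witnesses (Pat p q)
    (fun (x : Bool × List (ℤ × Bool)) (γ : Up ℤ) => ∃ i : ℕ,
      Fits (x.2.map Prod.snd) i (flatA γ) ∧
        win (x.2.map Prod.fst) (dl p q (x.1, 0) (vec (x.2.map Prod.snd) i (flatA γ))))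
    (univ ×ˢ words p n)
  refine ⟨s, hs, fun a l hl hN => h5 p q hp hpq a l ?_⟩
  intro γ i hγ hF hw
  obtain ⟨γ', hγ', j, hF', hw'⟩ := ht (a, l) (mem_product.2 ⟨mem_univ _, hl⟩) ⟨γ, hγ, i, hF, hw⟩
  have hj : j < n := by
    have h1 := hF'.1
    have h2 := (mem_words.1 hl).1
    simp only [List.length_map] at h1
    omega
  exact hN (j, γ') (mem_filter.2 ⟨mem_product.2 ⟨mem_range.2 hj, hγ'⟩, hF'⟩) hw'

noncomputable def FF (p q n : ℕ) (s : Finset (Up ℤ)) (a : Bool) (e : List (Bool × Bool)) : ℝ :=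
  EM p a e (fun xs => if (∀ x ∈ xs, |x| < p) ∧ NoWin p q n s a xs (e.map Prod.fst) then 1 else 0)

noncomputable def term (p q : ℕ) (a : Bool) (e : List (Bool × Bool)) (i : ℕ) (u : List Edge) : ℝ :=
  if Fits (e.map Prod.fst) i u then
    (fun P : ℝ => P + 3 * nzu p q u * P ^ 2)
      (PW p a e (dl p q (a, 0) (vec (e.map Prod.fst) i u))) else 0

noncomputable def HH (p q n : ℕ) (s : Finset (Up ℤ)) (a : Bool) (e : List (Bool × Bool)) : ℝ :=
  6 * (1 / 3) ^ p * n + ∑ i ∈ range n, ∑ γ ∈ s, term p q a e i (flatA γ)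

theorem FF_le (h2 : BrStmt) {p q n : ℕ} (hp : 1 ≤ p) {s : Finset (Up ℤ)} (a : Bool)
    (hs : ∀ l ∈ words p n, NoWin p q n s a (l.map Prod.fst) (l.map Prod.snd) → Av p q a l) :
    NE 0 n a (FF p q n s a) ≤ Zav p q p (1 / 3) n a := by
  have key := h2 p hp n a
    (fun l => if NoWin p q n s a (l.map Prod.fst) (l.map Prod.snd) then 1 else 0)
  have e1 : NE 0 n a (FF p q n s a) = ∑ l ∈ words p n, wt (1 / 3) a l *
      (if NoWin p q n s a (l.map Prod.fst) (l.map Prod.snd) then 1 else 0) := by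
    rw [key]
    refine NE_congr 0 n a _ _ fun e _ => EM_congr p a e _ _ fun xs hl _ => ?_
    have a1 : (xs.zip (e.map Prod.fst)).map Prod.fst = xs :=
      List.map_fst_zip (by simp [hl])
    have a2 : (xs.zip (e.map Prod.fst)).map Prod.snd = e.map Prod.fst :=
      List.map_snd_zip (by simp [hl])
    simp only [a1, a2]
    by_cases c1 : ∀ x ∈ xs, |x| < p
    · by_cases c2 : NoWin p q n s a xs (e.map Prod.fst)
      · rw [if_pos ⟨c1, c2⟩, if_pos c1, if_pos c2]
      · rw [if_neg (fun h => c2 h.2), if_pos c1, if_neg c2]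
    · rw [if_neg (fun h => c1 h.1), if_neg c1]
  rw [e1, Zav]
  refine sum_le_sum fun l hl => ?_
  have hw := wt_nonneg (z := 1 / 3) (by norm_num) a l
  by_cases c : NoWin p q n s a (l.map Prod.fst) (l.map Prod.snd)
  · rw [if_pos c, if_pos (hs l hl c), mul_one]
  · rw [if_neg c, mul_zero]
    split_ifs
    · exact hw
    · exact le_rfl

theorem exp_HH_le (h1 : HarStmt) (h4 : PlcStmt) {p q n : ℕ} (hp : 3 ≤ p) (hpq : p < q)
    (s : Finset (Up ℤ)) (a : Bool) (e : List (Bool × Bool)) (he : e.length = n) :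
    Real.exp (-HH p q n s a e) ≤ FF p q n s a e := by
  have key := h1 p q hp hpq a e (ℕ × Up ℤ)
    ((range n ×ˢ s).filter (fun x => Fits (e.map Prod.fst) x.1 (flatA x.2)))
    (fun x => dl p q (a, 0) (vec (e.map Prod.fst) x.1 (flatA x.2)))
    (fun x hx => (h4.2 p q a _ _ _ (mem_filter.1 hx).2).2)
  have e1 : HH p q n s a e = 6 * (1 / 3) ^ p * e.length +
      ∑ x ∈ (range n ×ˢ s).filter (fun x => Fits (e.map Prod.fst) x.1 (flatA x.2)),
        (PW p a e (dl p q (a, 0) (vec (e.map Prod.fst) x.1 (flatA x.2))) +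
          3 * nz (dl p q (a, 0) (vec (e.map Prod.fst) x.1 (flatA x.2))) *
            PW p a e (dl p q (a, 0) (vec (e.map Prod.fst) x.1 (flatA x.2))) ^ 2) := by
    rw [HH, he, sum_filter, sum_product]
    congr 1
    refine sum_congr rfl fun i _ => sum_congr rfl fun γ _ => ?_
    unfold term
    by_cases c : Fits (e.map Prod.fst) i (flatA γ)
    · rw [if_pos c, if_pos c, (h4.2 p q a _ _ _ c).1]
    · rw [if_neg c, if_neg c]
  rw [e1]
  refine key.trans (le_of_eq ?_)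
  exact EM_congr p a e _ _ fun xs _ _ => if_congr Iff.rfl rfl rfl

theorem avg_term (h4 : PlcStmt) (δ : ℝ) {p : ℕ} (hp : 1 ≤ p) (q n i : ℕ) (u : List Edge) :
    ∑ a : Bool, st0 δ a * NE δ n a (fun e => term p q a e i u) =
      if i + u.length < n then hW δ p q u else 0 := by
  split_ifs with c
  · exact h4.1 δ p q hp n i u (fun P : ℝ => P + 3 * nzu p q u * P ^ 2) c
  · refine sum_eq_zero fun a _ => ?_
    rw [NE_congr δ n a _ (fun _ => 0), NE_const, mul_zero]
    intro e he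
    unfold term
    refine if_neg fun h => c ?_
    have := h.1
    simpa [he] using this

theorem avg_HH (h4 : PlcStmt) {δ Λ : ℝ} {p q : ℕ} (hp : 1 ≤ p) (n : ℕ) {s : Finset (Up ℤ)}
    (hs : ∀ t ⊆ s, ∑ γ ∈ t, hW δ p q (flatA γ) ≤ Λ) :
    ∑ a : Bool, st0 δ a * NE δ n a (HH p q n s a) ≤ (6 * (1 / 3) ^ p + Λ) * n := by
  have e1 : ∀ a : Bool, NE δ n a (HH p q n s a) = 6 * (1 / 3) ^ p * n +
      ∑ i ∈ range n, ∑ γ ∈ s, NE δ n a (fun e => term p q a e i (flatA γ)) := by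
    intro a
    unfold HH
    rw [NE_add, NE_const, NE_sum]
    congr 1
    exact sum_congr rfl fun i _ => NE_sum δ n a s (fun γ e => term p q a e i (flatA γ))
  have e2 : ∑ a : Bool, st0 δ a * NE δ n a (HH p q n s a) = 6 * (1 / 3) ^ p * n +
      ∑ i ∈ range n, ∑ γ ∈ s,
        ∑ a : Bool, st0 δ a * NE δ n a (fun e => term p q a e i (flatA γ)) := by
    simp only [e1, mul_add, sum_add_distrib, ← sum_mul, st0_sum, one_mul]
    congr 1
    simp only [Fintype.sum_bool, sum_add_distrib, mul_sum]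
  rw [e2, add_mul]
  refine add_le_add le_rfl ?_
  calc _ ≤ ∑ _i ∈ range n, Λ := by
        refine sum_le_sum fun i _ => ?_
        simp only [avg_term h4 δ hp]
        rw [← sum_filter]
        exact hs _ (filter_subset _ _)
    _ = Λ * n := by simp [mul_comm]

end Lowz

theorem lowz_of (h1 : HarStmt) (h2 : BrStmt) (h3 : JenStmt) (h4 : PlcStmt) (h5 : DecStmt) :
    LowzStmt := by
  intro δ p q Λ h0 h6 hp hpq hΛ n
  have hp1 : 1 ≤ p := by omega
  obtain ⟨s, hs, hA⟩ := Lowz.exists_patterns h5 hp1 hpq n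
  have k1 := h3 δ h0 h6 n (Lowz.FF p q n s) (Lowz.HH p q n s)
    (fun a e he => Lowz.exp_HH_le h1 h4 hp hpq s a e he)
  have k2 := Lowz.avg_HH h4 (δ := δ) (Λ := Λ) (q := q) hp1 n (s := s)
    (fun t ht => hΛ t fun γ hγ => hs γ (ht hγ))
  calc _ ≤ Real.exp (-(5 * δ ^ 2 * n +
          ∑ a : Bool, st0 δ a * NE δ n a (Lowz.HH p q n s a))) := by
        refine Real.exp_le_exp.2 ?_
        linarith
    _ ≤ _ := k1
    _ ≤ _ := sum_le_sum fun a _ => Lowz.FF_le h2 hp1 a (hA a)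

end Pool.Agent.MP_e0ec03_al.Asy

end MrgPart2

-- ======== part 3: formerly Pool.Agent.MP_e0ec03_al.asy.Spa1
section MrgPart3

/-! ROW SPA1 of THEOREM ASY: total weight of the ascending spine. -/

namespace Pool.Agent.MP_e0ec03_al.Asy

open Classical Finset
open scoped ENNReal

namespace Spa1

variable {δ : ℝ} {p q : ℕ}

/-- weight of one more ascending step, with the potential `B` after it -/
noncomputable def fA (δ : ℝ) (p q : ℕ) (B : ℝ≥0∞) (e : Edge) : ℝ≥0∞ :=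
  ∑' c : ℤ, vE δ p q e (true, c) * (if c = 0 then 0 else B * 2 ^ c.natAbs)

theorem step (h0 : 0 ≤ δ) (h1 : δ ≤ 1 / 3) (B : ℝ≥0∞) (P : Up ℤ → Prop)
    (hP : ∀ F c r, P (.step F c r) → NRF p q F ∧ c ≠ 0)
    (hB : ∀ F c, c ≠ 0 → HA δ p q (fun r => P (.step F c r)) (true, c) ≤ B * 2 ^ c.natAbs)
    (a : Edge) :
    HA δ p q P a ≤ HD δ p q (fun d => P (.top d)) a + (fA δ p q B a +
      ∑' c, vE δ p q a (false, c) * ∑' u, YY δ p q (NRF p q) c u * fA δ p q B (true, u)) := by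
  rw [ha_rec h0 h1]
  refine add_le_add le_rfl ?_
  have := ft (p := p) (q := q) h0 h1 (NRF p q) a (fA δ p q B)
  rw [if_pos (show NRF p q .nil from trivial)] at this
  simp only [mul_assoc, ENNReal.tsum_mul_left] at this
  rw [← this]
  refine ENNReal.tsum_le_tsum fun F => ?_
  split_ifs with hF
  · refine mul_le_mul_right (ENNReal.tsum_le_tsum fun c => mul_le_mul_right ?_ _) _
    split_ifs with hc
    · exact (ha_zero _ _ fun r k => (hP F c r k).2 hc).le
    · exact hB F c hc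
  · have : ∀ c, HA δ p q (fun r => P (.step F c r)) (true, c) = 0 := fun c =>
      ha_zero _ _ fun r k => hF (hP F c r k).1
    simp [this]

theorem pw2 (k : ℝ≥0∞) (u v : ℤ) :
    k * 2 ^ v.natAbs ≤ 2 ^ (u - v).natAbs * (k * 2 ^ u.natAbs) := by
  rw [mul_left_comm, ← pow_add]
  gcongr
  · exact one_le_two
  · omega

theorem nine : (9 / 10 : ℝ≥0∞) = ENNReal.ofReal (9 / 10) := by
  rw [ENNReal.ofReal_div_of_pos (by norm_num)]
  simp

theorem kk_le (h0 : 0 ≤ δ) (h1 : δ ≤ 1 / 3) (a b : Bool) : ENNReal.ofReal (kk δ a b) ≤ 1 := by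
  rw [← kkE_sum h0 h1 a]
  exact single_le_sum (f := fun b => ENNReal.ofReal (kk δ a b)) (fun _ _ => zero_le) (mem_univ b)

theorem sta {T : ℝ≥0∞} (h0 : 0 ≤ δ) (h1 : δ ≤ 1 / 3) (hA : Ar1 p q T) (a e : Bool) (B : ℝ≥0∞) :
    ∑' c : ℤ, vE δ p q (a, 0) (e, c) * (if c = 0 then 0 else B * 2 ^ c.natAbs) ≤ T * B := by
  refine le_trans ?_ (mul_le_mul_left (hA.sta1 a e) B)
  rw [← ENNReal.tsum_mul_right]
  refine ENNReal.tsum_le_tsum fun c => ?_
  split_ifs
  · simp
  · rw [vE_eq h0 h1]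
    calc _ ≤ 1 * ENNReal.ofReal (ps a e (inn p q (a, 0) - out p q (e, c))) *
          (B * 2 ^ c.natAbs) := by
          gcongr
          exact kk_le h0 h1 a e
      _ = _ := by ring

end Spa1

open Spa1 in
theorem spa1 : Spa1Stmt := by
  intro δ T S p q hs _ _ hA h3 hV hD
  obtain ⟨d0, dT, T1, TS, S1⟩ := hs
  have h0 : 0 ≤ δ := d0.le
  have h1 : δ ≤ 1 / 3 := by linarith
  have T0 : 0 ≤ T := by linarith
  have hf : ∀ u : ℤ, u ≠ 0 → fA δ p q (ENNReal.ofReal (10 ^ 4 * T)) (true, u) ≤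
      ENNReal.ofReal (6100 * T) * 2 ^ u.natAbs := by
    intro u hu
    have e : fA δ p q (ENNReal.ofReal (10 ^ 4 * T)) (true, u) =
        ENNReal.ofReal (2 / 3 + δ) * ENNReal.ofReal (10 ^ 4 * T) *
          ∑' c : ℤ, (if c = 0 then 0 else sE (p * u - q * c) * 2 ^ c.natAbs) := by
      rw [fA, ← ENNReal.tsum_mul_left]
      refine tsum_congr fun c => ?_
      rw [vE_uu h0 h1]
      split_ifs
      · simp
      · ring
    rw [e]
    refine (mul_le_mul_right (h3.up1 u hu) _).trans ?_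
    rw [← mul_assoc, nine, ← ENNReal.ofReal_mul (by linarith),
      ← ENNReal.ofReal_mul (by positivity)]
    refine mul_le_mul_left (ENNReal.ofReal_le_ofReal ?_) _
    nlinarith
  have hg : ∀ c : ℤ, ∑' u, YY δ p q (NRF p q) c u *
      fA δ p q (ENNReal.ofReal (10 ^ 4 * T)) (true, u) ≤
        if c = 0 then 0 else ENNReal.ofReal (9300 * T) * 2 ^ c.natAbs := by
    intro c
    split_ifs with hc
    · subst hc
      simp [yy_nrf_left (NRF p q) (fun _ h => h)]
    have := hV.vy.pot (fun v => ENNReal.ofReal (6100 * T) * 2 ^ v.natAbs) c _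
      fun v _ => pw2 _ c v
    refine le_trans (ENNReal.tsum_le_tsum fun u => ?_) (this.trans ?_)
    · by_cases hu : u = 0
      · subst hu
        simp [yy_nrf_right (NRF p q) (fun _ h => h)]
      · exact mul_le_mul_right (hf u hu) _
    · rw [← add_mul, ← mul_assoc, ← ENNReal.ofReal_add (by norm_num) (by positivity),
        ← ENNReal.ofReal_mul (by positivity)]
      refine mul_le_mul_left (ENNReal.ofReal_le_ofReal ?_) _
      nlinarith
  have main : ∀ c : ℤ, c ≠ 0 →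
      HA δ p q (NRA p q) (true, c) ≤ ENNReal.ofReal (10 ^ 4 * T) * 2 ^ c.natAbs := by
    intro c hc
    refine ha_lim _ _ _ fun k => ?_
    induction k generalizing c with
    | zero => exact (ha_zero _ _ fun r k => by omega).le.trans zero_le
    | succ k ih =>
      refine (step h0 h1 (ENNReal.ofReal (10 ^ 4 * T)) _ (fun F c r h => ⟨h.1.1, h.1.2.1⟩)
        (fun F c hc => (ha_mono _ _ _ fun r h => ⟨h.1.2.2, by
          have := h.2
          simp only [stepsA] at this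
          omega⟩).trans (ih c hc)) _).trans ?_
      have k1 : HD δ p q (fun d => NRA p q (.top d) ∧ stepsA (Up.top d) < k + 1) (true, c) ≤
          ENNReal.ofReal (100 * T) * 2 ^ c.natAbs := by
        refine (hd_mono _ _ _ fun d h => h.1).trans ((hD.d1 true c hc).trans ?_)
        refine mul_le_mul_right (le_trans ?_ (one_le_pow₀ one_le_two)) _
        refine mul_le_one' ?_ (pow_le_one₀ zero_le (by simp))
        split_ifs
        · rfl
        · exact ENNReal.ofReal_le_one.2 (by linarith)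
      have k2 : ∑' c', vE δ p q (true, c) (false, c') * ∑' u, YY δ p q (NRF p q) c' u *
          fA δ p q (ENNReal.ofReal (10 ^ 4 * T)) (true, u) ≤
            ENNReal.ofReal (3200 * T) * 2 ^ c.natAbs := by
        have := (hA.turn p le_rfl).pot (fun v => ENNReal.ofReal (9300 * T) * 2 ^ v.natAbs) c _
          fun v _ => pw2 _ c v
        refine le_trans ?_ ((mul_le_mul_right this (ENNReal.ofReal (1 / 3 - δ))).trans ?_)
        · rw [← ENNReal.tsum_mul_left]
          refine ENNReal.tsum_le_tsum fun c' => ?_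
          rw [vE_ud h0 h1, mul_assoc]
          refine mul_le_mul_right (mul_le_mul_right ((hg c').trans ?_) _) _
          split_ifs
          · exact zero_le
          · rfl
        · rw [← add_mul, ← mul_assoc, ← mul_assoc, ← ENNReal.ofReal_one,
            ← ENNReal.ofReal_add (by norm_num) T0, ← ENNReal.ofReal_mul (by linarith),
            ← ENNReal.ofReal_mul (mul_nonneg (by linarith) (by linarith))]
          refine mul_le_mul_left (ENNReal.ofReal_le_ofReal ?_) _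
          have : (1 / 3 - δ) * (1 + T) ≤ 34 / 100 := by nlinarith
          nlinarith
      refine (add_le_add k1 (add_le_add (hf c hc) k2)).trans ?_
      rw [← add_mul, ← add_mul, ← ENNReal.ofReal_add (by positivity) (by positivity),
        ← ENNReal.ofReal_add (by positivity) (by positivity)]
      refine mul_le_mul_left (ENNReal.ofReal_le_ofReal ?_) _
      linarith
  refine ⟨main, fun a => ?_⟩
  refine (step h0 h1 (ENNReal.ofReal (10 ^ 4 * T)) _ (fun F c r h => ⟨h.1.1, h.1.2.1⟩)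
    (fun F c hc => (ha_mono _ _ _ fun r h => h.1.2.2).trans (main c hc)) _).trans ?_
  have k1 : HD δ p q (fun d => Pat p q (.top d)) (a, 0) ≤ ENNReal.ofReal (10 ^ 3 * T ^ 2) :=
    hD.d3 a
  have k2 := sta h0 h1 hA a true (ENNReal.ofReal (10 ^ 4 * T))
  have k3 := le_trans (ENNReal.tsum_le_tsum fun c => mul_le_mul_right (hg c) _)
    (sta h0 h1 hA a false (ENNReal.ofReal (9300 * T)))
  refine (add_le_add k1 (add_le_add k2 k3)).trans ?_
  rw [← ENNReal.ofReal_mul T0, ← ENNReal.ofReal_mul T0,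
    ← ENNReal.ofReal_add (by positivity) (by positivity),
    ← ENNReal.ofReal_add (by positivity) (by positivity)]
  refine ENNReal.ofReal_le_ofReal ?_
  nlinarith [sq_nonneg T]

end Pool.Agent.MP_e0ec03_al.Asy

end MrgPart3

-- marker of a merged file
example : 731051 + 632157 = 731051 + 632157 := rfl
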