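import Pool.Agent.MP_e0ec03_al.asy.Parse
import Pool.Agent.MP_e0ec03_al.asy.Spa1

-- ======== part 0: formerly Pool.Agent.MP_e0ec03_al.asy.Har
section MrgPart0

/-! ROW HAR of THEOREM ASY: the Harris inequality for the sizes of the exponents. -/

namespace Pool.Agent.MP_e0ec03_al.Asy

open Classical Finset

namespace Har

/-- indicator of a proposition -/
noncomputable def I (P : Prop) : ℝ := if P then 1 else 0

theorem ite_eq_I (P : Prop) [Decidable P] : (if P then 1 else 0 : ℝ) = I P := by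
  by_cases h : P <;> simp [I, h]

theorem I_pos {P : Prop} (h : P) : I P = 1 := by simp [I, h]

theorem I_nonneg (P : Prop) : 0 ≤ I P := by
  by_cases h : P <;> simp [I, h]

theorem I_mono {P Q : Prop} (h : P → Q) : I P ≤ I Q := by
  by_cases k : P
  · rw [I_pos k, I_pos (h k)]
  · have := I_nonneg Q
    simpa [I, k] using this

theorem I_congr {P Q : Prop} (h : P ↔ Q) : I P = I Q := by rw [propext h]

theorem I_and (P Q : Prop) : I (P ∧ Q) = I P * I Q := by
  by_cases h : P <;> by_cases k : Q <;> simp [I, h, k]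

theorem I_not (P : Prop) : I (¬P) + I P = 1 := by
  by_cases h : P <;> simp [I, h]

/-- the second list has the larger sizes -/
inductive R : List (Bool × Bool) → List ℤ → List ℤ → Prop
  | refl (e : List (Bool × Bool)) (xs : List ℤ) : R e xs xs
  | cons (b : Bool × Bool) (l : List (Bool × Bool)) (m m' : ℕ) (xs ys : List ℤ) :
      m ≤ m' → R l xs ys → R (b :: l) (sg b.2 m :: xs) (sg b.2 m' :: ys)

def Dec (e : List (Bool × Bool)) (f : List ℤ → ℝ) : Prop := ∀ xs ys, R e xs ys → f ys ≤ f xs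

theorem abs_sg (σ : Bool) (m : ℕ) : |sg σ m| = m := by
  cases σ <;> simp [sg]

theorem cost_anti (σ : Bool) (d : ℤ) {m m' : ℕ} (h : m ≤ m') :
    |sg σ m' + d| - |sg σ m'| ≤ |sg σ m + d| - |sg σ m| := by
  rw [abs_sg, abs_sg]
  have h1 := le_abs_self (sg σ m + d)
  have h2 := neg_abs_le (sg σ m + d)
  rw [sub_le_iff_le_add, abs_le]
  generalize |sg σ m + d| = t at h1 h2 ⊢
  cases σ <;> simp only [sg, Bool.false_eq_true, if_true, if_false] at h1 h2 ⊢ <;> omega

theorem R.delta_le {e : List (Bool × Bool)} {xs ys : List ℤ} (h : R e xs ys) :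
    ∀ ds, delta ys ds ≤ delta xs ds := by
  induction h with
  | refl => exact fun _ => le_rfl
  | cons b l m m' xs ys hm _ ih =>
    intro ds
    cases ds with
    | nil => simp
    | cons d ds =>
      have h1 := ih ds
      have h2 := cost_anti b.2 d hm
      simp only [delta_cons]
      omega

theorem R.abs_lt {e : List (Bool × Bool)} {xs ys : List ℤ} (h : R e xs ys) (K : ℤ) :
    (∀ y ∈ ys, |y| < K) → ∀ x ∈ xs, |x| < K := by
  induction h with
  | refl => exact id
  | cons b l m m' xs ys hm _ ih =>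
    intro k x hx
    rcases List.mem_cons.1 hx with rfl | hx
    · have := k (sg b.2 m') (by simp)
      rw [abs_sg] at this ⊢
      omega
    · exact ih (fun y hy => k y (by simp [hy])) x hx

theorem R.not_win {e : List (Bool × Bool)} {xs ys : List ℤ} (h : R e xs ys) (ds : List ℤ)
    (k : ¬win ys ds) : ¬win xs ds := by
  have := h.delta_le ds
  intro k'
  apply k
  rcases k' with k' | ⟨k1, k2⟩
  · exact Or.inl (by omega)
  · rcases (show delta ys ds < 0 ∨ delta ys ds = 0 by omega) with k3 | k3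
    · exact Or.inl k3
    · exact Or.inr ⟨k3, k2⟩

/-- the sum inequality of Chebyshev for a probability law -/
theorem cheb (s : Finset ℕ) (w F G : ℕ → ℝ) (hw : ∀ m, 0 ≤ w m) (h1 : ∑ m ∈ s, w m = 1)
    (hF : Antitone F) (hG : Antitone G) :
    (∑ m ∈ s, w m * F m) * (∑ m ∈ s, w m * G m) ≤ ∑ m ∈ s, w m * (F m * G m) := by
  have h0 : 0 ≤ ∑ m ∈ s, ∑ k ∈ s, w m * w k * ((F m - F k) * (G m - G k)) := by
    refine sum_nonneg fun m _ => sum_nonneg fun k _ => mul_nonneg (mul_nonneg (hw m) (hw k)) ?_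
    rcases le_total m k with h | h
    · exact mul_nonneg (sub_nonneg.2 (hF h)) (sub_nonneg.2 (hG h))
    · exact mul_nonneg_of_nonpos_of_nonpos (sub_nonpos.2 (hF h)) (sub_nonpos.2 (hG h))
  have h2 : ∀ m, ∑ k ∈ s, w m * w k * ((F m - F k) * (G m - G k)) =
      w m * (F m * G m) * (∑ k ∈ s, w k) - w m * F m * (∑ k ∈ s, w k * G k) -
        w m * G m * (∑ k ∈ s, w k * F k) + w m * ∑ k ∈ s, w k * (F k * G k) := by
    intro m
    simp only [mul_sum, ← sum_sub_distrib, ← sum_add_distrib]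
    exact sum_congr rfl fun k _ => by ring
  simp only [h2, sum_add_distrib, sum_sub_distrib, ← sum_mul, h1] at h0
  linarith

/-- the Harris inequality -/
theorem harris {p : ℕ} (hp : 1 ≤ p) : ∀ (a : Bool) (e : List (Bool × Bool)) (f g : List ℤ → ℝ),
    Dec e f → Dec e g → EM p a e f * EM p a e g ≤ EM p a e (fun xs => f xs * g xs)
  | _, [], _, _, _, _ => le_rfl
  | a, b :: l, f, g, hf, hg => by
    have anti : ∀ f : List ℤ → ℝ, Dec (b :: l) f →
        Antitone fun m : ℕ => EM p b.1 l (fun xs => f (sg b.2 m :: xs)) := fun f hf m m' h =>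
      EM_mono p b.1 l _ _ fun xs _ _ => hf _ _ (R.cons b l m m' xs xs h (R.refl l xs))
    refine (cheb _ _ _ _ (law_nonneg p a b.1) (law_sum hp a b.1) (anti f hf) (anti g hg)).trans ?_
    refine sum_le_sum fun m _ => mul_le_mul_of_nonneg_left ?_ (law_nonneg _ _ _ _)
    exact harris hp b.1 l _ _ (fun xs ys h => hf _ _ (R.cons b l m m xs ys le_rfl h))
      fun xs ys h => hg _ _ (R.cons b l m m xs ys le_rfl h)

theorem EM_nonneg {p : ℕ} (hp : 1 ≤ p) (a : Bool) (e : List (Bool × Bool)) (f : List ℤ → ℝ)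
    (h : ∀ xs, 0 ≤ f xs) : 0 ≤ EM p a e f :=
  (EM_const hp 0 a e).ge.trans (EM_mono p a e _ _ fun xs _ _ => h xs)

theorem exp_neg_le {y t : ℝ} (hy : 0 ≤ y) (h : 1 ≤ t * (1 + y)) : Real.exp (-y) ≤ t := by
  have h1 := Real.add_one_le_exp y
  have h2 : 0 ≤ t := by
    by_contra k
    nlinarith
  rw [Real.exp_neg, inv_le_iff_one_le_mul₀ (Real.exp_pos y)]
  nlinarith

/-- no exponent has the size `p` -/
theorem small {p : ℕ} (hp : 3 ≤ p) : ∀ (a : Bool) (e : List (Bool × Bool)),
    Real.exp (-(6 * (1 / 3) ^ p * e.length)) ≤ EM p a e (fun xs => I (∀ x ∈ xs, |x| < p))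
  | _, [] => by simp [EM, I]
  | a, b :: l => by
    have ih := small hp b.1 l
    have hy0 : (0 : ℝ) ≤ (1 / 3) ^ p := by positivity
    have hy1 : ((1 : ℝ) / 3) ^ p ≤ (1 / 3) ^ 3 :=
      pow_le_pow_of_le_one (by norm_num) (by norm_num) hp
    have h1 : Real.exp (-(6 * (1 / 3) ^ p)) ≤ 1 - 3 * (1 / 3) ^ p :=
      exp_neg_le (by positivity) (by nlinarith)
    have h2 : law p a b.1 p ≤ 3 * (1 / 3) ^ p := by
      have : p ≠ 0 := by omega
      unfold law
      simp only [this, lt_irrefl, if_false]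
      split_ifs <;> linarith
    have h3 := law_sum (show 1 ≤ p by omega) a b.1
    rw [sum_range_succ] at h3
    have h4 : ∀ m ∈ range p, law p a b.1 m * Real.exp (-(6 * (1 / 3) ^ p * l.length)) ≤
        law p a b.1 m * EM p b.1 l (fun xs => I (∀ x ∈ sg b.2 m :: xs, |x| < p)) := by
      intro m hm
      refine mul_le_mul_of_nonneg_left (ih.trans (EM_mono p b.1 l _ _ fun xs _ _ => I_mono ?_))
        (law_nonneg _ _ _ _)
      intro k x hx
      rcases List.mem_cons.1 hx with rfl | hx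
      · rw [abs_sg]
        exact_mod_cast mem_range.1 hm
      · exact k x hx
    have h5 := sum_le_sum h4
    rw [← sum_mul] at h5
    have h6 : 0 ≤ law p a b.1 p * EM p b.1 l (fun xs => I (∀ x ∈ sg b.2 p :: xs, |x| < p)) :=
      mul_nonneg (law_nonneg _ _ _ _) (EM_nonneg (by omega) _ _ _ fun _ => I_nonneg _)
    have h7 : Real.exp (-(6 * (1 / 3) ^ p * ((b :: l).length : ℝ))) =
        Real.exp (-(6 * (1 / 3) ^ p)) * Real.exp (-(6 * (1 / 3) ^ p * l.length)) := by
      rw [← Real.exp_add, List.length_cons]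
      push_cast
      ring_nf
    rw [h7, EM, sum_range_succ]
    have h8 := mul_le_mul_of_nonneg_right (show Real.exp (-(6 * (1 / 3) ^ p)) ≤
      ∑ m ∈ range p, law p a b.1 m by linarith)
      (Real.exp_pos (-(6 * (1 / 3) ^ p * (l.length : ℝ)))).le
    linarith

theorem nz_cons (d : ℤ) (ds : List ℤ) : nz (d :: ds) = nz ds + if d = 0 then 0 else 1 := by
  by_cases h : d = 0 <;> simp [nz, h]

theorem nz_pos : ∀ ds : List ℤ, lexneg ds → 0 < nz ds
  | [], h => h.elim
  | d :: ds, h => by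
    rw [nz_cons]
    rcases h with h | h
    · rw [if_neg h.ne]
      omega
    · have := nz_pos ds h.2
      omega

/-- with the smallest sizes every nonzero change costs at least one -/
theorem low {p q : ℕ} (hp : 3 ≤ p) (hpq : p ≤ q) : ∀ (e : List (Bool × Bool)) (A : Edge)
    (v : List Edge), v.map Prod.fst = e.map Prod.fst → (1 / 2 : ℝ) ^ nz (dl p q A v) ≤
      EM p A.1 e (fun xs => I ((nz (dl p q A v) : ℤ) ≤ delta xs (dl p q A v)))
  | [], A, [], _ => by simp [EM, I, dl, nz]
  | [], _, _ :: _, h => by simp at h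
  | _ :: _, _, [], h => by simp at h
  | b :: l, A, c :: v, h => by
    simp only [List.map_cons, List.cons.injEq] at h
    have ih := low hp hpq l c v h.2
    rw [h.1] at ih
    have hp1 : 1 ≤ p := by omega
    rw [dl, EM]
    by_cases hd : inn p q A - out p q c = 0
    · simp only [hd, nz_cons, if_true, add_zero, delta_cons, sub_self, zero_add]
      rw [← sum_mul, law_sum hp1, one_mul]
      exact ih
    · have hm : ∃ m, m < p + 1 ∧ 1 / 2 ≤ law p A.1 b.1 m ∧
          1 ≤ |sg b.2 m + (inn p q A - out p q c)| - |sg b.2 m| := by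
        by_cases hab : A.1 = b.1
        · refine ⟨0, by omega, by simp [law, hab], ?_⟩
          have := Int.one_le_abs hd
          cases b.2 <;> simpa [sg] using this
        · have h1 := turn_dd hpq (a := A) (b := c) (by rw [h.1]; exact hab) hd
          refine ⟨1, by omega, ?_, ?_⟩
          · have : 1 < p := by omega
            simp only [law, hab, this, if_true, if_false, one_ne_zero]
            norm_num
          · have h2 := abs_sub_abs_le_abs_add (inn p q A - out p q c) (sg b.2 1)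
            rw [add_comm, abs_sg] at h2
            rw [abs_sg]
            omega
      obtain ⟨m, h1, h2, h3⟩ := hm
      refine le_trans ?_ (single_le_sum (f := fun m => law p A.1 b.1 m * EM p b.1 l _)
        (fun m _ => mul_nonneg (law_nonneg _ _ _ _) (EM_nonneg hp1 _ _ _ fun _ => I_nonneg _))
        (mem_range.2 h1))
      rw [nz_cons, if_neg hd, pow_succ, mul_comm]
      refine mul_le_mul h2 (ih.trans (EM_mono p b.1 l _ _ fun xs _ _ => I_mono fun k => ?_))
        (by positivity) (law_nonneg _ _ _ _)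
      rw [delta_cons]
      push_cast
      omega

theorem exp_le {P : ℝ} {n : ℕ} (h0 : 0 ≤ P) (h1 : (1 / 2 : ℝ) ^ n ≤ 1 - P) :
    Real.exp (-(P + 3 * n * P ^ 2)) ≤ 1 - P := by
  rcases Nat.eq_zero_or_pos n with rfl | hn
  · have : P = 0 := by
      rw [pow_zero] at h1
      linarith
    simp [this]
  have hn' : (1 : ℝ) ≤ n := by exact_mod_cast hn
  rcases le_total P (2 / 3) with h | h
  · refine le_trans (Real.exp_le_exp.2 (show _ ≤ -(P + 3 * P ^ 2) by nlinarith [sq_nonneg P])) ?_
    exact exp_neg_le (by positivity) (by nlinarith [mul_nonneg (sq_nonneg P) (sub_nonneg.2 h)])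
  · have h2 : (1 : ℝ) ≤ 3 * P ^ 2 := by nlinarith
    refine le_trans (Real.exp_le_exp.2 (show _ ≤ (n : ℝ) * -1 by nlinarith)) (le_trans ?_ h1)
    rw [Real.exp_nat_mul]
    exact pow_le_pow_left₀ (Real.exp_pos _).le (exp_neg_le zero_le_one (by norm_num)) n

theorem one {p q : ℕ} (hp : 3 ≤ p) (hpq : p ≤ q) (a : Bool) (e : List (Bool × Bool))
    (ds : List ℤ) (h : Lat p q a (e.map Prod.fst) ds) :
    Real.exp (-(PW p a e ds + 3 * nz ds * PW p a e ds ^ 2)) ≤
      EM p a e (fun xs => I (¬win xs ds)) := by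
  have hp1 : 1 ≤ p := by omega
  have h1 : EM p a e (fun xs => I (¬win xs ds)) = 1 - PW p a e ds := by
    have h2 := EM_add p a e (fun xs => I (¬win xs ds)) fun xs => I (win xs ds)
    simp only [I_not, EM_const hp1] at h2
    simp only [PW, ite_eq_I]
    linarith
  obtain ⟨v, h2, -, rfl⟩ := h
  have h3 := (low hp hpq e (a, 0) v h2).trans (EM_mono p a e _
    (fun xs => I (¬win xs (dl p q (a, 0) v))) fun xs _ _ => I_mono fun k k' => by
      rcases k' with k' | ⟨k1, k2⟩
      · omega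
      · have := nz_pos _ k2
        omega)
  rw [h1] at h3 ⊢
  exact exp_le (PW_nonneg hp1 _ _ _) h3

end Har

open Har in
theorem har : HarStmt := by
  intro p q hp hpq a e ι s D hD
  simp only [ite_eq_I]
  induction s using Finset.induction_on with
  | empty => simpa using small hp a e
  | insert i s hi ih =>
    have h1 := ih fun j hj => hD j (mem_insert_of_mem hj)
    have h2 := one hp hpq.le a e (D i) (hD i (mem_insert_self i s))
    have h3 := harris (show 1 ≤ p by omega) a e
      (fun xs => I ((∀ x ∈ xs, |x| < p) ∧ ∀ j ∈ s, ¬win xs (D j))) (fun xs => I (¬win xs (D i)))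
      (fun xs ys h => I_mono fun k => ⟨h.abs_lt _ k.1, fun j hj => h.not_win _ (k.2 j hj)⟩)
      fun xs ys h => I_mono (h.not_win _)
    have h4 := mul_le_mul h1 h2 (Real.exp_pos _).le ((Real.exp_pos _).le.trans h1)
    rw [← Real.exp_add] at h4
    rw [sum_insert hi]
    refine le_trans (le_of_eq ?_) (h4.trans (h3.trans (le_of_eq ?_)))
    · congr 1
      ring
    · congr 1
      funext xs
      rw [← I_and]
      refine I_congr ?_
      simp only [forall_mem_insert]
      tauto

end Pool.Agent.MP_e0ec03_al.Asy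

end MrgPart0

-- ======== part 1: formerly Pool.Agent.MP_e0ec03_al.asy.Jen
section MrgPart1

/-! THEOREM ASY, row JEN: words as random variables, and the change of measure. -/

namespace Pool.Agent.MP_e0ec03_al.Asy

open Classical Finset

namespace Jen

theorem sum_Ioo (h : ℤ → ℝ) (n : ℕ) : ∑ x ∈ Ioo (-((n + 1 : ℕ) : ℤ)) ((n + 1 : ℕ) : ℤ), h x =
    h 0 + ∑ m ∈ range n, (h ((m + 1 : ℕ) : ℤ) + h (-((m + 1 : ℕ) : ℤ))) := by
  induction n with
  | zero =>
    have : Ioo (-((0 + 1 : ℕ) : ℤ)) ((0 + 1 : ℕ) : ℤ) = {0} := by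
      ext x; simp only [mem_Ioo, mem_singleton]; omega
    rw [this]; simp
  | succ n ih =>
    have : Ioo (-((n + 1 + 1 : ℕ) : ℤ)) ((n + 1 + 1 : ℕ) : ℤ) = insert ((n + 1 : ℕ) : ℤ)
        (insert (-((n + 1 : ℕ) : ℤ)) (Ioo (-((n + 1 : ℕ) : ℤ)) ((n + 1 : ℕ) : ℤ))) := by
      ext x; simp only [mem_Ioo, mem_insert]; omega
    rw [this, sum_insert (by simp only [mem_Ioo, mem_insert]; omega),
      sum_insert (by simp only [mem_Ioo]; omega), ih, sum_range_succ]
    ring

theorem vertex {p : ℕ} (hp : 1 ≤ p) (a b : Bool) (G : ℤ → ℝ) :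
    ∑ x ∈ Ioo (-(p : ℤ)) p, (if x = 0 ∧ a ≠ b then 0 else (1 / 3 : ℝ) ^ (x.natAbs + 1)) * G x =
      ∑ σ : Bool, kk 0 a b / 2 * ∑ m ∈ range (p + 1),
        law p a b m * (if |sg σ m| < p then G (sg σ m) else 0) := by
  obtain ⟨n, rfl⟩ : ∃ n, p = n + 1 := ⟨p - 1, by omega⟩
  have h1 : ∀ σ : Bool, kk 0 a b / 2 * ∑ m ∈ range (n + 1 + 1),
      law (n + 1) a b m * (if |sg σ m| < ((n + 1 : ℕ) : ℤ) then G (sg σ m) else 0) =
      (if a ≠ b then 0 else 1 / 6) * G 0 +
        ∑ m ∈ range n, (1 / 3 : ℝ) ^ (m + 1 + 1) * G (sg σ (m + 1)) := by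
    intro σ
    have hs : ∀ m : ℕ, |sg σ m| = m := fun m => by cases σ <;> simp [sg]
    have h0 : sg σ 0 = 0 := by cases σ <;> simp [sg]
    simp only [hs]
    rw [sum_range_succ, if_neg (lt_irrefl _), mul_zero, add_zero, sum_range_succ', mul_add, mul_sum,
      add_comm, h0, if_pos (by omega)]
    congr 1
    · by_cases h : a = b <;> simp [law, kk, h]
      ring
    · refine sum_congr rfl fun m hm => ?_
      have hm := mem_range.1 hm
      rw [if_pos (by omega)]
      by_cases h : a = b <;> simp [law, kk, h, hm] <;> ring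
  rw [sum_Ioo, Fintype.sum_bool, h1, h1, add_add_add_comm, ← sum_add_distrib]
  refine congrArg₂ (· + ·) ?_ (sum_congr rfl fun m _ => ?_)
  · by_cases h : a = b
    · simp [h]; ring
    · simp [h]
  · rw [if_neg (by omega), if_neg (by omega), Int.natAbs_neg, Int.natAbs_natCast]
    simp [sg]

theorem tangent {v w : ℝ} (hv : 0 < v) (hw : 0 < w) (y : ℝ) :
    w * (2 + y) - w ^ 2 / v ≤ v * Real.exp y := by
  have h1 := Real.add_one_le_exp (y + Real.log (v / w))
  have h2 := Real.one_sub_inv_le_log_of_pos (div_pos hv hw)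
  rw [Real.exp_add, Real.exp_log (div_pos hv hw)] at h1
  rw [inv_div] at h2
  have h3 : w * (2 + y - w / v) ≤ w * (Real.exp y * (v / w)) :=
    mul_le_mul_of_nonneg_left (by linarith) hw.le
  have h4 : w * (Real.exp y * (v / w)) = v * Real.exp y := by field_simp
  have h5 : w * (2 + y - w / v) = w * (2 + y) - w ^ 2 / v := by ring
  linarith

theorem step {δ : ℝ} (h0 : 0 ≤ δ) (h1 : δ ≤ 1 / 6) (a : Bool) (h : Bool × Bool → ℝ) :
    Real.exp (-(5 * δ ^ 2 + ∑ e : Bool × Bool, kk δ a e.1 / 2 * h e)) ≤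
      ∑ e : Bool × Bool, kk 0 a e.1 / 2 * Real.exp (-h e) := by
  set m := 5 * δ ^ 2 + ∑ e : Bool × Bool, kk δ a e.1 / 2 * h e with hm
  have hv : ∀ b, 0 < kk 0 a b / 2 := fun b => by cases a <;> cases b <;> simp [kk]
  have hw : ∀ b, 0 < kk δ a b / 2 := fun b => by
    cases a <;> cases b <;> simp [kk] <;> linarith
  have k1 : ∑ e : Bool × Bool, (kk δ a e.1 / 2 * (2 + (m - h e)) -
      (kk δ a e.1 / 2) ^ 2 / (kk 0 a e.1 / 2)) ≤
      ∑ e : Bool × Bool, kk 0 a e.1 / 2 * Real.exp (m - h e) :=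
    sum_le_sum fun e _ => tangent (hv _) (hw _) _
  have k2 : ∑ e : Bool × Bool, (kk δ a e.1 / 2 * (2 + (m - h e)) -
      (kk δ a e.1 / 2) ^ 2 / (kk 0 a e.1 / 2)) = 1 + δ ^ 2 / 2 := by
    rw [hm]
    cases a <;> simp [Fintype.sum_prod_type, kk] <;> ring
  have k3 : ∑ e : Bool × Bool, kk 0 a e.1 / 2 * Real.exp (-h e) =
      Real.exp (-m) * ∑ e : Bool × Bool, kk 0 a e.1 / 2 * Real.exp (m - h e) := by
    rw [mul_sum]
    refine sum_congr rfl fun e _ => ?_
    rw [mul_left_comm, ← Real.exp_add]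
    congr 2
    ring
  rw [k3]
  exact le_mul_of_one_le_right (Real.exp_pos _).le (by nlinarith [sq_nonneg δ])

theorem chain {δ : ℝ} (h0 : 0 ≤ δ) (h1 : δ ≤ 1 / 6) : ∀ (n : ℕ) (a : Bool)
    (F H : List (Bool × Bool) → ℝ), (∀ e, e.length = n → Real.exp (-H e) ≤ F e) →
    Real.exp (-(5 * δ ^ 2 * n + NE δ n a H)) ≤ NE 0 n a F
  | 0, _, F, H, h => by simpa [NE] using h [] rfl
  | n + 1, a, F, H, h => by
    have k := step h0 h1 a fun e => 5 * δ ^ 2 * n + NE δ n e.1 fun l => H (e :: l)
    have e1 : 5 * δ ^ 2 + ∑ e : Bool × Bool, kk δ a e.1 / 2 *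
        (5 * δ ^ 2 * n + NE δ n e.1 fun l => H (e :: l)) =
        5 * δ ^ 2 * (n + 1 : ℕ) + NE δ (n + 1) a H := by
      have := kk_sum δ a
      rw [Fintype.sum_bool] at this
      simp only [NE, Fintype.sum_prod_type, Fintype.sum_bool]
      push_cast
      linear_combination (5 * δ ^ 2 * n) * this
    rw [e1] at k
    refine k.trans (sum_le_sum fun e _ => mul_le_mul_of_nonneg_left ?_
      (div_nonneg (kk_nonneg le_rfl (by norm_num) a e.1) zero_le_two))
    exact chain h0 h1 n e.1 _ _ fun l hl => h (e :: l) (by simp [hl])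

end Jen

open Jen

theorem br : BrStmt := by
  intro p hp n
  induction n with
  | zero => intro a f; simp [words, sum_lists_zero, wt, NE, EM]
  | succ n ih =>
    intro a f
    rw [sum_words_succ, sum_comm, NE, Fintype.sum_prod_type]
    refine sum_congr rfl fun b _ => ?_
    simp only [wt, mul_assoc, ← mul_sum]
    have h1 : ∀ x : ℤ, ∑ l ∈ words p n, wt (1 / 3) b l * f ((x, b) :: l) = _ :=
      fun x => ih b fun l => f ((x, b) :: l)
    simp only [h1]
    rw [mul_sum]
    refine (vertex hp a b _).trans (sum_congr rfl fun σ _ => ?_)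
    congr 1
    simp only [EM, NE_sum, NE_mul]
    refine sum_congr rfl fun m _ => ?_
    congr 1
    split_ifs with h
    · simp [h]
    · simp [h, EM_const hp, NE_const]

theorem jen : JenStmt := by
  intro δ h0 h1 n F H h
  have k1 := chain h0 h1 n true _ _ (h true)
  have k2 := chain h0 h1 n false _ _ (h false)
  have s1 := st0_nonneg h0 (by linarith) true
  have s2 := st0_nonneg h0 (by linarith) false
  have s3 := st0_sum δ
  rw [Fintype.sum_bool] at s3 ⊢
  rw [Fintype.sum_bool]
  generalize NE δ n true (H true) = x at *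
  generalize NE δ n false (H false) = y at *
  have p1 := Real.exp_pos (-(5 * δ ^ 2 * n + x))
  have p2 := Real.exp_pos (-(5 * δ ^ 2 * n + y))
  have s4 : st0 δ false = 1 - st0 δ true := by linarith
  rcases le_total x y with q | q
  · have : Real.exp (-(5 * δ ^ 2 * n + (st0 δ true * x + st0 δ false * y))) ≤
        Real.exp (-(5 * δ ^ 2 * n + x)) := by
      refine Real.exp_le_exp.2 ?_
      have := mul_le_mul_of_nonneg_left q s2
      rw [s4] at this ⊢
      linarith
    linarith
  · have : Real.exp (-(5 * δ ^ 2 * n + (st0 δ true * x + st0 δ false * y))) ≤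
        Real.exp (-(5 * δ ^ 2 * n + y)) := by
      refine Real.exp_le_exp.2 ?_
      have := mul_le_mul_of_nonneg_left q s1
      rw [s4]
      linarith
    linarith

end Pool.Agent.MP_e0ec03_al.Asy

end MrgPart1

-- ======== part 2: formerly Pool.Agent.MP_e0ec03_al.asy.Mb
section MrgPart2

/-! ROW MB: the weights of the two canonical patterns of a shape. -/

namespace Pool.Agent.MP_e0ec03_al.Asy

open Classical Finset

namespace Mb

theorem fstF (nx : ℤ → ℤ) : ∀ (F : Fo Unit) (c : ℤ),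
    (flatF (decF nx c F)).map Prod.fst = (flatF F).map Prod.fst
  | .nil, _ => rfl
  | .cons _ _ I R, c => by simp [flatF, decF, fstF nx I, fstF nx R]

theorem fstD (nx : ℤ → ℤ) (s : ℤ) : ∀ d : Dn Unit,
    (flatD (decD nx s d)).map Prod.fst = (flatD d).map Prod.fst
  | .fin F => fstF nx F s
  | .step F _ d => by simp [flatD, decD, fstF nx F, fstD nx s d]

theorem fstA (nx : ℤ → ℤ) (s : ℤ) : ∀ γ : Up Unit,
    (flatA (decA nx s γ)).map Prod.fst = (flatA γ).map Prod.fst
  | .top d => fstD nx s d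
  | .step F _ r => by simp [flatA, decA, fstF nx F, fstA nx s r]

theorem lastF (nx : ℤ → ℤ) (c : ℤ) (F : Fo Unit) :
    lastE (true, c) (flatF (decF nx c F)) = (true, c) := top_last (top_decF nx c F)

theorem lastF' (nx : ℤ → ℤ) (s : ℤ) (a : Edge) (h : a.2 = s) : ∀ F : Fo Unit,
    (lastE a (flatF (decF nx s F))).2 = s
  | .nil => h
  | .cons _ _ _ R => by rw [decF, lastE_cons, lastF]

theorem lastD (nx : ℤ → ℤ) (s : ℤ) : ∀ (d : Dn Unit) (a : Edge), a.2 = s →
    (lastE a (flatD (decD nx s d))).2 = s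
  | .fin F, a, h => lastF' nx s a h F
  | .step F _ d, a, _ => by
    simp only [decD, flatD, lastE_append, lastE]
    exact lastD nx s d _ rfl

theorem lastA (nx : ℤ → ℤ) (s : ℤ) : ∀ (γ : Up Unit) (a : Edge), a.2 = s →
    (lastE a (flatA (decA nx s γ))).2 = s
  | .top d, a, h => lastD nx s d a h
  | .step F _ r, a, _ => by
    simp only [decA, flatA, lastE_append, lastE]
    exact lastA nx s r _ rfl

theorem headA (nx : ℤ → ℤ) (s : ℤ) (e : Edge) (u : List Edge) : ∀ γ : Up Unit,
    flatA (decA nx s γ) = e :: u → e.2 = s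
  | .top (.fin .nil), h => by simp [decA, decD, decF, flatA, flatD, flatF] at h
  | .top (.fin (.cons ..)), h => by
    simp only [decA, decD, decF, flatA, flatD, flatF, List.cons.injEq] at h
    rw [← h.1]
  | .top (.step .nil ..), h => by
    simp only [decA, decD, decF, flatA, flatD, flatF, List.nil_append, List.cons.injEq] at h
    rw [← h.1]
  | .top (.step (.cons ..) ..), h => by
    simp only [decA, decD, decF, flatA, flatD, flatF, List.cons_append, List.cons.injEq] at h
    rw [← h.1]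
  | .step .nil .., h => by
    simp only [decA, decF, flatA, flatF, List.nil_append, List.cons.injEq] at h
    rw [← h.1]
  | .step (.cons ..) .., h => by
    simp only [decA, decF, flatA, flatF, List.cons_append, List.cons.injEq] at h
    rw [← h.1]

variable {δ : ℝ} {p q : ℕ}

theorem v_tt (c c' : ℤ) :
    vtx δ p q (true, c) (true, c') = (2 / 3 + δ) * (mu (q * c' - p * c) / 2) := by
  rw [← mu_neg, neg_sub]
  simp [vtx, kk, ps, inn, out]

theorem v_ff (c c' : ℤ) :
    vtx δ p q (false, c) (false, c') = (2 / 3 - δ) * (mu (q * c - p * c') / 2) := by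
  simp [vtx, kk, ps, inn, out, sub_eq_add_neg]

theorem v_tf (c : ℤ) : vtx δ p q (true, c) (false, c) = 1 / 3 - δ := by
  simp [vtx, kk, inn, out, sub_eq_add_neg]

theorem v_ft (c : ℤ) : vtx δ p q (false, c) (true, c) = 1 / 3 + δ := by
  simp [vtx, kk, inn, out]

/-- The weight attached to a carry. -/
noncomputable def rr (p q : ℕ) (nx : ℤ → ℤ) (c : ℤ) : ℝ := (mu (q * c - p * nx c) / 2) ^ 2

theorem pwF (nx : ℤ → ℤ) : ∀ (F : Fo Unit) (c : ℤ),
    pw δ p q (true, c) (flatF (decF nx c F)) = chW δ (rr p q nx) nx c F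
  | .nil, _ => rfl
  | .cons _ _ .nil R, c => by
    have := pwF nx R c
    simp only [decF, flatF, List.nil_append, pw, chW, v_tf, v_ft, this, if_true]
    ring
  | .cons _ _ (.cons x y I1 R1) R, c => by
    have h1 := pwF nx R c
    have h2 := pwF nx (.cons x y I1 R1) (nx c)
    have h3 := lastF nx (nx c) (.cons x y I1 R1)
    rw [chW, if_neg (by simp), ← h1, ← h2, decF, flatF, pw, pw_append, pw]
    rw [decF, flatF] at h3 ⊢
    rw [pw, pw]
    rw [lastE] at h3 ⊢
    rw [h3, v_tf, v_tf, v_ff, v_tt, rr]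
    ring

theorem dlF (nx : ℤ → ℤ) : ∀ (F : Fo Unit) (c : ℤ),
    (dl p q (true, c) (flatF (decF nx c F))).sum = 0
  | .nil, _ => rfl
  | .cons _ _ .nil R, c => by
    have := dlF nx R c
    simp [decF, flatF, dl, this, inn, out]
  | .cons _ _ (.cons x y I1 R1) R, c => by
    have h1 := dlF nx R c
    have h2 := dlF nx (.cons x y I1 R1) (nx c)
    have h3 := lastF nx (nx c) (.cons x y I1 R1)
    rw [decF, flatF, dl, dl_append, dl]
    rw [decF, flatF] at h2 h3 ⊢
    rw [dl] at h2 ⊢
    rw [lastE] at h3 ⊢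
    rw [h3]
    simp only [List.sum_cons, List.sum_append, inn, out, if_true, h1] at h2 ⊢
    simp only [Bool.false_eq_true, if_false] at h2 ⊢
    omega

theorem chW_neg (δ : ℝ) (p q : ℕ) : ∀ (F : Fo Unit) (c : ℤ),
    chW δ (rr p q (nneg p q)) (nneg p q) (-c) F =
      chW δ (fun c => (mu (dig p q c) / 2) ^ 2) (nxt p q) c F
  | .nil, _ => rfl
  | .cons _ _ I R, c => by
    have h1 : nneg p q (-c) = -nxt p q c := by simp [nneg]
    have h2 : rr p q (nneg p q) (-c) = (mu (dig p q c) / 2) ^ 2 := by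
      rw [rr, h1, ← dig_eq, ← mu_neg]
      congr 3
      ring
    rw [chW, chW, h1, h2, chW_neg δ p q I, chW_neg δ p q R]

theorem rr_nxt (p q : ℕ) : rr p q (nxt p q) = fun c => (mu (dig p q c) / 2) ^ 2 :=
  funext fun c => by rw [rr, dig_eq]

/-- The factor at the right end. -/
noncomputable def en (τ : ℝ) (e : Edge) : ℝ := if e.1 then 1 else τ

/-- The weight of a tail, twisted by a character. -/
noncomputable def W (χ : ℤ → ℝ) (τ δ : ℝ) (p q : ℕ) (s : ℤ) (a : Edge) (u : List Edge) : ℝ :=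
  pw δ p q a u * en τ (lastE a u) *
    χ ((dl p q a u).sum + inn p q (lastE a u) - p * s)

/-- The weight of a pattern, twisted by a character. -/
noncomputable def V (χ : ℤ → ℝ) (τ δ : ℝ) (p q : ℕ) (s : ℤ) : List Edge → ℝ
  | [] => 0
  | e :: u => (if e.1 then τ else 1) * χ (out p q e - p * s) * W χ τ δ p q s e u

structure Ch (χ : ℤ → ℝ) (ε : ℝ) (k : ℤ) : Prop where
  add : ∀ a b, χ (a + b) = χ a * χ b
  zero : χ 0 = 1
  pos : χ k = ε
  neg : χ (-k) = ε

variable {χ : ℤ → ℝ} {τ ε : ℝ} {s : ℤ} {nx : ℤ → ℤ}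

theorem W_cons (h : Ch χ ε (q * s - p * s)) (a b : Edge) (u : List Edge) :
    W χ τ δ p q s a (b :: u) = vtx δ p q a b * χ (inn p q a - out p q b) * W χ τ δ p q s b u := by
  simp only [W, pw, lastE, dl, List.sum_cons]
  rw [show inn p q a - out p q b + (dl p q b u).sum + inn p q (lastE b u) - p * s =
    inn p q a - out p q b + ((dl p q b u).sum + inn p q (lastE b u) - p * s) by ring, h.add]
  ring

theorem W_tt (h : Ch χ ε (q * s - p * s)) (u : List Edge) :
    W χ τ δ p q s (true, s) ((true, s) :: u) =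
      (2 / 3 + δ) * (ε * (mu (q * s - p * s) / 2)) * W χ τ δ p q s (true, s) u := by
  rw [W_cons h, v_tt, ← h.neg]
  simp only [inn, out, if_true, neg_sub]
  ring

theorem W_ff (h : Ch χ ε (q * s - p * s)) (u : List Edge) :
    W χ τ δ p q s (false, s) ((false, s) :: u) =
      (2 / 3 - δ) * (ε * (mu (q * s - p * s) / 2)) * W χ τ δ p q s (false, s) u := by
  rw [W_cons h, v_ff, ← h.pos]
  simp only [inn, out, Bool.false_eq_true, if_false]
  ring

theorem W_tf (h : Ch χ ε (q * s - p * s)) (u : List Edge) :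
    W χ τ δ p q s (true, s) ((false, s) :: u) = (1 / 3 - δ) * W χ τ δ p q s (false, s) u := by
  rw [W_cons h, v_tf]
  simp [inn, out, h.zero]

theorem W_t (h : Ch χ ε (q * s - p * s)) : W χ τ δ p q s (true, s) [] = 1 := by
  simp [W, en, pw, lastE, dl, inn, h.zero]

theorem W_f (h : Ch χ ε (q * s - p * s)) : W χ τ δ p q s (false, s) [] = ε * τ := by
  rw [mul_comm]
  simp [W, en, pw, lastE, dl, inn, h.pos]

theorem W_F (F : Fo Unit) (u : List Edge) :
    W χ τ δ p q s (true, s) (flatF (decF nx s F) ++ u) =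
      chW δ (rr p q nx) nx s F * W χ τ δ p q s (true, s) u := by
  simp only [W, pw_append, lastE_append, dl_append, List.sum_append, lastF, pwF, dlF, zero_add]
  ring

theorem W_F' (h : Ch χ ε (q * s - p * s)) (hδ : δ < 1 / 3) {F : Fo Unit} (hF : F ≠ .nil) :
    ∃ v, flatF (decF nx s F) = (false, s) :: v ∧ ∀ u, W χ τ δ p q s (false, s) (v ++ u) =
      chW δ (rr p q nx) nx s F / (1 / 3 - δ) * W χ τ δ p q s (true, s) u := by
  cases F with
  | nil => exact absurd rfl hF
  | cons x y I R =>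
    refine ⟨_, rfl, fun u => ?_⟩
    have h0 : 1 / 3 - δ ≠ 0 := (sub_pos.2 hδ).ne'
    rw [div_mul_eq_mul_div, eq_div_iff h0, ← W_F, mul_comm, ← W_tf h]
    rfl

theorem W_dW (h : Ch χ ε (q * s - p * s)) (hδ : δ < 1 / 3) : ∀ d : Dn Unit,
    W χ τ δ p q s (false, s) (flatD (decD nx s d)) =
      dW δ (ε * τ) (ε * (mu (q * s - p * s) / 2)) (chW δ (rr p q nx) nx s) d
  | .fin F => by
    by_cases hF : F = .nil
    · subst hF
      rw [dW, if_pos rfl]
      exact W_f h
    · obtain ⟨v, h1, h2⟩ := W_F' (τ := τ) (nx := nx) h hδ hF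
      have := h2 []
      rw [List.append_nil, W_t h] at this
      rw [dW, if_neg hF, decD, flatD, h1, W_ff h, this]
      ring
  | .step F _ d => by
    have h0 : 1 / 3 - δ ≠ 0 := (sub_pos.2 hδ).ne'
    rw [dW, decD, flatD, ← W_dW h hδ d]
    by_cases hF : F = .nil
    · subst hF
      rw [decF, flatF, List.nil_append, W_ff h, chW, mul_one]
    · obtain ⟨v, h1, h2⟩ := W_F' (τ := τ) (nx := nx) h hδ hF
      rw [h1, List.cons_append, W_ff h, h2, W_tf h, ← mul_assoc (_ / _), div_mul_cancel₀ _ h0]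
      ring

theorem W_uW (h : Ch χ ε (q * s - p * s)) (hδ : δ < 1 / 3) : ∀ d : Dn Unit,
    W χ τ δ p q s (true, s) (flatD (decD nx s d)) =
      uW δ (ε * τ) (ε * (mu (q * s - p * s) / 2)) (chW δ (rr p q nx) nx s) d
  | .fin F => by
    have := W_F (χ := χ) (τ := τ) (δ := δ) (p := p) (q := q) (s := s) (nx := nx) F []
    rw [List.append_nil, W_t h, mul_one] at this
    exact this
  | .step F _ d => by
    rw [uW, decD, flatD, W_F, W_tf h, W_dW h hδ, mul_assoc]

theorem W_aW (h : Ch χ ε (q * s - p * s)) (hδ : δ < 1 / 3) : ∀ γ : Up Unit,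
    W χ τ δ p q s (true, s) (flatA (decA nx s γ)) =
      aW δ (ε * τ) (ε * (mu (q * s - p * s) / 2)) (chW δ (rr p q nx) nx s) γ
  | .top d => W_uW h hδ d
  | .step F _ r => by
    rw [aW, decA, flatA, W_F, W_tt h, W_aW h hδ r]
    ring

theorem V_f (h : Ch χ ε (q * s - p * s)) (u : List Edge) :
    V χ τ δ p q s ((false, s) :: u) = W χ τ δ p q s (false, s) u := by
  simp [V, out, h.zero]

theorem V_t (h : Ch χ ε (q * s - p * s)) (u : List Edge) :
    V χ τ δ p q s ((true, s) :: u) = ε * τ * W χ τ δ p q s (true, s) u := by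
  rw [mul_comm ε]
  simp [V, out, h.pos]

theorem V_SW (h : Ch χ ε (q * s - p * s)) (hδ : δ < 1 / 3) : ∀ γ : Up Unit,
    V χ τ δ p q s (flatA (decA nx s γ)) =
      SW δ (ε * τ) (ε * (mu (q * s - p * s) / 2)) (chW δ (rr p q nx) nx s) γ
  | .top (.fin F) => by
    by_cases hF : F = .nil
    · subst hF
      rw [SW, sW, if_pos rfl]
      rfl
    · obtain ⟨v, h1, h2⟩ := W_F' (τ := τ) (nx := nx) h hδ hF
      have := h2 []
      rw [List.append_nil, W_t h, mul_one] at this
      rw [SW, sW, if_neg hF, decA, flatA, decD, flatD, h1, V_f h, this]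
  | .top (.step F _ d) => by
    have h0 : 1 / 3 - δ ≠ 0 := (sub_pos.2 hδ).ne'
    rw [SW, sW, decA, flatA, decD, flatD, ← W_dW h hδ d]
    by_cases hF : F = .nil
    · subst hF
      rw [decF, flatF, List.nil_append, V_f h, chW, one_mul]
    · obtain ⟨v, h1, h2⟩ := W_F' (τ := τ) (nx := nx) h hδ hF
      rw [h1, List.cons_append, V_f h, h2, W_tf h, ← mul_assoc, div_mul_cancel₀ _ h0]
  | .step F _ r => by
    rw [SW, decA, flatA, ← W_aW h hδ r]
    by_cases hF : F = .nil
    · subst hF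
      rw [decF, flatF, List.nil_append, V_t h, if_pos rfl]
    · obtain ⟨v, h1, h2⟩ := W_F' (τ := τ) (nx := nx) h hδ hF
      rw [h1, List.cons_append, V_f h, h2, W_tt h, if_neg hF]
      ring

/-- The sign character. -/
noncomputable def sgn (k : ℤ) : ℝ := if Even k then 1 else -1

theorem sgn_add (a b : ℤ) : sgn (a + b) = sgn a * sgn b := by
  by_cases h1 : Even a <;> by_cases h2 : Even b <;> simp [sgn, Int.even_add, h1, h2]

theorem ch_sgn (hpq : p < q) (hs : s = 1 ∨ s = -1) : Ch sgn ((-1) ^ (q - p)) (q * s - p * s) := by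
  have h1 : sgn ((q : ℤ) - p) = (-1) ^ (q - p) := by
    rw [neg_one_pow_eq_ite, sgn, ← Nat.cast_sub hpq.le]
    simp only [Int.even_coe_nat]
  have h2 : ∀ k, sgn (-k) = sgn k := fun k => by simp [sgn]
  refine ⟨sgn_add, by simp [sgn], ?_, ?_⟩ <;> rcases hs with rfl | rfl
  · simpa using h1
  · rw [← h1, ← h2]; congr 1; ring
  · rw [h2]; simpa using h1
  · rw [← h1]; congr 1; ring

theorem core_eq (hpq : p < q) (hs : s = 1 ∨ s = -1) {α β : ℝ}
    (hg : ∀ k, gs s k = α + β * sgn k) : ∀ v : List Edge,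
    (∀ e u, v = e :: u → e.2 = s ∧ (lastE e u).2 = s) → core δ p q v = (1 / 3) ^ p *
      (α * V (fun _ => 1) (1 / √3 ^ (q - p)) δ p q s v + β * V sgn (1 / √3 ^ (q - p)) δ p q s v)
  | [], _ => by simp [core, V]
  | e :: u, h => by
    obtain ⟨h1, h2⟩ := h e u rfl
    have a1 : s.natAbs = 1 := by rcases hs with rfl | rfl <;> rfl
    have a2 : (out p q e).natAbs = p + if e.1 then q - p else 0 := by
      unfold out
      split_ifs <;> simp [Int.natAbs_mul, h1, a1]
      omega
    have a3 : (inn p q (lastE e u)).natAbs = p + if (lastE e u).1 then 0 else q - p := by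
      unfold inn
      split_ifs <;> simp [Int.natAbs_mul, h2, a1]
      omega
    have a4 : sgn (out p q e - p * s) * sgn ((dl p q e u).sum + inn p q (lastE e u) - p * s) =
        sgn (out p q e + inn p q (lastE e u) + (dl p q e u).sum) := by
      rw [← sgn_add, show out p q e - p * s + ((dl p q e u).sum + inn p q (lastE e u) - p * s) =
        out p q e + inn p q (lastE e u) + (dl p q e u).sum + (-(p * s) + -(p * s)) by ring,
        sgn_add]
      simp [sgn]
    have a5 : (1 / √3) ^ p * (1 / √3) ^ p = ((1 : ℝ) / 3) ^ p := by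
      rw [← mul_pow, div_mul_div_comm, Real.mul_self_sqrt (by norm_num), mul_one]
    rw [core, h1, hg, ← a4, a2, a3, V, V, W, W, en, ← a5, ← one_div_pow]
    split_ifs <;> ring

end Mb

open Mb in
theorem mb : MbStmt := by
  intro p q _ hpq γ
  have part : ∀ (nx : ℤ → ℤ) (s : ℤ) e u, flatA (decA nx s γ) = e :: u →
      e.2 = s ∧ (lastE e u).2 = s := fun nx s e u h => by
    have := lastA nx s γ (true, s) rfl
    rw [h] at this
    exact ⟨headA nx s e u γ h, this⟩
  refine ⟨fun nx s => ⟨fstA nx s γ, part nx s⟩, fun δ _ hδ => ?_⟩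
  have one : ∀ k, Ch (fun _ => 1) 1 k := fun k => ⟨fun _ _ => by simp, rfl, rfl, rfl⟩
  have g1 : ∀ k, gs 1 k = (1 + 1 / √3) / 2 + (1 - 1 / √3) / 2 * sgn k := fun k => by
    by_cases h : Even k <;> simp [gs, sgn, h] <;> ring
  have g2 : ∀ k, gs (-1) k = (1 / 3 + 1 / √3) / 2 + (1 / 3 - 1 / √3) / 2 * sgn k := fun k => by
    by_cases h : Even k <;> simp [gs, sgn, h] <;> ring
  have m2 : mu ((q : ℤ) * -1 - p * -1) = mu ((q : ℤ) - p) := by
    rw [← mu_neg]; congr 1; ring
  have c2 : chW δ (rr p q (nneg p q)) (nneg p q) (-1) = Gm δ p q :=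
    funext fun F => chW_neg δ p q F 1
  have s3 : 1 / √3 = √3 / 3 := by
    rw [div_eq_div_iff (by positivity) (by norm_num), Real.mul_self_sqrt (by norm_num), one_mul]
  rw [core_eq hpq (Or.inl rfl) g1 _ (part _ _), core_eq hpq (Or.inr rfl) g2 _ (part _ _),
    V_SW (one _) hδ, V_SW (one _) hδ, V_SW (ch_sgn hpq (Or.inl rfl)) hδ,
    V_SW (ch_sgn hpq (Or.inr rfl)) hδ, m2, c2, rr_nxt, MW, s3]
  simp only [mul_one, one_mul, mul_one_div, mul_div_assoc, Gm]
  ring

end Pool.Agent.MP_e0ec03_al.Asy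

end MrgPart2

-- marker of a merged file
example : 731051 + 166790 = 731051 + 166790 := rfl
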