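import Mathlib.Topology.GDelta.MetrizableSpace
import Pool.Agent.MP_e0ec03_al.asy.Spa1

-- ======== part 0: formerly Pool.Agent.MP_e0ec03_al.asy.Msum
section MrgPart0

/-! THEOREM ASY, row MSUM: the sum of the main weights over all shapes. -/

namespace Pool.Agent.MP_e0ec03_al.Asy

open Classical Finset

namespace Msum

variable {A B T U : Type}

theorem two (e : A ⊕ (B × T) ≃ U) {w : U → ℝ} {f : A → ℝ} {h : B → ℝ} {v : T → ℝ} {s r V : ℝ}
    (h1 : ∀ a, w (e (.inl a)) = f a) (h2 : ∀ b t, w (e (.inr (b, t))) = h b * v t)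
    (hf : HasSum f s) (hh : HasSum h r) (hv : HasSum v V) : HasSum w (s + r * V) := by
  rw [← e.hasSum_iff]
  refine HasSum.sum (hf.congr_fun ?_) ((hh.mul hv
    (summable_mul_of_summable_norm hh.summable.norm hv.summable.norm)).congr_fun ?_)
  · exact fun a => h1 a
  · exact fun x => h2 x.1 x.2

theorem summ (e : A ⊕ (B × T) ≃ T) (n : T → ℕ) (hn : ∀ b t, n (e (.inr (b, t))) = n t + 1)
    {w : T → ℝ} {f : A → ℝ} {h : B → ℝ} {H : ℝ} (h1 : ∀ a, w (e (.inl a)) = f a)
    (h2 : ∀ b t, w (e (.inr (b, t))) = h b * w t) (hf : Summable f)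
    (hh : HasSum (fun b => |h b|) H) (hH : H < 1) : Summable w := by
  obtain ⟨S, hS⟩ := hf.abs
  have S0 : 0 ≤ S := hS.nonneg fun _ => abs_nonneg _
  have C0 : 0 ≤ S / (1 - H) := div_nonneg S0 (by linarith)
  have key : ∀ (k : ℕ) (u : Finset T), (∀ t ∈ u, n t < k) → ∑ t ∈ u, |w t| ≤ S / (1 - H) := by
    intro k
    induction k with
    | zero =>
      intro u hu
      rw [eq_empty_of_forall_notMem fun t ht => Nat.not_lt_zero _ (hu t ht), sum_empty]
      exact C0
    | succ k ih =>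
      intro u hu
      obtain ⟨u', rfl⟩ : ∃ u' : Finset (A ⊕ (B × T)), u = u'.map e.toEmbedding :=
        ⟨u.map e.symm.toEmbedding, by simp [map_map]⟩
      rw [sum_map, sum_sum_eq_sum_toLeft_add_sum_toRight]
      have a1 : ∑ a ∈ u'.toLeft, |w (e.toEmbedding (.inl a))| ≤ S := by
        simp only [Equiv.coe_toEmbedding, h1]
        exact sum_le_hasSum _ (fun _ _ => abs_nonneg _) hS
      have a2 : ∑ t ∈ u'.toRight.image Prod.snd, |w t| ≤ S / (1 - H) := ih _ fun t ht => by
        obtain ⟨⟨b, t⟩, hx, rfl⟩ := mem_image.1 ht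
        have := hu _ (mem_map_of_mem _ (mem_toRight.1 hx))
        rw [Equiv.coe_toEmbedding, hn] at this
        exact Nat.lt_of_succ_lt_succ this
      have a3 : ∑ b ∈ u'.toRight.image Prod.fst, |h b| ≤ H :=
        sum_le_hasSum _ (fun _ _ => abs_nonneg _) hh
      have a4 : ∑ x ∈ u'.toRight, |w (e.toEmbedding (.inr x))| ≤ H * (S / (1 - H)) := by
        refine le_trans ?_ (mul_le_mul a3 a2 (sum_nonneg fun _ _ => abs_nonneg _)
          (hh.nonneg fun _ => abs_nonneg _))
        rw [sum_mul_sum, ← sum_product']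
        refine le_trans (le_of_eq (sum_congr rfl fun x _ => ?_))
          (sum_le_sum_of_subset_of_nonneg subset_product fun _ _ _ => by positivity)
        rw [← abs_mul, ← h2]
        rfl
      have a5 : S + H * (S / (1 - H)) = S / (1 - H) := by
        have : 1 - H ≠ 0 := by linarith
        field_simp
        ring
      linarith
  exact Summable.of_abs (summable_of_sum_le (fun _ => abs_nonneg _) fun u =>
    key (u.sup n + 1) u fun t ht => Nat.lt_succ_of_le (le_sup ht))

theorem gen (e : A ⊕ (B × T) ≃ T) (n : T → ℕ) (hn : ∀ b t, n (e (.inr (b, t))) = n t + 1)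
    {w : T → ℝ} {f : A → ℝ} {h : B → ℝ} {s r H : ℝ} (h1 : ∀ a, w (e (.inl a)) = f a)
    (h2 : ∀ b t, w (e (.inr (b, t))) = h b * w t) (hf : HasSum f s) (hr : HasSum h r)
    (hh : HasSum (fun b => |h b|) H) (hH : H < 1) : HasSum w (s / (1 - r)) := by
  have hw := (summ e n hn h1 h2 hf.summable hh hH).hasSum
  have e1 := hw.unique (two e h1 h2 hf hr hw)
  have e2 : r ≤ H := hasSum_le (fun _ => le_abs_self _) hr hh
  rwa [show s / (1 - r) = ∑' t, w t by rw [div_eq_iff (by linarith)]; linarith]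

def dE : Fo Unit ⊕ (Fo Unit × Dn Unit) ≃ Dn Unit where
  toFun x := match x with
    | .inl F => .fin F
    | .inr y => .step y.1 () y.2
  invFun d := match d with
    | .fin F => .inl F
    | .step F _ d => .inr (F, d)
  left_inv x := by cases x <;> rfl
  right_inv F := by cases F <;> rfl

def uE : Dn Unit ⊕ (Fo Unit × Up Unit) ≃ Up Unit where
  toFun x := match x with
    | .inl d => .top d
    | .inr y => .step y.1 () y.2
  invFun d := match d with
    | .top d => .inl d
    | .step F _ d => .inr (F, d)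
  left_inv x := by cases x <;> rfl
  right_inv F := by cases F <;> rfl

theorem nil_sum {G f : Fo Unit → ℝ} {g : ℝ} (hG : HasSum G g) (h0 : G .nil = 1) (t c : ℝ)
    (h : ∀ F, f F = if F = .nil then t else c * G F) : HasSum f (t + c * (g - 1)) := by
  have := (hG.mul_left c).add (hasSum_ite_eq Fo.nil (t - c))
  rw [show t + c * (g - 1) = c * g + (t - c) by ring]
  refine this.congr_fun fun F => ?_
  rw [h]
  split_ifs with k
  · rw [k, h0]; ring
  · ring

end Msum

open Msum in
theorem msum : MsumStmt := by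
  intro G x τ m G0 G1 x1 hG hm
  obtain ⟨g, hg⟩ : ∃ g, g = 1 / (1 - x) := ⟨_, rfl⟩
  rw [← hg] at hG
  have x0 : 0 < 1 - x := by linarith
  have hH : 2 / 3 * |m| * g < 1 := by
    rw [hg, mul_one_div, div_lt_one x0]
    linarith
  have hr : HasSum (fun F => 2 / 3 * m * G F) (2 / 3 * m * g) := hG.mul_left _
  have hh : HasSum (fun F => |2 / 3 * m * G F|) (2 / 3 * |m| * g) :=
    (hG.mul_left _).congr_fun fun F => by
      rw [abs_mul, abs_mul, abs_of_nonneg (G0 F), abs_of_pos (by norm_num : (0 : ℝ) < 2 / 3)]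
  have hD := gen dE stepsD (fun _ _ => rfl) (w := dW 0 τ m G) (fun _ => rfl)
    (fun F d => by simp [dE, dW]) (nil_sum hG G1 τ (2 * m) fun F => by
      simp only [dE, Equiv.coe_fn_mk, dW]
      split_ifs <;> ring) hr hh hH
  have hU := two dE (w := uW 0 τ m G) (fun _ => rfl) (fun F d => by simp [dE, uW]) hG
    (hG.mul_right (1 / 3)) hD
  have hS := two dE (w := sW 0 τ m G) (fun _ => rfl) (fun F d => rfl)
    (nil_sum hG G1 0 3 fun F => by
      simp only [dE, Equiv.coe_fn_mk, sW]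
      split_ifs <;> ring) hG hD
  have hA := gen uE stepsA (fun _ _ => rfl) (w := aW 0 τ m G) (fun _ => rfl)
    (fun F d => by simp only [uE, Equiv.coe_fn_mk, aW]; ring) hU hr hh hH
  have hT := two uE (w := SW 0 τ m G)
    (h := fun F => if F = .nil then τ else G F / (1 / 3 - 0) * (2 / 3 + 0) * m) (fun _ => rfl)
    (fun F d => rfl) hS (nil_sum hG G1 τ (2 * m) fun F => by split_ifs <;> ring) hA
  have n1 : 3 * (1 - x) - 2 * m ≠ 0 := by linarith [le_abs_self m]
  have n2 : 1 - 2 / 3 * m * g = (3 * (1 - x) - 2 * m) / (3 * (1 - x)) := by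
    rw [hg]
    field_simp
  convert hT using 1
  rw [n2, hg, ends]
  field_simp
  ring

end Pool.Agent.MP_e0ec03_al.Asy

end MrgPart0

-- ======== part 1: formerly Pool.Agent.MP_e0ec03_al.asy.Mcf
section MrgPart1

/-! THEOREM ASY, row MCF: sums over forests and the continued fraction. -/

namespace Pool.Agent.MP_e0ec03_al.Asy

open Classical Finset

namespace Mcf

def fE : Unit ⊕ (Fo Unit × Fo Unit) ≃ Fo Unit where
  toFun x := match x with
    | .inl _ => .nil
    | .inr y => .cons () () y.1 y.2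
  invFun F := match F with
    | .nil => .inl ()
    | .cons _ _ I R => .inr (I, R)
  left_inv x := by cases x <;> rfl
  right_inv F := by cases F <;> rfl

/-- the number of valleys on the top level -/
def len : Fo Unit → ℕ
  | .nil => 0
  | .cons _ _ _ R => len R + 1

variable {r : ℤ → ℝ} {nx : ℤ → ℤ}

theorem mono {δ : ℝ} (h0 : 0 ≤ δ) (h1 : δ ≤ 1 / 3) (hr : ∀ c, 0 ≤ r c ∧ r c ≤ 1) (F : Fo Unit) :
    ∀ c, 0 ≤ chW δ r nx c F ∧ chW δ r nx c F ≤ chW 0 r nx c F ∧ chW 0 r nx c F ≤ Gp F := by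
  have d : δ ^ 2 ≤ 1 / 9 := by nlinarith
  have d0 := sq_nonneg δ
  induction F with
  | nil => exact fun _ => ⟨zero_le_one, le_rfl, le_rfl⟩
  | cons u v I R i j =>
    intro c
    obtain ⟨a1, a2, a3⟩ := i (nx c)
    obtain ⟨b1, b2, b3⟩ := j c
    obtain ⟨c1, c2⟩ := hr c
    have e : Gp (.cons u v I R) =
        (if I = .nil then 1 / 9 - 0 ^ 2 else (4 / 9 - 0 ^ 2) * 1 * Gp I) * Gp R := rfl
    have a4 := a1.trans a2
    have b4 := b1.trans b2
    have a5 := a4.trans a3
    have d1 : 0 ≤ 1 / 9 - δ ^ 2 := by linarith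
    have d2 : 0 ≤ 4 / 9 - δ ^ 2 := by linarith
    rw [e]
    simp only [chW, zero_pow two_ne_zero, sub_zero]
    split_ifs
    · refine ⟨by positivity, ?_, ?_⟩ <;> gcongr
      linarith
    · refine ⟨by positivity, ?_, ?_⟩ <;> gcongr
      linarith

theorem zero (c : ℤ) : HasSum (fun F => if dep F ≤ 0 then chW 0 r nx c F else 0) (1 / (1 - 0)) := by
  rw [sub_zero, div_one]
  refine (hasSum_ite_eq Fo.nil (1 : ℝ)).congr_fun fun F => ?_
  cases F <;> simp [dep, chW]

theorem step (hr : ∀ c, 0 ≤ r c ∧ r c ≤ 1) {h : ℕ} {c : ℤ} {x y : ℝ} (x0 : 0 ≤ x) (x1 : x ≤ 1 / 3)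
    (hy : y = (1 + 4 * r c * (x / (1 - x))) / 9)
    (hS : HasSum (fun F => if dep F ≤ h then chW 0 r nx (nx c) F else 0) (1 / (1 - x))) :
    0 ≤ y ∧ y ≤ 1 / 3 ∧
      HasSum (fun F => if dep F ≤ h + 1 then chW 0 r nx c F else 0) (1 / (1 - y)) := by
  obtain ⟨c1, c2⟩ := hr c
  have x2 : 0 < 1 - x := by linarith
  have t0 : 0 ≤ x / (1 - x) := by positivity
  have t1 : x / (1 - x) ≤ 1 / 2 := by rw [div_le_iff₀ x2]; linarith
  have y1 : y ≤ 1 / 3 := by rw [hy]; nlinarith
  have k := Msum.nil_sum hS (by simp [dep, chW]) (1 / 9) (4 / 9 * r c) fun _ => rfl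
  rw [show 1 / 9 + 4 / 9 * r c * (1 / (1 - x) - 1) = y by rw [hy]; field_simp; ring] at k
  refine ⟨by rw [hy]; positivity, y1, Msum.gen fE len (fun _ _ => rfl) (f := fun _ => 1)
    (fun _ => by simp [fE, dep, chW]) (fun I R => ?_) (hasSum_unique _) k
    (k.congr_fun fun F => abs_of_nonneg ?_) (by linarith)⟩
  · simp only [fE, Equiv.coe_fn_mk, dep, chW, max_le_iff, add_le_add_iff_right]
    by_cases e : I = .nil
    · subst e
      simp [dep]
    · by_cases e1 : dep I ≤ h <;> by_cases e2 : dep R ≤ h + 1 <;> simp [e, e1, e2]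
  · have := (mono (nx := nx) le_rfl (by norm_num) hr F (nx c)).1
    split_ifs <;> positivity

theorem pure (h : ℕ) : ∃ x : ℝ, 0 ≤ x ∧ x ≤ 1 / 3 ∧
    HasSum (fun F => if dep F ≤ h then Gp F else 0) (1 / (1 - x)) := by
  induction h with
  | zero => exact ⟨0, le_rfl, by norm_num, zero 0⟩
  | succ h ih =>
    obtain ⟨x, x0, x1, hS⟩ := ih
    exact ⟨_, step (r := fun _ => 1) (nx := id) (c := 0) (fun _ => ⟨zero_le_one, le_rfl⟩) x0 x1
      rfl hS⟩

theorem gp_nonneg (F : Fo Unit) : 0 ≤ Gp F :=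
  (mono (r := fun _ => 1) (nx := id) le_rfl (by norm_num) (fun _ => ⟨zero_le_one, le_rfl⟩) F 0).1

theorem gp_le (u : Finset (Fo Unit)) : ∑ F ∈ u, Gp F ≤ 3 / 2 := by
  obtain ⟨x, x0, x1, hS⟩ := pure (u.sup dep)
  have := sum_le_hasSum u (fun F _ => by have := gp_nonneg F; split_ifs <;> positivity) hS
  rw [sum_congr rfl fun F hF => if_pos (le_sup hF)] at this
  refine this.trans ?_
  rw [div_le_iff₀ (by linarith)]
  linarith

end Mcf

open Mcf in
theorem mcf : McfStmt := by
  refine ⟨fun p q h => ?_, ?_, fun δ r nx h0 h1 hr c F => mono h0 h1 hr F c⟩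
  · induction h with
    | zero => exact fun c => ⟨le_rfl, by norm_num [cf], zero c⟩
    | succ h ih =>
      intro c
      obtain ⟨x0, x1, hS⟩ := ih (nxt p q c)
      refine step (fun c => ⟨sq_nonneg _, ?_⟩) x0 x1 (by rw [cf]; ring) hS
      have := mu_pos (dig p q c)
      have := mu_le_two (dig p q c)
      nlinarith
  · have hs := summable_of_sum_le gp_nonneg gp_le
    have h1 : ∑' F, Gp F ≤ 3 / 2 := hs.tsum_le_of_sum_le gp_le
    have h2 : 1 ≤ ∑' F, Gp F := hs.le_tsum Fo.nil fun F _ => gp_nonneg F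
    refine ⟨1 - 1 / ∑' F, Gp F, ?_, ?_, ?_⟩
    · rw [sub_nonneg, div_le_one (by linarith)]
      exact h2
    · rw [sub_le_comm, le_div_iff₀ (by linarith)]
      linarith
    · rw [sub_sub_cancel, one_div_one_div]
      exact hs.hasSum

end Pool.Agent.MP_e0ec03_al.Asy

end MrgPart1

-- marker of a merged file
example : 731051 + 519352 = 731051 + 519352 := rfl
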