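import Pool.Agent.MP_e0ec03_al.asy.Spa1

-- ======== part 0: formerly Pool.Agent.MP_e0ec03_al.asy.Finl
section MrgPart0

/-! The first moment bound of THEOREM ASY. -/

namespace Pool.Agent.MP_e0ec03_al.Asy

open Classical Finset Filter Topology
open scoped ENNReal

namespace Finl

theorem head_F {p q : ℕ} {F : Fo ℤ} (h : NRF p q F) {w : List Edge}
    (hw : ∀ e u, w = e :: u → e.2 ≠ 0) : ∀ e u, flatF F ++ w = e :: u → e.2 ≠ 0 := by
  intro e u he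
  cases F with
  | nil => exact hw e u he
  | cons c c' I R =>
    obtain rfl := (List.cons.inj he).1
    exact h.1

theorem head_A {p q : ℕ} {γ : Up ℤ} (h : NRA p q γ) : ∀ e u, flatA γ = e :: u → e.2 ≠ 0 := by
  rcases γ with (F | ⟨F, c, d⟩) | ⟨F, c, r⟩
  · intro e u he
    exact head_F (w := []) h (by simp) e u (by simpa [flatA, flatD] using he)
  · exact head_F h.1 fun e u he => (List.cons.inj he).1 ▸ h.2.1
  · exact head_F h.1 fun e u he => (List.cons.inj he).1 ▸ h.2.1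

theorem sum_ChW {δ B : ℝ} {p q : ℕ} (h0 : 0 ≤ δ) (h1 : δ ≤ 1 / 3) (hB : 0 ≤ B)
    (P : Up ℤ → Prop) (h : ∀ a : Bool, HA δ p q P (a, 0) ≤ ENNReal.ofReal B)
    (s : Finset (Up ℤ)) (hs : ∀ γ ∈ s, P γ) : ∑ γ ∈ s, ChW δ p q (flatA γ) ≤ B := by
  have key : ∀ a : Bool, ∑ γ ∈ s, ∑ b : Bool, pw δ p q (a, 0) (flatA γ ++ [(b, 0)]) ≤ B := by
    intro a
    rw [← ENNReal.ofReal_le_ofReal_iff hB]
    refine le_trans ?_ (h a)
    rw [ENNReal.ofReal_sum_of_nonneg fun γ _ => sum_nonneg fun b _ => pw_nonneg h0 h1 p q _ _]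
    refine le_trans (le_of_eq (sum_congr rfl fun γ hγ => ?_)) (ENNReal.sum_le_tsum s)
    rw [if_pos (hs γ hγ), ENNReal.ofReal_sum_of_nonneg fun b _ => pw_nonneg h0 h1 p q _ _]
    rfl
  simp only [ChW, ← mul_sum]
  rw [sum_comm]
  simp only [← mul_sum]
  calc _ ≤ ∑ a : Bool, st0 δ a * B :=
        sum_le_sum fun a _ => mul_le_mul_of_nonneg_left (key a) (st0_nonneg h0 h1 a)
    _ = B := by rw [← sum_mul, st0_sum, one_mul]

theorem ChW_nonneg {δ : ℝ} {p q : ℕ} (h0 : 0 ≤ δ) (h1 : δ ≤ 1 / 3) (u : List Edge) :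
    0 ≤ ChW δ p q u := sum_nonneg fun a _ => sum_nonneg fun _ _ =>
  mul_nonneg (st0_nonneg h0 h1 a) (pw_nonneg h0 h1 p q _ _)

theorem core_nonneg {δ : ℝ} {p q : ℕ} (h0 : 0 ≤ δ) (h1 : δ ≤ 1 / 3) :
    ∀ u : List Edge, 0 ≤ core δ p q u
  | [] => le_rfl
  | e :: u => mul_nonneg (mul_nonneg (by positivity) (by unfold gs; split_ifs <;> positivity))
      (pw_nonneg h0 h1 p q e u)

/-- sums over the main patterns of one sign -/
theorem sum_main (s : Finset (Up ℤ)) (D : Up Unit → Up ℤ) (f : Up ℤ → ℝ) (hf : ∀ γ, 0 ≤ f γ) :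
    ∑ γ ∈ s, (if γ = D (shA γ) then f γ else 0) ≤ ∑ g ∈ s.image shA, f (D g) := by
  rw [← sum_filter]
  have hi : Set.InjOn shA (s.filter (fun γ => γ = D (shA γ)) : Set (Up ℤ)) := by
    intro x hx y hy hxy
    rw [(mem_filter.1 hx).2, (mem_filter.1 hy).2, hxy]
  calc _ = ∑ γ ∈ s.filter (fun γ => γ = D (shA γ)), f (D (shA γ)) :=
        sum_congr rfl fun γ hγ => by rw [← (mem_filter.1 hγ).2]
    _ = ∑ g ∈ (s.filter (fun γ => γ = D (shA γ))).image shA, f (D g) := by rw [sum_image hi]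
    _ ≤ _ := sum_le_sum_of_subset_of_nonneg (image_subset_image (filter_subset _ _))
        fun _ _ _ => hf _

theorem numeric {ε p δ T l : ℝ} (hε : 0 < ε) (hε1 : ε ≤ 1) (hP : Par δ T) (hl0 : 0 ≤ l)
    (hl : l ≤ 1000) (hp : 10 ^ 6 ≤ ε * p) (hδ : δ ≤ ε / 10 ^ 6) :
    (p + 11) / 3 * (1 + 5 * δ) * (2 / 3 * δ ^ 2 * (3 * l + ε)) +
      10 ^ 7 * T ^ 2 * (10 ^ 5 * T ^ 2 / δ) + T * (10 ^ 5 * T ^ 2) ≤
      (2 / 3 * l + ε) * (p * δ ^ 2) := by
  obtain ⟨h0, h1, h2, h3⟩ := hP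
  have hT : 0 < T := h0.trans_le h1
  have hp0 : 0 < p := by
    by_contra h
    nlinarith [not_lt.1 h]
  have a1 : 10 ^ 7 * T ^ 2 * (10 ^ 5 * T ^ 2 / δ) ≤ δ ^ 2 := by
    rw [← mul_div_assoc, div_le_iff₀ h0]
    nlinarith [pow_pos hT 4]
  have a2 : T * (10 ^ 5 * T ^ 2) ≤ δ ^ 2 := by
    refine le_of_mul_le_mul_left ?_ hT
    nlinarith [pow_pos hT 4, mul_le_mul_of_nonneg_right h1 (sq_nonneg δ)]
  have a3 : (p + 11) * (1 + 5 * δ) ≤ p * (1 + ε / 10 ^ 4) := by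
    have : δ ≤ 1 := by linarith
    nlinarith [mul_le_mul_of_nonneg_left hδ hp0.le]
  have a4 : (1 + ε / 10 ^ 4) * (2 / 9 * (3 * l + ε)) ≤ 2 / 3 * l + ε / 2 := by nlinarith
  have hd : 0 < δ ^ 2 := by positivity
  have a5 : (p + 11) / 3 * (1 + 5 * δ) * (2 / 3 * δ ^ 2 * (3 * l + ε)) ≤
      (2 / 3 * l + ε / 2) * (p * δ ^ 2) :=
    calc _ = (p + 11) * (1 + 5 * δ) * (2 / 9 * (3 * l + ε)) * δ ^ 2 := by ring
      _ ≤ p * (1 + ε / 10 ^ 4) * (2 / 9 * (3 * l + ε)) * δ ^ 2 := by gcongr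
      _ = p * ((1 + ε / 10 ^ 4) * (2 / 9 * (3 * l + ε))) * δ ^ 2 := by ring
      _ ≤ p * (2 / 3 * l + ε / 2) * δ ^ 2 := by gcongr
      _ = _ := by ring
  nlinarith

end Finl

open Finl in
theorem finl_of (h1 : CheStmt) (h2 : ShpStmt) (h3 : MbStmt) (h4 : MtailStmt) (h5 : SpaStmt) :
    FinlStmt := by
  intro ε0 hε0
  obtain ⟨ε, hε, hε1, hεε⟩ : ∃ ε : ℝ, 0 < ε ∧ ε ≤ 1 ∧ ε ≤ ε0 :=
    ⟨min ε0 1, lt_min hε0 one_pos, min_le_right _ _, min_le_left _ _⟩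
  obtain ⟨p1, h1⟩ := h1
  obtain ⟨p5, h5⟩ := h5
  obtain ⟨S, p4, δ0, hδ0, h6⟩ := h4.2 ε hε
  have hr : (1 / √3 : ℝ) < 1 := by
    rw [div_lt_one (by positivity)]
    linarith [sqrt3_bounds.1]
  have t1 := (tendsto_pow_atTop_nhds_zero_of_lt_one (r := (1 / √3 : ℝ)) (by positivity)
    hr).eventually (gt_mem_nhds (lt_min hδ0 (show 0 < ε / 10 ^ 6 by positivity)))
  have t2 := (tendsto_natCast_atTop_atTop (R := ℝ)).eventually_ge_atTop (10 ^ 6 / ε)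
  obtain ⟨p6, h7⟩ := eventually_atTop.1 (t1.and t2)
  refine ⟨p1 + p4 + p5 + p6 + 1, fun p q hp hpq s hs => ?_⟩
  obtain ⟨hP, hS⟩ := h5 p q (by omega) hpq
  obtain ⟨k1, k2⟩ := h7 p (by omega)
  have hp1 : 1 ≤ p := by omega
  have hsq : ((1 / √3 : ℝ) ^ p) ^ 2 = (1 / 3) ^ p := by
    rw [← pow_mul, mul_comm, pow_mul, div_pow, Real.sq_sqrt (by norm_num), one_pow]
  have h1' := h1 p q (by omega) hpq
  have h6' := h6 p q (by omega) hpq
  have hl := h4.1 p q hp1 hpq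
  generalize (1 / √3 : ℝ) ^ p = δ at *
  generalize (33 / 50 : ℝ) ^ p = T at *
  have h0 : 0 ≤ δ := hP.1.le
  have h13 : δ < 1 / 3 := by linarith [hP.2.1, hP.2.2.1]
  have hT : 0 ≤ T := h0.trans hP.2.1
  set c : ℝ := ((p : ℝ) + 11) / 3 * (1 + 5 * δ) with hc
  have hc0 : 0 ≤ c := by positivity
  have cn := core_nonneg (p := p) (q := q) h0 h13.le
  have pt : ∀ γ ∈ s, hW δ p q (flatA γ) ≤
      c * (if γ = decA (nxt p q) 1 (shA γ) then core δ p q (flatA γ) else 0) +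
      c * (if γ = decA (nneg p q) (-1) (shA γ) then core δ p q (flatA γ) else 0) +
      (if γ ≠ decA (nxt p q) 1 (shA γ) ∧ γ ≠ decA (nneg p q) (-1) (shA γ) then
        ChW δ p q (flatA γ) else 0) + T * ChW δ p q (flatA γ) := by
    intro γ hγ
    obtain ⟨e, u, he⟩ := List.exists_cons_of_ne_nil (hs γ hγ).2
    obtain ⟨c1, c2⟩ := h1' δ h0 h13.le e u (head_A (hs γ hγ).1 e u he)
    have main : ∀ (nx : ℤ → ℤ) (σ : ℤ), (σ = 1 ∨ σ = -1) → γ = decA nx σ (shA γ) →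
        locW δ p q (e :: u) id ≤ c * core δ p q (e :: u) := by
      intro nx σ hσ hm
      obtain ⟨m1, m2⟩ := ((h3 p q hp1 hpq (shA γ)).1 nx σ).2 e u (by rw [← hm, he])
      exact h2 p q hp1 hpq δ h0 h13.le e u (m1 ▸ hσ) (m2.trans m1.symm)
    rw [he]
    refine c2.trans (add_le_add_left ?_ _)
    have := mul_nonneg hc0 (cn (e :: u))
    by_cases m1 : γ = decA (nxt p q) 1 (shA γ) <;>
      by_cases m2 : γ = decA (nneg p q) (-1) (shA γ)
    · rw [if_pos m1, if_pos m2, if_neg fun h => h.1 m1]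
      linarith [main _ _ (Or.inl rfl) m1]
    · rw [if_pos m1, if_neg m2, if_neg fun h => h.1 m1]
      linarith [main _ _ (Or.inl rfl) m1]
    · rw [if_neg m1, if_pos m2, if_neg fun h => h.2 m2]
      linarith [main _ _ (Or.inr rfl) m2]
    · rw [if_neg m1, if_neg m2, if_pos ⟨m1, m2⟩]
      linarith
  refine (sum_le_sum pt).trans ?_
  simp only [sum_add_distrib, ← mul_sum]
  have b1 := sum_main s (decA (nxt p q) 1) (fun γ => core δ p q (flatA γ)) fun _ => cn _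
  have b2 := sum_main s (decA (nneg p q) (-1)) (fun γ => core δ p q (flatA γ)) fun _ => cn _
  have b3 : ∑ g ∈ s.image shA, core δ p q (flatA (decA (nxt p q) 1 g)) +
      ∑ g ∈ s.image shA, core δ p q (flatA (decA (nneg p q) (-1) g)) ≤
      2 / 3 * δ ^ 2 * (3 * lead p q + ε) := by
    rw [← sum_add_distrib, sum_congr rfl fun g _ => (h3 p q hp1 hpq g).2 δ h0 h13, ← mul_sum, hsq]
    exact mul_le_mul_of_nonneg_left (h6'.2 δ h0 (k1.le.trans (min_le_left _ _)) _).2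
      (by positivity)
  have b4 := sum_ChW h0 h13.le (by positivity) _ hS.a1 s hs
  have b5 := sum_ChW h0 h13.le (by positivity) _
    (hS.a2 _ _ (near_nxt hp1 q) (near_nneg hp1 q))
    (s.filter fun γ => γ ≠ decA (nxt p q) 1 (shA γ) ∧ γ ≠ decA (nneg p q) (-1) (shA γ))
    fun γ hγ => ⟨(hs γ (mem_filter.1 hγ).1).1, (mem_filter.1 hγ).2⟩
  rw [sum_filter] at b5
  have b6 := numeric (p := p) hε hε1 hP (by linarith [hl.1]) hl.2
    (by rwa [div_le_iff₀' hε] at k2) (k1.le.trans (min_le_right _ _))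
  have b7 : (2 / 3 * lead p q + ε) * (p * δ ^ 2) ≤ (2 / 3 * lead p q + ε0) * (p * δ ^ 2) := by
    gcongr
  rw [← hsq]
  have b8 := mul_le_mul_of_nonneg_left ((add_le_add b1 b2).trans b3) hc0
  have b9 := mul_le_mul_of_nonneg_left b4 hT
  rw [mul_add] at b8
  exact (add_le_add (add_le_add b8 (by convert b5)) b9).trans (b6.trans b7)

end Pool.Agent.MP_e0ec03_al.Asy

end MrgPart0

-- ======== part 1: formerly Pool.Agent.MP_e0ec03_al.asy.Mtail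
section MrgPart1

/-! Row MTAIL of THEOREM ASY: the main term, uniformly in the parameters. -/

namespace Pool.Agent.MP_e0ec03_al.Asy

open Classical Finset

namespace Mtail

def nd : Dn Unit → ℕ
  | .fin _ => 1
  | .step _ _ d => nd d + 1

def nu : Dn Unit → ℕ
  | .fin _ => 0
  | .step _ _ d => nd d

def na : Up Unit → ℕ
  | .top d => nu d
  | .step _ _ r => na r + 1

def dd : Dn Unit → ℕ
  | .fin F => dep F
  | .step F _ d => max (dep F) (dd d)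

def da : Up Unit → ℕ
  | .top d => dd d
  | .step F _ r => max (dep F) (da r)

section
variable (δ τ m t : ℝ) (G : Fo Unit → ℝ)

theorem dW_hom : ∀ d, dW δ (t * τ) (t * m) G d = t ^ nd d * dW δ τ m G d
  | .fin F => by simp only [dW, nd]; split_ifs <;> ring
  | .step F _ d => by simp only [dW, nd, dW_hom d]; ring

theorem aW_hom : ∀ r, aW δ (t * τ) (t * m) G r = t ^ na r * aW δ τ m G r
  | .top (.fin F) => by simp [aW, uW, na, nu]
  | .top (.step F _ d) => by simp only [aW, uW, na, nu, dW_hom]; ring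
  | .step F _ r => by simp only [aW, na, aW_hom r]; ring

theorem SW_hom : ∀ r, SW δ (t * τ) (t * m) G r = t ^ na r * SW δ τ m G r
  | .top (.fin F) => by simp [SW, sW, na, nu]
  | .top (.step F _ d) => by simp only [SW, sW, na, nu, dW_hom]; ring
  | .step F _ r => by simp only [SW, na, aW_hom]; split_ifs <;> ring
end

/-- the hypotheses of the comparison -/
structure Cmp (δ κ τ τ' m m' : ℝ) (G G' : Fo Unit → ℝ) (n : ℕ) : Prop where
  d0 : 0 ≤ δ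
  k0 : 0 ≤ κ
  k1 : 1 ≤ κ * (1 - 3 * δ)
  t0 : 0 ≤ τ
  t1 : τ ≤ τ'
  m0 : 0 ≤ m
  m1 : κ * m ≤ m'
  g0 : ∀ F, 0 ≤ G F
  g1 : ∀ F, dep F ≤ n → G F ≤ G' F

namespace Cmp
variable {δ κ τ τ' m m' : ℝ} {G G' : Fo Unit → ℝ} {n : ℕ} (h : Cmp δ κ τ τ' m m' G G' n)
include h

theorem d1 : 0 < 1 / 3 - δ := by
  by_contra a
  have := mul_nonneg h.k0 (show 0 ≤ 3 * δ - 1 by linarith)
  linarith [h.k1]

theorem one : 1 ≤ κ := by
  have := mul_nonneg h.k0 h.d0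
  linarith [h.k1]

theorem dn : 0 ≤ (2 / 3 - δ) * m ∧ (2 / 3 - δ) * m ≤ (2 / 3 - 0) * m' := by
  have := h.d1
  have := mul_nonneg h.d0 h.m0
  have := mul_le_mul_of_nonneg_right h.one h.m0
  exact ⟨mul_nonneg (by linarith) h.m0, by linarith [h.m1]⟩

theorem up : 0 ≤ (2 / 3 + δ) * m ∧ (2 / 3 + δ) * m ≤ (2 / 3 + 0) * m' := by
  have := h.d0
  have a : 1 + 3 * δ ≤ κ := by
    have := mul_le_mul_of_nonneg_right h.one h.d0
    linarith [h.k1]
  have := mul_le_mul_of_nonneg_right a h.m0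
  have := mul_nonneg h.d0 h.m0
  exact ⟨mul_nonneg (by linarith) h.m0, by linarith [h.m1]⟩

theorem dv {F : Fo Unit} (a : dep F ≤ n) :
    0 ≤ G F / (1 / 3 - δ) ∧ G F / (1 / 3 - δ) ≤ κ * (G' F / (1 / 3 - 0)) := by
  refine ⟨div_nonneg (h.g0 F) h.d1.le, (div_le_iff₀ h.d1).2 ?_⟩
  have := mul_le_mul (h.g1 F a) h.k1 zero_le_one ((h.g0 F).trans (h.g1 F a))
  calc _ ≤ G' F * (κ * (1 - 3 * δ)) := by linarith
    _ = _ := by ring

omit h in
theorem mm {a b a' b' : ℝ} (x : 0 ≤ a ∧ a ≤ a') (y : 0 ≤ b ∧ b ≤ b') :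
    0 ≤ a * b ∧ a * b ≤ a' * b' :=
  ⟨mul_nonneg x.1 y.1, mul_le_mul x.2 y.2 y.1 (x.1.trans x.2)⟩

omit h in
theorem tr {a a' b b' : ℝ} (x : 0 ≤ a ∧ a ≤ b) (e : a' = a) (e' : b = b') : 0 ≤ a' ∧ a' ≤ b' :=
  e ▸ e' ▸ x

theorem kk {a b : ℝ} (x : 0 ≤ a ∧ a ≤ b) : 0 ≤ a ∧ a ≤ κ * b :=
  ⟨x.1, x.2.trans (le_mul_of_one_le_left (x.1.trans x.2) h.one)⟩

theorem dW_le : ∀ d, dd d ≤ n → 0 ≤ dW δ τ m G d ∧ dW δ τ m G d ≤ κ * dW 0 τ' m' G' d
  | .fin F, a => by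
    simp only [dW]
    split_ifs
    · exact h.kk ⟨h.t0, h.t1⟩
    · exact tr (mm h.dn (h.dv a)) (by ring) (by ring)
  | .step F _ d, a => by
    have a := max_le_iff.1 a
    exact tr (mm (mm h.dn ⟨h.g0 F, h.g1 F a.1⟩) (dW_le d a.2)) rfl (by simp only [dW]; ring)

theorem aW_le : ∀ r, da r ≤ n → 0 ≤ aW δ τ m G r ∧ aW δ τ m G r ≤ κ * aW 0 τ' m' G' r
  | .top (.fin F), a => h.kk ⟨h.g0 F, h.g1 F a⟩
  | .top (.step F _ d), a => by
    have a := max_le_iff.1 a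
    exact tr (mm (mm ⟨h.g0 F, h.g1 F a.1⟩ ⟨h.d1.le, sub_le_sub_left h.d0 _⟩) (h.dW_le d a.2)) rfl
      (by simp only [aW, uW]; ring)
  | .step F _ r, a => by
    have a := max_le_iff.1 a
    exact tr (mm (mm ⟨h.g0 F, h.g1 F a.1⟩ h.up) (aW_le r a.2)) (by simp only [aW]; ring)
      (by simp only [aW]; ring)

theorem SW_le : ∀ r, da r ≤ n → 0 ≤ SW δ τ m G r ∧ SW δ τ m G r ≤ κ ^ 2 * SW 0 τ' m' G' r
  | .top (.fin F), a => by
    simp only [SW, sW]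
    split_ifs
    · simp
    · exact tr (h.kk (h.dv a)) rfl (by ring)
  | .top (.step F _ d), a => by
    have a := max_le_iff.1 a
    exact tr (h.kk (mm ⟨h.g0 F, h.g1 F a.1⟩ (h.dW_le d a.2))) rfl (by simp only [SW, sW]; ring)
  | .step F _ r, a => by
    have a := max_le_iff.1 a
    simp only [SW]
    split_ifs
    · exact tr (mm (h.kk ⟨h.t0, h.t1⟩) (h.aW_le r a.2)) rfl (by ring)
    · exact tr (mm (mm (h.dv a.1) h.up) (h.aW_le r a.2)) (by ring) (by ring)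

end Cmp

/-- the factor in front of a shape -/
noncomputable def co (p q : ℕ) (γ : Up Unit) : ℝ :=
  1 + √3 / 2 + (1 - √3 / 2) * ((-1) ^ (q - p)) ^ na γ

theorem MW_eq (δ : ℝ) (p q : ℕ) (G : Fo Unit → ℝ) (γ : Up Unit) : MW δ p q G γ =
    co p q γ * SW δ (1 / √3 ^ (q - p)) (mu ((q : ℤ) - p) / 2) G γ := by
  rw [MW, co, div_eq_mul_one_div ((-1 : ℝ) ^ (q - p)), mul_div_assoc, SW_hom]
  ring

theorem co_bd (p q : ℕ) (γ : Up Unit) : 0 ≤ co p q γ ∧ co p q γ ≤ 2 := by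
  have := sqrt3_bounds
  rw [co, ← pow_mul]
  rcases neg_one_pow_eq_or ℝ ((q - p) * na γ) with e | e <;> rw [e] <;> constructor <;> linarith

theorem par {p q : ℕ} (h : p < q) : 0 ≤ 1 / √3 ^ (q - p) ∧ 1 / √3 ^ (q - p) ≤ 1 ∧
    0 ≤ mu ((q : ℤ) - p) / 2 ∧ mu ((q : ℤ) - p) / 2 ≤ 87 / 100 := by
  have := sqrt3_bounds
  have := mu_pos ((q : ℤ) - p)
  have := mu_le_sqrt (d := (q : ℤ) - p) (by omega)
  exact ⟨by positivity, (div_le_one (by positivity)).2 (one_le_pow₀ (by linarith)), by linarith,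
    by linarith⟩

/-- comparison with the value at `δ = 0` -/
theorem MW_le {δ κ : ℝ} {p q : ℕ} {G G' : Fo Unit → ℝ} {γ : Up Unit} (h : p < q) (d0 : 0 ≤ δ)
    (k0 : 0 ≤ κ) (k1 : 1 ≤ κ * (1 - 3 * δ)) (g0 : ∀ F, 0 ≤ G F)
    (g1 : ∀ F, dep F ≤ da γ → G F ≤ G' F) :
    0 ≤ MW δ p q G γ ∧ MW δ p q G γ ≤ κ ^ (2 + na γ) * MW 0 p q G' γ := by
  obtain ⟨a1, -, a3, -⟩ := par h
  have k : 1 ≤ κ := by nlinarith
  have := (Cmp.mk d0 k0 k1 a1 (le_mul_of_one_le_left a1 k) a3 le_rfl g0 g1).SW_le γ le_rfl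
  rw [SW_hom] at this
  rw [MW_eq, MW_eq]
  exact Cmp.tr (Cmp.mm ⟨(co_bd p q γ).1, le_rfl⟩ this) rfl (by ring)

/-- the summable majorant -/
theorem MW_dom {δ κ : ℝ} {p q : ℕ} {G : Fo Unit → ℝ} (h : p < q) (d0 : 0 ≤ δ)
    (k0 : 0 ≤ κ) (k1 : 1 ≤ κ * (1 - 3 * δ)) (k2 : κ ≤ 103 / 100) (g0 : ∀ F, 0 ≤ G F)
    (g1 : ∀ F, G F ≤ Gp F) (γ : Up Unit) : MW δ p q G γ ≤ 4 * SW 0 1 (9 / 10) Gp γ := by
  obtain ⟨a1, a2, a3, a4⟩ := par h
  have := (Cmp.mk d0 k0 k1 a1 a2 a3 (m' := 9 / 10) (by nlinarith) g0 fun F _ => g1 F).SW_le γ le_rfl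
  have b := ((Cmp.mk le_rfl zero_le_one (by norm_num) zero_le_one le_rfl
    (show (0 : ℝ) ≤ 9 / 10 by norm_num) le_rfl (fun F => (g0 F).trans (g1 F))
    fun _ _ => le_rfl).SW_le γ le_rfl).1
  rw [MW_eq]
  refine (Cmp.mm (co_bd p q γ) this).2.trans ?_
  rw [← mul_assoc]
  exact mul_le_mul_of_nonneg_right (by nlinarith) b

/-- the truncated weight -/
noncomputable def Gt (p q : ℕ) (F : Fo Unit) : ℝ := if dep F ≤ p then Gm 0 p q F else 0

theorem gm (h2 : McfStmt) (p q : ℕ) {δ : ℝ} (d0 : 0 ≤ δ) (d1 : δ ≤ 1 / 3) (F : Fo Unit) :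
    0 ≤ Gm δ p q F ∧ Gm δ p q F ≤ Gm 0 p q F ∧ Gm 0 p q F ≤ Gp F :=
  h2.2.2 δ _ _ d0 d1 (fun c => ⟨sq_nonneg _, pow_le_one₀ (by linarith [mu_pos (dig p q c)])
    (by linarith [mu_le_two (dig p q c)])⟩) 1 F

theorem gt (h2 : McfStmt) (p q : ℕ) (F : Fo Unit) : 0 ≤ Gt p q F ∧ Gt p q F ≤ Gm 0 p q F := by
  have := (gm h2 p q le_rfl (by norm_num) F).1
  unfold Gt
  split_ifs <;> simp [this]

theorem sum_gt (h1 : MsumStmt) (h2 : McfStmt) {p q : ℕ} (h : p < q) :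
    HasSum (MW 0 p q (Gt p q)) (3 * lead p q) := by
  obtain ⟨a0, a1, a2⟩ := h2.1 p q p 1
  obtain ⟨-, -, b0, b1⟩ := par h
  have k : ∀ τ m : ℝ, |m| = mu ((q : ℤ) - p) / 2 →
      HasSum (SW 0 τ m (Gt p q)) (3 * ends (cf p q p 1) τ (2 * m)) := fun τ m e =>
    h1 _ _ τ m (fun F => (gt h2 p q F).1) (by simp [Gt, Gm, dep, chW]) (by linarith) a2
      (by linarith)
  have := ((k (1 / √3 ^ (q - p)) _ (abs_of_nonneg b0)).mul_left (1 + √3 / 2)).add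
    ((k ((-1) ^ (q - p) / √3 ^ (q - p)) ((-1) ^ (q - p) * mu ((q : ℤ) - p) / 2) (by
      rw [mul_div_assoc, abs_mul, abs_neg_one_pow, one_mul, abs_of_nonneg b0])).mul_left
      (1 - √3 / 2))
  rw [mul_div_cancel₀ _ two_ne_zero, mul_div_cancel₀ _ two_ne_zero] at this
  rw [mul_left_comm (1 + √3 / 2), mul_left_comm (1 - √3 / 2), ← mul_add] at this
  exact this

theorem sum_dom (h1 : MsumStmt) (h2 : McfStmt) :
    ∃ s ≤ (3000 : ℝ), HasSum (fun γ => 4 * SW 0 1 (9 / 10) Gp γ) s := by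
  obtain ⟨x, x0, x1, x2⟩ := h2.2.1
  refine ⟨_, ?_, (h1 Gp x 1 (9 / 10) (fun F => ((gm h2 0 0 le_rfl (by norm_num) F).1).trans
    (gm h2 0 0 le_rfl (by norm_num) F).2.2) rfl (by linarith) x2
    (by rw [abs_of_pos (by norm_num)]; linarith)).mul_left 4⟩
  rw [ends]
  have a : (1 * (1 - x) + x * (2 * (9 / 10))) / (3 * (1 - x) - 2 * (9 / 10)) ≤ 7 :=
    (div_le_iff₀ (by linarith)).2 (by linarith)
  have b : 0 ≤ (1 * (1 - x) + x * (2 * (9 / 10))) / (3 * (1 - x) - 2 * (9 / 10)) :=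
    div_nonneg (by linarith) (by linarith)
  generalize (1 * (1 - x) + x * (2 * (9 / 10))) / (3 * (1 - x) - 2 * (9 / 10)) = y at a b
  have : (1 + y) ^ 2 / (1 - x) ≤ 96 := (div_le_iff₀ (by linarith)).2 (by nlinarith)
  linarith

theorem lead_bd (h1 : MsumStmt) (h2 : McfStmt) (p q : ℕ) (hp : 1 ≤ p) (h : p < q) :
    1 / 5 ≤ lead p q ∧ lead p q ≤ 1000 := by
  obtain ⟨s, s1, s2⟩ := sum_dom h1 h2
  have a := hasSum_le (MW_dom h le_rfl zero_le_one (by norm_num) (by norm_num)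
    (fun F => (gt h2 p q F).1) fun F => (gt h2 p q F).2.trans
      (gm h2 p q le_rfl (by norm_num) F).2.2) (sum_gt h1 h2 h) s2
  have b := le_hasSum (sum_gt h1 h2 h) (.top (.fin (.cons () () .nil .nil))) fun γ _ =>
    (MW_le h le_rfl zero_le_one (by norm_num) (fun F => (gt h2 p q F).1) fun _ _ => le_rfl).1
  rw [MW_eq] at b
  simp [co, na, nu, SW, sW, Gt, Gm, dep, chW, hp] at b
  constructor <;> linarith

theorem near_one (N : ℕ) {e : ℝ} (he : 0 < e) :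
    ∃ κ : ℝ, 1 < κ ∧ κ ≤ 103 / 100 ∧ κ ^ N ≤ 1 + e := by
  have c : ContinuousAt (fun κ : ℝ => κ ^ N) 1 := by fun_prop
  have a : ∀ᶠ κ : ℝ in nhds 1, κ ^ N < 1 + e :=
    c.eventually_lt continuousAt_const (by simpa using he)
  have b : ∀ᶠ κ : ℝ in nhds 1, κ < 103 / 100 := eventually_lt_nhds (by norm_num)
  obtain ⟨κ, ⟨k1, k2⟩, k3⟩ := (((a.and b).filter_mono
    (nhdsWithin_le_nhds (s := Set.Ioi 1))).and self_mem_nhdsWithin).exists
  exact ⟨κ, k3, k2.le, k1.le⟩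

end Mtail

open Mtail in
theorem mtail_of (h1 : MsumStmt) (h2 : McfStmt) : MtailStmt := by
  refine ⟨lead_bd h1 h2, fun ε he => ?_⟩
  obtain ⟨s, -, s2⟩ := sum_dom h1 h2
  obtain ⟨S, hS⟩ := s2.summable.vanishing (Iio_mem_nhds (half_pos he))
  obtain ⟨κ, k1, k2, k3⟩ := near_one (2 + S.sup na) (show 0 < ε / 6000 by positivity)
  have k0 : 0 < κ := by linarith
  have k4 : κ⁻¹ < 1 := inv_lt_one_of_one_lt₀ k1
  refine ⟨S, S.sup da + 1, (1 - κ⁻¹) / 3, by linarith, fun p q hp h => ?_⟩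
  have g0 := gm h2 p q le_rfl (by norm_num)
  have gt := gt h2 p q
  have sg := sum_gt h1 h2 h
  have tail : ∀ f : Up Unit → ℝ, (∀ γ, 0 ≤ f γ) → (∀ γ, f γ ≤ 4 * SW 0 1 (9 / 10) Gp γ) →
      ∀ T : Finset (Up Unit), ∑ γ ∈ T, f γ ≤ ∑ γ ∈ S, f γ + ε / 2 := fun f f0 f1 T => by
    have a := (sum_le_sum fun γ _ => f1 γ).trans (hS (T \ S) sdiff_disjoint).le
    have b : ∑ γ ∈ T, f γ ≤ ∑ γ ∈ T ∪ S, f γ :=
      sum_le_sum_of_subset_of_nonneg subset_union_left fun γ _ _ => f0 γ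
    rw [← sdiff_union_self_eq_union, sum_union sdiff_disjoint] at b
    linarith
  have n0 : ∀ γ, 0 ≤ MW 0 p q (Gt p q) γ := fun γ =>
    (MW_le h le_rfl zero_le_one (by norm_num) (fun F => (gt F).1) fun _ _ => le_rfl).1
  constructor
  · have a := hasSum_le_of_sum_le sg (tail _ n0 (MW_dom h le_rfl zero_le_one (by norm_num)
      (by norm_num) (fun F => (gt F).1) fun F => (gt F).2.trans (g0 F).2.2))
    have b : ∑ γ ∈ S, MW 0 p q (Gt p q) γ ≤ ∑ γ ∈ S, MW 0 p q (Gm 0 p q) γ :=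
      sum_le_sum fun γ _ => by
        simpa using (MW_le (γ := γ) h le_rfl zero_le_one (by norm_num) (fun F => (gt F).1)
          fun F _ => (gt F).2).2
    linarith
  · intro δ d0 d1 S'
    have gd := gm h2 p q d0 (by linarith [inv_pos.2 k0])
    have k5 : 1 ≤ κ * (1 - 3 * δ) :=
      (mul_inv_cancel₀ k0.ne').ge.trans (mul_le_mul_of_nonneg_left (by linarith) k0.le)
    have n1 : ∀ γ, 0 ≤ MW δ p q (Gm δ p q) γ := fun γ =>
      (MW_le h d0 k0.le k5 (fun F => (gd F).1) fun _ _ => le_rfl).1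
    refine ⟨n1, ?_⟩
    have a := tail _ n1 (MW_dom h d0 k0.le k5 k2 (fun F => (gd F).1)
      fun F => (gd F).2.1.trans (gd F).2.2) S'
    have b : ∑ γ ∈ S, MW δ p q (Gm δ p q) γ ≤ ∑ γ ∈ S, (1 + ε / 6000) * MW 0 p q (Gt p q) γ :=
      sum_le_sum fun γ hγ => by
        refine (MW_le (G' := Gt p q) h d0 k0.le k5 (fun F => (gd F).1) fun F hF => ?_).2.trans
          (mul_le_mul_of_nonneg_right ((pow_le_pow_right₀ k1.le ?_).trans k3) (n0 γ))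
        · have := le_sup (f := da) hγ
          rw [Gt, if_pos (by omega)]
          exact (gd F).2.1
        · exact Nat.add_le_add_left (le_sup hγ) 2
    rw [← mul_sum] at b
    have c := sum_le_hasSum S (fun γ _ => n0 γ) sg
    have e := (lead_bd h1 h2 p q (by omega) h).2
    have := mul_le_mul_of_nonneg_left c (show 0 ≤ 1 + ε / 6000 by positivity)
    nlinarith

end Pool.Agent.MP_e0ec03_al.Asy

end MrgPart1

-- marker of a merged file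
example : 731051 + 477662 = 731051 + 477662 := rfl
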