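import Pool.Agent.MP_e0ec03_al.asy.Parse

/-! ROW SHP of THEOREM ASY: the sharp bound for the main patterns. -/

namespace Pool.Agent.MP_e0ec03_al.Asy

open Classical Finset

namespace Shp

/-- expectation over signs and sizes along a fixed list of letters -/
noncomputable def EE (δ : ℝ) (p : ℕ) : Bool → List Bool → (List ℤ → ℝ) → ℝ
  | _, [], f => f []
  | a, b :: l, f => ∑ σ : Bool, ∑ m ∈ range (p + 1),
      kk δ a b / 2 * law p a b m * EE δ p b l (fun xs => f (sg σ m :: xs))

theorem bridge (δ : ℝ) (p : ℕ) : ∀ (bs : List Bool) (a : Bool) (f : List ℤ → ℝ),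
    NE δ bs.length a (fun E => if E.map Prod.fst = bs then EM p a E f else 0) = EE δ p a bs f
  | [], a, f => by simp [NE, EE, EM]
  | b :: bs, a, f => by
    have key : ∀ e : Bool × Bool, NE δ bs.length e.1
        (fun l => if (e :: l).map Prod.fst = b :: bs then EM p a (e :: l) f else 0) =
        if e.1 = b then ∑ m ∈ range (p + 1),
          law p a b m * EE δ p b bs (fun xs => f (sg e.2 m :: xs)) else 0 := by
      rintro ⟨c, σ⟩
      by_cases h : c = b
      · subst h
        rw [if_pos rfl]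
        simp only [← bridge δ p bs c, ← NE_mul, ← NE_sum]
        refine NE_congr δ _ _ _ _ fun l _ => ?_
        by_cases hl : l.map Prod.fst = bs <;> simp [hl, EM]
      · rw [if_neg h]
        refine (NE_congr δ _ _ _ _ fun l _ => ?_).trans (NE_const δ 0 bs.length c)
        simp [h]
    rw [List.length_cons, NE]
    simp only [key, EE, Fintype.sum_prod_type]
    cases b <;> simp [mul_sum, mul_assoc]

theorem EE_mono {δ : ℝ} (h0 : 0 ≤ δ) (h1 : δ ≤ 1 / 3) (p : ℕ) :
    ∀ (a : Bool) (bs : List Bool) (f g : List ℤ → ℝ),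
      (∀ xs : List ℤ, xs.length = bs.length → f xs ≤ g xs) → EE δ p a bs f ≤ EE δ p a bs g
  | _, [], _, _, h => h [] rfl
  | a, b :: l, _, _, h => sum_le_sum fun _ _ => sum_le_sum fun _ _ =>
      mul_le_mul_of_nonneg_left (EE_mono h0 h1 p b l _ _ fun _ hx => h _ (by simp [hx]))
        (mul_nonneg (div_nonneg (kk_nonneg h0 h1 a b) zero_le_two) (law_nonneg _ _ _ _))

theorem EE_add (δ : ℝ) (p : ℕ) : ∀ (a : Bool) (bs : List Bool) (f g : List ℤ → ℝ),
    EE δ p a bs (fun xs => f xs + g xs) = EE δ p a bs f + EE δ p a bs g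
  | _, [], _, _ => rfl
  | a, b :: l, f, g => by simp only [EE, EE_add δ p b l, mul_add, sum_add_distrib]

theorem EE_mul (δ : ℝ) (p : ℕ) (c : ℝ) : ∀ (a : Bool) (bs : List Bool) (f : List ℤ → ℝ),
    EE δ p a bs (fun xs => c * f xs) = c * EE δ p a bs f
  | _, [], _ => rfl
  | a, b :: l, f => by simp only [EE, EE_mul δ p c b l, mul_sum, mul_left_comm]

theorem EE_sum (δ : ℝ) (p : ℕ) (a : Bool) (bs : List Bool) {ι : Type} (s : Finset ι)
    (f : ι → List ℤ → ℝ) :
    EE δ p a bs (fun xs => ∑ i ∈ s, f i xs) = ∑ i ∈ s, EE δ p a bs (f i) := by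
  induction s using Finset.induction_on with
  | empty => simpa using EE_mul δ p 0 a bs (fun _ => 0)
  | insert i s hi ih => simp only [sum_insert hi, EE_add, ih]

theorem EE_append (δ : ℝ) (p : ℕ) : ∀ (a : Bool) (bs bs' : List Bool) (f : List ℤ → ℝ),
    EE δ p a (bs ++ bs') f =
      EE δ p a bs (fun xs => EE δ p (lastE a bs) bs' (fun ys => f (xs ++ ys)))
  | _, [], _, _ => rfl
  | a, b :: l, bs', f => by simp only [List.cons_append, EE, EE_append δ p b l bs', lastE]

theorem EE_r (h : VtxStmt) {δ : ℝ} (h0 : 0 ≤ δ) (h1 : δ ≤ 1 / 3) {p : ℕ} (hp : 1 ≤ p) (q : ℕ) :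
    ∀ (e : Edge) (u : List Edge),
      EE δ p e.1 (u.map Prod.fst) (fun xs => (1 / √3) ^ delta xs (dl p q e u)) ≤ pw δ p q e u
  | _, [] => by simp [EE, pw]
  | e, b :: l => by
    have hr : (1 / √3 : ℝ) ≠ 0 := by positivity
    have ih := EE_r h h0 h1 hp q b l
    have hk := kk_nonneg h0 h1 e.1 b.1
    have hv := h.1 p hp e.1 b.1 (inn p q e - out p q b)
    have hw := pw_nonneg h0 h1 p q b l
    simp only [List.map_cons, EE, dl, delta_cons, zpow_add₀ hr, EE_mul, pw, vtx]
    refine (sum_le_sum fun σ _ => sum_le_sum fun m _ => mul_le_mul_of_nonneg_left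
      (mul_le_mul_of_nonneg_left ih (by positivity))
      (mul_nonneg (by positivity) (law_nonneg _ _ _ _))).trans ?_
    have : ∑ σ : Bool, ∑ m ∈ range (p + 1), kk δ e.1 b.1 / 2 * law p e.1 b.1 m *
        ((1 / √3) ^ (|sg σ m + (inn p q e - out p q b)| - |sg σ m|) * pw δ p q b l) =
        kk δ e.1 b.1 * ((mS p e.1 b.1 true (inn p q e - out p q b) +
          mS p e.1 b.1 false (inn p q e - out p q b)) / 2) * pw δ p q b l := by
      simp only [Fintype.sum_bool, mS, ← sum_add_distrib, sum_div, mul_sum, sum_mul]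
      exact sum_congr rfl fun m _ => by ring
    rw [this]
    gcongr

/-- `1` for a stay, `2` for a turn -/
noncomputable def bb (a b : Bool) : ℝ := if a = b then 1 else 2

theorem one_le_bb (a b : Bool) : 1 ≤ bb a b := by unfold bb; split_ifs <;> norm_num

theorem bb_le_two (a b : Bool) : bb a b ≤ 2 := by unfold bb; split_ifs <;> norm_num

theorem law_lt {p m : ℕ} (hm : m < p) (a b : Bool) : law p a b m ≤ bb a b * (1 / 3) ^ m := by
  unfold law bb
  split_ifs with h h' h' <;> simp_all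
  norm_num

theorem law_top {p : ℕ} (hp : 1 ≤ p) (a b : Bool) :
    law p a b p = bb a b * (3 / 2 * (1 / 3) ^ p) := by
  have : p ≠ 0 := by omega
  unfold law bb
  split_ifs <;> simp_all
  ring

theorem geo (j : ℕ) : ∀ n : ℕ, ∑ m ∈ range n, (if j ≤ m then ((1 : ℝ) / 3) ^ m else 0) =
    if j ≤ n then 3 / 2 * ((1 / 3) ^ j - (1 / 3) ^ n) else 0
  | 0 => by
    split_ifs with h
    · obtain rfl : j = 0 := by omega
      simp
    · simp
  | n + 1 => by
    rw [sum_range_succ, geo j n]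
    by_cases h : j ≤ n
    · rw [if_pos h, if_pos h, if_pos (by omega)]
      ring
    · rw [if_neg h, if_neg h]
      split_ifs with h'
      · obtain rfl : j = n + 1 := by omega
        simp
      · simp

theorem tail1 {p : ℕ} (hp : 1 ≤ p) (a b : Bool) (j : ℤ) :
    ∑ m ∈ range (p + 1), law p a b m * (if j ≤ (m : ℤ) then 1 else 0) ≤
      bb a b * (3 / 2 * (1 / 3) ^ j) := by
  have hb := one_le_bb a b
  have h1 : ∑ m ∈ range p, law p a b m * (if j ≤ (m : ℤ) then 1 else 0) ≤
      bb a b * ∑ m ∈ range p, (if j.toNat ≤ m then ((1 : ℝ) / 3) ^ m else 0) := by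
    rw [mul_sum]
    refine sum_le_sum fun m hm => ?_
    by_cases h : j ≤ (m : ℤ)
    · rw [if_pos h, if_pos (by omega), mul_one]
      exact law_lt (mem_range.1 hm) a b
    · rw [if_neg h, if_neg (by omega)]
      simp
  have h2 : ((1 : ℝ) / 3) ^ j.toNat ≤ (1 / 3) ^ j := by
    rw [← zpow_natCast]
    exact zpow_le_zpow_right_of_le_one₀ (by norm_num) (by norm_num) (by omega)
  have h3 : (0 : ℝ) < (1 / 3) ^ j := by positivity
  rw [sum_range_succ, law_top hp]
  rw [geo] at h1
  by_cases h : j ≤ (p : ℤ)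
  · rw [if_pos (by omega)] at h1
    rw [if_pos h]
    nlinarith
  · rw [if_neg (by omega)] at h1
    rw [if_neg h]
    nlinarith

theorem mom1 {p : ℕ} (hp : 1 ≤ p) (a b : Bool) (M : ℤ) :
    ∑ m ∈ range (p + 1), law p a b m * (1 / 3) ^ (M - (m : ℤ)) ≤
      bb a b * (((p : ℝ) + 3 / 2) * (1 / 3) ^ M) := by
  have key : ∀ m : ℕ, ((1 : ℝ) / 3) ^ m * (1 / 3) ^ (M - (m : ℤ)) = (1 / 3) ^ M := by
    intro m
    rw [← zpow_natCast, ← zpow_add₀ (by norm_num)]
    congr 1
    ring
  have h1 : ∑ m ∈ range p, law p a b m * (1 / 3) ^ (M - (m : ℤ)) ≤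
      ∑ _m ∈ range p, bb a b * (1 / 3) ^ M := by
    refine sum_le_sum fun m hm => ?_
    rw [← key m, ← mul_assoc]
    exact mul_le_mul_of_nonneg_right (law_lt (mem_range.1 hm) a b) (by positivity)
  rw [sum_const, card_range, nsmul_eq_mul] at h1
  rw [sum_range_succ, law_top hp, mul_assoc, mul_assoc, key p]
  linarith

/-- average over the sign and the size of a function of the positive part -/
noncomputable def EX (p : ℕ) (a b : Bool) (s : ℤ) (f : ℤ → ℝ) : ℝ :=
  ∑ σ : Bool, ∑ m ∈ range (p + 1), law p a b m / 2 * f (max (s * sg σ m) 0)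

theorem EX_eq {p : ℕ} (hp : 1 ≤ p) (a b : Bool) {s : ℤ} (hs : s = 1 ∨ s = -1) (f : ℤ → ℝ) :
    EX p a b s f = (f 0 + ∑ m ∈ range (p + 1), law p a b m * f m) / 2 := by
  have h0 : ∑ m ∈ range (p + 1), law p a b m / 2 * f 0 = f 0 / 2 := by
    rw [← sum_mul, ← sum_div, law_sum hp]
    ring
  have h1 : ∑ m ∈ range (p + 1), law p a b m / 2 * f m =
      (∑ m ∈ range (p + 1), law p a b m * f m) / 2 := by
    rw [sum_div]
    exact sum_congr rfl fun m _ => by ring
  rcases hs with rfl | rfl <;> simp [EX, sg, h0, h1] <;> ring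

theorem tail2 {p : ℕ} (hp : 1 ≤ p) (a b a' b' : Bool) {s s' : ℤ} (hs : s = 1 ∨ s = -1)
    (hs' : s' = 1 ∨ s' = -1) (M : ℤ) :
    EX p a b s (fun X => EX p a' b' s' (fun Y => if M ≤ X + Y then 1 else 0)) ≤
      3 / 8 * (bb a b * bb a' b') * ((p : ℝ) + 11) * (1 / 3) ^ M := by
  have hb := one_le_bb a b
  have hb' := one_le_bb a' b'
  have hb2 := bb_le_two a b
  have hY : ∀ X : ℤ, EX p a' b' s' (fun Y => if M ≤ X + Y then 1 else 0) ≤
      (if M ≤ X then 1 else 0) / 2 + 3 / 4 * bb a' b' * (1 / 3) ^ (M - X) := by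
    intro X
    have := tail1 hp a' b' (M - X)
    simp only [sub_le_iff_le_add'] at this
    rw [EX_eq hp _ _ hs', add_zero]
    linarith
  have h3 : (0 : ℝ) < (1 / 3) ^ M := by positivity
  have h4 : (if M ≤ 0 then (1 : ℝ) else 0) ≤ (1 / 3) ^ M := by
    split_ifs with h
    · exact one_le_zpow_of_nonpos₀ (by norm_num) (by norm_num) h
    · exact h3.le
  have h5 : ∑ m ∈ range (p + 1),
      law p a b m * EX p a' b' s' (fun Y => if M ≤ (m : ℤ) + Y then 1 else 0) ≤
      (∑ m ∈ range (p + 1), law p a b m * (if M ≤ (m : ℤ) then 1 else 0)) / 2 +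
        3 / 4 * bb a' b' * ∑ m ∈ range (p + 1), law p a b m * (1 / 3) ^ (M - (m : ℤ)) := by
    rw [sum_div, mul_sum, ← sum_add_distrib]
    refine sum_le_sum fun m _ =>
      (mul_le_mul_of_nonneg_left (hY m) (law_nonneg _ _ _ _)).trans (le_of_eq (by ring))
  have h6 := tail1 hp a b M
  have h7 := mul_le_mul_of_nonneg_left (mom1 hp a b M) (show 0 ≤ 3 / 4 * bb a' b' by positivity)
  have h8 := hY 0
  rw [sub_zero] at h8
  rw [EX_eq hp _ _ hs]
  have h9 : bb a' b' * (1 / 3) ^ M ≤ bb a b * bb a' b' * (1 / 3) ^ M := by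
    gcongr
    nlinarith
  have h10 : (1 / 3) ^ M ≤ bb a' b' * (1 / 3) ^ M := by nlinarith
  have h11 : bb a b * (1 / 3) ^ M ≤ 2 * (1 / 3) ^ M := by gcongr
  nlinarith

/-- the threshold -/
def MM (s k : ℤ) : ℤ := if s = 1 then (k + 1) / 2 else k / 2 + 1

theorem pow_MM (s k : ℤ) : ((1 : ℝ) / 3) ^ MM s k = (1 / √3) ^ k * gs s k := by
  have hr : (1 / √3 : ℝ) ≠ 0 := by positivity
  have h2 : (1 / √3 : ℝ) ^ (2 : ℤ) = 1 / 3 := by
    rw [zpow_two, div_mul_div_comm, Real.mul_self_sqrt (by norm_num), one_mul]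
  have h3 : ∀ j : ℤ, (1 / √3 : ℝ) ^ (2 * j) = (1 / 3) ^ j := fun j => by rw [zpow_mul, h2]
  unfold MM gs
  rcases Int.even_or_odd' k with ⟨j, rfl | rfl⟩
  · rw [if_pos (even_two_mul j), h3]
    split_ifs with h
    · rw [show (2 * j + 1) / 2 = j by omega, mul_one]
    · rw [show 2 * j / 2 + 1 = j + 1 by omega, zpow_add_one₀ (by norm_num)]
  · rw [if_neg (Int.not_even_two_mul_add_one j), ← zpow_add_one₀ hr,
      show 2 * j + 1 + 1 = 2 * (j + 1) by ring, h3]
    split_ifs with h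
    · rw [show 2 * (j + 1) / 2 = j + 1 by omega]
    · rw [show (2 * j + 1) / 2 + 1 = j + 1 by omega]

theorem delta_par : ∀ xs ds : List ℤ, xs.length = ds.length → delta xs ds % 2 = ds.sum % 2
  | [], [], _ => by simp
  | [], _ :: _, h => by simp at h
  | _ :: _, [], h => by simp at h
  | x :: xs, d :: ds, h => by
    have := delta_par xs ds (by simpa using h)
    rw [delta_cons, List.sum_cons]
    rcases abs_cases (x + d) with h1 | h1 <;> rcases abs_cases x with h2 | h2 <;> omega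

theorem win_iff {s o i x y : ℤ} (hs : s = 1 ∨ s = -1) (ho : 1 ≤ o) (hx : |x| ≤ o) (hy : |y| ≤ i)
    (xs ds : List ℤ) (h : xs.length = ds.length) :
    win (x :: (xs ++ [y])) (-(s * o) :: (ds ++ [s * i])) ↔
      MM s (o + i + delta xs ds) ≤ max (s * x) 0 + max (-s * y) 0 := by
  simp only [win, delta_cons, delta_append xs ds _ _ h, delta_nil_left, lexneg, MM]
  generalize delta xs ds = k
  rw [abs_le] at hx hy
  rcases hs with rfl | rfl
  · have h1 : -(1 * o) < 0 := by omega
    simp only [h1, true_or, and_true, if_true]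
    rcases abs_cases (x + -(1 * o)) with h1 | h1 <;> rcases abs_cases x with h2 | h2 <;>
      rcases abs_cases (y + 1 * i) with h3 | h3 <;> rcases abs_cases y with h4 | h4 <;> omega
  · have h1 : ¬ (-(-1 * o) < 0) := by omega
    have h2 : ¬ (-(-1 * o) = 0) := by omega
    have h3 : ¬ ((-1 : ℤ) = 1) := by omega
    simp only [h1, h2, h3, false_and, or_false, and_false, if_false]
    rcases abs_cases (x + -(-1 * o)) with h1 | h1 <;> rcases abs_cases x with h2 | h2 <;>
      rcases abs_cases (y + -1 * i) with h3 | h3 <;> rcases abs_cases y with h4 | h4 <;> omega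

theorem abs_sg (σ : Bool) (m : ℕ) : |sg σ m| = m := by
  unfold sg
  split_ifs <;> simp

theorem one_pair (h : VtxStmt) {p q : ℕ} (hp : 1 ≤ p) (hpq : p < q) {δ : ℝ} (h0 : 0 ≤ δ)
    (h1 : δ ≤ 1 / 3) (e : Edge) (u : List Edge) (hs : e.2 = 1 ∨ e.2 = -1)
    (hl : (lastE e u).2 = e.2) (a b : Bool) :
    EE δ p a ((e :: u).map Prod.fst ++ [b])
        (fun xs => if win xs (dl p q (a, 0) (e :: u ++ [(b, 0)])) then 1 else 0) ≤
      (kk δ a e.1 * bb a e.1) * (kk δ (lastE e u).1 b * bb (lastE e u).1 b) *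
        (3 / 8 * ((p : ℝ) + 11) * core δ p q (e :: u)) := by
  have hr : (1 / √3 : ℝ) ≠ 0 := by positivity
  obtain ⟨o, ho⟩ : ∃ o : ℕ, o = (out p q e).natAbs := ⟨_, rfl⟩
  obtain ⟨i, hi⟩ : ∃ i : ℕ, i = (inn p q (lastE e u)).natAbs := ⟨_, rfl⟩
  have ho' : out p q e = e.2 * o ∧ p ≤ o := by
    rw [ho]
    unfold out
    rcases hs with hs | hs <;> rw [hs] <;> split_ifs <;> simp <;> omega
  have hi' : inn p q (lastE e u) = e.2 * i ∧ p ≤ i := by
    rw [hi]
    unfold inn
    rw [hl]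
    rcases hs with hs | hs <;> rw [hs] <;> split_ifs <;> simp <;> omega
  have hs' : -e.2 = 1 ∨ -e.2 = -1 := by omega
  have hd : dl p q (a, 0) (e :: u ++ [(b, 0)]) =
      -(e.2 * o) :: (dl p q e u ++ [e.2 * i]) := by
    simp [dl, dl_append, ho'.1, hi'.1]
  have hk1 := kk_nonneg h0 h1 a e.1
  have hk2 := kk_nonneg h0 h1 (lastE e u).1 b
  have hb1 := one_le_bb a e.1
  have hb2 := one_le_bb (lastE e u).1 b
  have hg : 0 ≤ gs e.2 (out p q e + inn p q (lastE e u) + (dl p q e u).sum) := by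
    unfold gs
    split_ifs <;> positivity
  rw [hd, List.map_cons, List.cons_append, EE]
  simp only [EE_append, lastE_map, EE, ← EE_mul, ← EE_sum]
  refine (EE_mono h0 h1 p e.1 _ _ (fun xs => (kk δ a e.1 * bb a e.1) *
    (kk δ (lastE e u).1 b * bb (lastE e u).1 b) * (3 / 8 * ((p : ℝ) + 11)) *
    ((1 / √3) ^ (o + i) * gs e.2 (out p q e + inn p q (lastE e u) + (dl p q e u).sum)) *
    (1 / √3) ^ delta xs (dl p q e u)) fun xs hx => ?_).trans ?_
  · have hx' : xs.length = (dl p q e u).length := by simpa [dl_length] using hx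
    have ht := mul_le_mul_of_nonneg_left (tail2 hp a e.1 (lastE e u).1 b hs hs'
      (MM e.2 (o + i + delta xs (dl p q e u)))) (mul_nonneg hk1 hk2)
    have hgs : gs e.2 (o + i + delta xs (dl p q e u)) =
        gs e.2 (out p q e + inn p q (lastE e u) + (dl p q e u).sum) := by
      have := delta_par xs _ hx'
      unfold gs
      rw [ho'.1, hi'.1]
      refine if_congr ?_ rfl rfl
      rw [Int.even_iff, Int.even_iff]
      rcases hs with hs | hs <;> rw [hs] <;> omega
    rw [pow_MM, hgs, zpow_add₀ hr, ← Nat.cast_add, zpow_natCast] at ht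
    refine le_trans (le_of_eq ?_) (ht.trans (le_of_eq (by ring)))
    simp only [EX, mul_sum]
    refine sum_congr rfl fun σ _ => sum_congr rfl fun m hm => sum_congr rfl fun σ' _ =>
      sum_congr rfl fun m' hm' => ?_
    have hm1 := mem_range.1 hm
    have hm2 := mem_range.1 hm'
    rw [if_congr (win_iff hs (by omega) (by rw [abs_sg]; omega) (by rw [abs_sg]; omega) xs _ hx')
      rfl rfl, Nat.cast_add]
    ring
  · rw [EE_mul]
    refine (mul_le_mul_of_nonneg_left (EE_r h h0 h1 hp q e u) (by positivity)).trans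
      (le_of_eq ?_)
    rw [core, ← ho, ← hi]
    ring

end Shp

open Shp in
theorem shp_of (h : VtxStmt) : ShpStmt := by
  intro p q hp hpq δ h0 h1 e u hs hl
  have hc : 0 ≤ core δ p q (e :: u) := by
    have := pw_nonneg h0 h1 p q e u
    rw [core, gs]
    split_ifs <;> positivity
  have hA : ∑ a : Bool, st0 δ a * (kk δ a e.1 * bb a e.1) ≤ 2 / 3 * (1 + 3 * δ) := by
    cases e.1 <;> simp [st0, kk, bb] <;> nlinarith
  have hB : ∑ b : Bool, kk δ (lastE e u).1 b * bb (lastE e u).1 b ≤ 4 / 3 * (1 + δ) := by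
    cases (lastE e u).1 <;> simp [kk, bb] <;> nlinarith
  have hB0 : 0 ≤ ∑ b : Bool, kk δ (lastE e u).1 b * bb (lastE e u).1 b :=
    sum_nonneg fun b _ => mul_nonneg (kk_nonneg h0 h1 _ _) (zero_le_one.trans (one_le_bb _ _))
  have key : locW δ p q (e :: u) id ≤ (∑ a : Bool, st0 δ a * (kk δ a e.1 * bb a e.1)) *
      (∑ b : Bool, kk δ (lastE e u).1 b * bb (lastE e u).1 b) *
        (3 / 8 * ((p : ℝ) + 11) * core δ p q (e :: u)) := by
    rw [sum_mul_sum, sum_mul, locW]
    refine sum_le_sum fun a _ => ?_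
    rw [sum_mul]
    refine sum_le_sum fun b _ => ?_
    have hb := bridge δ p ((e :: u).map Prod.fst ++ [b]) a
      (fun xs => if win xs (dl p q (a, 0) (e :: u ++ [(b, 0)])) then 1 else 0)
    rw [List.length_append, List.length_map, List.length_singleton] at hb
    simp only [id, PW]
    rw [hb]
    exact (mul_le_mul_of_nonneg_left (one_pair h hp hpq h0 h1 e u hs hl a b)
      (st0_nonneg h0 h1 a)).trans (le_of_eq (by ring))
  refine key.trans ?_
  have h2 : (∑ a : Bool, st0 δ a * (kk δ a e.1 * bb a e.1)) *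
      (∑ b : Bool, kk δ (lastE e u).1 b * bb (lastE e u).1 b) ≤ 8 / 9 * (1 + 5 * δ) :=
    (mul_le_mul hA hB hB0 (by positivity)).trans (by nlinarith)
  refine (mul_le_mul_of_nonneg_right h2 (by positivity)).trans (le_of_eq (by ring))

end Pool.Agent.MP_e0ec03_al.Asy
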