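import Pool.Agent.MP_e0ec03_al.asy.Parse
import Pool.Agent.MP_e0ec03_al.asy.Spa1

-- ======== part 0: formerly Pool.Agent.MP_e0ec03_al.asy.Final
section MrgPart0

/-! The last step of THEOREM ASY. -/

namespace Pool.Agent.MP_e0ec03_al.Asy

open Classical Finset Filter Topology

theorem small_eventually {c : ℝ} (hc : 0 < c) :
    ∀ᶠ p : ℕ in atTop, (p : ℝ) * (1 / 3) ^ p < c := by
  have := tendsto_self_mul_const_pow_of_lt_one (r := (1 / 3 : ℝ)) (by norm_num) (by norm_num)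
  exact this.eventually (gt_mem_nhds hc)

theorem final_of (h1 : UpStmt) (h2 : LowStmt) (h3 : LowzStmt) (h4 : FinuStmt) (h5 : FinlStmt)
    (h6 : MtailStmt) :
    ∀ ε : ℝ, 0 < ε → ∃ p0 : ℕ, ∀ p q : ℕ, p0 ≤ p → p < q → ∃ ω : ℝ,
      Tendsto (fun n : ℕ => ((ball p q n).ncard : ℝ) ^ (1 / (n : ℝ))) atTop (𝓝 ω) ∧
      |(3 - ω) * 3 ^ p / p - lead p q| ≤ ε := by
  intro ε0 hε0
  obtain ⟨η, hη, hη1, hηε⟩ : ∃ η : ℝ, 0 < η ∧ η ≤ 1 / 100 ∧ 1000 * η ≤ ε0 :=
    ⟨min (ε0 / 1000) (1 / 100), lt_min (by positivity) (by norm_num), min_le_right _ _, by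
      linarith [min_le_left (ε0 / 1000) (1 / 100)]⟩
  obtain ⟨L0, p4, hL, h4⟩ := h4 η hη
  obtain ⟨p5, h5⟩ := h5 η hη
  obtain ⟨b0, hb0, h1⟩ := h1 η hη L0 hL
  obtain ⟨θ0, hθ0, h2⟩ := h2 η hη
  have hr : (1 / √3 : ℝ) < 1 := by
    rw [div_lt_one (by positivity)]
    linarith [sqrt3_bounds.1]
  have t1 := (tendsto_pow_atTop_nhds_zero_of_lt_one (r := (1 / √3 : ℝ)) (by positivity)
    hr).eventually (gt_mem_nhds (show (0 : ℝ) < 1 / 6 by norm_num))
  have t2 := (tendsto_natCast_atTop_atTop (R := ℝ)).eventually_ge_atTop (11 / η)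
  have t3 := small_eventually (show 0 < min b0 θ0 / 1000 by positivity)
  obtain ⟨p6, h7⟩ := eventually_atTop.1 (t1.and (t2.and t3))
  refine ⟨p4 + p5 + p6 + 3, fun p q hp hpq => ?_⟩
  obtain ⟨k1, k2, k3⟩ := h7 p (by omega)
  have hp1 : 1 ≤ p := by omega
  obtain ⟨ω, w1, w2, w3, w4⟩ := growth_exists (fun n => (ball p q n).ncard) ball_pos ball_submul
  have hR : Rate p q ω := ⟨w1, w3, w4⟩
  refine ⟨ω, w2, ?_⟩
  obtain ⟨l1, l2⟩ := h6.1 p q hp1 hpq
  have hsq : ((1 / √3 : ℝ) ^ p) ^ 2 = (1 / 3) ^ p := by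
    rw [← pow_mul, mul_comm, pow_mul, div_pow, Real.sq_sqrt (by norm_num), one_pow]
  have hp0 : (0 : ℝ) < p := by exact_mod_cast hp1
  have hz : (0 : ℝ) < (1 / 3) ^ p := by positivity
  have hx : (0 : ℝ) < p * (1 / 3) ^ p := by positivity
  have m1 := min_le_left b0 θ0
  have m2 := min_le_right b0 θ0
  have u1 := h1 p q hp1 hpq ω _ hR (mul_pos (by linarith) hx) (by nlinarith)
    (h4 p q (by omega) hpq)
  have z1 := h3 _ p q _ (by positivity) k1.le (by omega) hpq (h5 p q (by omega) hpq)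
  rw [hsq] at z1
  rw [div_le_iff₀' hη] at k2
  have k4 : 5 * (1 / 3 : ℝ) ^ p + 6 * (1 / 3) ^ p ≤ η * (p * (1 / 3) ^ p) := by nlinarith
  have u2 := h2 p q hp1 hpq ω _ hR (by positivity) (by nlinarith) z1
  have e : (3 - ω) * 3 ^ p / p = (3 - ω) / (p * (1 / 3) ^ p) := by
    rw [one_div, inv_pow]
    field_simp
  rw [e, abs_le, le_sub_iff_add_le, sub_le_iff_le_add, le_div_iff₀ hx, div_le_iff₀ hx]
  generalize (p : ℝ) * (1 / 3) ^ p = x at *
  constructor
  · refine le_trans ?_ u1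
    rw [← mul_assoc]
    exact mul_le_mul_of_nonneg_right (by nlinarith) hx.le
  · refine u2.trans ?_
    calc _ ≤ (3 / 2 + η) * (η * x + (2 / 3 * lead p q + η) * x) := by gcongr
      _ = (3 / 2 + η) * (2 / 3 * lead p q + 2 * η) * x := by ring
      _ ≤ _ := mul_le_mul_of_nonneg_right (by nlinarith) hx.le

end Pool.Agent.MP_e0ec03_al.Asy

end MrgPart0

-- ======== part 1: formerly Pool.Agent.MP_e0ec03_al.asy.Spa2
section MrgPart1

/-! THEOREM ASY, row SPA2: ascending spines that are not of the main type. -/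

namespace Pool.Agent.MP_e0ec03_al.Asy

open Classical Finset
open scoped ENNReal

namespace Spa2

/-- the hypotheses of the row -/
structure Hy (δ T S : ℝ) (p q : ℕ) : Prop where
  sm : Sm δ T S
  pq : p < q
  a1 : Ar1 p q (ENNReal.ofReal T)
  a3 : Ar3 p q (ENNReal.ofReal T)
  val : Val δ p q T
  vnm : Vnm δ p q S
  spd : Spd δ p q T S
  ha : ∀ c : ℤ, c ≠ 0 →
    HA δ p q (NRA p q) (true, c) ≤ ENNReal.ofReal (10 ^ 4 * T) * 2 ^ c.natAbs

variable {δ T S : ℝ} {p q : ℕ}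

theorem Hy.d0 (h : Hy δ T S p q) : 0 ≤ δ := h.sm.1.le

theorem Hy.d1 (h : Hy δ T S p q) : δ ≤ 1 / 3 := by linarith [h.sm.2.1, h.sm.2.2.1]

theorem Hy.t0 (h : Hy δ T S p q) : 0 < T := h.sm.1.trans_le h.sm.2.1

theorem Hy.s0 (h : Hy δ T S p q) : 0 < S := by linarith [h.t0, h.sm.2.2.2.1]

theorem of2 : (2 : ℝ≥0∞) = ENNReal.ofReal 2 := by simp

theorem of9 : (9 / 10 : ℝ≥0∞) = ENNReal.ofReal (9 / 10) := by
  rw [ENNReal.ofReal_div_of_pos (by norm_num)]
  simp

/-- the continuation after the forest -/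
noncomputable def inr (δ : ℝ) (p q : ℕ) (P : Up ℤ → Prop) (F : Fo ℤ) (e : Edge) : ℝ≥0∞ :=
  ∑' c, vE δ p q e (true, c) * HA δ p q (fun r => P (.step F c r)) (true, c)

noncomputable def ff (δ T : ℝ) (p q : ℕ) (e : Edge) : ℝ≥0∞ :=
  ∑' c : ℤ, vE δ p q e (true, c) *
    if c = 0 then 0 else ENNReal.ofReal (10 ^ 4 * T) * 2 ^ c.natAbs

noncomputable def WW (δ T : ℝ) (p q : ℕ) (Q : Fo ℤ → Prop) (c : ℤ) : ℝ≥0∞ :=
  ∑' u : ℤ, YY δ p q Q c u * (ENNReal.ofReal (10 ^ 4 * T) * 2 ^ u.natAbs)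

theorem ha_le (h : Hy δ T S p q) {P : Up ℤ → Prop} (hP : ∀ γ, P γ → NRA p q γ) (F : Fo ℤ)
    (c : ℤ) : HA δ p q (fun r => P (.step F c r)) (true, c) ≤
      if c = 0 then 0 else ENNReal.ofReal (10 ^ 4 * T) * 2 ^ c.natAbs := by
  split_ifs with e
  · exact (ha_zero (fun r => P (.step F c r)) _ fun r k => (hP (.step F c r) k).2.1 e).le
  · exact (ha_mono (fun r => P (.step F c r)) _ _ fun r k => (hP (.step F c r) k).2.2).trans
      (h.ha c e)

theorem inr_zero {P : Up ℤ → Prop} (hP : ∀ γ, P γ → NRA p q γ) {F : Fo ℤ} (hF : ¬NRF p q F)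
    (e : Edge) : inr δ p q P F e = 0 :=
  ENNReal.tsum_eq_zero.2 fun c => by
    rw [ha_zero (fun r => P (.step F c r)) _ fun r k => hF (hP (.step F c r) k).1, mul_zero]

theorem inr_le (h : Hy δ T S p q) {P : Up ℤ → Prop} (hP : ∀ γ, P γ → NRA p q γ) (F : Fo ℤ)
    (e : Edge) : inr δ p q P F e ≤ ff δ T p q e :=
  ENNReal.tsum_le_tsum fun c => mul_le_mul_right (ha_le h hP F c) _

theorem ff_le (h : Hy δ T S p q) {u : ℤ} (hu : u ≠ 0) :
    ff δ T p q (true, u) ≤ ENNReal.ofReal (10 ^ 4 * T) * 2 ^ u.natAbs := by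
  have e : ff δ T p q (true, u) = ENNReal.ofReal (10 ^ 4 * T) * (ENNReal.ofReal (2 / 3 + δ) *
      ∑' c : ℤ, if c = 0 then 0 else sE (p * u - q * c) * 2 ^ c.natAbs) := by
    simp only [ff, ← ENNReal.tsum_mul_left, vE_uu h.d0 h.d1]
    refine tsum_congr fun c => ?_
    split_ifs
    · simp
    · ring
  rw [e]
  refine mul_le_mul_right ((mul_le_mul' (ENNReal.ofReal_le_one.2 (by linarith [h.d1]))
    (h.a3.up1 u hu)).trans ?_) _
  rw [one_mul, of9]
  exact mul_le_of_le_one_left' (ENNReal.ofReal_le_one.2 (by norm_num))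

theorem inr_main (h : Hy δ T S p q) {P : Up ℤ → Prop} (hP : ∀ γ, P γ → NRA p q γ) (F : Fo ℤ)
    {s : ℤ} (hs : s = 1 ∨ s = -1) (hz : HA δ p q (fun r => P (.step F s r)) (true, s) ≤
      ENNReal.ofReal (10 ^ 6 * T * S)) :
    inr δ p q P F (true, s) ≤ ENNReal.ofReal (601000 * T * S) := by
  have t0 := h.t0
  have s0 := h.s0
  obtain ⟨d0, d1, d2, d3, -⟩ := h.sm
  have ne : (p : ℤ) * s - q * s ≠ 0 := by
    have := h.pq
    rcases hs with rfl | rfl <;> omega
  have b : (∑' c, if c = s then 0 else vE δ p q (true, s) (true, c) *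
      HA δ p q (fun r => P (.step F c r)) (true, c)) ≤ ENNReal.ofReal (10 ^ 4 * T) *
        ENNReal.ofReal T := by
    refine le_trans ?_ (mul_le_mul_right (h.a3.up2 s hs) _)
    rw [← ENNReal.tsum_mul_left]
    refine ENNReal.tsum_le_tsum fun c => ?_
    by_cases e : c = s
    · simp [e]
    refine (if_neg e).le.trans ((mul_le_mul_right (ha_le h hP F c) _).trans ?_)
    by_cases e' : c = 0
    · simp [e']
    rw [if_neg e', if_neg (not_or.2 ⟨e', e⟩), vE_uu h.d0 h.d1]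
    refine (mul_le_mul_left (mul_le_of_le_one_left'
      (ENNReal.ofReal_le_one.2 (by linarith))) _).trans (le_of_eq (by ring))
  rw [inr, tsum_split _ s, vE_uu h.d0 h.d1]
  refine (add_le_add (mul_le_mul' (mul_le_mul_right (h.a1.le9 _ ne) _) hz) b).trans ?_
  rw [of9, ← ENNReal.ofReal_mul (by positivity), ← ENNReal.ofReal_mul (by positivity),
    ← ENNReal.ofReal_mul (by positivity), ← ENNReal.ofReal_add (by positivity) (by positivity)]
  refine ENNReal.ofReal_le_ofReal ?_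
  have := mul_le_mul_of_nonneg_left d3 t0.le
  have := mul_le_mul_of_nonneg_right (d1.trans d2) (mul_pos t0 s0).le
  have := mul_pos t0 s0
  nlinarith

theorem main_sum (h : Hy δ T S p q) (M : Fo ℤ → Prop) (s : ℤ)
    (hM : ∀ F, M F → NRF p q F ∧ Top s F) (a : Edge) (G : ℝ≥0∞) :
    ∑' F, (if M F then pE δ p q a (flatF F) * G else 0) ≤
      (if M .nil then G else 0) + vE δ p q a (false, s) * ENNReal.ofReal (151 / 100) * G := by
  rw [ft h.d0 h.d1 M a fun _ => G]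
  refine add_le_add le_rfl ?_
  rw [tsum_eq_single s fun c hc => by
      simp [yy_top M s (fun F k => (hM F k).2) (Or.inl hc)],
    tsum_eq_single s fun c hc => by simp [yy_top M s (fun F k => (hM F k).2) (Or.inr hc)]]
  gcongr
  exact (yy_mono _ _ _ _ fun _ _ _ k => (hM _ k).1).trans (h.val.vy s).1

theorem rest_sum (h : Hy δ T S p q) (Q : Fo ℤ → Prop) (hQ : ∀ F, Q F → NRF p q F) (hn : ¬Q .nil)
    (a : Edge) : ∑' F, (if Q F then pE δ p q a (flatF F) * ff δ T p q (lastE a (flatF F)) else 0) ≤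
      ∑' c, vE δ p q a (false, c) * WW δ T p q Q c := by
  rw [ft h.d0 h.d1, if_neg hn, zero_add]
  refine ENNReal.tsum_le_tsum fun c => ?_
  rw [WW, ← ENNReal.tsum_mul_left]
  refine ENNReal.tsum_le_tsum fun u => ?_
  by_cases e : u = 0
  · simp [e, yy_nrf_right Q hQ]
  · rw [mul_assoc]
    gcongr
    exact ff_le h e

theorem ww_le (h : Hy δ T S p q) (Q : Fo ℤ → Prop) (hQ : ∀ F, Q F → NRF p q F) (c : ℤ) {x : ℝ}
    (x0 : 0 ≤ x) (hx : YY δ p q Q c c ≤ ENNReal.ofReal x) :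
    WW δ T p q Q c ≤ ENNReal.ofReal ((x + 100 * T) * (10 ^ 4 * T)) * 2 ^ c.natAbs := by
  have t0 := h.t0
  rw [WW, tsum_split _ c, ENNReal.ofReal_mul (p := x + 100 * T) (by positivity),
    ENNReal.ofReal_add x0 (by positivity), mul_assoc, add_mul]
  refine add_le_add (mul_le_mul_left hx _) (le_trans ?_ (mul_le_mul_left (h.val.vy c).2 _))
  rw [← ENNReal.tsum_mul_right]
  refine ENNReal.tsum_le_tsum fun v => ?_
  split_ifs with hv
  · simp
  · have a : (2 : ℝ≥0∞) ^ v.natAbs ≤ 2 ^ (c - v).natAbs * 2 ^ c.natAbs := by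
      rw [← pow_add]
      exact pow_le_pow_right₀ one_le_two (by omega)
    refine (mul_le_mul' (yy_mono Q (NRF p q) c v fun _ _ _ k => hQ _ k)
      (mul_le_mul_right a _)).trans (le_of_eq (by ring))

theorem ww_all (h : Hy δ T S p q) (Q : Fo ℤ → Prop) (hQ : ∀ F, Q F → NRF p q F) (c : ℤ) :
    WW δ T p q Q c ≤ ENNReal.ofReal (2 * 10 ^ 4 * T) * 2 ^ c.natAbs := by
  refine (ww_le h Q hQ c (by norm_num)
    ((yy_mono _ _ _ _ fun _ _ _ k => hQ _ k).trans (h.val.vy c).1)).trans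
      (mul_le_mul_left (ENNReal.ofReal_le_ofReal ?_) _)
  nlinarith [h.t0, h.sm.2.2.1]

theorem ww_one (h : Hy δ T S p q) (Q : Fo ℤ → Prop) {nx : ℤ → ℤ} (hn : Near p q nx) {s : ℤ}
    (hs : s = 1 ∨ s = -1) (hQ : ∀ F, Q F → NRF p q F ∧ F ≠ decF nx s (shF F)) :
    WW δ T p q Q s ≤ ENNReal.ofReal (3 * 10 ^ 4 * T * S) := by
  have t0 := h.t0
  have s0 := h.s0
  refine (ww_le h Q (fun F k => (hQ F k).1) s s0.le
    ((yy_mono _ _ _ _ fun _ _ _ k => hQ _ k).trans (h.vnm nx hn s))).trans ?_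
  rw [show s.natAbs = 1 by omega, pow_one, of2, ← ENNReal.ofReal_mul (by positivity)]
  refine ENNReal.ofReal_le_ofReal ?_
  nlinarith [mul_le_mul_of_nonneg_left h.sm.2.2.2.1 t0.le, mul_pos t0 s0]

theorem cor1 (h : Hy δ T S p q) {nx : ℤ → ℤ} (hn : Near p q nx) {s : ℤ} (hs : s = 1 ∨ s = -1) :
    HA δ p q (fun γ => NRA p q γ ∧ γ ≠ decA nx s (shA γ)) (true, s) ≤
      ENNReal.ofReal (10 ^ 6 * T * S) := by
  have t0 := h.t0
  have s0 := h.s0
  refine ha_lim _ _ _ fun k => ?_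
  induction k with
  | zero => exact (ha_zero _ _ fun _ k => absurd k.2 (Nat.not_lt_zero _)).le.trans zero_le
  | succ k ih =>
    set P := fun γ => (NRA p q γ ∧ γ ≠ decA nx s (shA γ)) ∧ stepsA γ < k + 1
    have hP : ∀ γ, P γ → NRA p q γ := fun _ k => k.1.1
    have b1 : HD δ p q (fun d => P (.top d)) (true, s) ≤ _ :=
      (hd_mono _ _ _ fun d k => ⟨k.1.1, fun e => k.1.2 (congrArg Up.top e)⟩).trans
        (h.spd.d2 nx hn s hs true)
    have b2 := main_sum h (fun F => NRF p q F ∧ F = decF nx s (shF F)) s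
      (fun F k => ⟨k.1, k.2 ▸ top_decF nx s _⟩) (true, s) (ENNReal.ofReal (601000 * T * S))
    rw [if_pos ⟨trivial, rfl⟩] at b2
    have b3 := rest_sum h (fun F => NRF p q F ∧ F ≠ decF nx s (shF F)) (fun _ k => k.1)
      (fun k => k.2 rfl) (true, s)
    have b4 := (h.a1.turn p le_rfl).pot
      (WW δ T p q fun F => NRF p q F ∧ F ≠ decF nx s (shF F)) s
      (ENNReal.ofReal (2 * 10 ^ 4 * T) * 2) fun v _ => (ww_all h _ (fun _ k => k.1) v).trans (by
        rw [mul_left_comm, ← pow_succ]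
        exact mul_le_mul_right (pow_le_pow_right₀ one_le_two (by omega)) _)
    have b5 := (b3.trans (ENNReal.tsum_le_tsum fun c => by
      rw [vE_ud h.d0 h.d1]
      exact mul_le_mul_left (mul_le_of_le_one_left'
        (ENNReal.ofReal_le_one.2 (by linarith [h.d0]))) _)).trans
      (b4.trans (add_le_add_left (mul_le_mul_right (ww_one h _ hn hs fun _ k => k) _) _))
    rw [ha_rec h.d0 h.d1]
    refine (add_le_add b1 (le_trans ?_ (add_le_add b2 b5))).trans ?_
    · rw [← ENNReal.tsum_add]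
      refine ENNReal.tsum_le_tsum fun F => ?_
      change pE δ p q _ _ * inr δ p q P F _ ≤ _
      by_cases n : NRF p q F
      · by_cases m : F = decF nx s (shF F)
        · rw [if_pos ⟨n, m⟩, top_last (m ▸ top_decF nx s _)]
          refine le_self_add.trans' (mul_le_mul_right (inr_main h hP F hs
            ((ha_mono _ _ _ fun r k => ⟨⟨k.1.1.2.2, fun e => k.1.2 ?_⟩, ?_⟩).trans ih)) _)
          · exact congrArg₂ (Up.step · s ·) m e
          · exact Nat.lt_of_succ_lt_succ k.2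
        · rw [if_pos (c := _ ∧ _ ≠ _) ⟨n, m⟩]
          exact le_add_self.trans' (mul_le_mul_right (inr_le h hP F _) _)
      · rw [inr_zero hP n, mul_zero]
        exact zero_le
    · have d0 := h.d0
      have d1 : 0 ≤ 1 / 3 - δ := by linarith [h.d1]
      rw [vE_ud h.d0 h.d1, sub_self, tE_zero, mul_one, one_mul, of2]
      repeat rw [← ENNReal.ofReal_mul (by positivity)]
      repeat rw [← ENNReal.ofReal_add (by positivity) (by positivity)]
      refine ENNReal.ofReal_le_ofReal ?_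
      nlinarith [mul_le_mul_of_nonneg_left h.sm.2.2.2.1 t0.le, mul_pos t0 s0,
        mul_nonneg d0 (mul_pos t0 s0).le]

/-- nonempty forests of the main type -/
def Mn (p q : ℕ) (nx : ℤ → ℤ) (s : ℤ) (F : Fo ℤ) : Prop :=
  NRF p q F ∧ F ≠ .nil ∧ F = decF nx s (shF F)

theorem start (h : Hy δ T S p q) (a e : Bool) (V : ℤ → ℝ≥0∞) (x y : ℝ≥0∞) (h0 : V 0 = 0)
    (h1 : V 1 ≤ x) (h2 : V (-1) ≤ x) (h3 : ∀ c, 2 ≤ |c| → V c ≤ y * 2 ^ c.natAbs) :
    ∑' c, vE δ p q (a, 0) (e, c) * V c ≤ ENNReal.ofReal T * x + ENNReal.ofReal T ^ 2 * y := by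
  refine le_trans ?_ (add_le_add (mul_le_mul_left (h.a1.sta1 a e) x)
    (mul_le_mul_left (h.a1.sta2 a e) y))
  rw [← ENNReal.tsum_mul_right, ← ENNReal.tsum_mul_right, ← ENNReal.tsum_add]
  refine ENNReal.tsum_le_tsum fun c => ?_
  have k : vE δ p q (a, 0) (e, c) ≤
      ENNReal.ofReal (ps a e (inn p q (a, 0) - out p q (e, c))) := by
    rw [vE_eq h.d0 h.d1]
    refine mul_le_of_le_one_left' (ENNReal.ofReal_le_one.2 ?_)
    have := h.d0
    have := h.d1
    cases a <;> cases e <;> simp [kk] <;> linarith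
  by_cases e0 : c = 0
  · simp [e0, h0]
  by_cases e2 : 2 ≤ |c|
  · rw [if_pos e2]
    exact le_add_self.trans' ((mul_le_mul' k (h3 c e2)).trans (le_of_eq (by ring)))
  · rw [if_neg e0]
    refine le_self_add.trans' (mul_le_mul' (k.trans
      (le_mul_of_one_le_right' (one_le_pow₀ one_le_two))) ?_)
    obtain rfl | rfl : c = 1 ∨ c = -1 := by
      rcases abs_cases c with k | k <;> omega
    exacts [h1, h2]

end Spa2

open Spa2 in
theorem spa2 : Spa2Stmt := by
  intro δ T S p q sm _ pq a1 a3 val vnm spd ha n1 n2 k1 k2 a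
  have h : Hy δ T S p q := ⟨sm, pq, a1, a3, val, vnm, spd, ha⟩
  have t0 := h.t0
  have s0 := h.s0
  set P := fun γ => NRA p q γ ∧ γ ≠ decA n1 1 (shA γ) ∧ γ ≠ decA n2 (-1) (shA γ)
  set Q := fun F => NRF p q F ∧ F ≠ decF n1 1 (shF F) ∧ F ≠ decF n2 (-1) (shF F)
  have hP : ∀ γ, P γ → NRA p q γ := fun _ k => k.1
  have z1 : ∀ F, F = decF n1 1 (shF F) → HA δ p q (fun r => P (.step F 1 r)) (true, 1) ≤
      ENNReal.ofReal (10 ^ 6 * T * S) :=
    fun F m => (ha_mono (fun r => P (.step F 1 r)) _ _ fun r k => ⟨k.1.2.2, fun e =>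
      k.2.1 (congrArg₂ (Up.step · 1 ·) m e)⟩).trans (cor1 h k1 (Or.inl rfl))
  have z2 : ∀ F, F = decF n2 (-1) (shF F) →
      HA δ p q (fun r => P (.step F (-1) r)) (true, -1) ≤ ENNReal.ofReal (10 ^ 6 * T * S) :=
    fun F m => (ha_mono (fun r => P (.step F (-1) r)) _ _ fun r k => ⟨k.1.2.2, fun e =>
      k.2.2 (congrArg₂ (Up.step · (-1) ·) m e)⟩).trans (cor1 h k2 (Or.inr rfl))
  have b1 : HD δ p q (fun d => P (.top d)) (a, 0) ≤ _ :=
    (hd_mono (fun d => P (.top d)) _ _ fun d k => ⟨k.1, fun e => k.2.1 (congrArg Up.top e),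
      fun e => k.2.2 (congrArg Up.top e)⟩).trans (spd.d4 n1 n2 k1 k2 a)
  have b0 : inr δ p q P .nil (a, 0) ≤ _ :=
    start h a true _ _ (ENNReal.ofReal (10 ^ 4 * T))
      (nonpos_iff_eq_zero.1 ((ha_le h hP .nil 0).trans (if_pos rfl).le)) (z1 _ rfl) (z2 _ rfl)
      fun c hc => (ha_le h hP .nil c).trans (if_neg (by rintro rfl; simp at hc)).le
  have v : ∀ s : ℤ, s = 1 ∨ s = -1 → vE δ p q (a, 0) (false, s) ≤ ENNReal.ofReal T := by
    intro s hs
    have := start h a false (fun c => if c = s then 1 else 0) 1 0 (if_neg (by omega))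
      (by split_ifs <;> simp) (by split_ifs <;> simp) fun c hc =>
        (if_neg (by rintro rfl; rcases hs with rfl | rfl <;> simp at hc)).le.trans zero_le
    simpa using this
  set G := ENNReal.ofReal (601000 * T * S) with hG
  have b2 : ∀ (nx : ℤ → ℤ) (s : ℤ), s = 1 ∨ s = -1 →
      ∑' F, (if Mn p q nx s F then pE δ p q (a, 0) (flatF F) * G else 0) ≤
        ENNReal.ofReal T * ENNReal.ofReal (151 / 100) * G := fun nx s hs =>
    (main_sum h (Mn p q nx s) s (fun F k => ⟨k.1, k.2.2 ▸ top_decF nx s _⟩) (a, 0) G).trans (by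
      rw [if_neg (c := Mn p q nx s .nil) fun k => k.2.1 rfl, zero_add]
      gcongr
      exact v s hs)
  have b3 := (rest_sum h Q (fun _ k => k.1) (fun k => k.2.1 rfl) (a, 0)).trans
    (start h a false _ _ _ (by simp [WW, yy_nrf_left Q fun _ k => k.1])
      (ww_one h Q k1 (Or.inl rfl) fun _ k => ⟨k.1, k.2.1⟩)
      (ww_one h Q k2 (Or.inr rfl) fun _ k => ⟨k.1, k.2.2⟩) fun c _ => ww_all h Q (fun _ k => k.1) c)
  have m : ∀ (nx : ℤ → ℤ) (s : ℤ) (F : Fo ℤ), s = 1 ∨ s = -1 → F ≠ .nil →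
      F = decF nx s (shF F) → HA δ p q (fun r => P (.step F s r)) (true, s) ≤
        ENNReal.ofReal (10 ^ 6 * T * S) → inr δ p q P F (lastE (a, 0) (flatF F)) ≤ G := by
    intro nx s F hs n e z
    have t : Top s F := e ▸ top_decF nx s _
    rcases F with _ | ⟨c, c', I, R⟩
    · exact absurd rfl n
    · have l : lastE (true, c') (flatF R) = (true, s) := by rw [t.2.1, top_last t.2.2]
      rw [lastE_cons, l]
      exact inr_main h hP _ hs z
  rw [ha_rec h.d0 h.d1]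
  refine (add_le_add b1 (le_trans ?_ (add_le_add (add_le_add (add_le_add b0
    (b2 n1 1 (Or.inl rfl))) (b2 n2 (-1) (Or.inr rfl))) b3))).trans ?_
  · rw [← tsum_ite_eq Fo.nil fun _ => inr δ p q P .nil (a, 0), ← ENNReal.tsum_add,
      ← ENNReal.tsum_add, ← ENNReal.tsum_add]
    refine ENNReal.tsum_le_tsum fun F => ?_
    change pE δ p q _ _ * inr δ p q P F _ ≤ _
    by_cases n0 : F = .nil
    · rw [if_pos n0, n0, add_assoc, add_assoc]
      exact le_self_add.trans' (by simp [flatF, pE_nil, lastE])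
    by_cases n : NRF p q F
    · by_cases m1 : F = decF n1 1 (shF F)
      · rw [if_pos (c := Mn p q n1 1 F) ⟨n, n0, m1⟩]
        exact ((mul_le_mul_right (m n1 1 F (Or.inl rfl) n0 m1 (z1 F m1)) _).trans
          le_add_self).trans (le_self_add.trans le_self_add)
      by_cases m2 : F = decF n2 (-1) (shF F)
      · rw [if_pos (c := Mn p q n2 (-1) F) ⟨n, n0, m2⟩]
        exact ((mul_le_mul_right (m n2 (-1) F (Or.inr rfl) n0 m2 (z2 F m2)) _).trans
          le_add_self).trans le_self_add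
      rw [if_pos (c := Q F) ⟨n, m1, m2⟩]
      exact le_add_self.trans' (mul_le_mul_right (inr_le h hP F _) _)
    · rw [inr_zero hP n, mul_zero]
      exact zero_le
  · rw [hG, ← ENNReal.ofReal_pow t0.le]
    repeat rw [← ENNReal.ofReal_mul (by positivity)]
    repeat rw [← ENNReal.ofReal_add (by positivity) (by positivity)]
    refine ENNReal.ofReal_le_ofReal ?_
    nlinarith [mul_le_mul_of_nonneg_left h.sm.2.2.2.1 (sq_nonneg T), mul_pos (pow_pos t0 2) s0]

end Pool.Agent.MP_e0ec03_al.Asy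

end MrgPart1

-- marker of a merged file
example : 731051 + 612918 = 731051 + 612918 := rfl
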