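import Pool.Agent.MP_e0ec03_al.asy.Spa1

-- ======== part 0: formerly Pool.Agent.MP_e0ec03_al.asy.Spd1
section MrgPart0

/-! The descending spine: the first potential bound. -/

namespace Pool.Agent.MP_e0ec03_al.Asy

open Classical Finset
open scoped ENNReal

namespace Spd1

theorem lin {a b c : ℝ} (ha : 0 ≤ a) (hb : 0 ≤ b) (h : a + b ≤ c) (x : ℝ≥0∞) :
    ENNReal.ofReal a * x + ENNReal.ofReal b * x ≤ ENNReal.ofReal c * x := by
  rw [← add_mul, ← ENNReal.ofReal_add ha hb]
  exact mul_le_mul_left (ENNReal.ofReal_le_ofReal h) x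

theorem mm {a b c : ℝ} (ha : 0 ≤ a) (h : a * b ≤ c) (x : ℝ≥0∞) :
    ENNReal.ofReal a * (ENNReal.ofReal b * x) ≤ ENNReal.ofReal c * x := by
  rw [← mul_assoc, ← ENNReal.ofReal_mul ha]
  exact mul_le_mul_left (ENNReal.ofReal_le_ofReal h) x

theorem nine : (9 / 10 : ℝ≥0∞) = ENNReal.ofReal (9 / 10) := by
  rw [ENNReal.ofReal_div_of_pos (by norm_num)]
  simp

theorem two_half (n : ℕ) : (2 : ℝ≥0∞) ^ n * 2⁻¹ ^ n = 1 := by
  rw [← mul_pow, ENNReal.mul_inv_cancel (by norm_num) (by norm_num), one_pow]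

theorem half_le : (2⁻¹ : ℝ≥0∞) ≤ 1 := ENNReal.inv_le_one.2 one_le_two

theorem le_half {x y : ℝ≥0∞} {n : ℕ} (h : x * 2 ^ n ≤ y) : x ≤ y * 2⁻¹ ^ n := by
  calc x = x * 2 ^ n * 2⁻¹ ^ n := by rw [mul_assoc, two_half, mul_one]
    _ ≤ _ := mul_le_mul_left h _

theorem half_mv (u v : ℤ) :
    (2⁻¹ : ℝ≥0∞) ^ v.natAbs ≤ 2 ^ (u - v).natAbs * 2⁻¹ ^ u.natAbs := by
  calc (2⁻¹ : ℝ≥0∞) ^ v.natAbs
      = 2 ^ (u - v).natAbs * 2⁻¹ ^ ((u - v).natAbs + v.natAbs) := by
        rw [pow_add, ← mul_assoc, two_half, one_mul]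
    _ ≤ _ := mul_le_mul_right (pow_le_pow_right_of_le_one' half_le (by omega)) _

/-- the potential, zero at the carry zero -/
noncomputable def W0 (S : ℝ) (c : ℤ) : ℝ≥0∞ := if c = 0 then 0 else wS S c

/-- the potential after one down edge -/
noncomputable def AA (δ S : ℝ) (p q : ℕ) (a : Edge) : ℝ≥0∞ :=
  ∑' c, vE δ p q a (false, c) * W0 S c

variable {δ T S : ℝ} {p q : ℕ}

theorem W0_ne {c : ℤ} (h : c ≠ 0) : W0 S c = wS S c := if_neg h

theorem S_le (h : Sm δ T S) : ENNReal.ofReal S ≤ 1 :=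
  ENNReal.ofReal_le_one.2 (by linarith [h.2.2.2.2])

theorem W0_le (h : Sm δ T S) (c : ℤ) : W0 S c ≤ if c = 0 then 0 else 2⁻¹ ^ c.natAbs := by
  unfold W0 wS
  split_ifs
  · rfl
  · rw [one_mul]
  · exact mul_le_of_le_one_left' (S_le h)

theorem W0_mv (h : Sm δ T S) (u v : ℤ) : W0 S v ≤ 2 ^ (u - v).natAbs * 2⁻¹ ^ u.natAbs := by
  refine (W0_le h v).trans (le_trans ?_ (half_mv u v))
  split_ifs
  · exact zero_le
  · rfl

theorem S_w (h : Sm δ T S) (c : ℤ) : ENNReal.ofReal S * 2⁻¹ ^ c.natAbs ≤ wS S c := by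
  unfold wS
  split_ifs
  · exact mul_le_mul_left (S_le h) _
  · rfl

theorem T_w (h : Sm δ T S) (k : ℝ) (hk : 0 ≤ k) (c : ℤ) :
    ENNReal.ofReal (k * T) * 2⁻¹ ^ c.natAbs ≤ ENNReal.ofReal (k / 10 ^ 5) * wS S c := by
  refine le_trans ?_ (mul_le_mul_right (S_w h c) _)
  rw [← mul_assoc, ← ENNReal.ofReal_mul (by positivity)]
  refine mul_le_mul_left (ENNReal.ofReal_le_ofReal ?_) _
  nlinarith [mul_le_mul_of_nonneg_left h.2.2.2.1 hk]

theorem end_le (h : Sm δ T S) (a1 : Ar1 p q (ENNReal.ofReal T)) (e : Bool) {c : ℤ} (hc : c ≠ 0) :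
    eW δ p q (e, c) [] ≤ ENNReal.ofReal T * wS S c := by
  obtain ⟨d0, d1, d2, d3, d4⟩ := h
  have h1 : δ ≤ 1 / 3 := by linarith
  rw [eW_nil d0.le h1, ← one_mul (_ * wS S c), ← kkE_sum d0.le h1 e, sum_mul]
  refine sum_le_sum fun b _ => ?_
  rw [vE_eq d0.le h1]
  refine mul_le_mul_right ?_ _
  unfold wS
  split_ifs with k
  · rw [one_mul]
    exact le_half (a1.end1 e b c hc)
  · have : 2 ≤ |c| := by
      have := abs_pos.2 hc
      omega
    refine (le_half (a1.end2 e b c this)).trans ?_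
    rw [sq, mul_assoc]
    exact mul_le_mul_right (mul_le_mul_left (ENNReal.ofReal_le_ofReal (by linarith)) _) _

theorem AA_up (h : Sm δ T S) (a1 : Ar1 p q (ENNReal.ofReal T)) {u : ℤ} (hu : u ≠ 0) :
    AA δ S p q (true, u) ≤ ENNReal.ofReal (334 / 1000) * wS S u := by
  have d0 := h.1
  have h1 : δ ≤ 1 / 3 := by linarith [h.2.1, h.2.2.1]
  simp only [AA, vE_ud d0.le h1, mul_assoc, ENNReal.tsum_mul_left]
  have a := (a1.turn p le_rfl).pot (W0 S) u _ fun v _ => W0_mv h u v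
  have b := T_w h 1 zero_le_one u
  rw [one_mul] at b
  rw [W0_ne hu, ← ENNReal.ofReal_one] at a
  refine (mul_le_mul_right (a.trans ((add_le_add_right b _).trans
    (lin (c := 1001 / 1000) zero_le_one (by norm_num) (by norm_num) _))) _).trans
    (mm (by linarith) (by linarith) _)

theorem dn_sum (h : Sm δ T S) (a3 : Ar3 p q (ENNReal.ofReal T)) {c : ℤ} (hc : c ≠ 0) :
    ∑' c1, sE (q * c - p * c1) * W0 S c1 ≤ ENNReal.ofReal (9001 / 10000) * wS S c := by
  have a := a3.dn1 c hc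
  rw [nine] at a
  by_cases k : |c| = 1
  · refine le_trans (ENNReal.tsum_le_tsum fun c1 => ?_) (a.trans ?_)
    · refine (mul_le_mul_right (W0_le h c1) _).trans ?_
      split_ifs
      · simp
      · rfl
    · rw [wS, if_pos k, one_mul]
      exact mul_le_mul_left (ENNReal.ofReal_le_ofReal (by norm_num)) _
  have c2 : 2 ≤ |c| := by
    have := abs_pos.2 hc
    omega
  have b : ∀ s : ℤ, (s = 1 ∨ s = -1) → ∑' c1 : ℤ, (if c1 = s then sE (q * c - p * s) else 0) ≤
      ENNReal.ofReal (1 / 10 ^ 5) * wS S c := fun s hs => by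
    rw [tsum_ite_eq]
    refine (le_half (a3.dn2 c s c2 hs)).trans ?_
    have := T_w h 1 zero_le_one c
    rwa [one_mul] at this
  calc ∑' c1, sE (q * c - p * c1) * W0 S c1
      ≤ ∑' c1 : ℤ, (ENNReal.ofReal S *
          (if c1 = 0 then 0 else sE (q * c - p * c1) * 2⁻¹ ^ c1.natAbs) +
          ((if c1 = 1 then sE (q * c - p * (1 : ℤ)) else 0) +
            if c1 = -1 then sE (q * c - p * (-1 : ℤ)) else 0)) := by
        refine ENNReal.tsum_le_tsum fun c1 => ?_
        by_cases k0 : c1 = 0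
        · simp [W0, k0]
        have w : W0 S c1 ≤ 1 := (W0_le h c1).trans (by
          rw [if_neg k0]
          exact pow_le_one' half_le _)
        by_cases k1 : c1 = 1
        · subst k1
          rw [if_pos rfl]
          exact (mul_le_of_le_one_right' w).trans (le_add_left le_self_add)
        by_cases k2 : c1 = -1
        · subst k2
          rw [if_pos (rfl : (-1 : ℤ) = -1)]
          exact (mul_le_of_le_one_right' w).trans (le_add_left le_add_self)
        · rw [W0_ne k0, wS, if_neg (by rw [abs_eq zero_le_one]; tauto), if_neg k0, mul_left_comm]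
          exact le_self_add
    _ ≤ ENNReal.ofReal (9 / 10) * wS S c + (ENNReal.ofReal (1 / 10 ^ 5) * wS S c +
          ENNReal.ofReal (1 / 10 ^ 5) * wS S c) := by
        rw [ENNReal.tsum_add, ENNReal.tsum_add, ENNReal.tsum_mul_left]
        refine add_le_add ((mul_le_mul_right a _).trans (le_of_eq ?_))
          (add_le_add (b 1 (Or.inl rfl)) (b (-1) (Or.inr rfl)))
        rw [wS, if_neg k, mul_left_comm]
    _ ≤ _ := (add_le_add_right (lin (c := 2 / 10 ^ 5) (by norm_num) (by norm_num) (by norm_num) _)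
        _).trans (lin (by norm_num) (by norm_num) (by norm_num) _)

theorem AA_dn (h : Sm δ T S) (a3 : Ar3 p q (ENNReal.ofReal T)) {c : ℤ} (hc : c ≠ 0) :
    AA δ S p q (false, c) ≤ ENNReal.ofReal (601 / 1000) * wS S c := by
  have d0 := h.1
  have h1 : δ ≤ 1 / 3 := by linarith [h.2.1, h.2.2.1]
  simp only [AA, vE_dd d0.le h1, mul_assoc, ENNReal.tsum_mul_left]
  exact (mul_le_mul_right (dn_sum h a3 hc) _).trans (mm (by linarith) (by linarith) _)

theorem AA_sta (h : Sm δ T S) (a1 : Ar1 p q (ENNReal.ofReal T)) (a : Bool) :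
    AA δ S p q (a, 0) ≤ ENNReal.ofReal T := by
  have d0 := h.1
  have h1 : δ ≤ 1 / 3 := by linarith [h.2.1, h.2.2.1]
  refine le_trans (ENNReal.tsum_le_tsum fun c => ?_) (a1.sta1 a false)
  split_ifs with k
  · simp [W0, k]
  · rw [vE_eq d0.le h1]
    refine mul_le_mul' (mul_le_of_le_one_left' ?_) ((W0_le h c).trans ?_)
    · rw [← kkE_sum d0.le h1 a]
      exact single_le_sum (f := fun b => ENNReal.ofReal (kk δ a b)) (fun _ _ => zero_le)
        (mem_univ false)
    · rw [if_neg k]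
      exact (pow_le_one' half_le _).trans (one_le_pow₀ one_le_two)

theorem yy_pot (h : Sm δ T S) (a1 : Ar1 p q (ENNReal.ofReal T)) (v : Val δ p q T) (c : ℤ) :
    ∑' u, YY δ p q (NRF p q) c u *
        (eW δ p q (true, u) [] + ENNReal.ofReal (100 * T) * AA δ S p q (true, u)) ≤
      ENNReal.ofReal (53 * T) * W0 S c := by
  have t0 : 0 < T := h.1.trans_le h.2.1
  by_cases hc : c = 0
  · simp [hc, yy_nrf_left (NRF p q) fun _ k => k]
  calc _ ≤ ∑' u, ENNReal.ofReal (35 * T) * (YY δ p q (NRF p q) c u * W0 S u) := by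
        refine ENNReal.tsum_le_tsum fun u => ?_
        by_cases hu : u = 0
        · simp [hu, yy_nrf_right (NRF p q) fun _ k => k]
        rw [mul_left_comm, W0_ne hu]
        refine mul_le_mul_right ((add_le_add (end_le h a1 true hu)
          ((mul_le_mul_right (AA_up h a1 hu) _).trans
            (mm (c := 34 * T) (by linarith) (by linarith) _))).trans
          (lin t0.le (by linarith) (by linarith) _)) _
    _ ≤ _ := by
        rw [ENNReal.tsum_mul_left]
        have a := v.vy.pot (W0 S) c _ fun u _ => W0_mv h c u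
        rw [W0_ne hc] at a ⊢
        exact (mul_le_mul_right (a.trans ((add_le_add_right (T_w h 100 (by norm_num) c) _).trans
          (lin (c := 1511 / 1000) (by norm_num) (by norm_num) (by norm_num) _))) _).trans
          (mm (by linarith) (by linarith) _)

/-- one step of the recursion -/
theorem step (h : Sm δ T S) (a1 : Ar1 p q (ENNReal.ofReal T)) (v : Val δ p q T)
    (P Q : Dn ℤ → Prop) (h0 : ∀ F, P (.fin F) → NRF p q F)
    (hP : ∀ F c d, P (.step F c d) → NRF p q F ∧ c ≠ 0 ∧ Q d)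
    (hQ : ∀ c : ℤ, c ≠ 0 → HD δ p q Q (false, c) ≤ ENNReal.ofReal (100 * T) * wS S c)
    (a : Edge) : HD δ p q P a ≤ (if P (.fin .nil) then eW δ p q a [] else 0) +
      ENNReal.ofReal (153 * T) * AA δ S p q a := by
  have d0 := h.1
  have t0 : 0 < T := h.1.trans_le h.2.1
  have h1 : δ ≤ 1 / 3 := by linarith [h.2.1, h.2.2.1]
  have e1 := ft (p := p) (q := q) d0.le h1 (fun F => P (.fin F)) a fun e => eW δ p q e []
  have e2 := ft (p := p) (q := q) d0.le h1 (NRF p q) a
    fun e => ENNReal.ofReal (100 * T) * AA δ S p q e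
  rw [if_pos (show NRF p q .nil from trivial)] at e2
  refine le_trans (le_trans ?_ (le_of_eq (congrArg₂ (· + ·) e1 e2))) ?_
  · rw [hd_rec d0.le h1, ← ENNReal.tsum_add]
    refine ENNReal.tsum_le_tsum fun F => ?_
    rw [mul_add]
    refine add_le_add (le_of_eq ?_) ?_
    · split_ifs <;> simp
    by_cases k : NRF p q F
    · rw [if_pos k, AA, ← ENNReal.tsum_mul_left (a := ENNReal.ofReal (100 * T))]
      refine mul_le_mul_right (ENNReal.tsum_le_tsum fun c => ?_) _
      rw [mul_left_comm]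
      refine mul_le_mul_right ?_ _
      by_cases hc : c = 0
      · rw [hd_zero _ _ fun d e => (hP F c d e).2.1 hc]
        exact zero_le
      · rw [W0_ne hc]
        exact (hd_mono _ Q _ fun d e => (hP F c d e).2.2).trans (hQ c hc)
    · have z : ∀ c, HD δ p q (fun d => P (.step F c d)) (false, c) = 0 :=
        fun c => hd_zero _ _ fun d e => k (hP F c d e).1
      simp [z]
  · rw [add_assoc, add_left_comm (∑' _, _), ← ENNReal.tsum_add]
    refine add_le_add_right ((add_le_add_right ?_ _).trans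
      (lin (b := 53 * T) (by linarith) (by linarith) (by linarith) _)) _
    rw [AA, ← ENNReal.tsum_mul_left]
    refine ENNReal.tsum_le_tsum fun c => ?_
    rw [mul_left_comm]
    refine le_trans ?_ (mul_le_mul_right (yy_pot h a1 v c) _)
    rw [← ENNReal.tsum_add, ← ENNReal.tsum_mul_left]
    refine ENNReal.tsum_le_tsum fun u => ?_
    rw [mul_add, mul_add, mul_assoc, mul_assoc]
    exact add_le_add_left (mul_le_mul_right (mul_le_mul_left
      (yy_mono _ _ c u fun _ _ _ => h0 _) _) _) _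

theorem close (h : Sm δ T S) (a1 : Ar1 p q (ENNReal.ofReal T)) (a3 : Ar3 p q (ENNReal.ofReal T))
    (R : Prop) (e : Bool) {c : ℤ} (hc : c ≠ 0) : (if R then eW δ p q (e, c) [] else 0) +
      ENNReal.ofReal (153 * T) * AA δ S p q (e, c) ≤ ENNReal.ofReal (100 * T) * wS S c := by
  have t0 : 0 < T := h.1.trans_le h.2.1
  have a : AA δ S p q (e, c) ≤ ENNReal.ofReal (601 / 1000) * wS S c := by
    cases e
    · exact AA_dn h a3 hc
    · exact (AA_up h a1 hc).trans (mul_le_mul_left (ENNReal.ofReal_le_ofReal (by norm_num)) _)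
  refine (add_le_add (le_trans ?_ (end_le h a1 e hc)) ((mul_le_mul_right a _).trans
    (mm (c := 99 * T) (by linarith) (by linarith) _))).trans
    (lin t0.le (by linarith) (by linarith) _)
  split_ifs
  · rfl
  · exact zero_le

end Spd1

theorem spd1 : Spd1Stmt := by
  intro δ T S p q h _ _ a1 a3 v
  have t0 : 0 < T := h.1.trans_le h.2.1
  have key : ∀ (k : ℕ) (e : Bool) (c : ℤ), c ≠ 0 →
      HD δ p q (fun d => NRD p q d ∧ stepsD d < k) (e, c) ≤ ENNReal.ofReal (100 * T) * wS S c := by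
    intro k
    induction k with
    | zero =>
      intro e c _
      rw [hd_zero _ _ fun d m => absurd m.2 (Nat.not_lt_zero _)]
      exact zero_le
    | succ k ih =>
      intro e c hc
      exact (Spd1.step h a1 v _ _ (fun F m => m.1)
        (fun F c d m => ⟨m.1.1, m.1.2.1, m.1.2.2, Nat.lt_of_succ_lt_succ m.2⟩) (ih false) _).trans
        (Spd1.close h a1 a3 _ e hc)
  have d1 : ∀ (e : Bool) (c : ℤ), c ≠ 0 →
      HD δ p q (NRD p q) (e, c) ≤ ENNReal.ofReal (100 * T) * wS S c :=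
    fun e c hc => hd_lim _ _ _ fun k => key k e c hc
  refine ⟨d1, fun a => (Spd1.step h a1 v _ _ (fun F m => m.1) (fun F c d m => m.1) (d1 false)
    _).trans ?_⟩
  rw [if_neg fun m => m.2 rfl, zero_add]
  refine (mul_le_mul_right (Spd1.AA_sta h a1 a) _).trans ?_
  rw [← ENNReal.ofReal_mul (by linarith)]
  exact ENNReal.ofReal_le_ofReal (by nlinarith [sq_nonneg T])

end Pool.Agent.MP_e0ec03_al.Asy

end MrgPart0

-- ======== part 1: formerly Pool.Agent.MP_e0ec03_al.asy.Spd2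
section MrgPart1

/-! The descending spine: patterns that leave the main term. -/

namespace Pool.Agent.MP_e0ec03_al.Asy

open Classical Finset
open scoped ENNReal

namespace Spd2

open Spd1

/-- the first carry -/
def fc (c : ℤ) : Fo ℤ → ℤ
  | .nil => c
  | .cons c1 _ _ _ => c1

/-- the first carry -/
def fd : Dn ℤ → ℤ
  | .fin F => fc 0 F
  | .step F c _ => fc c F

/-- the potential after one down edge with carry in `A` -/
noncomputable def AB (δ S : ℝ) (p q : ℕ) (A : ℤ → Prop) (a : Edge) : ℝ≥0∞ :=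
  ∑' c, if A c then vE δ p q a (false, c) * W0 S c else 0

variable {δ T S : ℝ} {p q : ℕ} {s : ℤ}

theorem split (A : ℤ → Prop) (a : Edge) (φ : ℤ → ℝ≥0∞) (x y : ℝ≥0∞) (hs : φ s ≤ x)
    (hA : ∀ c, c ≠ s → φ c ≤ if A c then y * W0 S c else 0) :
    ∑' c, vE δ p q a (false, c) * φ c ≤ vE δ p q a (false, s) * x + y * AB δ S p q A a := by
  rw [tsum_split _ s, AB, ← ENNReal.tsum_mul_left]
  refine add_le_add (mul_le_mul_right hs _) (ENNReal.tsum_le_tsum fun c => ?_)
  by_cases k : c = s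
  · rw [if_pos k]; exact zero_le
  rw [if_neg k]
  refine (mul_le_mul_right (hA c k) _).trans (le_of_eq ?_)
  split_ifs
  · rw [mul_left_comm]
  · simp

theorem W0_one (h : Sm δ T S) (c : ℤ) : W0 S c ≤ 1 := (W0_le h c).trans (by
  split_ifs
  · exact zero_le
  · exact pow_le_one' half_le _)

theorem W0_two {c : ℤ} (h0 : c ≠ 0) (h1 : c ≠ 1) (h2 : c ≠ -1) :
    W0 S c = ENNReal.ofReal S * 2⁻¹ ^ c.natAbs := by
  rw [W0_ne h0, wS, if_neg (by rw [abs_eq zero_le_one]; tauto)]

theorem kk_one (h : Sm δ T S) (a b : Bool) : ENNReal.ofReal (kk δ a b) ≤ 1 := by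
  have h1 : δ ≤ 1 / 3 := by linarith [h.2.1, h.2.2.1]
  rw [← kkE_sum h.1.le h1 a]
  exact single_le_sum (f := fun b => ENNReal.ofReal (kk δ a b)) (fun _ _ => zero_le) (mem_univ b)

theorem AB_up (h : Sm δ T S) (a1 : Ar1 p q (ENNReal.ofReal T)) :
    AB δ S p q (· ≠ s) (true, s) ≤ ENNReal.ofReal T := by
  have d0 := h.1
  have h1 : δ ≤ 1 / 3 := by linarith [h.2.1, h.2.2.1]
  refine le_trans (ENNReal.tsum_le_tsum fun c => ?_) (a1.turn p le_rfl s).2
  by_cases k : c = s
  · simp [k]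
  rw [if_pos k, if_neg k, vE_ud d0.le h1]
  exact (mul_le_of_le_one_right' (W0_one h c)).trans (mul_le_mul_left
    ((ENNReal.ofReal_le_one.2 (by linarith)).trans (one_le_pow₀ one_le_two)) _)

theorem AB_dn (h : Sm δ T S) (a1 : Ar1 p q (ENNReal.ofReal T)) (a3 : Ar3 p q (ENNReal.ofReal T))
    (hs : s = 1 ∨ s = -1) : AB δ S p q (· ≠ s) (false, s) ≤ ENNReal.ofReal S := by
  obtain ⟨d0, d1, d2, d3, d4⟩ := id h
  have h1 : δ ≤ 1 / 3 := by linarith
  have a := a3.dn1 s (by omega)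
  rw [nine] at a
  calc AB δ S p q (· ≠ s) (false, s)
      ≤ ∑' c : ℤ, ((if c = -s then ENNReal.ofReal T else 0) + ENNReal.ofReal S *
          (if c = 0 then 0 else sE (q * s - p * c) * 2⁻¹ ^ c.natAbs)) := by
        refine ENNReal.tsum_le_tsum fun c => ?_
        by_cases k : c = s
        · simp [k]
        rw [if_pos k, vE_dd d0.le h1, mul_assoc]
        refine (mul_le_of_le_one_left' (ENNReal.ofReal_le_one.2 (by linarith))).trans ?_
        by_cases k0 : c = 0
        · simp [W0, k0]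
        by_cases k1 : c = -s
        · rw [if_pos k1]
          refine (mul_le_of_le_one_right' (W0_one h c)).trans (le_add_right (a1.big _ ?_))
          rcases hs with rfl | rfl <;> subst k1 <;> rw [le_abs] <;> omega
        · rw [W0_two k0 (by omega) (by omega), if_neg k0, mul_left_comm]
          exact le_add_self
    _ ≤ ENNReal.ofReal T + ENNReal.ofReal S * ENNReal.ofReal (9 / 10) := by
        rw [ENNReal.tsum_add, tsum_ite_eq, ENNReal.tsum_mul_left]
        exact add_le_add_right (mul_le_mul_right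
          (a.trans (mul_le_of_le_one_right' (pow_le_one' half_le _))) _) _
    _ ≤ _ := by
        rw [← ENNReal.ofReal_mul (by linarith), ← ENNReal.ofReal_add (by linarith) (by linarith)]
        exact ENNReal.ofReal_le_ofReal (by linarith)

theorem AB_sta (h : Sm δ T S) (a1 : Ar1 p q (ENNReal.ofReal T)) (a : Bool) :
    AB δ S p q (fun c => c ≠ 1 ∧ c ≠ -1) (a, 0) ≤ ENNReal.ofReal S * ENNReal.ofReal T := by
  have h1 : δ ≤ 1 / 3 := by linarith [h.2.1, h.2.2.1]
  refine le_trans ?_ (mul_le_mul_right (a1.sta1 a false) _)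
  rw [← ENNReal.tsum_mul_left]
  refine ENNReal.tsum_le_tsum fun c => ?_
  by_cases k0 : c = 0
  · simp [W0, k0]
  rw [if_neg k0]
  split_ifs with k
  · rw [W0_two k0 k.1 k.2, mul_left_comm, vE_eq h.1.le h1]
    exact mul_le_mul_right (mul_le_mul' (mul_le_of_le_one_left' (kk_one h _ _))
      ((pow_le_one' half_le _).trans (one_le_pow₀ one_le_two))) _
  · exact zero_le

theorem vE_sta (h : Sm δ T S) (a1 : Ar1 p q (ENNReal.ofReal T)) (a : Bool) (hs : s ≠ 0) :
    vE δ p q (a, 0) (false, s) ≤ ENNReal.ofReal T := by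
  have h1 : δ ≤ 1 / 3 := by linarith [h.2.1, h.2.2.1]
  refine le_trans ?_ ((ENNReal.le_tsum s).trans (a1.sta1 a false))
  rw [if_neg hs, vE_eq h.1.le h1]
  exact (mul_le_of_le_one_left' (kk_one h _ _)).trans
    (le_mul_of_one_le_right' (one_le_pow₀ one_le_two))

theorem vE_up (h : Sm δ T S) : vE δ p q (true, s) (false, s) ≤ ENNReal.ofReal (1 / 3) := by
  have d0 := h.1
  rw [vE_ud d0.le (by linarith [h.2.1, h.2.2.1]), sub_self, tE_zero, mul_one]
  exact ENNReal.ofReal_le_ofReal (by linarith)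

theorem vE_s (h : Sm δ T S) (hpq : p < q) (a1 : Ar1 p q (ENNReal.ofReal T)) (hs : s = 1 ∨ s = -1)
    (e : Bool) : vE δ p q (e, s) (false, s) ≤ ENNReal.ofReal (3 / 5) := by
  have d0 := h.1
  have h1 : δ ≤ 1 / 3 := by linarith [h.2.1, h.2.2.1]
  cases e
  · have a := a1.le9 (q * s - p * s) (by rcases hs with rfl | rfl <;> omega)
    rw [nine] at a
    rw [vE_dd d0.le h1]
    refine (mul_le_mul_right a _).trans ?_
    rw [← ENNReal.ofReal_mul (by linarith)]
    exact ENNReal.ofReal_le_ofReal (by linarith)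
  · exact (vE_up h).trans (ENNReal.ofReal_le_ofReal (by norm_num))

theorem nm_pot (h : Sm δ T S) (a1 : Ar1 p q (ENNReal.ofReal T)) (v : Val δ p q T)
    (P : Fo ℤ → Prop) (hP : ∀ F, P F → NRF p q F) (hS : YY δ p q P s s ≤ ENNReal.ofReal S) :
    ∑' u, YY δ p q P s u *
        (eW δ p q (true, u) [] + ENNReal.ofReal (100 * T) * AA δ S p q (true, u)) ≤
      ENNReal.ofReal (36 * T * S) := by
  obtain ⟨d0, d1, d2, d3, d4⟩ := id h
  have t0 : 0 < T := by linarith
  calc _ ≤ ∑' u, ENNReal.ofReal (35 * T) * YY δ p q P s u := by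
        refine ENNReal.tsum_le_tsum fun u => ?_
        by_cases hu : u = 0
        · simp [hu, yy_nrf_right P hP]
        rw [mul_comm]
        refine mul_le_mul_left (((add_le_add (end_le h a1 true hu)
          ((mul_le_mul_right (AA_up h a1 hu) _).trans
            (mm (c := 34 * T) (by linarith) (by linarith) _))).trans
          (lin (c := 35 * T) t0.le (by linarith) (by linarith) _)).trans
          (mul_le_of_le_one_right' (W0_ne (S := S) hu ▸ W0_one h u))) _
    _ ≤ ENNReal.ofReal (35 * T) * (ENNReal.ofReal S + ENNReal.ofReal (100 * T)) := by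
        rw [ENNReal.tsum_mul_left, tsum_split _ s]
        refine mul_le_mul_right (add_le_add hS
          (le_trans (ENNReal.tsum_le_tsum fun u => ?_) (v.vy s).2)) _
        split_ifs
        · rfl
        · exact (yy_mono _ _ s u fun _ _ _ => hP _).trans
            (le_mul_of_one_le_left' (one_le_pow₀ one_le_two))
    _ ≤ _ := by
        rw [← ENNReal.ofReal_add (by linarith) (by linarith), ← ENNReal.ofReal_mul (by linarith)]
        exact ENNReal.ofReal_le_ofReal (by nlinarith)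

/-- one step of the recursion -/
theorem step (h : Sm δ T S) (a1 : Ar1 p q (ENNReal.ofReal T)) (v : Val δ p q T)
    (d1 : ∀ (e : Bool) (c : ℤ), c ≠ 0 →
      HD δ p q (NRD p q) (e, c) ≤ ENNReal.ofReal (100 * T) * wS S c) {nx : ℤ → ℤ}
    (hS : YY δ p q (fun F => NRF p q F ∧ F ≠ decF nx s (shF F)) s s ≤ ENNReal.ofReal S)
    (P Q : Dn ℤ → Prop) (A : ℤ → Prop) (hN : ∀ d, P d → NRD p q d ∧ (fd d ≠ s → A (fd d)))
    (h0 : ∀ F, P (.fin F) → F ≠ decF nx s (shF F))
    (hP : ∀ F d, P (.step F s d) → F = decF nx s (shF F) → Q d)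
    (hQ : HD δ p q Q (false, s) ≤ ENNReal.ofReal (10 ^ 4 * T * S)) (a : Edge) :
    HD δ p q P a ≤ vE δ p q a (false, s) * ENNReal.ofReal (15100 * T * S) +
      ENNReal.ofReal (153 * T) * AB δ S p q A a := by
  obtain ⟨d0, dT, d2, d3, d4⟩ := id h
  have t0 : 0 < T := by linarith
  have ts : 0 < T * S := mul_pos t0 (by linarith)
  have h1 : δ ≤ 1 / 3 := by linarith
  have any : ∀ F c, HD δ p q (fun d => P (.step F c d)) (false, c) ≤
      ENNReal.ofReal (100 * T) * W0 S c := fun F c => by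
    by_cases hc : c = 0
    · rw [hd_zero _ _ fun d e => (hN (.step F c d) e).1.2.1 hc]
      exact zero_le
    · rw [W0_ne hc]
      exact (hd_mono _ _ _ fun d e => (hN (.step F c d) e).1.2.2).trans (d1 false c hc)
  have main : ∀ F, F = decF nx s (shF F) → ∀ (B : ℤ → Prop) (e : Edge),
      (∀ c d, c ≠ s → P (.step F c d) → B c) → (if P (.fin F) then eW δ p q e [] else 0) +
        ∑' c, vE δ p q e (false, c) * HD δ p q (fun d => P (.step F c d)) (false, c) ≤
      vE δ p q e (false, s) * ENNReal.ofReal (10 ^ 4 * T * S) +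
        ENNReal.ofReal (100 * T) * AB δ S p q B e := fun F hF B e hB => by
    rw [if_neg fun k => h0 F k hF, zero_add]
    refine split B e _ _ _ ((hd_mono _ _ _ fun d k => hP F d k hF).trans hQ) fun c hc => ?_
    split_ifs with k
    · exact any F c
    · exact (hd_zero _ _ fun d m => k (hB c d hc m)).le
  have e2 := ft (p := p) (q := q) d0.le h1
    (fun F => NRF p q F ∧ F ≠ decF nx s (shF F) ∧ ∀ c, fc c F ≠ s → A (fc c F)) a
    fun e => eW δ p q e [] + ENNReal.ofReal (100 * T) * AA δ S p q e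
  have e3 := ft (p := p) (q := q) d0.le h1
    (fun F => NRF p q F ∧ F = decF nx s (shF F) ∧ F ≠ .nil) a
    fun e => vE δ p q e (false, s) * ENNReal.ofReal (10 ^ 4 * T * S) +
      ENNReal.ofReal (100 * T) * AB δ S p q (· ≠ s) e
  rw [if_neg fun k => k.2.1 rfl, zero_add] at e2
  rw [if_neg fun k => k.2.2 rfl, zero_add] at e3
  simp only [mul_assoc (vE δ p q a _), ENNReal.tsum_mul_left] at e2 e3
  have b2 := e2.le.trans (split (S := S) (s := s) A a _ (ENNReal.ofReal (36 * T * S))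
    (ENNReal.ofReal (53 * T))
    (nm_pot h a1 v _ (fun _ k => k.1) ((yy_mono _ _ s s fun _ _ _ k => ⟨k.1, k.2.1⟩).trans hS))
    fun c hc => by
      split_ifs with k
      · exact le_trans (ENNReal.tsum_le_tsum fun u =>
          mul_le_mul_left (yy_mono _ _ c u fun _ _ _ m => m.1) _) (yy_pot h a1 v c)
      · refine (ENNReal.tsum_eq_zero.2 fun u => ?_).le
        rw [yy_zero _ c u fun _ _ _ m => absurd (m.2.2 0 hc) k, zero_mul])
  have top : ∀ F, NRF p q F ∧ F = decF nx s (shF F) ∧ F ≠ .nil → Top s F := fun F k =>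
    k.2.1 ▸ top_decF nx s _
  have b3 := e3.le.trans (split (S := S) (s := s) A a _ (ENNReal.ofReal (5064 * T * S)) 0
    (by
      rw [tsum_eq_single s fun u hu => by rw [yy_top _ s top (Or.inr hu), zero_mul]]
      refine (mul_le_mul' ((yy_mono _ _ s s fun _ _ _ m => m.1).trans (v.vy s).1)
        (add_le_add (mul_le_mul_left (vE_up h) _) (mul_le_mul_right (AB_up h a1) _))).trans ?_
      rw [← ENNReal.ofReal_mul (by norm_num), ← ENNReal.ofReal_mul (by linarith),
        ← ENNReal.ofReal_add (by linarith) (by positivity), ← ENNReal.ofReal_mul (by norm_num)]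
      exact ENNReal.ofReal_le_ofReal (by nlinarith))
    fun c hc => le_trans (ENNReal.tsum_eq_zero.2 fun u => by
      rw [yy_top _ s top (Or.inl hc), zero_mul]).le zero_le)
  have b1 := main .nil rfl A a fun c d hc k => (hN _ k).2 hc
  refine le_trans (le_trans ?_ (add_le_add b1 (add_le_add b2 b3))) ?_
  · rw [hd_rec d0.le h1, ← ENNReal.tsum_add, ENNReal.tsum_eq_add_tsum_ite Fo.nil]
    refine add_le_add (by rw [flatF, pE_nil, one_mul]; rfl) (ENNReal.tsum_le_tsum fun F => ?_)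
    by_cases k0 : F = .nil
    · rw [if_pos k0]; exact zero_le
    rw [if_neg k0]
    by_cases k : P (.fin F) ∨ ∃ c d, P (.step F c d)
    swap
    · have z : ∀ c, HD δ p q (fun d => P (.step F c d)) (false, c) = 0 :=
        fun c => hd_zero _ _ fun d e => k (Or.inr ⟨c, d, e⟩)
      simp [z, (not_or.1 k).1]
    have k1 : NRF p q F ∧ ∀ c, fc c F ≠ s → A (fc c F) := by
      cases F with
      | nil => exact absurd rfl k0
      | cons c1 c2 I R =>
        rcases k with k | ⟨c, d, k⟩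
        exacts [⟨(hN _ k).1, fun _ => (hN _ k).2⟩, ⟨(hN _ k).1.1, fun _ => (hN _ k).2⟩]
    by_cases k2 : F = decF nx s (shF F)
    · rw [if_pos (c := _ ∧ F = _ ∧ _) ⟨k1.1, k2, k0⟩]
      exact le_add_left (mul_le_mul_right (main F k2 _ _ fun c d hc _ => hc) _)
    · rw [if_pos (c := _ ∧ F ≠ _ ∧ _) ⟨k1.1, k2, k1.2⟩]
      refine le_add_right (mul_le_mul_right (add_le_add ?_ ?_) _)
      · split_ifs
        · rfl
        · exact zero_le
      · rw [AA, ← ENNReal.tsum_mul_left]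
        refine ENNReal.tsum_le_tsum fun c => ?_
        rw [mul_left_comm]
        exact mul_le_mul_right (any F c) _
  · have e : ∀ V x y z B w w' : ℝ≥0∞, V * x + w * B + (V * y + w' * B + (V * z + 0 * B)) =
        V * (x + y + z) + (w * B + w' * B) := fun _ _ _ _ _ _ _ => by ring
    rw [e, ← ENNReal.ofReal_add (by linarith) (by linarith),
      ← ENNReal.ofReal_add (by linarith) (by linarith)]
    exact add_le_add (mul_le_mul_right (ENNReal.ofReal_le_ofReal (by linarith)) _)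
      (lin (by linarith) (by linarith) (by linarith) _)

end Spd2

theorem spd2 : Spd2Stmt := by
  intro δ T S p q h _ hpq a1 a3 v vn d1
  obtain ⟨d0, dT, d2, d3, d4⟩ := id h
  have t0 : 0 < T := by linarith
  have s0 : 0 < S := by linarith
  have ts := mul_pos t0 s0
  have fin : ∀ (nx : ℤ → ℤ) (s : ℤ) (F : Fo ℤ), Dn.fin F ≠ decD nx s (shD (.fin F)) →
      F ≠ decF nx s (shF F) := fun nx s F k e => k (congrArg Dn.fin e)
  have stp : ∀ (nx : ℤ → ℤ) (s : ℤ) (F : Fo ℤ) (d : Dn ℤ),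
      Dn.step F s d ≠ decD nx s (shD (.step F s d)) → F = decF nx s (shF F) →
        d ≠ decD nx s (shD d) := fun nx s F d k e e' => k (by rw [shD, decD, ← e, ← e'])
  have D2 : ∀ nx : ℤ → ℤ, Near p q nx → ∀ s : ℤ, (s = 1 ∨ s = -1) → ∀ e : Bool,
      HD δ p q (fun d => NRD p q d ∧ d ≠ decD nx s (shD d)) (e, s) ≤
        ENNReal.ofReal (10 ^ 4 * T * S) := by
    intro nx hn s hs e
    refine hd_lim _ _ _ fun k => ?_
    induction k generalizing e with
    | zero =>
      rw [hd_zero _ _ fun d m => absurd m.2 (Nat.not_lt_zero _)]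
      exact zero_le
    | succ k ih =>
      refine (Spd2.step h a1 v d1 (vn nx hn s) _ _ (· ≠ s) (fun d m => ⟨m.1.1, id⟩)
        (fun F m => fin nx s F m.1.2) (fun F d m e => ⟨⟨m.1.1.2.2, stp nx s F d m.1.2 e⟩,
          Nat.lt_of_succ_lt_succ m.2⟩) (ih false) _).trans ?_
      have a : Spd2.AB δ S p q (· ≠ s) (e, s) ≤ ENNReal.ofReal S := by
        cases e
        · exact Spd2.AB_dn h a1 a3 hs
        · exact (Spd2.AB_up h a1).trans (ENNReal.ofReal_le_ofReal (by linarith))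
      refine (add_le_add (mul_le_mul_left (Spd2.vE_s h hpq a1 hs e) _)
        (mul_le_mul_right a _)).trans ?_
      rw [← ENNReal.ofReal_mul (by norm_num), ← ENNReal.ofReal_mul (by linarith),
        ← ENNReal.ofReal_add (by linarith) (by positivity)]
      exact ENNReal.ofReal_le_ofReal (by linarith)
  have D4 : ∀ nx : ℤ → ℤ, Near p q nx → ∀ s : ℤ, (s = 1 ∨ s = -1) → ∀ a : Bool,
      HD δ p q (fun d => (NRD p q d ∧ d ≠ decD nx s (shD d)) ∧ Spd2.fd d ≠ -s) (a, 0) ≤
        ENNReal.ofReal (50000 * T ^ 2 * S) := by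
    intro nx hn s hs a
    refine (Spd2.step h a1 v d1 (vn nx hn s) _ _ (fun c => c ≠ 1 ∧ c ≠ -1)
      (fun d m => ⟨m.1.1, fun k => by have := m.2; omega⟩) (fun F m => fin nx s F m.1.2)
      (fun F d m e => ⟨m.1.1.2.2, stp nx s F d m.1.2 e⟩) (D2 nx hn s hs false) _).trans ?_
    refine (add_le_add (mul_le_mul_left (Spd2.vE_sta h a1 a (by omega)) _)
      (mul_le_mul_right (Spd2.AB_sta h a1 a) _)).trans ?_
    rw [← ENNReal.ofReal_mul t0.le, ← ENNReal.ofReal_mul s0.le, ← ENNReal.ofReal_mul (by linarith),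
      ← ENNReal.ofReal_add (by positivity) (by positivity)]
    exact ENNReal.ofReal_le_ofReal (by nlinarith [mul_pos t0 ts])
  refine ⟨D2, fun n1 n2 m1 m2 a => le_trans (le_trans ?_
    (add_le_add (D4 n1 m1 1 (Or.inl rfl) a) (D4 n2 m2 (-1) (Or.inr rfl) a))) ?_⟩
  · simp only [HD, ← ENNReal.tsum_add]
    refine ENNReal.tsum_le_tsum fun d => ?_
    by_cases k : NRD p q d ∧ d ≠ decD n1 1 (shD d) ∧ d ≠ decD n2 (-1) (shD d)
    · by_cases k1 : Spd2.fd d = -1
      · rw [if_pos k, if_pos (c := (_ ∧ d ≠ decD n2 _ _) ∧ _) ⟨⟨k.1, k.2.2⟩, by omega⟩]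
        exact le_add_self
      · rw [if_pos k, if_pos ⟨⟨k.1, k.2.1⟩, k1⟩]
        exact le_self_add
    · rw [if_neg k]
      exact zero_le
  · rw [← ENNReal.ofReal_add (by positivity) (by positivity)]
    exact ENNReal.ofReal_le_ofReal (by linarith)

end Pool.Agent.MP_e0ec03_al.Asy

end MrgPart1

-- ======== part 2: formerly Pool.Agent.MP_e0ec03_al.asy.Val
section MrgPart2

/-! Assembly of the kernel rows of THEOREM ASY. -/

namespace Pool.Agent.MP_e0ec03_al.Asy

open Classical Finset Filter Topology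
open scoped ENNReal

theorem invY_zero (δ : ℝ) (p q J : ℕ) (a b t : ℕ → ℝ≥0∞) (n0 nJ : ℝ≥0∞) :
    InvY δ p q J a b t n0 nJ (fun F => ht F ≤ 0) := by
  have z : ∀ (Q : Fo ℤ → Prop) (c u : ℤ),
      YY δ p q (fun F => NRF p q F ∧ ht F ≤ 0 ∧ Q F) c u = 0 := fun Q c u =>
    yy_zero _ _ _ fun _ _ _ h => absurd h.2.1 (by simp [ht])
  refine ⟨fun j _ u => ⟨by simp only [z, zero_le], ?_⟩, fun i _ c _ => by simp only [z, zero_le],
    fun c => by simp only [z, zero_le], fun c => by simp only [z, zero_le]⟩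
  simp only [z, mul_zero, ite_self, tsum_zero, zero_le]

theorem invY_lim {δ : ℝ} {p q J : ℕ} {a b t : ℕ → ℝ≥0∞} {n0 nJ : ℝ≥0∞}
    (h : ∀ k : ℕ, InvY δ p q J a b t n0 nJ (fun F => ht F ≤ k)) :
    InvY δ p q J a b t n0 nJ (fun _ => True) := by
  have m : ∀ (Q : Fo ℤ → Prop) (k : ℕ) (c u : ℤ),
      YY δ p q (fun F => (NRF p q F ∧ True ∧ Q F) ∧ ht F ≤ k) c u ≤
        YY δ p q (fun F => NRF p q F ∧ ht F ≤ k ∧ Q F) c u := fun Q k c u =>
    yy_mono _ _ _ _ fun _ _ _ h => ⟨h.1.1, h.2, h.1.2.2⟩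
  exact ⟨fun j hj => yy_lim_bd _ _ _ fun k => ((h k).y1 j hj).mono (m _ k) le_rfl le_rfl,
    fun i hi c hc => yy_lim _ _ _ _ fun k => (m _ k c c).trans ((h k).y2 i hi c hc),
    fun c => yy_lim _ _ _ _ fun k => (m _ k c c).trans ((h k).y3 c),
    fun c => yy_lim _ _ _ _ fun k => (m _ k c c).trans ((h k).y4 c)⟩

theorem val_of (h1 : VnumStmt) (h2 : VkStmt) (h3 : VyStmt) : ValStmt := by
  intro δ T p q hP hp hpq a1 a2
  obtain ⟨J, a, b, ρ, t, n0, nJ, P, hN, e1, e2, e3, e4, e5, e6⟩ := h1 δ T hP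
  have h0 : 0 ≤ δ := hP.1.le
  have h13 : δ ≤ 1 / 3 := by linarith [hP.2.1, hP.2.2.1]
  have hK := h2 δ p q J _ a b ρ t n0 nJ P h0 h13 hp hpq a1 a2 hN
  have hY : ∀ k : ℕ, InvY δ p q J a b t n0 nJ (fun F => ht F ≤ k) := by
    intro k
    induction k with
    | zero => exact invY_zero ..
    | succ k ih => exact h3 δ p q J _ _ _ _ a b ρ t n0 nJ P hN k (hK _ ih)
  have hY' := invY_lim hY
  have hK' := hK _ hY'
  refine ⟨(hY'.y1 0 (Nat.zero_le _)).mono (fun c u => yy_mono _ _ _ _ fun _ _ _ h => ?_) e1 e2,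
    hK'.k2.mono (fun c u => kk_mono _ _ _ _ fun _ h => ⟨h.1, trivial, h.2⟩) e3 e4,
    hK'.c1.mono (fun c u => ch_mono _ _ _ _ fun _ h => ⟨h, trivial⟩) e5 e6⟩
  exact ⟨h, trivial, by simp [dep]⟩

theorem par_eventually : ∃ p0 : ℕ, ∀ p : ℕ, p0 ≤ p → Par ((1 / √3) ^ p) ((33 / 50) ^ p) := by
  have h3 := sqrt3_bounds
  have hr : (0 : ℝ) < 1 / √3 := by positivity
  have hlt : (33 / 50 : ℝ) ^ 4 * √3 ^ 3 < 1 := by
    have : √3 ^ 3 < (1.7321 : ℝ) ^ 3 := pow_lt_pow_left₀ h3.2 (by positivity) (by norm_num)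
    nlinarith
  have t1 := (tendsto_pow_atTop_nhds_zero_of_lt_one (r := (33 / 50 : ℝ)) (by norm_num)
    (by norm_num)).eventually (gt_mem_nhds (show (0 : ℝ) < 1 / 10 ^ 6 by norm_num))
  have t2 := (tendsto_pow_atTop_nhds_zero_of_lt_one (r := (33 / 50 : ℝ) ^ 4 * √3 ^ 3)
    (by positivity) hlt).eventually (gt_mem_nhds (show (0 : ℝ) < 1 / 10 ^ 19 by norm_num))
  obtain ⟨p0, hp0⟩ := eventually_atTop.1 (t1.and t2)
  refine ⟨p0, fun p hp => ⟨by positivity, pow_le_pow_left₀ hr.le ?_ p, (hp0 p hp).1.le, ?_⟩⟩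
  · rw [div_le_iff₀ (by positivity)]
    linarith [h3.1]
  · have h := (hp0 p hp).2
    have e : ((33 / 50 : ℝ) ^ p) ^ 4 = ((33 / 50 : ℝ) ^ 4 * √3 ^ 3) ^ p * ((1 / √3) ^ p) ^ 3 := by
      rw [← pow_mul, ← pow_mul (1 / √3), mul_comm p 4, mul_comm p 3, pow_mul, pow_mul, ← mul_pow]
      congr 1
      field_simp
    rw [e]
    have : (0 : ℝ) < ((1 / √3) ^ p) ^ 3 := by positivity
    nlinarith

theorem Par.sm {δ T : ℝ} (h : Par δ T) : Sm δ T (10 ^ 5 * T ^ 2 / δ) := by
  obtain ⟨h0, h1, h2, h3⟩ := h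
  have hT : 0 < T := h0.trans_le h1
  refine ⟨h0, h1, h2, ?_, ?_⟩
  · rw [le_div_iff₀ h0]
    nlinarith
  · rw [div_le_iff₀ h0]
    have h4 : (10 ^ 8 * T ^ 2) ^ 2 ≤ δ ^ 2 := by
      have : δ ^ 3 ≤ δ ^ 2 := by nlinarith [sq_nonneg δ]
      nlinarith [pow_pos hT 4]
    have := abs_le_of_sq_le_sq' h4 h0.le
    nlinarith [this.2]

theorem spa_of (a1 : Ar1Stmt) (a2 : Ar2Stmt) (a3 : Ar3Stmt) (hv : ValStmt) (hm : VnmStmt)
    (d1 : Spd1Stmt) (d2 : Spd2Stmt) (s1 : Spa1Stmt) (s2 : Spa2Stmt) : SpaStmt := by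
  obtain ⟨p1, a1⟩ := a1
  obtain ⟨p2, a2⟩ := a2
  obtain ⟨p3, a3⟩ := a3
  obtain ⟨p4, a4⟩ := par_eventually
  refine ⟨p1 + p2 + p3 + p4 + 1, fun p q hp hpq => ?_⟩
  have hP := a4 p (by omega)
  have b1 := a1 p q (by omega) hpq
  have b2 := a2 p q (by omega) hpq
  have b3 := a3 p q (by omega) hpq
  have hp1 : 1 ≤ p := by omega
  have v := hv _ _ p q hP hp1 hpq b1 b2
  have m := hm _ _ p q hP hp1 hpq b1 b2 v
  have e1 := d1 _ _ _ p q hP.sm hp1 hpq b1 b3 v
  have e2 := d2 _ _ _ p q hP.sm hp1 hpq b1 b3 v m e1.1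
  have e : Spd _ p q _ _ := ⟨e1.1, e2.1, e1.2, e2.2⟩
  have f1 := s1 _ _ _ p q hP.sm hp1 hpq b1 b3 v e
  exact ⟨hP, f1.2, s2 _ _ _ p q hP.sm hp1 hpq b1 b3 v m e f1.1⟩

end Pool.Agent.MP_e0ec03_al.Asy

end MrgPart2

-- marker of a merged file
example : 731051 + 180815 = 731051 + 180815 := rfl
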