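import Pool.Agent.MP_e0ec03_al.asy.Parse
import Pool.Agent.MP_e0ec03_al.asy.Spa1

-- ======== part 0: formerly Pool.Agent.MP_e0ec03_al.asy.Ginj
section MrgPart0

/-! Reduced words without a winning carry are different elements. -/

namespace Pool.Agent.MP_e0ec03_al.Asy

open Classical

namespace Ginj

def dg (p q : ℕ) (e : Bool) (k : ℤ) : ZMod p ⊕ ZMod q :=
  if e then Sum.inr (k : ZMod q) else Sum.inl (k : ZMod p)

def qt (p q : ℕ) (e : Bool) (k : ℤ) : ℤ := if e then k / q else k / p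

def run (p q : ℕ) : List (ZMod p ⊕ ZMod q) → Edge → List (ℤ × Bool) →
    List (ZMod p ⊕ ZMod q) × ℤ
  | L, a, [] => (L, inn p q a)
  | L, a, s :: l =>
      run p q (dg p q s.2 (inn p q a + s.1) :: L) (s.2, qt p q s.2 (inn p q a + s.1)) l

variable {p q : ℕ}

def Hd (L : List (ZMod p ⊕ ZMod q)) (a : Bool) : Prop :=
  ((pp L).1 → a = false) ∧ ((pp L).2 → a = true)

theorem hd_dg (e : Bool) (k : ℤ) (L : List (ZMod p ⊕ ZMod q)) : Hd (dg p q e k :: L) e := by
  cases e <;> simp [Hd, dg, pp]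

theorem ndvd {m : ℕ} {x c : ℤ} (h : |x| < m) (h' : (m : ℤ) ∣ m * c + x) : x = 0 :=
  Int.eq_zero_of_abs_lt_dvd ((dvd_add_right (dvd_mul_right _ _)).1 h') h

theorem act_tl [NeZero p] [NeZero q] (e : Bool) (L : List (ZMod p ⊕ ZMod q)) (k : ℤ)
    (h1 : e = true → ¬ ((pp L).1 ∧ (q : ℤ) ∣ k)) (h2 : e = false → ¬ ((pp L).2 ∧ (p : ℤ) ∣ k)) :
    act (tl p q e) (L, k) = (dg p q e k :: L, inn p q (e, qt p q e k)) := by
  cases e
  · simp only [tl, Bool.false_eq_true, if_false, act_T', tau', if_neg (h2 rfl), dg, qt, inn]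
  · simp only [tl, if_true, act_T, tau, if_neg (h1 rfl), dg, qt, inn]

theorem fwd [NeZero p] [NeZero q] (hpq : p < q) : ∀ (l : List (ℤ × Bool))
    (L : List (ZMod p ⊕ ZMod q)) (a : Edge), Hd L a.1 → Ok a.1 l → (∀ s ∈ l, |s.1| < p) →
    act (evw p q l) (L, inn p q a) = run p q L a l
  | [], _, _, _, _, _ => act_one _
  | s :: l, L, a, h, o, b => by
    have hs : |s.1| < p := b s List.mem_cons_self
    have hq : |s.1| < q := hs.trans (by exact_mod_cast hpq)
    rw [evw, act_mul, act_mul, act_A, act_tl, run]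
    · exact fwd hpq l _ _ (hd_dg _ _ _) o.2 fun t m => b t (List.mem_cons_of_mem _ m)
    · rintro e ⟨m1, m2⟩
      have m3 := h.1 m1
      simp only [inn, m3, Bool.false_eq_true, if_false] at m2
      exact o.1 ⟨ndvd hq m2, by simp [m3, e]⟩
    · rintro e ⟨m1, m2⟩
      have m3 := h.2 m1
      simp only [inn, m3, if_true] at m2
      exact o.1 ⟨ndvd hs m2, by simp [m3, e]⟩

theorem run_left : ∀ (l l' : List (ℤ × Bool)) (L L' : List (ZMod p ⊕ ZMod q)) (a a' : Edge),
    l.length = l'.length → run p q L a l = run p q L' a' l' → L = L'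
  | [], [], _, _, _, _, _, h => congrArg Prod.fst h
  | [], _ :: _, _, _, _, _, h, _ => by simp at h
  | _ :: _, [], _, _, _, _, h, _ => by simp at h
  | _ :: l, _ :: l', _, _, _, _, h, k =>
    (List.cons.inj (run_left l l' _ _ _ _ (by simpa using h) k)).2

theorem dg_fst {e e' : Bool} {k k' : ℤ} (h : dg p q e k = dg p q e' k') : e = e' := by
  cases e <;> cases e' <;> simp [dg] at h ⊢

theorem sub_div {m : ℕ} {k k' : ℤ} (h : (k : ZMod m) = k') :
    k - k' = m * (k / m - k' / m) := by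
  have h1 : k % m = k' % m := (ZMod.intCast_eq_intCast_iff' _ _ _).1 h
  have h2 := Int.emod_add_mul_ediv k m
  have h3 := Int.emod_add_mul_ediv k' m
  linarith

theorem dg_out {e : Bool} {k k' : ℤ} (h : dg p q e k = dg p q e k') :
    k - k' = out p q (e, qt p q e k - qt p q e k') := by
  cases e
  · simpa [out, qt] using sub_div (m := p) (by simpa [dg] using h)
  · simpa [out, qt] using sub_div (m := q) (by simpa [dg] using h)

theorem inn_sub (b : Bool) (n n' : ℤ) :
    inn p q (b, n - n') = inn p q (b, n) - inn p q (b, n') := by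
  cases b <;> simp [inn, mul_sub]

theorem cmp (hp : 1 ≤ p) (hpq : p < q) : ∀ (l l' : List (ℤ × Bool))
    (L L' : List (ZMod p ⊕ ZMod q)) (b : Bool) (n n' : ℤ), l.length = l'.length →
    run p q L (b, n) l = run p q L' (b, n') l' →
    ∃ v : List Edge, v.map Prod.fst = l.map Prod.snd ∧ l'.map Prod.snd = l.map Prod.snd ∧
      (lastE (b, n - n') v).2 = 0 ∧
      l'.map Prod.fst = List.zipWith (· + ·) (l.map Prod.fst) (dl p q (b, n - n') v)
  | [], [], _, _, b, n, n', _, h => by
    have m : inn p q (b, n) = inn p q (b, n') := congrArg Prod.snd h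
    have m1 : (p : ℤ) ≠ 0 := by omega
    have m2 : (q : ℤ) ≠ 0 := by omega
    refine ⟨[], rfl, rfl, sub_eq_zero.2 ?_, rfl⟩
    cases b
    · exact mul_left_cancel₀ m2 (by simpa [inn] using m)
    · exact mul_left_cancel₀ m1 (by simpa [inn] using m)
  | [], _ :: _, _, _, _, _, _, h, _ => by simp at h
  | _ :: _, [], _, _, _, _, _, h, _ => by simp at h
  | (x, e) :: l, (x', e') :: l', L, L', b, n, n', h, k => by
    have h' : l.length = l'.length := by simpa using h
    have m := (List.cons.inj (run_left l l' _ _ _ _ h' k)).1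
    obtain rfl : e = e' := dg_fst m
    obtain ⟨v, v1, v2, v3, v4⟩ := cmp hp hpq l l' _ _ _ _ _ h' k
    have m' := dg_out m
    refine ⟨(e, _) :: v, by simp [v1], by simp [v2], v3, ?_⟩
    simp only [List.map_cons, dl, List.zipWith_cons_cons, v4, inn_sub b] at m' ⊢
    congr 1
    linarith

def ng (a : Edge) : Edge := (a.1, -a.2)

theorem dl_ng : ∀ (a : Edge) (v : List Edge),
    dl p q (ng a) (v.map ng) = (dl p q a v).map Neg.neg
  | _, [] => rfl
  | a, b :: v => by
    rw [List.map_cons, dl, dl, List.map_cons, dl_ng b v]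
    congr 1
    simp only [inn, out, ng]
    split_ifs <;> ring

theorem delta_ng : ∀ xs ds : List ℤ,
    delta (List.zipWith (· + ·) xs ds) (ds.map Neg.neg) = -delta xs ds
  | [], _ => by simp [delta]
  | _ :: _, [] => by simp [delta]
  | x :: xs, d :: ds => by
    simp only [List.zipWith_cons_cons, List.map_cons, delta, delta_ng xs ds, add_neg_cancel_right]
    ring

theorem zip_zero : ∀ xs ds : List ℤ, xs.length = ds.length → ¬ lexneg ds →
    ¬ lexneg (ds.map Neg.neg) → List.zipWith (· + ·) xs ds = xs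
  | [], _, _, _, _ => by simp
  | _ :: _, [], h, _, _ => by simp at h
  | x :: xs, d :: ds, h, h1, h2 => by
    simp only [List.map_cons, lexneg, not_or, not_and, not_lt] at h1 h2
    obtain rfl : d = 0 := by omega
    rw [List.zipWith_cons_cons, add_zero,
      zip_zero xs ds (by simpa using h) (h1.2 rfl) (h2.2 neg_zero)]

theorem ext_maps {α β : Type} : ∀ l l' : List (α × β), l.map Prod.fst = l'.map Prod.fst →
    l.map Prod.snd = l'.map Prod.snd → l = l'
  | [], [], _, _ => rfl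
  | [], _ :: _, h, _ => by simp at h
  | _ :: _, [], h, _ => by simp at h
  | s :: l, s' :: l', h, h' => by
    simp only [List.map_cons, List.cons.injEq] at h h'
    rw [Prod.ext h.1 h'.1, ext_maps l l' h.2 h'.2]

theorem st_eq [NeZero p] [NeZero q] (hpq : p < q) (a : Bool) (l : List (ℤ × Bool)) (o : Ok a l)
    (b : ∀ s ∈ l, |s.1| < p) : st (tl p q a * evw p q l) = run p q [dg p q a 0] (a, 0) l := by
  have m : qt p q a 0 = 0 := by cases a <;> simp [qt]
  rw [st_mul, st, act_tl a [] 0 (by simp [pp]) (by simp [pp]), m]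
  exact fwd hpq l _ _ (hd_dg _ _ _) o b

end Ginj

open Ginj in
theorem ginj : GinjStmt := by
  intro p q hp hpq n a a' l l' w w' o o' av av' h
  have : NeZero p := ⟨by omega⟩
  have : NeZero q := ⟨by omega⟩
  rw [mem_words] at w w'
  have hl : l.length = l'.length := w.1.trans w'.1.symm
  have k : run p q [dg p q a 0] (a, 0) l = run p q [dg p q a' 0] (a', 0) l' := by
    rw [← st_eq hpq a l o w.2, ← st_eq hpq a' l' o' w'.2, h]
  obtain rfl : a = a' := dg_fst (List.cons.inj (run_left _ _ _ _ _ _ hl k)).1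
  obtain ⟨v, v1, v2, v3, v4⟩ := cmp hp hpq _ _ _ _ _ _ _ hl k
  rw [sub_zero] at v3 v4
  have z : ng (a, 0) = (a, 0) := by simp [ng]
  have n1 := av _ ⟨v, v1, v3, rfl⟩
  have n2 := av' ((dl p q (a, 0) v).map Neg.neg) ⟨v.map ng, by
    rw [v2, ← v1, List.map_map]
    rfl, by
    rw [← z, lastE_map]
    simp [ng, v3], by rw [← dl_ng, z]⟩
  rw [v4] at n2
  simp only [win, delta_ng, not_or, not_and, not_lt] at n1 n2
  have d0 : delta (l.map Prod.fst) (dl p q (a, 0) v) = 0 := by omega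
  refine ⟨rfl, ext_maps _ _ ?_ v2.symm⟩
  rw [v4, zip_zero _ _ ?_ (n1.2 d0) (n2.2 (by omega))]
  rw [dl_length, List.length_map, ← List.length_map (f := Prod.fst) (as := v), v1, List.length_map]

end Pool.Agent.MP_e0ec03_al.Asy

end MrgPart0

-- ======== part 1: formerly Pool.Agent.MP_e0ec03_al.asy.Plc
section MrgPart1

/-! ROW PLC of THEOREM ASY: the weight of a placed pattern does not depend on its position. -/

namespace Pool.Agent.MP_e0ec03_al.Asy

open Classical Finset

namespace Plc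

theorem vec_succ (b : Bool) (es : List Bool) (i : ℕ) (u : List Edge) :
    vec (b :: es) (i + 1) u = (b, 0) :: vec es i u := by
  simp only [vec, List.take_succ_cons, List.map_cons, List.cons_append, Nat.add_right_comm i 1,
    List.drop_succ_cons]

theorem fits_succ (b : Bool) (es : List Bool) (i : ℕ) (u : List Edge) :
    Fits (b :: es) (i + 1) u ↔ Fits es i u := by
  simp only [Fits, vec_succ, List.map_cons, List.cons.injEq, true_and, List.length_cons]
  exact and_congr_left fun _ => by omega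

theorem pw_cons_zero {p : ℕ} (hp : 1 ≤ p) (a : Bool) (x : Bool × Bool) (e : List (Bool × Bool))
    (ds : List ℤ) : PW p a (x :: e) (0 :: ds) = PW p x.1 e ds := by
  simp only [PW, EM, win_cons_zero, ← sum_mul, law_sum hp, one_mul]

theorem pw_append_zeros {p : ℕ} (hp : 1 ≤ p) (a : Bool) (e e' : List (Bool × Bool)) (ds : List ℤ)
    (n : ℕ) (h : e.length = ds.length) :
    PW p a (e ++ e') (ds ++ List.replicate n 0) = PW p a e ds := by
  unfold PW
  rw [EM_append]
  refine EM_congr p a e _ _ fun xs h1 _ => ?_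
  simp only [win_append_zeros xs _ ds n (h1.trans h)]
  exact EM_const hp _ _ _

theorem dl_tail (p q : ℕ) (a : Edge) (u : List Edge) (b : Bool) (es : List Bool) :
    dl p q a (u ++ ((b :: es).map fun e => (e, (0 : ℤ)))) =
      dl p q a (u ++ [(b, 0)]) ++ List.replicate es.length 0 := by
  have h : u ++ ((b :: es).map fun e => (e, (0 : ℤ))) =
      (u ++ [(b, 0)]) ++ es.map fun e => (e, (0 : ℤ)) := by simp
  rw [h, dl_append p q a (u ++ [(b, 0)]), lastE_append]
  exact congrArg _ (dl_zeros p q b es)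

theorem dl_last (p q : ℕ) (a : Edge) (u : List Edge) (b b' : Bool) :
    dl p q a (u ++ [(b, 0)]) = dl p q a (u ++ [(b', 0)]) := by
  simp [dl_append, dl]

theorem base {p : ℕ} (hp : 1 ≤ p) (q : ℕ) (a : Bool) (u : List Edge) (g : ℝ → ℝ)
    (e e' : List (Bool × Bool)) (he : e.length = u.length + 1) :
    (if Fits ((e ++ e').map Prod.fst) 0 u then
      g (PW p a (e ++ e') (dl p q (a, 0) (vec ((e ++ e').map Prod.fst) 0 u))) else 0) =
    ∑ b : Bool, if e.map Prod.fst = u.map Prod.fst ++ [b] then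
      g (PW p a e (dl p q (a, 0) (u ++ [(b, 0)]))) else 0 := by
  obtain rfl | ⟨e1, x, rfl⟩ := List.eq_nil_or_concat' e
  · simp at he
  have h1 : e1.length = u.length := by simpa using he
  have hv : vec ((e1 ++ [x] ++ e').map Prod.fst) 0 u =
      u ++ ((x.1 :: e'.map Prod.fst).map fun e => (e, (0 : ℤ))) := by
    have : ((e1 ++ [x] ++ e').map Prod.fst).drop (0 + u.length) = x.1 :: e'.map Prod.fst := by
      rw [List.append_assoc, List.map_append, List.drop_left' (by simp [h1])]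
      rfl
    rw [vec, this]
    simp
  have hf : Fits ((e1 ++ [x] ++ e').map Prod.fst) 0 u ↔ e1.map Prod.fst = u.map Prod.fst := by
    rw [Fits, hv]
    simp only [List.map_append, List.map_map, List.append_assoc, List.map_cons,
      List.singleton_append, List.length_append, List.length_map, List.length_cons, h1]
    have : List.map (Prod.fst ∘ (fun e : Bool => (e, (0 : ℤ))) ∘ Prod.fst) e' =
        List.map Prod.fst e' := rfl
    rw [this, List.append_cancel_right_eq]
    exact ⟨fun h => h.2.symm, fun h => ⟨by omega, h.symm⟩⟩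
  have hb : ∀ b : Bool, ((e1 ++ [x]).map Prod.fst = u.map Prod.fst ++ [b]) ↔
      (e1.map Prod.fst = u.map Prod.fst ∧ x.1 = b) := fun b => by
    simp
  simp only [hb, hf]
  by_cases h : e1.map Prod.fst = u.map Prod.fst
  · simp only [h, true_and, if_true, sum_ite_eq, mem_univ]
    rw [hv, dl_tail, pw_append_zeros hp _ _ _ _ _ (by simp [dl_length, h1])]
  · simp [h]

theorem part1 (δ : ℝ) {p : ℕ} (q : ℕ) (hp : 1 ≤ p) (u : List Edge) (g : ℝ → ℝ) :
    ∀ (i n : ℕ), i + u.length < n →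
    ∑ a : Bool, st0 δ a * NE δ n a (fun e => if Fits (e.map Prod.fst) i u then
      g (PW p a e (dl p q (a, 0) (vec (e.map Prod.fst) i u))) else 0) = locW δ p q u g
  | 0, n, h => by
    obtain ⟨k, rfl⟩ : ∃ k, n = (u.length + 1) + k := ⟨n - (u.length + 1), by omega⟩
    unfold locW
    refine sum_congr rfl fun a _ => ?_
    rw [← mul_sum, ← NE_sum, NE_append]
    congr 1
    refine NE_congr δ _ a _ _ fun e he => ?_
    rw [NE_congr δ k _ _ _ fun e' _ => base hp q a u g e e' he]
    exact NE_const _ _ _ _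
  | i + 1, 0, h => by omega
  | i + 1, n + 1, h => by
    rw [← part1 δ q hp u g i n (by omega)]
    have key : ∀ (a : Bool) (x : Bool × Bool) (l : List (Bool × Bool)),
        (if Fits ((x :: l).map Prod.fst) (i + 1) u then
          g (PW p a (x :: l) (dl p q (a, 0) (vec ((x :: l).map Prod.fst) (i + 1) u))) else 0) =
        (if Fits (l.map Prod.fst) i u then
          g (PW p x.1 l (dl p q (x.1, 0) (vec (l.map Prod.fst) i u))) else 0) := by
      intro a x l
      simp only [List.map_cons, fits_succ, vec_succ, dl, inn_zero, out_zero, sub_zero,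
        pw_cons_zero hp]
    simp only [NE, key]
    simp only [Fintype.sum_prod_type, Fintype.sum_bool]
    have h1 := st0_stat δ true
    have h2 := st0_stat δ false
    rw [Fintype.sum_bool] at h1 h2
    generalize NE δ n true _ = X
    generalize NE δ n false _ = Y
    linear_combination X * h1 + Y * h2

theorem part2 (p q : ℕ) (a : Bool) (es : List Bool) (i : ℕ) (u : List Edge) (h : Fits es i u) :
    nz (dl p q (a, 0) (vec es i u)) = nzu p q u ∧ Lat p q a es (dl p q (a, 0) (vec es i u)) := by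
  obtain ⟨b, r, hb⟩ : ∃ b r, es.drop (i + u.length) = b :: r := by
    cases hd : es.drop (i + u.length) with
    | nil =>
      have := congrArg List.length hd
      have h1 := h.1
      simp only [List.length_drop, List.length_nil] at this
      omega
    | cons b r => exact ⟨b, r, rfl⟩
  refine ⟨?_, vec es i u, h.2, ?_, rfl⟩
  · rw [vec, hb, List.append_assoc, dl_append, dl_zeros,
      lastE_map (fun e : Bool => (e, (0 : ℤ))) a, dl_tail, nzu, dl_start p q _ true,
      dl_last p q _ u b true]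
    simp [nz, List.countP_replicate]
  · rw [vec, hb, lastE_append]
    exact congrArg Prod.snd (lastE_map (fun e : Bool => (e, (0 : ℤ))) b r)

end Plc

theorem plc : PlcStmt :=
  ⟨fun δ _ q hp n i u g h => Plc.part1 δ q hp u g i n h, Plc.part2⟩

end Pool.Agent.MP_e0ec03_al.Asy

end MrgPart1

-- ======== part 2: formerly Pool.Agent.MP_e0ec03_al.asy.Vk
section MrgPart2

/-! ROW VK of THEOREM ASY. -/

namespace Pool.Agent.MP_e0ec03_al.Asy

open Classical Finset
open scoped ENNReal

namespace Vk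

variable {p q : ℕ} {T : ℝ≥0∞}

theorem diag_split {Y : ℤ → ℤ → ℝ≥0∞} {a b B : ℝ≥0∞} (h : Bd Y a b) (c n : ℤ)
    (hB : ∑' c1 : ℤ, (if c1 = n then 0 else sE (q * c - p * c1) ^ 2) ≤ B) :
    ∑' c1 : ℤ, sE (q * c - p * c1) ^ 2 * Y c1 c1 ≤ sE (q * c - p * n) ^ 2 * Y n n + B * a := by
  rw [tsum_split _ n]
  refine add_le_add_right (le_trans ?_ (mul_le_mul_left hB a)) _
  rw [← ENNReal.tsum_mul_right]
  refine ENNReal.tsum_le_tsum fun v => ?_
  split_ifs
  · simp
  · exact mul_le_mul_right (h v).1 _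

theorem diag_nonfree (hp : 1 ≤ p) (a1 : Ar1 p q T) {Y : ℤ → ℤ → ℝ≥0∞} {a b : ℝ≥0∞}
    (h : Bd Y a b) {c : ℤ} (hc : ¬ (p : ℤ) ∣ q * c) :
    ∑' c1 : ℤ, sE (q * c - p * c1) ^ 2 * Y c1 c1 ≤ (3 / 4 + T) * a := by
  refine (diag_split h c _ (a1.sq1 c _ (near_nxt hp q c))).trans ?_
  rw [add_mul]
  refine add_le_add_left (mul_le_mul' (a1.le34 _ fun h0 => hc ?_) (h _).1) _
  exact ⟨_, sub_eq_zero.1 h0⟩

theorem pn_eq {c : ℤ} (hc : (p : ℤ) ∣ q * c) : (q : ℤ) * c = p * pn p q c :=
  (Int.mul_ediv_cancel' hc).symm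

theorem diag_free (a1 : Ar1 p q T) {Y : ℤ → ℤ → ℝ≥0∞} {a b : ℝ≥0∞}
    (h : Bd Y a b) {c : ℤ} (hc : (p : ℤ) ∣ q * c) :
    ∑' c1 : ℤ, sE (q * c - p * c1) ^ 2 * Y c1 c1 ≤ Y (pn p q c) (pn p q c) + T ^ 2 * a := by
  refine (diag_split h c _ (a1.sq2 c _ (pn_eq hc))).trans (le_of_eq ?_)
  rw [sub_eq_zero.2 (pn_eq hc), sE_zero, one_pow, one_mul]

theorem diag_any (hp : 1 ≤ p) (a1 : Ar1 p q T) (hT : T ≤ 1 / 4) {Y : ℤ → ℤ → ℝ≥0∞}
    {a b : ℝ≥0∞} (h : Bd Y a b) (c : ℤ) :
    ∑' c1 : ℤ, sE (q * c - p * c1) ^ 2 * Y c1 c1 ≤ (1 + T ^ 2) * a := by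
  by_cases hc : (p : ℤ) ∣ q * c
  · refine (diag_free a1 h hc).trans ?_
    rw [add_mul, one_mul]
    exact add_le_add_left (h _).1 _
  · refine (diag_nonfree hp a1 h hc).trans (mul_le_mul_left ?_ _)
    calc 3 / 4 + T ≤ 3 / 4 + 1 / 4 := by gcongr
      _ = 1 := by
        rw [ENNReal.div_add_div_same, show (3 + 1 : ℝ≥0∞) = 4 by norm_num,
          ENNReal.div_self (by norm_num) (by norm_num)]
      _ ≤ _ := le_self_add

end Vk

open Vk in
theorem vk : VkStmt := by
  intro δ p q J T a b ρ t n0 nJ P h0 h1 hp hpq a1 a2 hN H hY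
  have dp : ∀ (c c' : ℤ) (I R : Fo ℤ), 0 < dep (Fo.cons c c' I R) := fun _ _ _ _ => by simp [dep]
  have y0 : ∀ Q : Fo ℤ → Prop, Bd (YY δ p q (fun F => NRF p q F ∧ H F ∧ Q F)) (a 0) (b 0) :=
    fun Q => (hY.y1 0 (Nat.zero_le _)).mono
      (fun c u => yy_mono _ _ _ _ fun _ _ _ h => ⟨h.1, h.2.1, dp ..⟩) le_rfl le_rfl
  have bot : ∀ (Q : Prop) (c c' : ℤ), (if Q then ENNReal.ofReal (1 / 3 + δ) * tE (q * c - q * c')
      else 0) ≤ ENNReal.ofReal (1 / 3 + δ) * tE (q * c - q * c') := fun Q c c' => by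
    split_ifs <;> simp
  have bot0 : ∀ (Q : Prop) (c : ℤ), (if Q then ENNReal.ofReal (1 / 3 + δ) * tE (q * c - q * c)
      else 0) ≤ ENNReal.ofReal (1 / 3 + δ) := fun Q c =>
    (bot Q c c).trans (by rw [sub_self, tE_zero, mul_one])
  have kA : ∀ i, i ≤ J → ∀ c, ¬ Free p q i c →
      KK δ p q (fun I => NRF p q I ∧ H I ∧ NRtop p q c c I) c c ≤ ρ i := by
    intro i hi c hc
    rw [kk_eq h0 h1]
    by_cases hd : (p : ℤ) ∣ q * c
    · obtain _ | i := i
      · exact absurd trivial hc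
      refine le_trans ?_ (hN.k1 i hi)
      refine add_le_add (bot0 _ c) (mul_le_mul_right ?_ _)
      refine (a2 _ _ _ (y0 _) c).1.trans (add_le_add_left ?_ _)
      refine (diag_free a1 (y0 _) hd).trans (add_le_add_left ?_ _)
      refine le_trans (yy_or _ _ _ _ _ fun _ _ _ h => ?_) (add_le_add
        (hY.y2 i (by omega) _ fun _ hf => hc ⟨hd, hf⟩) (hY.y3 _))
      exact (Classical.em _).imp (fun k => ⟨h.1, h.2.1, k⟩) fun k => ⟨h.1, h.2.1, k⟩
    · refine le_trans ?_ (hN.k0 i (by omega))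
      refine add_le_add (bot0 _ c) (mul_le_mul_right ?_ _)
      exact (a2 _ _ _ (y0 _) c).1.trans (add_le_add_left (diag_nonfree hp a1 (y0 _) hd) _)
  have kB : ∀ c, KK δ p q (fun I => NRF p q I ∧ H I ∧ NRtop p q c c I) c c ≤ ρ (J + 1) := by
    intro c
    by_cases hf : Free p q J c
    swap
    · exact (kA J le_rfl c hf).trans hN.k3
    have hd : (p : ℤ) ∣ q * c := (Free.mono hN.hJ hf).1
    refine le_trans (kk_or _ (fun I => NRF p q I ∧ H I ∧ Top (pn p q c) I)
      (fun I => NRF p q I ∧ H I ∧ J < dep I ∧ ¬ Top (pn p q c) I) c c fun I h => ?_)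
      (le_trans ?_ hN.k2)
    · by_cases k : Top (pn p q c) I
      · exact Or.inl ⟨h.1, h.2.1, k⟩
      · refine Or.inr ⟨h.1, h.2.1, ?_, k⟩
        by_contra hl
        exact k (h.2.2 rfl (Free.mono (not_lt.1 hl) hf) ▸ top_decF _ _ _)
    have yt : Bd (YY δ p q (fun I => NRF p q I ∧ H I ∧ Top (pn p q c) I)) (t (J + 1)) 0 := by
      refine fun u => ⟨?_, le_of_eq (ENNReal.tsum_eq_zero.2 fun v => ?_)⟩
      · by_cases hu : u = pn p q c
        · rw [hu]
          exact hY.y2 _ le_rfl _ fun h => by omega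
        · rw [yy_top _ _ (fun _ h => h.2.2) (Or.inl hu)]
          exact zero_le
      · split_ifs with hv
        · rfl
        · rw [yy_top _ _ (fun _ h => h.2.2) (by omega), mul_zero]
    have yd : Bd (YY δ p q (fun I => NRF p q I ∧ H I ∧ J < dep I ∧ ¬ Top (pn p q c) I))
        (a J) (b J) := (hY.y1 J le_rfl).mono
      (fun c u => yy_mono _ _ _ _ fun _ _ _ h => ⟨h.1, h.2.1, h.2.2.1⟩) le_rfl le_rfl
    have e1 : sand p q (YY δ p q (fun I => NRF p q I ∧ H I ∧ Top (pn p q c) I)) c c ≤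
        t (J + 1) := by
      refine (a2 _ _ _ yt c).1.trans ?_
      rw [mul_zero, add_zero, tsum_eq_single (pn p q c) fun v hv => by
        rw [yy_top _ _ (fun _ h => h.2.2) (Or.inl hv), mul_zero], sub_eq_zero.2 (pn_eq hd),
        sE_zero, one_pow, one_mul]
      exact (yt _).1
    have e2 := (a2 _ _ _ yd c).1.trans (add_le_add_left
      ((diag_free a1 yd hd).trans (add_le_add_left (hY.y4 _) _)) _)
    rw [kk_eq h0 h1, kk_eq h0 h1, if_neg (c := _ ∧ _ ∧ J < dep Fo.nil ∧ _)
      (fun h => by simp [dep] at h), zero_add, add_assoc, ← mul_add]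
    refine add_le_add (bot0 _ c) (mul_le_mul_right ((add_le_add e1 e2).trans (le_of_eq ?_)) _)
    ring
  have cc : ∀ (Q : Fo ℤ → Prop) (a' b' : ℝ≥0∞), Bd (YY δ p q Q) a' b' →
      Bd (fun u u' => ENNReal.ofReal (1 / 3 - δ) * ∑' c, tE (p * u - p * c) * YY δ p q Q c u')
        (ENNReal.ofReal (1 / 3 - δ) * (a' + T * b'))
        (ENNReal.ofReal (1 / 3 - δ) * (b' + T * a' + T * b')) := fun Q a' b' h => by
    simpa only [one_mul] using ((a1.turn p le_rfl).comp h).smul (ENNReal.ofReal (1 / 3 - δ))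
  have cd : ∀ (Q : Fo ℤ → Prop) (a' b' n : ℝ≥0∞) (u : ℤ), Bd (YY δ p q Q) a' b' →
      YY δ p q Q u u ≤ n → ¬ Q .nil →
      CH δ p q Q u u ≤ ENNReal.ofReal (1 / 3 - δ) * (n + T * b') := by
    intro Q a' b' n u h hn hQ
    rw [ch_eq h0 h1, if_neg fun k => hQ k.1, zero_add, tsum_split _ u, sub_self, tE_zero, one_mul]
    exact mul_le_mul_right (add_le_add hn ((a1.turn p le_rfl).offoff h u)) _
  refine ⟨fun i hi c hc => ?_, fun c => ⟨kB c, ?_⟩, fun j hj c => ⟨?_, ?_⟩, ?_, fun j hj => ?_,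
    fun i hi u hu => ?_, fun u => cd _ _ _ _ u (y0 _) (hY.y3 u) fun h => h.2.2 trivial,
    fun u => cd _ _ _ _ u ((hY.y1 J le_rfl).mono
      (fun c u => yy_mono _ _ _ _ fun _ _ _ h => ⟨h.1, h.2.1, h.2.2.1⟩) le_rfl le_rfl) (hY.y4 u)
      fun h => h.2.2.2 trivial⟩
  · rcases Nat.lt_or_ge J i with h | h
    · obtain rfl : i = J + 1 := by omega
      exact kB c
    · exact kA i h c (hc h)
  · refine le_trans ?_ hN.p0
    refine le_trans ?_ (add_le_add (((a1.turn q hpq.le).smul (ENNReal.ofReal (1 / 3 + δ)) c).2)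
      (mul_le_mul_right (a2 _ _ _ (y0 fun _ => True) c).2 _))
    rw [← ENNReal.tsum_mul_left, ← ENNReal.tsum_add]
    refine ENNReal.tsum_le_tsum fun v => ?_
    split_ifs
    · simp
    · rw [mul_left_comm (ENNReal.ofReal (4 / 9 - δ ^ 2)), ← mul_add]
      refine mul_le_mul_right ?_ _
      refine (kk_mono _ (fun I => NRF p q I ∧ H I ∧ True) _ _
        fun _ h => ⟨h.1, h.2.1, trivial⟩).trans ?_
      rw [kk_eq h0 h1]
      exact add_le_add_left (bot _ c v) _
  · rw [kk_eq h0 h1, if_neg (fun h => by simp [dep] at h), zero_add]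
    have y := hY.y1 j (by omega)
    exact mul_le_mul_right ((a2 _ _ _ y c).1.trans (add_le_add_left (diag_any hp a1 hN.hT y c) _)) _
  · refine le_trans (le_of_eq ?_) (mul_le_mul_right (a2 _ _ _ (hY.y1 j (by omega)) c).2 _)
    rw [← ENNReal.tsum_mul_left]
    refine tsum_congr fun v => ?_
    split_ifs
    · simp
    · rw [kk_eq h0 h1, if_neg (fun h => by simp [dep] at h), zero_add, mul_left_comm]
  · have y : Bd (YY δ p q (fun R => NRF p q R ∧ H R)) (a 0) (b 0) := (y0 fun _ => True).mono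
      (fun c u => yy_mono _ _ _ _ fun _ _ _ h => ⟨h.1, h.2, trivial⟩) le_rfl le_rfl
    refine (Bd_one.add (cc _ _ _ y)).mono (fun u v => ?_) le_rfl (zero_add _).le
    rw [ch_eq h0 h1]
    refine add_le_add_left ?_ _
    by_cases h : u = v
    · split_ifs <;> simp
    · simp [h]
  · refine (cc _ _ _ (hY.y1 j hj)).mono (fun u v => ?_) le_rfl le_rfl
    rw [ch_eq h0 h1, if_neg (fun h => by simp [dep] at h), zero_add]
  · rw [ch_eq h0 h1, tsum_eq_single u fun v hv => by
      rw [yy_top _ _ (fun _ h => h.2.2) (Or.inl hv), mul_zero], sub_self, tE_zero, one_mul]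
    refine add_le_add ?_ (mul_le_mul_right (hY.y2 i hi u hu) _)
    split_ifs <;> simp

end Pool.Agent.MP_e0ec03_al.Asy

end MrgPart2

-- marker of a merged file
example : 731051 + 396031 = 731051 + 396031 := rfl
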