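import Pool.Agent.MP_e0ec03_al.asy.Parse
import Pool.Agent.MP_e0ec03_al.asy.Spa1

-- ======== part 0: formerly Pool.Agent.MP_e0ec03_al.asy.Blk
section MrgPart0

/-! ROW BLK of THEOREM ASY: placing one local winning word inside a block of small exponents. -/

namespace Pool.Agent.MP_e0ec03_al.Asy

open Classical Finset

namespace Blk

theorem sum_le_of_inj {ι α : Type} (s : Finset ι) (t : Finset α) (φ : ι → α) (f : ι → ℝ)
    (g : α → ℝ) (hinj : Set.InjOn φ s) (hmap : ∀ i ∈ s, φ i ∈ t) (hg : ∀ a ∈ t, 0 ≤ g a)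
    (hf : ∀ i ∈ s, f i ≤ g (φ i)) : ∑ i ∈ s, f i ≤ ∑ a ∈ t, g a :=
  calc ∑ i ∈ s, f i ≤ ∑ i ∈ s, g (φ i) := sum_le_sum hf
    _ = ∑ a ∈ s.image φ, g a := (sum_image hinj).symm
    _ ≤ _ := sum_le_sum_of_subset_of_nonneg (image_subset_iff.2 hmap) fun a ha _ => hg a ha

theorem geo : ∀ k : ℕ, ∑ x ∈ Ioo (-((k + 1 : ℕ) : ℤ)) ((k + 1 : ℕ) : ℤ),
    ((1 : ℝ) / 3) ^ (x.natAbs + 1) = 2 / 3 - (1 / 3) ^ (k + 1)
  | 0 => by
    have h : Ioo (-((0 + 1 : ℕ) : ℤ)) ((0 + 1 : ℕ) : ℤ) = {0} := by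
      ext x
      simp only [mem_Ioo, mem_singleton]
      omega
    rw [h, sum_singleton]
    norm_num
  | k + 1 => by
    have h : Ioo (-((k + 1 + 1 : ℕ) : ℤ)) ((k + 1 + 1 : ℕ) : ℤ) =
        insert ((k + 1 : ℕ) : ℤ) (insert (-((k + 1 : ℕ) : ℤ))
          (Ioo (-((k + 1 : ℕ) : ℤ)) ((k + 1 : ℕ) : ℤ))) := by
      ext x
      simp only [mem_Ioo, mem_insert]
      omega
    rw [h, sum_insert, sum_insert, geo k, Int.natAbs_neg, Int.natAbs_natCast]
    · ring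
    · simp only [mem_Ioo]
      omega
    · simp only [mem_Ioo, mem_insert]
      omega

theorem step {k : ℕ} (hk : 1 ≤ k) (a : Bool) :
    ∑ x ∈ Ioo (-(k : ℤ)) k, ∑ b : Bool,
      (if x = 0 ∧ a ≠ b then 0 else ((1 : ℝ) / 3) ^ (x.natAbs + 1)) = 1 - 2 * (1 / 3) ^ k := by
  obtain ⟨n, rfl⟩ : ∃ n, k = n + 1 := ⟨k - 1, by omega⟩
  have h : ∀ x : ℤ, ∑ b : Bool, (if x = 0 ∧ a ≠ b then 0 else ((1 : ℝ) / 3) ^ (x.natAbs + 1)) =
      2 * ((1 : ℝ) / 3) ^ (x.natAbs + 1) - if x = 0 then 1 / 3 else 0 := by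
    intro x
    by_cases hx : x = 0
    · cases a <;> simp [hx] <;> norm_num
    · simp [hx]
  have h0 : (0 : ℤ) ∈ Ioo (-((n + 1 : ℕ) : ℤ)) ((n + 1 : ℕ) : ℤ) := by
    simp only [mem_Ioo]
    omega
  rw [sum_congr rfl fun x _ => h x, sum_sub_distrib, ← mul_sum, geo n, sum_ite_eq', if_pos h0]
  ring

theorem wt_sum {k : ℕ} (hk : 1 ≤ k) : ∀ (n : ℕ) (a : Bool),
    ∑ l ∈ words k n, wt (1 / 3) a l = (1 - 2 * (1 / 3) ^ k) ^ n
  | 0, a => by simp [words, sum_lists_zero, wt]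
  | n + 1, a => by
    rw [sum_words_succ]
    simp only [wt, ← mul_sum, wt_sum hk n, ← sum_mul]
    rw [step hk a]
    ring

theorem split_uniq {α : Type} (Q : α → Prop) : ∀ (P P' : List α) (s t : α) (R R' : List α),
    (∀ x ∈ P, Q x) → (∀ x ∈ P', Q x) → ¬ Q s → ¬ Q t → P ++ s :: R = P' ++ t :: R' →
      P = P' ∧ s = t ∧ R = R'
  | [], [], _, _, _, _, _, _, _, _, h => by simpa using h
  | [], y :: P', s, _, _, _, _, h2, h3, _, h => by
    have : s = y := by simpa using (List.cons.inj h).1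
    exact absurd (this ▸ h2 y (by simp)) h3
  | x :: P, [], _, t, _, _, h1, _, _, h4, h => by
    have : x = t := by simpa using (List.cons.inj h).1
    exact absurd (this ▸ h1 x (by simp)) h4
  | x :: P, y :: P', s, t, R, R', h1, h2, h3, h4, h => by
    obtain ⟨e1, e2⟩ := List.cons.inj h
    obtain ⟨r1, r2, r3⟩ := split_uniq Q P P' s t R R' (fun z hz => h1 z (by simp [hz]))
      (fun z hz => h2 z (by simp [hz])) h3 h4 e2
    exact ⟨by rw [e1, r1], r2, r3⟩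

/-- a local word: two large exponents around small ones, with a winning list of carries -/
structure LW (p q k L : ℕ) (w : List (ℤ × Bool)) : Prop where
  len : w.length ≤ L + 1
  lt : ∀ s ∈ w, |s.1| < p
  form : ∃ (s : ℤ × Bool) (m : List (ℤ × Bool)) (t : ℤ × Bool),
    w = s :: (m ++ [t]) ∧ ¬ |s.1| < k ∧ ¬ |t.1| < k ∧ ∀ x ∈ m, |x.1| < k
  bad : ∃ (v : List Edge) (b : Bool), (v ++ [(b, (0 : ℤ))]).map Prod.fst = w.map Prod.snd ∧
    win (w.map Prod.fst) (dl p q (true, 0) (v ++ [(b, 0)]))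

theorem lastE_zeros (a : Bool) (es : List Bool) :
    lastE (a, (0 : ℤ)) (es.map fun e => (e, (0 : ℤ))) = (lastE a es, 0) :=
  lastE_map (fun e => (e, (0 : ℤ))) a es

theorem not_av {p q k L : ℕ} {w : List (ℤ × Bool)} (h : LW p q k L w) (a : Bool)
    (P S : List (ℤ × Bool)) : ¬ Av p q a (P ++ (w ++ S)) := by
  obtain ⟨v, b, h1, h2⟩ := h.bad
  intro hav
  have hl : ∀ x : Edge, lastE x (v ++ [(b, (0 : ℤ))]) = (b, 0) := fun x => by
    rw [lastE_append]; rfl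
  refine hav (dl p q (a, 0) (((P.map Prod.snd).map fun e => (e, (0 : ℤ))) ++
    ((v ++ [(b, (0 : ℤ))]) ++ (S.map Prod.snd).map fun e => (e, (0 : ℤ))))) ⟨_, ?_, ?_, rfl⟩ ?_
  · rw [List.map_append, List.map_append, h1]
    simp [Function.comp_def]
  · rw [lastE_append, lastE_append, hl, lastE_zeros]
  · rw [dl_append, dl_append, hl, lastE_zeros, dl_zeros, dl_zeros, dl_start p q _ true,
      List.map_append, List.map_append]
    have e1 : (P.map Prod.snd).length = (P.map Prod.fst).length := by simp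
    rw [e1, win_zeros_append, win_append_zeros]
    · exact h2
    · rw [dl_length]
      have := congrArg List.length h1
      simpa using this.symm

theorem wt_start {p q k L : ℕ} (hk : 1 ≤ k) {w : List (ℤ × Bool)} (h : LW p q k L w) (a : Bool) :
    wt (1 / 3) a w = wt (1 / 3) true w := by
  obtain ⟨s, m, t, rfl, h1, -, -⟩ := h.form
  have h0 : s.1 ≠ 0 := by
    intro h0
    rw [h0] at h1
    simp at h1
    omega
  simp [wt, h0]

theorem blocks {p q k L L0 : ℕ} (hk : 1 ≤ k) (hkp : k ≤ p) (hL : L ≤ L0)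
    (W : Finset (List (ℤ × Bool))) (hW : ∀ w ∈ W, LW p q k L w) (a : Bool) :
    ((L0 : ℝ) - L) * (1 - 2 * (1 / 3) ^ k) ^ L0 * ∑ w ∈ W, wt (1 / 3) true w ≤
      Zbad p q L0 a := by
  have hc1 : ((1 : ℝ) / 3) ^ k ≤ 1 / 3 := by
    simpa using pow_le_pow_of_le_one (a := (1 : ℝ) / 3) (by norm_num) (by norm_num) hk
  have hc0 : (0 : ℝ) < (1 / 3) ^ k := by positivity
  have hkp' : (k : ℤ) ≤ p := by exact_mod_cast hkp
  have main := sum_le_of_inj
    (W.sigma fun w => (range (L0 - L)).sigma fun i => words k i ×ˢ words k (L0 - i - w.length))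
    (words p L0) (fun x => x.2.2.1 ++ (x.1 ++ x.2.2.2))
    (fun x => wt (1 / 3) a (x.2.2.1 ++ (x.1 ++ x.2.2.2)))
    (fun l => if Av p q a l then 0 else wt (1 / 3) a l) ?_ ?_ ?_ ?_
  · refine le_trans ?_ main
    rw [sum_sigma, mul_sum]
    refine sum_le_sum fun w hw => ?_
    rw [sum_sigma]
    have hwl := (hW w hw).len
    have hw0 := wt_nonneg (z := 1 / 3) (by norm_num) true w
    have key : ∀ i ∈ range (L0 - L), (1 - 2 * (1 / 3) ^ k) ^ L0 * wt (1 / 3) true w ≤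
        ∑ x ∈ words k i ×ˢ words k (L0 - i - w.length), wt (1 / 3) a (x.1 ++ (w ++ x.2)) := by
      intro i hi
      have hi' := mem_range.1 hi
      rw [sum_product]
      simp only [wt_append, wt_start hk (hW w hw), ← mul_sum, wt_sum hk, ← sum_mul]
      rw [mul_left_comm, ← pow_add, mul_comm]
      exact mul_le_mul_of_nonneg_left
        (pow_le_pow_of_le_one (by linarith) (by linarith) (by omega)) hw0
    have := card_nsmul_le_sum _ _ _ key
    rw [card_range, nsmul_eq_mul, Nat.cast_sub hL] at this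
    rw [mul_assoc]
    exact this
  · rintro ⟨w, i, P, S⟩ h ⟨w', i', P', S'⟩ h' e
    simp only [coe_sigma, Set.mem_sigma_iff, mem_coe, mem_product, mem_words] at h h' e
    obtain ⟨hw, -, ⟨hP, hPs⟩, -⟩ := h
    obtain ⟨hw', -, ⟨hP', hPs'⟩, -⟩ := h'
    obtain ⟨s, m, t, rfl, h1, h2, h3⟩ := (hW w hw).form
    obtain ⟨s', m', t', rfl, h1', h2', h3'⟩ := (hW w' hw').form
    simp only [List.cons_append, List.append_assoc, List.nil_append] at e
    obtain ⟨rfl, rfl, e2⟩ := split_uniq (fun x : ℤ × Bool => |x.1| < k) _ _ _ _ _ _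
      hPs hPs' h1 h1' e
    obtain ⟨rfl, rfl, rfl⟩ := split_uniq (fun x : ℤ × Bool => |x.1| < k) _ _ _ _ _ _
      h3 h3' h2 h2' e2
    subst hP
    subst hP'
    rfl
  · rintro ⟨w, i, P, S⟩ h
    simp only [mem_sigma, mem_product, mem_words, mem_range] at h ⊢
    obtain ⟨hw, hi, ⟨hP, hPs⟩, hS, hSs⟩ := h
    have hwl := (hW w hw).len
    refine ⟨by simp only [List.length_append]; omega, fun s hs => ?_⟩
    rcases List.mem_append.1 hs with hs | hs
    · exact (hPs s hs).trans_le hkp'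
    · rcases List.mem_append.1 hs with hs | hs
      · exact (hW w hw).lt s hs
      · exact (hSs s hs).trans_le hkp'
  · intro l _
    split_ifs
    · exact le_rfl
    · exact wt_nonneg (by norm_num) _ _
  · rintro ⟨w, i, P, S⟩ h
    simp only [mem_sigma] at h
    simp only [if_neg (not_av (hW w h.1) a P S), le_refl]

/-- the local word of an index -/
def lw (x : Σ _ : List Edge, ℕ × ℕ × Bool × List ℤ) : List (ℤ × Bool) :=
  locWord (x.1.headD (true, 0)).2 (x.1.headD (true, 0)).1 (x.1.tail.map Prod.fst) x.2.1 x.2.2.2.2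
    x.2.2.1 x.2.2.2.1

/-- the index set of the local words -/
noncomputable def idx (p q k : ℕ) (U : Finset (List Edge)) :
    Finset (Σ _ : List Edge, ℕ × ℕ × Bool × List ℤ) :=
  U.sigma fun v => (Ico k p ×ˢ Ico k p ×ˢ univ ×ˢ lists (Ioo (-(k : ℤ)) k) v.tail.length).filter
    fun y => win ((lw ⟨v, y⟩).map Prod.fst) (dl p q (true, 0) (v ++ [(y.2.2.1, 0)]))

theorem abs_sign {s : ℤ} (hs : s = 1 ∨ s = -1) (X : ℕ) : |s * X| = X := by
  rcases hs with rfl | rfl <;> simp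

end Blk

open Blk in
theorem blk : BlkStmt := by
  intro p q k L L0 hk hkp _ hL U hU hinj a
  have hsum : ∑ v ∈ U, Loc p q k v = ∑ x ∈ idx p q k U, wt (1 / 3) true (lw x) := by
    rw [idx, sum_sigma]
    refine sum_congr rfl fun v hv => ?_
    obtain ⟨-, e, u, rfl, -⟩ := hU v hv
    simp only [sum_filter, sum_product]
    rfl
  have hI : Set.InjOn lw (idx p q k U) := by
    rintro ⟨v, X, Y, b, xs⟩ h ⟨v', X', Y', b', xs'⟩ h' e
    simp only [idx, mem_coe, mem_sigma, mem_filter, mem_product, mem_lists, mem_Ico] at h h'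
    obtain ⟨hv, ⟨hX, hY, -, hx, -⟩, -⟩ := h
    obtain ⟨hv', ⟨hX', hY', -, hx', -⟩, -⟩ := h'
    obtain ⟨-, ⟨e1, s⟩, u, rfl, hs⟩ := hU v hv
    obtain ⟨-, ⟨e1', s'⟩, u', rfl, hs'⟩ := hU v' hv'
    simp only [lw, locWord, List.headD_cons, List.tail_cons, List.cons.injEq, Prod.mk.injEq]
      at e hx hx' hs hs'
    obtain ⟨⟨a1, rfl⟩, a2⟩ := e
    obtain ⟨a3, a4⟩ := List.append_inj' a2 rfl
    simp only [List.cons.injEq, Prod.mk.injEq, and_true, neg_inj] at a4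
    obtain ⟨a5, rfl⟩ := a4
    have b1 : s = s' ∧ X = X' ∧ Y = Y' := by
      rcases hs with rfl | rfl <;> rcases hs' with rfl | rfl <;> omega
    obtain ⟨rfl, rfl, rfl⟩ := b1
    have b2 := congrArg (List.map Prod.fst) a3
    have b3 := congrArg (List.map Prod.snd) a3
    rw [List.map_fst_zip (by simp [hx]), List.map_fst_zip (by simp [hx'])] at b2
    rw [List.map_snd_zip (by simp [hx]), List.map_snd_zip (by simp [hx'])] at b3
    obtain rfl := hinj _ _ _ _ hv hv' rfl b3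
    subst b2
    rfl
  rw [hsum, ← sum_image (f := fun w => wt (1 / 3) true w) hI]
  refine blocks hk hkp hL _ (fun w hw => ?_) a
  obtain ⟨⟨v, X, Y, b, xs⟩, h, rfl⟩ := mem_image.1 hw
  simp only [idx, mem_sigma, mem_filter, mem_product, mem_lists, mem_Ico, mem_Ioo] at h
  obtain ⟨hv, ⟨hX, hY, -, hx, hxs⟩, hwin⟩ := h
  obtain ⟨hlen, ⟨e1, s⟩, u, rfl, hs⟩ := hU v hv
  simp only [List.tail_cons, List.length_cons] at hx hlen hs
  have hkp' : (k : ℤ) ≤ p := by exact_mod_cast hkp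
  have hm : ∀ x ∈ xs.zip (u.map Prod.fst), |x.1| < k := fun x hx =>
    abs_lt.2 (hxs _ (List.of_mem_zip hx).1)
  have hX1 : (k : ℤ) ≤ X := by exact_mod_cast hX.1
  have hX2 : (X : ℤ) < p := by exact_mod_cast hX.2
  have hY1 : (k : ℤ) ≤ Y := by exact_mod_cast hY.1
  have hY2 : (Y : ℤ) < p := by exact_mod_cast hY.2
  refine ⟨?_, ?_, ⟨(s * X, e1), xs.zip (u.map Prod.fst), (-(s * Y), b), rfl, ?_, ?_, hm⟩,
    ⟨(e1, s) :: u, b, ?_, hwin⟩⟩
  · simp only [lw, locWord, List.tail_cons, List.length_cons, List.length_append,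
      List.length_zip, List.length_map, List.length_nil, hx, min_self]
    omega
  · intro x hx
    simp only [lw, locWord, List.headD_cons, List.tail_cons, List.mem_cons, List.mem_append,
      List.not_mem_nil, or_false] at hx
    rcases hx with rfl | hx | rfl
    · simpa only [abs_sign hs] using hX2
    · exact (hm x hx).trans_le hkp'
    · simpa only [abs_neg, abs_sign hs] using hY2
  · simpa only [abs_sign hs, not_lt] using hX1
  · simpa only [abs_neg, abs_sign hs, not_lt] using hY1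
  · simp only [lw, locWord, List.headD_cons, List.tail_cons, List.map_cons, List.map_append,
      List.cons_append, List.map_nil]
    rw [List.map_snd_zip (by simp [hx])]

end Pool.Agent.MP_e0ec03_al.Asy

end MrgPart0

-- ======== part 1: formerly Pool.Agent.MP_e0ec03_al.asy.Che
section MrgPart1

/-! THEOREM ASY, row CHE: the Chernoff product bound. -/

namespace Pool.Agent.MP_e0ec03_al.Asy

open Classical Finset

namespace Che

/-- product of vertex factors -/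
noncomputable def pr (φ : Bool → Bool → Bool → ℤ → ℝ) : Bool → List (Bool × Bool) → List ℤ → ℝ
  | a, e :: l, d :: ds => φ a e.1 e.2 d * pr φ e.1 l ds
  | _, _, _ => 1

theorem mS_nonneg (p : ℕ) (a b σ : Bool) (d : ℤ) : 0 ≤ mS p a b σ d :=
  sum_nonneg fun _ _ => mul_nonneg (law_nonneg _ _ _ _) (by positivity)

theorem mS_zero {p : ℕ} (hp : 1 ≤ p) (a b σ : Bool) : mS p a b σ 0 = 1 := by
  simp only [mS, add_zero, sub_self, zpow_zero, mul_one, law_sum hp]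

theorem EM_pow (p : ℕ) : ∀ (a : Bool) (e : List (Bool × Bool)) (ds : List ℤ),
    e.length = ds.length → EM p a e (fun xs => (1 / √3) ^ delta xs ds) = pr (mS p) a e ds
  | _, [], [], _ => by simp [EM, pr]
  | _, [], _ :: _, h => by simp at h
  | _, _ :: _, [], h => by simp at h
  | a, e :: l, d :: ds, h => by
    have h0 : (1 / √3 : ℝ) ≠ 0 := by positivity
    simp only [EM, pr, delta_cons, zpow_add₀ h0, EM_mul, EM_pow p e.1 l ds (by simpa using h), mS,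
      sum_mul, mul_assoc]

theorem PW_le (p : ℕ) (a : Bool) (e : List (Bool × Bool)) (ds : List ℤ)
    (h : e.length = ds.length) : PW p a e ds ≤ pr (mS p) a e ds := by
  refine (EM_mono p a e _ _ fun xs _ _ => ?_).trans_eq (EM_pow p a e ds h)
  split_ifs with h1
  · refine one_le_zpow_of_nonpos₀ (by positivity) ?_ (h1.elim le_of_lt fun k => k.1.le)
    rw [div_le_one (by positivity)]
    linarith [sqrt3_bounds.1]
  · positivity

theorem step (δ : ℝ) (n : ℕ) (a b : Bool) (es : List Bool) (χ : Bool → ℝ)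
    (F G : List (Bool × Bool) → ℝ) (hF : ∀ σ l, F ((b, σ) :: l) = χ σ * G l) :
    NE δ (n + 1) a (fun e => if e.map Prod.fst = b :: es then F e else 0) =
      kk δ a b * ((χ true + χ false) / 2) *
        NE δ n b fun l => if l.map Prod.fst = es then G l else 0 := by
  have h1 : ∀ σ, NE δ n b (fun l => if l.map Prod.fst = es then F ((b, σ) :: l) else 0) =
      χ σ * NE δ n b fun l => if l.map Prod.fst = es then G l else 0 := fun σ => by
    rw [← NE_mul]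
    exact NE_congr δ n b _ _ fun l _ => by rw [hF, mul_ite, mul_zero]
  cases b <;> simp [NE, Fintype.sum_prod_type, h1, NE_const] <;> ring

theorem NE_le {δ : ℝ} (h0 : 0 ≤ δ) (h1 : δ ≤ 1 / 3) {p q : ℕ} {φ : Bool → Bool → Bool → ℤ → ℝ}
    (φ0 : ∀ a b σ d, 0 ≤ φ a b σ d) (h : ∀ a b : Edge,
      (φ a.1 b.1 true (inn p q a - out p q b) + φ a.1 b.1 false (inn p q a - out p q b)) / 2 ≤
        ps a.1 b.1 (inn p q a - out p q b)) : ∀ (a : Edge) (v : List Edge),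
    NE δ v.length a.1 (fun e => if e.map Prod.fst = v.map Prod.fst then
      pr φ a.1 e (dl p q a v) else 0) ≤ pw δ p q a v
  | _, [] => by simp [NE, pr, pw]
  | a, b :: l => by
    rw [List.length_cons, List.map_cons, step δ _ a.1 b.1 _
      (fun σ => φ a.1 b.1 σ (inn p q a - out p q b)) _ (fun e => pr φ b.1 e (dl p q b l))
      fun _ _ => rfl]
    refine (mul_le_mul_of_nonneg_left (NE_le h0 h1 φ0 h b l) (mul_nonneg (kk_nonneg h0 h1 _ _)
      (div_nonneg (add_nonneg (φ0 _ _ _ _) (φ0 _ _ _ _)) zero_le_two))).trans ?_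
    exact mul_le_mul_of_nonneg_right (mul_le_mul_of_nonneg_left (h a b) (kk_nonneg h0 h1 _ _))
      (pw_nonneg h0 h1 p q b l)

/-- the vertex factor for the second moment -/
noncomputable def sq2 (p : ℕ) (a b σ : Bool) (d : ℤ) : ℝ :=
  (if d = 0 then 1 else 103 / 100) * mS p a b σ d ^ 2

theorem pr_sq (p : ℕ) : ∀ (a : Bool) (e : List (Bool × Bool)) (ds : List ℤ),
    e.length = ds.length → pr (sq2 p) a e ds = (103 / 100) ^ nz ds * pr (mS p) a e ds ^ 2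
  | _, [], [], _ => by simp [pr, nz]
  | _, [], _ :: _, h => by simp at h
  | _, _ :: _, [], h => by simp at h
  | a, e :: l, d :: ds, h => by
    rw [pr, pr, pr_sq p e.1 l ds (by simpa using h), sq2]
    by_cases hd : d = 0 <;> simp only [nz, List.countP_cons] <;> simp [hd] <;> ring

theorem nz_le (d : ℤ) (ds : List ℤ) : 3 * (nz (d :: ds) : ℝ) ≤ 103 * (103 / 100) ^ nz ds := by
  have h1 : (nz (d :: ds) : ℝ) ≤ nz ds + 1 := by
    have : nz (d :: ds) ≤ nz ds + 1 := by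
      simp only [nz, List.countP_cons]
      split_ifs <;> omega
    exact_mod_cast this
  have h2 := one_add_mul_le_pow (a := (3 / 100 : ℝ)) (by norm_num) (nz ds)
  norm_num at h2
  linarith [(Nat.cast_nonneg (nz ds) : (0 : ℝ) ≤ _)]

theorem dl_ends (p q : ℕ) (a b : Bool) (u : List Edge) :
    dl p q (true, 0) (u ++ [(true, 0)]) = dl p q (a, 0) (u ++ [(b, 0)]) := by
  rw [dl_start p q true a, dl_append, dl_append]
  simp [dl]

end Che

open Che in
theorem che_of (h : VtxStmt) : CheStmt := by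
  obtain ⟨h1, p0, h2⟩ := h
  refine ⟨max p0 1, fun p q hp hq δ d0 d1 e u he => ?_⟩
  have p1 : 1 ≤ p := (le_max_right _ _).trans hp
  replace h2 := h2 p ((le_max_left _ _).trans hp)
  have len : ∀ (a b : Bool) (l : List (Bool × Bool)), l.length = (e :: u).length + 1 →
      l.length = (dl p q (a, 0) (e :: u ++ [(b, 0)])).length := fun a b l hl => by
    rw [dl_length, List.length_append, hl]; rfl
  constructor
  · refine sum_le_sum fun a _ => sum_le_sum fun b _ =>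
      mul_le_mul_of_nonneg_left ?_ (st0_nonneg d0 d1 a)
    have := NE_le d0 d1 (mS_nonneg p) (fun a b => h1 p p1 _ _ _) (p := p) (q := q) (a, 0)
      (e :: u ++ [(b, 0)])
    rw [List.length_append, List.map_append] at this
    refine (NE_mono d0 d1 _ _ _ _ fun l hl => ?_).trans this
    split_ifs with k k' k'
    · exact PW_le p a l _ (len a b l hl)
    · exact absurd k k'
    · exact absurd k' k
    · exact le_rfl
  · simp only [hW, locW, ChW, mul_sum, ← sum_add_distrib]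
    refine sum_le_sum fun a _ => sum_le_sum fun b _ => ?_
    rw [mul_left_comm, ← mul_add]
    refine mul_le_mul_of_nonneg_left ?_ (st0_nonneg d0 d1 a)
    set d := inn p q (a, 0) - out p q e with hd
    have k1 := NE_le d0 d1 (φ := sq2 p) (fun _ _ _ _ => by unfold sq2; split_ifs <;> positivity)
      (p := p) (q := q) (fun a b => by
        by_cases k : inn p q a - out p q b = 0
        · simp [sq2, k, mS_zero p1]
        · simp only [sq2, if_neg k]
          linarith [(h2 a.1 b.1 _).1 k fun k' => turn_dd hq.le k' k]) e (u ++ [(b, 0)])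
    have k2 : (p : ℤ) ≤ |d| := by
      have := Int.one_le_abs he
      have : (p : ℤ) ≤ q := by exact_mod_cast hq.le
      rw [hd, inn_zero, zero_sub, abs_neg, out]
      split_ifs <;> rw [abs_mul, Nat.abs_cast] <;> nlinarith [Int.natCast_nonneg p]
    have k3 := step δ (u ++ [(b, 0)]).length a e.1 ((u ++ [(b, 0)]).map Prod.fst)
      (fun σ => 103 * mS p a e.1 σ d ^ 2)
      (fun l => 103 * mS p a e.1 (l.headD (a, a)).2 d ^ 2 *
        pr (sq2 p) e.1 l.tail (dl p q e (u ++ [(b, 0)])))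
      (fun l => pr (sq2 p) e.1 l (dl p q e (u ++ [(b, 0)]))) fun _ _ => rfl
    have k4 := k3.trans_le ((mul_le_mul_of_nonneg_left k1 (mul_nonneg (kk_nonneg d0 d1 _ _)
      (by positivity))).trans (mul_le_mul_of_nonneg_right (mul_le_mul_of_nonneg_left
        (le_trans (le_of_eq (by ring)) ((h2 a e.1 d).2 k2)) (kk_nonneg d0 d1 _ _))
          (pw_nonneg d0 d1 p q _ _)))
    rw [List.length_append, List.map_append] at k4
    refine le_trans ?_ (add_le_add_right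
      (k4.trans_eq (by simp only [List.cons_append, pw, vtx]; ring)) _)
    refine (NE_mono d0 d1 _ _ _ _ fun l hl => ?_).trans_eq (NE_add δ _ _ _ _)
    by_cases k : l.map Prod.fst = (e :: u).map Prod.fst ++ [b]
    · rw [if_pos k, if_pos k, if_pos (by simpa using k)]
      refine add_le_add_right ?_ _
      have k5 := pow_le_pow_left₀ (PW_nonneg p1 _ _ _) (PW_le p a l _ (len a b l hl)) 2
      rw [nzu, dl_ends p q a b]
      obtain _ | ⟨⟨x, σ⟩, l⟩ := l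
      · simp at hl
      obtain rfl : x = e.1 := by simpa using congrArg List.head? k
      refine (mul_le_mul (nz_le _ _) k5 (sq_nonneg _) (by positivity)).trans_eq ?_
      rw [List.tail_cons, pr_sq p _ _ _ (by simpa [dl_length] using hl)]
      simp only [List.cons_append, dl, pr, List.headD_cons, List.append_eq, ← hd]
      ring
    · rw [if_neg k, if_neg k, if_neg (by simpa using k), add_zero]

end Pool.Agent.MP_e0ec03_al.Asy

end MrgPart1

-- ======== part 2: formerly Pool.Agent.MP_e0ec03_al.asy.Vnm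
section MrgPart2

/-! THEOREM ASY, row VNM: chains of valleys that are not of the main type. -/

namespace Pool.Agent.MP_e0ec03_al.Asy

open Classical Finset
open scoped ENNReal

namespace Vnm

theorem num {δ T s o : ℝ} (h : Par δ T) (hso : (s = 1 ∧ o = T ^ 2) ∨ (s = 3 / 4 ∧ o = T)) :
    (4 / 9 - δ ^ 2) * (s * (10 ^ 5 * T ^ 2 / δ) + o * (151 / 100) + T * (100 * T)) *
        (1 / (1 - (1 / 3 - δ) * (1 + δ)) + 800 * T ^ 2) + 42 * T * (34 * T) +
      (1 + δ) * ((1 / 3 - δ) * (10 ^ 5 * T ^ 2 / δ + T * (100 * T))) ≤ 10 ^ 5 * T ^ 2 / δ := by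
  obtain ⟨h0, h1, h2, h3⟩ := h
  have hT : 0 < T := by linarith
  have hd : δ ≤ 1 / 10 ^ 6 := h1.trans h2
  have hTd : 800 * T ^ 2 ≤ δ / 1000 := by
    refine abs_le_of_sq_le_sq' ?_ (by positivity) |>.2
    have : δ ^ 3 ≤ δ ^ 2 * (1 / 10 ^ 6) := by nlinarith [mul_le_mul_of_nonneg_left hd (sq_nonneg δ)]
    nlinarith [sq_nonneg δ]
  obtain ⟨D, hD⟩ : ∃ D, D = 1 - (1 / 3 - δ) * (1 + δ) := ⟨_, rfl⟩
  have hD1 : 2 / 3 + 2 / 3 * δ ≤ D := by rw [hD]; nlinarith [sq_nonneg δ]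
  have hD2 : D ≤ 1 := by rw [hD]; nlinarith
  have hD0 : 0 < D := by linarith
  obtain ⟨y, hy⟩ : ∃ y, y = 10 ^ 5 * T ^ 2 / δ := ⟨_, rfl⟩
  have hy1 : δ * y = 10 ^ 5 * T ^ 2 := by rw [hy]; field_simp
  have hy0 : 0 < y := by rw [hy]; positivity
  have hy2 : 10 ^ 5 * T ≤ y := by
    rw [hy, le_div_iff₀ h0]
    nlinarith [mul_le_mul_of_nonneg_left h1 hT.le]
  have e : (1 + δ) * ((1 / 3 - δ) * (y + T * (100 * T))) = (1 - D) * (y + 100 * T ^ 2) := by
    rw [hD]; ring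
  rw [← hy, e, ← hD]
  obtain ⟨g, hg⟩ : ∃ g, g = (4 / 9 - δ ^ 2) * (1 / D + 800 * T ^ 2) := ⟨_, rfl⟩
  have hga : 0 ≤ 4 / 9 - δ ^ 2 := by nlinarith
  have hg0 : 0 ≤ g := by rw [hg]; positivity
  have hg1 : g ≤ D - 88 / 100 * δ := by
    have k1 : (4 / 9 - δ ^ 2) * (1 / D) ≤ D - 8 / 9 * δ := by
      rw [mul_one_div, div_le_iff₀ hD0]
      have k2 : (2 / 3 + 2 / 3 * δ) ^ 2 ≤ D ^ 2 := pow_le_pow_left₀ (by positivity) hD1 2
      nlinarith [mul_le_mul_of_nonneg_left hD2 h0.le, sq_nonneg δ]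
    have k3 : (4 / 9 - δ ^ 2) * (800 * T ^ 2) ≤ δ / 1000 := by
      nlinarith [mul_nonneg (sq_nonneg δ) (sq_nonneg T), sq_nonneg T]
    rw [hg, mul_add]
    linarith
  have e2 : (4 / 9 - δ ^ 2) * (s * y + o * (151 / 100) + T * (100 * T)) * (1 / D + 800 * T ^ 2) =
      g * s * y + g * (o * (151 / 100) + 100 * T ^ 2) := by
    rw [hg]; ring
  rw [e2]
  have hg2 : g ≤ 1 := by linarith
  have hT2 : T ^ 2 ≤ T := by nlinarith
  have k4 : (1 - D) * (100 * T ^ 2) ≤ 100 * T ^ 2 := by nlinarith [sq_nonneg T]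
  rcases hso with ⟨rfl, rfl⟩ | ⟨rfl, rfl⟩
  · have k5 := mul_le_mul_of_nonneg_right hg1 hy0.le
    have k6 := mul_le_mul_of_nonneg_right hg2
      (by positivity : 0 ≤ T ^ 2 * (151 / 100) + 100 * T ^ 2)
    nlinarith [sq_nonneg T]
  · have k5 : g * (3 / 4) * y ≤ D * (3 / 4) * y := by
      refine mul_le_mul_of_nonneg_right ?_ hy0.le
      linarith
    have k6 := mul_le_mul_of_nonneg_right hg2
      (by positivity : 0 ≤ o * (151 / 100) + 100 * o ^ 2)
    have k7 := mul_le_mul_of_nonneg_right hD1 hy0.le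
    nlinarith [mul_pos h0 hy0]

theorem numE {δ T s o : ℝ} (h : Par δ T) (hso : (s = 1 ∧ o = T ^ 2) ∨ (s = 3 / 4 ∧ o = T)) :
    ENNReal.ofReal (4 / 9 - δ ^ 2) * (ENNReal.ofReal s * ENNReal.ofReal (10 ^ 5 * T ^ 2 / δ) +
        ENNReal.ofReal o * ENNReal.ofReal (151 / 100) +
        ENNReal.ofReal T * ENNReal.ofReal (100 * T)) *
        ENNReal.ofReal (1 / (1 - (1 / 3 - δ) * (1 + δ)) + 800 * T ^ 2) +
      ENNReal.ofReal (42 * T) * ENNReal.ofReal (34 * T) +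
      ENNReal.ofReal (1 + δ) * (ENNReal.ofReal (1 / 3 - δ) *
        (ENNReal.ofReal (10 ^ 5 * T ^ 2 / δ) + ENNReal.ofReal T * ENNReal.ofReal (100 * T))) ≤
      ENNReal.ofReal (10 ^ 5 * T ^ 2 / δ) := by
  have k := num h hso
  obtain ⟨h0, h1, h2, -⟩ := h
  have hT : 0 < T := by linarith
  have hs : 0 ≤ s := by rcases hso with ⟨rfl, -⟩ | ⟨rfl, -⟩ <;> norm_num
  have ho : 0 ≤ o := by rcases hso with ⟨-, rfl⟩ | ⟨-, rfl⟩ <;> positivity
  have ha : 0 ≤ 1 / 3 - δ := by linarith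
  have hga : 0 ≤ 4 / 9 - δ ^ 2 := by nlinarith
  have hD : 0 ≤ 1 - (1 / 3 - δ) * (1 + δ) := by nlinarith
  generalize 1 - (1 / 3 - δ) * (1 + δ) = D at *
  generalize 1 / 3 - δ = a at *
  generalize 4 / 9 - δ ^ 2 = g at *
  refine le_trans (le_of_eq ?_) (ENNReal.ofReal_le_ofReal k)
  simp (disch := positivity) only [← ENNReal.ofReal_mul, ← ENNReal.ofReal_add]

/-- not of the main type, of bounded height -/
def Nmt (p q : ℕ) (nx : ℤ → ℤ) (k : ℕ) (c : ℤ) (F : Fo ℤ) : Prop :=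
  (NRF p q F ∧ F ≠ decF nx c (shF F)) ∧ ht F ≤ k

def P1 (p q : ℕ) (nx : ℤ → ℤ) (k : ℕ) (c : ℤ) : Fo ℤ → Prop
  | .nil => False
  | .cons _ c' I R => ((NRF p q I ∧ NRtop p q c c' I) ∧ (c' = c → Nmt p q nx k (nx c) I)) ∧
      NRF p q R

def P2 (p q : ℕ) (nx : ℤ → ℤ) (k : ℕ) (c : ℤ) : Fo ℤ → Prop
  | .nil => False
  | .cons _ c' I R => (c' = c ∧ NRF p q I ∧ NRtop p q c c I) ∧ Nmt p q nx k c R

theorem split {p q : ℕ} {nx : ℤ → ℤ} {k : ℕ} {c c' : ℤ} {I R : Fo ℤ}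
    (h : Nmt p q nx (k + 1) c (.cons c c' I R)) :
    P1 p q nx k c (.cons c c' I R) ∨ P2 p q nx k c (.cons c c' I R) := by
  obtain ⟨⟨⟨-, -, h1, h2, h3⟩, h4⟩, h5⟩ := h
  have h6 : max (ht I) (ht R) + 1 ≤ k + 1 := h5
  by_cases hc : c' = c
  · subst hc
    by_cases hI : I = decF nx (nx c') (shF I)
    · refine Or.inr ⟨⟨rfl, h2, h1⟩, ⟨h3, fun hR => h4 ?_⟩, by omega⟩
      show _ = Fo.cons c' c' (decF nx (nx c') (shF I)) (decF nx c' (shF R))
      rw [← hI, ← hR]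
    · exact Or.inl ⟨⟨⟨h2, h1⟩, fun _ => ⟨⟨h2, hI⟩, by omega⟩⟩, h3⟩
  · exact Or.inl ⟨⟨⟨h2, h1⟩, fun e => absurd e hc⟩, h3⟩

theorem not_nil {p q : ℕ} {nx : ℤ → ℤ} {k : ℕ} {c : ℤ} : ¬ Nmt p q nx k c .nil :=
  fun h => h.1.2 rfl

end Vnm

open Vnm in
theorem vnm : VnmStmt := by
  intro δ T p q hp hp1 _ a1 a2 val nx hn c
  have h0 : 0 ≤ δ := hp.1.le
  have hT : 0 ≤ T := h0.trans hp.2.1
  have h1 : δ ≤ 1 / 3 := by linarith [hp.2.1, hp.2.2.1]
  refine yy_lim _ _ _ _ fun k => ?_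
  change YY δ p q (Nmt p q nx k c) c c ≤ _
  have bd : ∀ k c, Bd (YY δ p q (Nmt p q nx k c)) (ENNReal.ofReal (151 / 100))
      (ENNReal.ofReal (100 * T)) := fun k c =>
    val.vy.mono (fun u v => yy_mono _ _ u v fun _ _ _ h => h.1.1) le_rfl le_rfl
  induction k generalizing c with
  | zero =>
    rw [yy_zero _ c c fun c' I R h => absurd h.2 (by simp [ht])]
    exact zero_le
  | succ k ih =>
    obtain ⟨s, o, hso, hs, ho⟩ : ∃ s o : ℝ, ((s = 1 ∧ o = T ^ 2) ∨ (s = 3 / 4 ∧ o = T)) ∧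
        sE (q * c - p * nx c) ^ 2 ≤ ENNReal.ofReal s ∧
        ∑' c1 : ℤ, (if c1 = nx c then 0 else sE (q * c - p * c1) ^ 2) ≤ ENNReal.ofReal o := by
      by_cases hd : (q : ℤ) * c - p * nx c = 0
      · refine ⟨1, T ^ 2, Or.inl ⟨rfl, rfl⟩, by rw [hd, sE_zero]; simp, ?_⟩
        rw [ENNReal.ofReal_pow hT]
        exact a1.sq2 c (nx c) (sub_eq_zero.1 hd)
      · refine ⟨3 / 4, T, Or.inr ⟨rfl, rfl⟩, (a1.le34 _ hd).trans (le_of_eq ?_),
          a1.sq1 c (nx c) (hn c)⟩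
        rw [ENNReal.ofReal_div_of_pos (by norm_num)]
        simp
    have kn : KK δ p q (Nmt p q nx k (nx c)) c c ≤ ENNReal.ofReal (4 / 9 - δ ^ 2) *
        (ENNReal.ofReal s * ENNReal.ofReal (10 ^ 5 * T ^ 2 / δ) +
          ENNReal.ofReal o * ENNReal.ofReal (151 / 100) +
          ENNReal.ofReal T * ENNReal.ofReal (100 * T)) := by
      rw [kk_eq h0 h1, if_neg not_nil, zero_add]
      refine mul_le_mul_right ((a2 _ _ _ (bd k (nx c)) c).1.trans (add_le_add_left ?_ _)) _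
      rw [tsum_split _ (nx c)]
      refine add_le_add (mul_le_mul' hs (ih (nx c))) (le_trans ?_ (mul_le_mul_left ho _))
      rw [← ENNReal.tsum_mul_right]
      refine ENNReal.tsum_le_tsum fun c1 => ?_
      split_ifs
      · simp
      · exact mul_le_mul_right (bd k (nx c) c1).1 _
    have cn : CH δ p q (Nmt p q nx k c) c c ≤ ENNReal.ofReal (1 / 3 - δ) *
        (ENNReal.ofReal (10 ^ 5 * T ^ 2 / δ) + ENNReal.ofReal T * ENNReal.ofReal (100 * T)) := by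
      rw [ch_eq h0 h1, if_neg (fun h => not_nil h.1), zero_add]
      refine mul_le_mul_right ?_ _
      rw [tsum_split _ c, sub_self, tE_zero, one_mul]
      exact add_le_add (ih c) ((a1.turn p le_rfl).offoff (bd k c) c)
    refine (yy_or _ (P1 p q nx k c) (P2 p q nx k c) c c fun _ _ _ h => split h).trans
      (le_trans (add_le_add ?_ ?_) (numE hp hso))
    · refine (yy_le _ (fun c' I => (NRF p q I ∧ NRtop p q c c' I) ∧
        (c' = c → Nmt p q nx k (nx c) I)) (fun _ => NRF p q) c c fun _ _ _ h => h).trans ?_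
      rw [tsum_split _ c]
      refine add_le_add (mul_le_mul' ((kk_mono _ _ c c fun I h => h.2 rfl).trans kn) (val.vc c).1)
        (le_trans (ENNReal.tsum_le_tsum fun c' => ?_) (val.vk.offoff val.vc c))
      split_ifs
      · rfl
      · exact mul_le_mul_left (kk_mono _ _ c c' fun I h => h.1) _
    · refine (yy_le _ (fun c' I => c' = c ∧ NRF p q I ∧ NRtop p q c c I)
        (fun _ => Nmt p q nx k c) c c fun _ _ _ h => h).trans ?_
      rw [tsum_eq_single c fun c' hc => by rw [kk_zero _ c c' fun I h => hc h.1, zero_mul]]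
      exact mul_le_mul' ((kk_mono _ _ c c fun I h => h.2).trans (val.vk c).1) cn

end Pool.Agent.MP_e0ec03_al.Asy

end MrgPart2

-- ======== part 3: formerly Pool.Agent.MP_e0ec03_al.asy.Vnum
section MrgPart3

/-! ROW VNUM of THEOREM ASY: the numerical supersolution. -/

namespace Pool.Agent.MP_e0ec03_al.Asy

open scoped ENNReal NNReal

namespace Vnum

/-- real form of `Num` -/
structure NumR (al1 al2 ga T : ℝ) (J : ℕ) (a b ρ t : ℕ → ℝ) (n0 nJ P : ℝ) : Prop where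
  hJ : 1 ≤ J
  hT : T ≤ 1 / 4
  k0 : ∀ i, i ≤ J + 1 → al2 + ga * ((3 / 4 + T) * a 0 + T * b 0) ≤ ρ i
  k1 : ∀ i, i + 1 ≤ J → al2 + ga * (t i + n0 + T ^ 2 * a 0 + T * b 0) ≤ ρ (i + 1)
  k2 : al2 + ga * (t (J + 1) + nJ + T ^ 2 * a J + T * b J) ≤ ρ (J + 1)
  k3 : ρ J ≤ ρ (J + 1)
  p0 : al2 * T + ga * (T * a 0 + 9 / 10 * b 0) ≤ P
  t0 : ∀ i, i ≤ J + 1 → ρ i * (1 + al1 * t i) ≤ t i
  a0 : ρ (J + 1) * (1 + al1 * (a 0 + T * b 0)) + P * (al1 * (b 0 + T * a 0 + T * b 0)) ≤ a 0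
  b0 : ρ (J + 1) * (al1 * (b 0 + T * a 0 + T * b 0)) + P * (1 + al1 * (a 0 + T * b 0)) +
    P * (al1 * (b 0 + T * a 0 + T * b 0)) ≤ b 0
  aj : ∀ j, j + 1 ≤ J → ∃ H, 0 ≤ H ∧
    1 + al1 * (a 0 + T * b 0) = al1 * (a (j + 1) + T * b (j + 1)) + H ∧
    ga * ((1 + T ^ 2) * a j + T * b j) * H + ρ (J + 1) * (al1 * (a (j + 1) + T * b (j + 1))) +
      ga * (T * a j + 9 / 10 * b j) * (al1 * (b 0 + T * a 0 + T * b 0)) +
      P * (al1 * (b (j + 1) + T * a (j + 1) + T * b (j + 1))) ≤ a (j + 1)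
  bj : ∀ j, j + 1 ≤ J →
    ga * ((1 + T ^ 2) * a j + T * b j) * (al1 * (b 0 + T * a 0 + T * b 0)) +
      ga * (T * a j + 9 / 10 * b j) * (1 + al1 * (a 0 + T * b 0)) +
      ga * (T * a j + 9 / 10 * b j) * (al1 * (b 0 + T * a 0 + T * b 0)) +
      ρ (J + 1) * (al1 * (b (j + 1) + T * a (j + 1) + T * b (j + 1))) +
      P * (al1 * (a (j + 1) + T * b (j + 1))) +
      P * (al1 * (b (j + 1) + T * a (j + 1) + T * b (j + 1))) ≤ b (j + 1)
  m0 : ρ (J + 1) * (al1 * (n0 + T * b 0)) + P * (al1 * (b 0 + T * a 0 + T * b 0)) ≤ n0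
  mJ : ∀ j, j + 1 = J →
    ga * ((1 + T ^ 2) * a j + T * b j) * (al1 * (n0 + T * b 0)) +
      ρ (J + 1) * (al1 * (nJ + T * b J)) +
      ga * (T * a j + 9 / 10 * b j) * (al1 * (b 0 + T * a 0 + T * b 0)) +
      P * (al1 * (b J + T * a J + T * b J)) ≤ nJ

theorem cast {al1 al2 ga T : ℝ≥0} {J : ℕ} {a b ρ t : ℕ → ℝ≥0} {n0 nJ P : ℝ≥0}
    (h : NumR al1 al2 ga T J (fun i => a i) (fun i => b i) (fun i => ρ i) (fun i => t i)
      n0 nJ P) :
    Num al1 al2 ga T J (fun i => a i) (fun i => b i) (fun i => ρ i) (fun i => t i) n0 nJ P := by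
  have e1 : (1 / 4 : ℝ≥0∞) = ((1 / 4 : ℝ≥0) : ℝ≥0∞) := by
    rw [ENNReal.coe_div (by norm_num)]; simp
  have e2 : (3 / 4 : ℝ≥0∞) = ((3 / 4 : ℝ≥0) : ℝ≥0∞) := by
    rw [ENNReal.coe_div (by norm_num)]; simp
  have e3 : (9 / 10 : ℝ≥0∞) = ((9 / 10 : ℝ≥0) : ℝ≥0∞) := by
    rw [ENNReal.coe_div (by norm_num)]; simp
  have r1 : (1 / 4 : ℝ) = ((1 / 4 : ℝ≥0) : ℝ) := by simp
  have r2 : (3 / 4 : ℝ) = ((3 / 4 : ℝ≥0) : ℝ) := by simp
  have r3 : (9 / 10 : ℝ) = ((9 / 10 : ℝ≥0) : ℝ) := by simp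
  obtain ⟨hJ, hT, k0, k1, k2, k3, p0, t0, a0, b0, aj, bj, m0, mJ⟩ := h
  rw [r1] at hT
  rw [r2] at k0
  rw [r3] at p0 aj bj mJ
  generalize (1 / 4 : ℝ≥0) = c1 at *
  generalize (3 / 4 : ℝ≥0) = c2 at *
  generalize (9 / 10 : ℝ≥0) = c3 at *
  refine ⟨hJ, ?_, fun i hi => ?_, fun i hi => ?_, ?_, ?_, ?_, fun i hi => ?_, ?_, ?_,
    fun j hj => ?_, fun j hj => ?_, ?_, fun j hj => ?_⟩
  · rw [e1]; exact_mod_cast hT
  · rw [e2]; exact_mod_cast k0 i hi
  · exact_mod_cast k1 i hi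
  · exact_mod_cast k2
  · exact_mod_cast k3
  · rw [e3]; exact_mod_cast p0
  · exact_mod_cast t0 i hi
  · exact_mod_cast a0
  · exact_mod_cast b0
  · obtain ⟨H, h0, h1, h2⟩ := aj j hj
    lift H to ℝ≥0 using h0
    refine ⟨H, ?_, ?_⟩
    · exact_mod_cast h1
    · rw [e3]; exact_mod_cast h2
  · rw [e3]; exact_mod_cast bj j hj
  · exact_mod_cast m0
  · rw [e3]; exact_mod_cast mJ j hj

theorem cast' {al1 al2 ga T : ℝ} {J : ℕ} {a b ρ t : ℕ → ℝ} {n0 nJ P : ℝ} (h1 : 0 ≤ al1)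
    (h2 : 0 ≤ al2) (h3 : 0 ≤ ga) (h4 : 0 ≤ T) (ha : ∀ i, 0 ≤ a i) (hb : ∀ i, 0 ≤ b i)
    (hρ : ∀ i, 0 ≤ ρ i) (ht : ∀ i, 0 ≤ t i) (h5 : 0 ≤ n0) (h6 : 0 ≤ nJ) (h7 : 0 ≤ P)
    (h : NumR al1 al2 ga T J a b ρ t n0 nJ P) :
    Num (.ofReal al1) (.ofReal al2) (.ofReal ga) (.ofReal T) J (fun i => .ofReal (a i))
      (fun i => .ofReal (b i)) (fun i => .ofReal (ρ i)) (fun i => .ofReal (t i)) (.ofReal n0)
      (.ofReal nJ) (.ofReal P) :=
  cast (by simpa only [Real.coe_toNNReal, h1, h2, h3, h4, ha, hb, hρ, ht, h5, h6, h7] using h)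

/-- the level zero constants -/
structure Z (d T D A : ℝ) : Prop where
  d0 : 0 < d
  dT : d ≤ T
  T1 : T ≤ 1 / 10 ^ 6
  hD : D = 1 - (1 / 3 - d) * (1 + d)
  hA : A = (1 + d) / D + 2300 * T ^ 2

variable {d T D A : ℝ}

theorem Z.T0 (h : Z d T D A) : 0 < T := h.d0.trans_le h.dT

theorem Z.d1 (h : Z d T D A) : d ≤ 1 / 10 ^ 6 := h.dT.trans h.T1

theorem Z.T2 (h : Z d T D A) : T ^ 2 ≤ 1 / 10 ^ 12 := by
  have := h.T0; have := h.T1; nlinarith

theorem Z.D1 (h : Z d T D A) : 2 / 3 * (1 + d) ≤ D := by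
  rw [h.hD]; nlinarith [sq_nonneg d]

theorem Z.D0 (h : Z d T D A) : 2 / 3 ≤ D := by have := h.D1; have := h.d0; linarith

theorem Z.D2 (h : Z d T D A) : D ≤ 667 / 1000 := by
  have := h.d0; have := h.d1; rw [h.hD]; nlinarith

theorem Z.A0 (h : Z d T D A) : 0 ≤ A := by
  have := h.d0; have := h.D0; rw [h.hA]; positivity

theorem Z.A1 (h : Z d T D A) : A ≤ 151 / 100 := by
  have h1 : (1 + d) / D ≤ 3 / 2 := by
    rw [div_le_iff₀ (by linarith [h.D0])]; linarith [h.D1]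
  have := h.T2
  rw [h.hA]; linarith

theorem Z.c1 (h : Z d T D A) :
    1 + (1 / 3 - d) * (A + T * (100 * T)) = 1 / D + (1 / 3 - d) * (2400 * T ^ 2) := by
  have h0 : D ≠ 0 := by linarith [h.D0]
  have : (1 / 3 - d) * (1 + d) = 1 - D := by rw [h.hD]; ring
  have e : (1 / 3 - d) * ((1 + d) / D) = 1 / D - 1 := by
    rw [← mul_div_assoc, this]; field_simp
  rw [h.hA]; linear_combination e

theorem Z.c1a (h : Z d T D A) : 1 + (1 / 3 - d) * (A + T * (100 * T)) ≤ 1 / D + 800 * T ^ 2 := by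
  rw [h.c1]; nlinarith [sq_nonneg T, h.d0]

theorem Z.c1b (h : Z d T D A) : 1 + (1 / 3 - d) * (A + T * (100 * T)) ≤ 1501 / 1000 := by
  have h1 : 1 / D ≤ 3 / 2 := by
    rw [div_le_iff₀ (by linarith [h.D0])]; linarith [h.D0]
  linarith [h.c1a, h.T2]

theorem Z.al (h : Z d T D A) : 0 ≤ 1 / 3 - d := by linarith [h.d1]

theorem Z.ga (h : Z d T D A) : 0 ≤ 4 / 9 - d ^ 2 := by nlinarith [h.d1, h.d0]

theorem Z.c10 (h : Z d T D A) : 1 ≤ 1 + (1 / 3 - d) * (A + T * (100 * T)) := by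
  have := h.al; have := h.A0; have := h.T0
  exact le_add_of_nonneg_right (by positivity)

theorem Z.c20 (h : Z d T D A) : 0 ≤ (1 / 3 - d) * (100 * T + T * A + T * (100 * T)) := by
  have := h.al; have := h.A0; have := h.T0
  positivity

theorem Z.c2 (h : Z d T D A) : (1 / 3 - d) * (100 * T + T * A + T * (100 * T)) ≤ 34 * T := by
  have := h.A0; have := h.T0; have := h.A1; have := h.T1; have := h.d0
  calc _ ≤ 1 / 3 * (100 * T + T * (151 / 100) + T * (100 * (1 / 10 ^ 6))) := by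
        gcongr; linarith
    _ ≤ _ := by linarith

/-- the one-step map at `1 + y` -/
theorem Z.phi (h : Z d T D A) {y e : ℝ} (h1 : y ≤ d)
    (he : y * (2 / 3 - d) ≤ (y - e) * (1 - (1 / 3 - d) * (1 + y))) :
    1 / 3 + d + (4 / 9 - d ^ 2) * ((1 + y) / (1 - (1 / 3 - d) * (1 + y))) ≤ 1 + y - e := by
  have h2 : 0 < 1 - (1 / 3 - d) * (1 + y) := by nlinarith [h.al, h.d1, h.d0]
  rw [← mul_div_assoc, ← le_sub_iff_add_le', div_le_iff₀ h2]
  nlinarith

/-- bounds at level `j` and `j + 1` -/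
structure W (T x β w' w : ℝ) : Prop where
  x0 : 0 ≤ x
  x1 : x ≤ 36 * w'
  β0 : 0 ≤ β
  β1 : β ≤ 10 ^ 5 * T * w'
  w0 : 0 < w
  w1 : w' ≤ 21 / 20 * w
  w2 : w' - w = w * w'
  w3 : w ≤ 1 / 21
  w4 : T ^ 2 ≤ w / 10 ^ 10

variable {x β w' w : ℝ}

theorem W.ww (k : W T x β w' w) : w ≤ w' := by
  have := k.w0; have := k.w2; have := k.w3
  by_contra hc
  push Not at hc
  nlinarith

theorem e10 (h : Z d T D A) (k : W T x β w' w) :
    0 ≤ (4 / 9 - d ^ 2) * ((1 + T ^ 2) * x + T * β) := by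
  have := h.ga; have := h.T0; have := k.x0; have := k.β0
  positivity

theorem e1a (h : Z d T D A) (k : W T x β w' w) :
    (4 / 9 - d ^ 2) * ((1 + T ^ 2) * x + T * β) ≤ 4 / 9 * (36 * w') + 46685 * (T ^ 2 * w) := by
  have := h.ga; have := h.T0; have := k.x0; have := k.β0; have := k.w0; have := k.ww
  have h1 : T ^ 2 * w' ≤ T ^ 2 * (21 / 20 * w) := by gcongr; exact k.w1
  have h2 : 0 ≤ T ^ 2 * w := by positivity
  calc _ ≤ 4 / 9 * ((1 + T ^ 2) * (36 * w') + T * (10 ^ 5 * T * w')) := by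
        gcongr
        · nlinarith
        · exact k.x1
        · exact k.β1
    _ ≤ _ := by nlinarith

theorem e1b (h : Z d T D A) (k : W T x β w' w) :
    (4 / 9 - d ^ 2) * ((1 + T ^ 2) * x + T * β) ≤ 17 * w := by
  have h1 : T ^ 2 * w ≤ 1 / 10 ^ 12 * w := by gcongr; exacts [k.w0.le, h.T2]
  linarith [e1a h k, k.w1, k.w0]

theorem e20 (h : Z d T D A) (k : W T x β w' w) : 0 ≤ (4 / 9 - d ^ 2) * (T * x + 9 / 10 * β) := by
  have := h.ga; have := h.T0; have := k.x0; have := k.β0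
  positivity

theorem e2 (h : Z d T D A) (k : W T x β w' w) :
    (4 / 9 - d ^ 2) * (T * x + 9 / 10 * β) ≤ 42017 * (T * w) := by
  have := h.ga; have := h.T0; have := k.x0; have := k.β0; have := k.w0; have := k.ww
  have h1 : T * w' ≤ T * (21 / 20 * w) := by gcongr; exact k.w1
  have h2 : 0 ≤ T * w := by positivity
  calc _ ≤ 4 / 9 * (T * (36 * w') + 9 / 10 * (10 ^ 5 * T * w')) := by
        gcongr
        · nlinarith
        · exact k.x1
        · exact k.β1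
    _ ≤ _ := by nlinarith

theorem f1 (h : Z d T D A) (k : W T x β w' w) :
    (1 / 3 - d) * (36 * w + T * (10 ^ 5 * T * w)) ≤ 13 * w := by
  have := h.T0; have := k.w0; have := h.d0
  have h1 : T ^ 2 * w ≤ 1 / 10 ^ 12 * w := by gcongr; exact h.T2
  calc _ ≤ 1 / 3 * (36 * w + T * (10 ^ 5 * T * w)) := by gcongr; linarith
    _ ≤ _ := by nlinarith

theorem f2 (h : Z d T D A) (k : W T x β w' w) :
    (1 / 3 - d) * (10 ^ 5 * T * w + T * (36 * w) + T * (10 ^ 5 * T * w)) ≤ 33346 * (T * w) := by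
  have := h.T0; have := k.w0; have := h.d0
  have h1 : T * (T * w) ≤ 1 / 10 ^ 6 * (T * w) := by gcongr; exact h.T1
  have h2 : 0 ≤ T * w := by positivity
  calc _ ≤ 1 / 3 * (10 ^ 5 * T * w + T * (36 * w) + T * (10 ^ 5 * T * w)) := by gcongr; linarith
    _ ≤ _ := by nlinarith

theorem stepb (h : Z d T D A) (k : W T x β w' w) :
    (4 / 9 - d ^ 2) * ((1 + T ^ 2) * x + T * β) *
        ((1 / 3 - d) * (100 * T + T * A + T * (100 * T))) +
      (4 / 9 - d ^ 2) * (T * x + 9 / 10 * β) * (1 + (1 / 3 - d) * (A + T * (100 * T))) +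
      (4 / 9 - d ^ 2) * (T * x + 9 / 10 * β) * ((1 / 3 - d) * (100 * T + T * A + T * (100 * T))) +
      (1 + d) * ((1 / 3 - d) * (10 ^ 5 * T * w + T * (36 * w) + T * (10 ^ 5 * T * w))) +
      42 * T * ((1 / 3 - d) * (36 * w + T * (10 ^ 5 * T * w))) +
      42 * T * ((1 / 3 - d) * (10 ^ 5 * T * w + T * (36 * w) + T * (10 ^ 5 * T * w))) ≤
      10 ^ 5 * T * w := by
  have := h.T0; have := k.w0; have := h.d0; have := h.al; have := h.c20; have := h.c10
  have h1 : T * (T * w) ≤ 1 / 10 ^ 6 * (T * w) := by gcongr; exact h.T1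
  have h2 : 0 ≤ T * w := by positivity
  calc _ ≤ 17 * w * (34 * T) + 42017 * (T * w) * (1501 / 1000) + 42017 * (T * w) * (34 * T) +
        (1 + 1 / 10 ^ 6) * (33346 * (T * w)) + 42 * T * (13 * w) + 42 * T * (33346 * (T * w)) := by
        gcongr ?_ * ?_ + ?_ * ?_ + ?_ * ?_ + (1 + ?_) * ?_ + 42 * T * ?_ + 42 * T * ?_
        exacts [e1b h k, h.c2, e2 h k, h.c1b, e2 h k, h.c2, h.d1, f2 h k, f1 h k, f2 h k]
    _ ≤ _ := by nlinarith

theorem stepm (h : Z d T D A) (k : W T x β w' w) :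
    (4 / 9 - d ^ 2) * ((1 + T ^ 2) * x + T * β) * ((1 / 3 - d) * (2300 * T ^ 2 + T * (100 * T))) +
      (1 + d) * ((1 / 3 - d) * (5 * 10 ^ 6 * T ^ 2 * w + T * (10 ^ 5 * T * w))) +
      (4 / 9 - d ^ 2) * (T * x + 9 / 10 * β) * ((1 / 3 - d) * (100 * T + T * A + T * (100 * T))) +
      42 * T * ((1 / 3 - d) * (10 ^ 5 * T * w + T * (36 * w) + T * (10 ^ 5 * T * w))) ≤
      5 * 10 ^ 6 * T ^ 2 * w := by
  have := h.T0; have := k.w0; have := h.d0; have := h.al; have := h.c20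
  have h2 : 0 ≤ T ^ 2 * w := by positivity
  have h3 : 1 / 3 - d ≤ 1 / 3 := by linarith
  calc _ ≤ 17 * w * (1 / 3 * (2300 * T ^ 2 + T * (100 * T))) +
        (1 + 1 / 10 ^ 6) * (1 / 3 * (5 * 10 ^ 6 * T ^ 2 * w + T * (10 ^ 5 * T * w))) +
        42017 * (T * w) * (34 * T) + 42 * T * (33346 * (T * w)) := by
        gcongr ?_ * (?_ * _) + (1 + ?_) * (?_ * _) + ?_ * ?_ + 42 * T * ?_
        exacts [e1b h k, h.d1, e2 h k, h.c2, f2 h k]
    _ ≤ _ := by nlinarith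

theorem stepa (h : Z d T D A) (k : W T x β w' w) : ∃ H, 0 ≤ H ∧
    1 + (1 / 3 - d) * (A + T * (100 * T)) = (1 / 3 - d) * (36 * w + T * (10 ^ 5 * T * w)) + H ∧
    (4 / 9 - d ^ 2) * ((1 + T ^ 2) * x + T * β) * H +
      (1 + d) * ((1 / 3 - d) * (36 * w + T * (10 ^ 5 * T * w))) +
      (4 / 9 - d ^ 2) * (T * x + 9 / 10 * β) * ((1 / 3 - d) * (100 * T + T * A + T * (100 * T))) +
      42 * T * ((1 / 3 - d) * (10 ^ 5 * T * w + T * (36 * w) + T * (10 ^ 5 * T * w))) ≤ 36 * w := by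
  have := h.T0; have hw := k.w0; have := h.d0; have := h.al; have := h.c20; have := k.ww
  have := h.d1
  have h2 : 0 ≤ T ^ 2 * w := by positivity
  obtain ⟨H, hH⟩ : ∃ H, H = 1 + (1 / 3 - d) * (A + T * (100 * T)) -
    (1 / 3 - d) * (36 * w + T * (10 ^ 5 * T * w)) := ⟨_, rfl⟩
  have g0 : 0 ≤ (1 / 3 - d) * (T * (10 ^ 5 * T * w)) := by positivity
  have g1 : 11 * w ≤ (1 / 3 - d) * (36 * w) := by nlinarith
  have g2 : 1 / D ≤ 3 / 2 := by
    rw [div_le_iff₀ (by linarith [h.D0])]; linarith [h.D0]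
  have H0 : 0 ≤ H := by linarith [h.c10, f1 h k, k.w3]
  have H1 : H ≤ 3 / 2 - 10 * w := by linarith [h.c1a, k.w4]
  have g3 : (1 + d) * ((1 / 3 - d) * (36 * w + T * (10 ^ 5 * T * w))) ≤
      1 / 3 * (36 * w + T * (10 ^ 5 * T * w)) := by
    rw [← mul_assoc]; gcongr; nlinarith
  have g4 : T ^ 2 * w ≤ w / 10 ^ 10 * w := by gcongr; exact k.w4
  have g5 : w * w ≤ w * w' := by gcongr
  have g6 : 0 ≤ T ^ 2 * w * w := by positivity
  refine ⟨H, H0, by linarith, ?_⟩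
  calc _ ≤ (4 / 9 * (36 * w') + 46685 * (T ^ 2 * w)) * (3 / 2 - 10 * w) +
        1 / 3 * (36 * w + T * (10 ^ 5 * T * w)) + 42017 * (T * w) * (34 * T) +
        42 * T * (33346 * (T * w)) := by
        gcongr ?_ * ?_ + ?_ + ?_ * ?_ + 42 * T * ?_
        · have : 0 < w' := by linarith
          positivity
        exacts [e1a h k, e2 h k, h.c2, f2 h k]
    _ ≤ _ := by nlinarith [k.w2, mul_pos hw hw]

theorem Z.k0 (h : Z d T D A) {r : ℝ} (hr : 1 ≤ r) :
    1 / 3 + d + (4 / 9 - d ^ 2) * ((3 / 4 + T) * A + T * (100 * T)) ≤ r := by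
  have := h.T0; have := h.A0; have := h.T2; have := h.d1
  have h1 : 4 / 9 - d ^ 2 ≤ 4 / 9 := by nlinarith
  have h2 : (4 / 9 - d ^ 2) * ((3 / 4 + T) * A + T * (100 * T)) ≤
      4 / 9 * ((3 / 4 + 1 / 10 ^ 6) * (151 / 100) + T * (100 * T)) := by
    gcongr
    exacts [h.T1, h.A1]
  nlinarith

theorem Z.k1 (h : Z d T D A) {y : ℝ} (y0 : 0 ≤ y) (y1 : y ≤ d) :
    1 / 3 + d + (4 / 9 - d ^ 2) * ((1 + y) / (1 - (1 / 3 - d) * (1 + y)) + 2300 * T ^ 2 +
      T ^ 2 * A + T * (100 * T)) ≤ 1 + y + 1100 * T ^ 2 := by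
  have := h.T0; have := h.A0; have := h.d0; have := h.d1
  have h1 : 4 / 9 - d ^ 2 ≤ 4 / 9 := by nlinarith
  have h2 : (4 / 9 - d ^ 2) * (2300 * T ^ 2 + T ^ 2 * A + T * (100 * T)) ≤
      4 / 9 * (2300 * T ^ 2 + T ^ 2 * (151 / 100) + T * (100 * T)) := by
    gcongr
    exact h.A1
  have h3 := h.phi (e := 0) y1 (by
    rw [sub_zero]
    exact mul_le_mul_of_nonneg_left (by nlinarith) y0)
  nlinarith [sq_nonneg T]

theorem Z.k2 (h : Z d T D A) {w : ℝ} (w0 : 0 ≤ w) (w1 : 10 ^ 9 * (T ^ 2 * w) ≤ d ^ 2) :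
    1 / 3 + d + (4 / 9 - d ^ 2) * ((1 + d) / (1 - (1 / 3 - d) * (1 + d)) +
      5 * 10 ^ 6 * T ^ 2 * w + T ^ 2 * (36 * w) + T * (10 ^ 5 * T * w)) ≤ 1 + d := by
  have := h.T0; have := h.d0; have := h.d1
  have h0 : 0 ≤ T ^ 2 * w := by positivity
  have h1 : 4 / 9 - d ^ 2 ≤ 4 / 9 := by nlinarith
  have h2 : (4 / 9 - d ^ 2) * (5 * 10 ^ 6 * T ^ 2 * w + T ^ 2 * (36 * w) + T * (10 ^ 5 * T * w)) ≤
      4 / 9 * (5 * 10 ^ 6 * T ^ 2 * w + T ^ 2 * (36 * w) + T * (10 ^ 5 * T * w)) := by gcongr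
  have h3 := h.phi (e := d ^ 2) le_rfl (by
    have e : (d - d ^ 2) * (1 - (1 / 3 - d) * (1 + d)) - d * (2 / 3 - d) =
      d ^ 2 * (1 + d / 3 - d ^ 2) := by ring
    have : 0 ≤ d ^ 2 * (1 + d / 3 - d ^ 2) := mul_nonneg (sq_nonneg d) (by nlinarith)
    linarith)
  nlinarith [sq_nonneg d]

theorem Z.p0 (h : Z d T D A) :
    (1 / 3 + d) * T + (4 / 9 - d ^ 2) * (T * A + 9 / 10 * (100 * T)) ≤ 42 * T := by
  have := h.T0; have := h.A0; have := h.d0; have := h.d1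
  have h1 : 4 / 9 - d ^ 2 ≤ 4 / 9 := by nlinarith
  calc _ ≤ (1 / 3 + 1 / 10 ^ 6) * T + 4 / 9 * (T * (151 / 100) + 9 / 10 * (100 * T)) := by
        gcongr
        exact h.A1
    _ ≤ _ := by linarith

theorem Z.t0 (h : Z d T D A) {r : ℝ} (r1 : r ≤ 1 + d) :
    r * (1 + (1 / 3 - d) * (r / (1 - (1 / 3 - d) * r))) ≤ r / (1 - (1 / 3 - d) * r) := by
  have h2 : 0 < 1 - (1 / 3 - d) * r := by nlinarith [h.al, h.d1, h.d0]
  have h3 := mul_div_cancel₀ r h2.ne'
  exact le_of_eq (by linear_combination (-1 : ℝ) * h3)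

theorem Z.a0 (h : Z d T D A) : (1 + d) * (1 + (1 / 3 - d) * (A + T * (100 * T))) +
    42 * T * ((1 / 3 - d) * (100 * T + T * A + T * (100 * T))) ≤ A := by
  have := h.T0; have := h.d0; have := h.d1; have hD := h.D0
  have h1 : 42 * T * ((1 / 3 - d) * (100 * T + T * A + T * (100 * T))) ≤ 42 * T * (34 * T) :=
    mul_le_mul_of_nonneg_left h.c2 (by positivity)
  have h2 : (1 + d) * ((1 / 3 - d) * (2400 * T ^ 2)) ≤ 1 / 3 * (2400 * T ^ 2) := by
    rw [← mul_assoc]; gcongr; nlinarith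
  have h3 : (1 + d) * (1 / D) = (1 + d) / D := by ring
  rw [h.c1, mul_add, h3]
  nlinarith [h.hA, sq_nonneg T]

theorem Z.b0 (h : Z d T D A) : (1 + d) * ((1 / 3 - d) * (100 * T + T * A + T * (100 * T))) +
    42 * T * (1 + (1 / 3 - d) * (A + T * (100 * T))) +
    42 * T * ((1 / 3 - d) * (100 * T + T * A + T * (100 * T))) ≤ 100 * T := by
  have := h.T0; have := h.d0; have := h.c20
  have h1 : T * T ≤ 1 / 10 ^ 6 * T := by gcongr; exact h.T1
  calc _ ≤ (1 + 1 / 10 ^ 6) * (34 * T) + 42 * T * (1501 / 1000) + 42 * T * (34 * T) := by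
        gcongr (1 + ?_) * ?_ + 42 * T * ?_ + 42 * T * ?_
        exacts [h.d1, h.c2, h.c1b, h.c2]
    _ ≤ _ := by nlinarith

theorem Z.m0 (h : Z d T D A) : (1 + d) * ((1 / 3 - d) * (2300 * T ^ 2 + T * (100 * T))) +
    42 * T * ((1 / 3 - d) * (100 * T + T * A + T * (100 * T))) ≤ 2300 * T ^ 2 := by
  have := h.T0; have := h.d0; have := h.d1
  have h1 : 42 * T * ((1 / 3 - d) * (100 * T + T * A + T * (100 * T))) ≤ 42 * T * (34 * T) :=
    mul_le_mul_of_nonneg_left h.c2 (by positivity)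
  have h2 : (1 + d) * ((1 / 3 - d) * (2300 * T ^ 2 + T * (100 * T))) ≤
      1 / 3 * (2300 * T ^ 2 + T * (100 * T)) := by
    rw [← mul_assoc]; gcongr; nlinarith
  nlinarith [sq_nonneg T]

/-- the sequence `a` -/
noncomputable def aa (A : ℝ) : ℕ → ℝ
  | 0 => A
  | j + 1 => 36 * (1 / ((j : ℝ) + 21))

/-- the sequence `b` -/
noncomputable def bb (T : ℝ) : ℕ → ℝ
  | 0 => 100 * T
  | j + 1 => 10 ^ 5 * T * (1 / ((j : ℝ) + 21))

/-- the sequence `ρ` -/
noncomputable def rr (d T : ℝ) (J i : ℕ) : ℝ := if i ≤ J then 1 + 1100 * i * T ^ 2 else 1 + d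

theorem Z.lev (h : Z d T D A) {j : ℕ} (hj : j * T ^ 2 ≤ d / 10 ^ 9) :
    W T (aa A j) (bb T j) (1 / ((j : ℝ) + 20)) (1 / ((j : ℝ) + 21)) := by
  have := h.T0; have := h.A0; have := h.A1; have := h.d1; have := h.T2
  have j0 : (0 : ℝ) ≤ j := Nat.cast_nonneg j
  refine ⟨?_, ?_, ?_, ?_, by positivity, ?_, ?_, ?_, ?_⟩
  · cases j <;> simp only [aa] <;> positivity
  · cases j with
    | zero => simp only [aa]; norm_num; linarith
    | succ j => simp only [aa]; push_cast; exact le_of_eq (by ring_nf)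
  · cases j <;> simp only [bb] <;> positivity
  · cases j with
    | zero => simp only [bb]; norm_num; linarith
    | succ j => simp only [bb]; push_cast; exact le_of_eq (by ring_nf)
  · rw [mul_one_div, div_le_div_iff₀ (by positivity) (by positivity)]; linarith
  · field_simp; ring
  · exact one_div_le_one_div_of_le (by norm_num) (by linarith)
  · rw [div_div, le_div_iff₀ (by positivity)]; nlinarith

theorem numR (h : Z d T D A) (j : ℕ) (h1 : 10 ^ 9 * T ^ 2 ≤ d ^ 2 * (j + 1 : ℕ))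
    (h2 : (j + 1 : ℕ) * T ^ 2 ≤ d / 10 ^ 9) :
    NumR (1 / 3 - d) (1 / 3 + d) (4 / 9 - d ^ 2) T (j + 1) (aa A) (bb T) (rr d T (j + 1))
      (fun i => rr d T (j + 1) i / (1 - (1 / 3 - d) * rr d T (j + 1) i)) (2300 * T ^ 2)
      (5 * 10 ^ 6 * T ^ 2 * (1 / ((j : ℝ) + 21))) (42 * T) := by
  have := h.T0; have := h.d0
  have hi : ∀ i : ℕ, i ≤ j + 1 → i * T ^ 2 ≤ d / 10 ^ 9 := fun i hi =>
    le_trans (by gcongr) h2
  have rJ : rr d T (j + 1) (j + 1 + 1) = 1 + d := if_neg (by omega)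
  have r1 : ∀ i, 1 ≤ rr d T (j + 1) i := fun i => by
    unfold rr; split_ifs
    · exact le_add_of_nonneg_right (by positivity)
    · linarith
  have r2 : ∀ i, rr d T (j + 1) i ≤ 1 + d := fun i => by
    unfold rr; split_ifs with h3
    · linarith [hi i h3]
    · rfl
  refine ⟨by omega, by linarith [h.T1], fun i _ => h.k0 (r1 i), fun i h3 => ?_, ?_,
    rJ ▸ r2 _, h.p0, fun i _ => h.t0 (r2 i), rJ ▸ h.a0, rJ ▸ h.b0,
    fun i h3 => rJ ▸ stepa h (h.lev (hi i (by omega))),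
    fun i h3 => rJ ▸ stepb h (h.lev (hi i (by omega))), rJ ▸ h.m0, fun i h3 => ?_⟩
  · have e1 : rr d T (j + 1) i = 1 + 1100 * i * T ^ 2 := if_pos (by omega)
    have e2 : rr d T (j + 1) (i + 1) = 1 + 1100 * i * T ^ 2 + 1100 * T ^ 2 := by
      rw [rr, if_pos h3]; push_cast; ring
    simp only [e1, e2]
    exact h.k1 (by positivity) (by linarith [hi i (by omega)])
  · simp only [rJ]
    refine h.k2 (by positivity) ?_
    rw [mul_one_div, ← mul_div_assoc, div_le_iff₀ (by positivity)]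
    push_cast at h1
    nlinarith [sq_nonneg d]
  · obtain rfl : i = j := by omega
    rw [rJ]
    exact stepm h (h.lev (hi i (by omega)))

end Vnum

open Vnum in
theorem vnum : VnumStmt := by
  rintro d T ⟨d0, dT, T1, hp⟩
  have h : Z d T _ _ := ⟨d0, dT, T1, rfl, rfl⟩
  have T0 := h.T0
  have hx : (1 : ℝ) ≤ 10 ^ 9 * T ^ 2 / d ^ 2 := by
    rw [le_div_iff₀ (by positivity)]; nlinarith
  obtain ⟨j, hj⟩ : ∃ j, ⌈10 ^ 9 * T ^ 2 / d ^ 2⌉₊ = j + 1 :=
    Nat.exists_eq_succ_of_ne_zero (Nat.ceil_pos.2 (by linarith)).ne'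
  have h1 : 10 ^ 9 * T ^ 2 ≤ d ^ 2 * (j + 1 : ℕ) := by
    rw [← hj, mul_comm (d ^ 2), ← div_le_iff₀ (by positivity)]; exact Nat.le_ceil _
  have h2 : (j + 1 : ℕ) * T ^ 2 ≤ d / 10 ^ 9 := by
    have h3 : ((j + 1 : ℕ) : ℝ) ≤ 2 * (10 ^ 9 * T ^ 2 / d ^ 2) := by
      have := Nat.ceil_lt_add_one (a := 10 ^ 9 * T ^ 2 / d ^ 2) (by positivity)
      rw [hj] at this; linarith
    refine (mul_le_mul_of_nonneg_right h3 (sq_nonneg T)).trans ?_
    rw [← mul_div_assoc, div_mul_eq_mul_div, div_le_div_iff₀ (by positivity) (by positivity)]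
    nlinarith [pow_pos T0 4]
  have k := numR h j h1 h2
  have a0 : ∀ i, 0 ≤ aa ((1 + d) / (1 - (1 / 3 - d) * (1 + d)) + 2300 * T ^ 2) i := fun i => by
    have := h.A0
    cases i <;> simp only [aa] <;> positivity
  have b0 : ∀ i, 0 ≤ bb T i := fun i => by cases i <;> simp only [bb] <;> positivity
  have r2 : ∀ i, 0 ≤ rr d T (j + 1) i ∧ rr d T (j + 1) i ≤ 1 + d := fun i => by
    unfold rr; split_ifs with h3
    · have : (i : ℝ) * T ^ 2 ≤ d / 10 ^ 9 := le_trans (by gcongr) h2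
      exact ⟨by positivity, by linarith⟩
    · exact ⟨by positivity, le_rfl⟩
  have t0 : ∀ i, 0 ≤ rr d T (j + 1) i / (1 - (1 / 3 - d) * rr d T (j + 1) i) := fun i =>
    div_nonneg (r2 i).1 (by nlinarith [(r2 i).2, h.al, h.d1])
  have e1 := h.A1
  have e2 := (r2 (j + 1 + 1)).2
  have e3 := h.c1a
  have e4 := h.c2
  have k' := cast' h.al (by linarith) h.ga T0.le a0 b0 (fun i => (r2 i).1) t0 (by positivity)
    (by positivity) (by positivity) k
  refine ⟨_, _, _, _, _, _, _, _, k', ENNReal.ofReal_le_ofReal e1, le_rfl,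
    ENNReal.ofReal_le_ofReal e2, le_rfl, ?_, ?_⟩
  · refine le_trans (le_of_eq ?_) (ENNReal.ofReal_le_ofReal e3)
    have := h.A0; have := h.al
    rw [ENNReal.ofReal_add zero_le_one (by positivity), ENNReal.ofReal_mul h.al,
      ENNReal.ofReal_add h.A0 (by positivity), ENNReal.ofReal_mul T0.le, ENNReal.ofReal_one]
    rfl
  · refine le_trans (le_of_eq ?_) (ENNReal.ofReal_le_ofReal e4)
    have := h.A0
    rw [ENNReal.ofReal_mul h.al, ENNReal.ofReal_add (by positivity) (by positivity),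
      ENNReal.ofReal_add (by positivity) (by positivity), ENNReal.ofReal_mul T0.le (q := 100 * T),
      ENNReal.ofReal_mul T0.le]
    rfl

end Pool.Agent.MP_e0ec03_al.Asy

end MrgPart3

-- ======== part 4: formerly Pool.Agent.MP_e0ec03_al.asy.Vtx
section MrgPart4

/-! Bounds for the weight of one vertex. -/

namespace Pool.Agent.MP_e0ec03_al.Asy

open Classical Finset

namespace Vtx

theorem rz (n k : ℕ) : (1 / √3 : ℝ) ^ ((n : ℤ) - 2 * k) = 3 ^ k / √3 ^ n := by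
  have h : (0 : ℝ) < √3 := by positivity
  have h2 : (√3 : ℝ) ^ (2 * k) = 3 ^ k := by rw [pow_mul, Real.sq_sqrt (by norm_num)]
  rw [show (n : ℤ) - 2 * k = (n : ℤ) - ((2 * k : ℕ) : ℤ) by push_cast; ring,
    zpow_sub₀ (by positivity), zpow_natCast, zpow_natCast, one_div, inv_pow, inv_pow, h2]
  field_simp

/-- the mean of `3 ^ min m n` -/
noncomputable def S (p : ℕ) (a b : Bool) (n : ℕ) : ℝ :=
  ∑ m ∈ range (p + 1), law p a b m * 3 ^ min m n

theorem S_nonneg (p : ℕ) (a b : Bool) (n : ℕ) : 0 ≤ S p a b n :=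
  sum_nonneg fun m _ => mul_nonneg (law_nonneg p a b m) (by positivity)

theorem geo (n p : ℕ) : ∑ m ∈ range p, ((1 : ℝ) / 3) ^ (m + 1) * 3 ^ min (m + 1) n +
    3 / 2 * (1 / 3) ^ (p + 1) * 3 ^ min (p + 1) n = (min (p + 1) n : ℕ) + 1 / 2 := by
  induction p with
  | zero =>
    rcases Nat.eq_zero_or_pos n with rfl | h
    · norm_num
    · rw [min_eq_left (by omega)]; norm_num
  | succ p ih =>
    rw [sum_range_succ]
    have e : ((1 : ℝ) / 3) ^ (p + 1) * 3 ^ (p + 1) = 1 := by rw [← mul_pow]; norm_num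
    rcases Nat.lt_or_ge (p + 1) n with h | h
    · rw [min_eq_left h.le] at ih ⊢
      rw [min_eq_left (by omega : p + 1 + 1 ≤ n), pow_succ _ (p + 1), pow_succ _ (p + 1)]
      push_cast at ih ⊢
      linear_combination ih + e
    · rw [min_eq_right h] at ih ⊢
      rw [min_eq_right (by omega : n ≤ p + 1 + 1), pow_succ _ (p + 1)]
      linear_combination ih

theorem S_le {p : ℕ} (hp : 1 ≤ p) (a b : Bool) (n : ℕ) :
    S p a b n ≤ if a = b then (n : ℝ) + 1 else 2 * n + 1 := by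
  obtain ⟨p, rfl⟩ : ∃ k, p = k + 1 := ⟨p - 1, by omega⟩
  have g := geo n p
  have k : ((min (p + 1) n : ℕ) : ℝ) ≤ n := by exact_mod_cast min_le_right _ _
  unfold S
  rw [sum_range_succ, sum_range_succ']
  by_cases h : a = b
  · rw [sum_congr rfl (g := fun m => ((1 : ℝ) / 3) ^ (m + 1) * 3 ^ min (m + 1) n), if_pos h]
    · simp only [law, if_pos h, if_true, Nat.zero_min, pow_zero, Nat.succ_ne_zero, if_false,
        lt_irrefl]
      linarith
    · intro m hm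
      have := mem_range.1 hm
      simp [law, h, this]
  · rw [sum_congr rfl (g := fun m => 2 * (((1 : ℝ) / 3) ^ (m + 1) * 3 ^ min (m + 1) n)), if_neg h,
      ← mul_sum]
    · simp only [law, if_neg h, if_true, Nat.zero_min, pow_zero, Nat.succ_ne_zero, if_false,
        lt_irrefl]
      linarith
    · intro m hm
      have := mem_range.1 hm
      simp [law, h, this, mul_assoc]

theorem same {p : ℕ} (hp : 1 ≤ p) (a b σ : Bool) (d : ℤ) (h : if σ then 0 ≤ d else d ≤ 0) :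
    mS p a b σ d = 1 / √3 ^ d.natAbs := by
  unfold mS
  rw [sum_congr rfl (g := fun m => law p a b m * (1 / √3 ^ d.natAbs)), ← sum_mul, law_sum hp,
    one_mul]
  intro m _
  have e : |sg σ m + d| - |sg σ m| = (d.natAbs : ℤ) - 2 * (0 : ℕ) := by
    rw [← Int.natCast_natAbs, ← Int.natCast_natAbs]
    cases σ <;> simp only [sg, Bool.false_eq_true, if_false, if_true] at h ⊢ <;> omega
  rw [e, rz, pow_zero]

theorem opp (p : ℕ) (a b σ : Bool) (d : ℤ) (h : if σ then d ≤ 0 else 0 ≤ d) :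
    mS p a b σ d = S p a b d.natAbs / √3 ^ d.natAbs := by
  unfold mS S
  rw [sum_div]
  refine sum_congr rfl fun m _ => ?_
  have e : |sg σ m + d| - |sg σ m| = (d.natAbs : ℤ) - 2 * (min m d.natAbs : ℕ) := by
    rw [← Int.natCast_natAbs, ← Int.natCast_natAbs]
    cases σ <;> simp only [sg, Bool.false_eq_true, if_false, if_true] at h ⊢ <;> omega
  rw [e, rz, mul_div_assoc]

/-- symmetric functions of the two means -/
theorem both {p : ℕ} (hp : 1 ≤ p) (a b : Bool) (d : ℤ) (f : ℝ → ℝ) :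
    f (mS p a b true d) + f (mS p a b false d) =
      f (1 / √3 ^ d.natAbs) + f (S p a b d.natAbs / √3 ^ d.natAbs) := by
  rcases le_total 0 d with h | h
  · rw [same hp a b true d h, opp p a b false d h]
  · rw [same hp a b false d h, opp p a b true d h, add_comm]

theorem avg {p : ℕ} (hp : 1 ≤ p) (a b : Bool) (d : ℤ) :
    (1 / √3 ^ d.natAbs + S p a b d.natAbs / √3 ^ d.natAbs) / 2 ≤ ps a b d := by
  have h := S_le hp a b d.natAbs
  have hs : (0 : ℝ) < √3 ^ d.natAbs := by positivity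
  have hn : (0 : ℝ) ≤ d.natAbs := Nat.cast_nonneg _
  rw [← add_div]
  unfold ps mu
  split_ifs at h ⊢ with h1 h2
  · exact div_le_div_of_nonneg_right (div_le_div_of_nonneg_right (by linarith) hs.le) zero_le_two
  · subst h2
    simp only [Int.natAbs_zero, Nat.cast_zero, pow_zero] at h ⊢
    linarith
  · rw [div_right_comm]
    gcongr
    linarith

theorem grow (n : ℕ) : 103 / 100 * (1 + ((n : ℝ) + 2) ^ 2) ≤ √3 ^ (n + 1) * (n + 3) := by
  have h3 := sqrt3_bounds.1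
  induction n with
  | zero => norm_num; linarith
  | succ n ih =>
    have hn : (0 : ℝ) ≤ n := Nat.cast_nonneg n
    have hs : (0 : ℝ) < √3 ^ (n + 1) := by positivity
    rw [pow_succ _ (n + 1)]
    push_cast
    generalize (√3 : ℝ) ^ (n + 1) = s at ih hs
    have k1 : s * 1.732 * (n + 1 + 3) ≤ s * √3 * (n + 1 + 3) := by gcongr
    have k2 : 103 / 100 * (1 + ((n : ℝ) + 1 + 2) ^ 2) * (n + 3) ≤ s * 1.732 * (n + 1 + 3) * (n + 3) := by
      have : 103 / 100 * (1 + ((n : ℝ) + 2) ^ 2) * (1.732 * (n + 1 + 3)) ≤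
          s * (n + 3) * (1.732 * (n + 1 + 3)) := by gcongr
      have k3 : 0 ≤ (n : ℝ) ^ 2 := by positivity
      have k4 : 0 ≤ (n : ℝ) ^ 3 := by positivity
      nlinarith
    exact (le_of_mul_le_mul_right k2 (by positivity)).trans k1

theorem big {p : ℕ} (hp : 100 ≤ p) (a b : Bool) (d : ℤ) (h : (p : ℤ) ≤ |d|) :
    206 * ps a b d ≤ (33 / 50) ^ p := by
  have h1 : ps a b d ≤ mu d := by
    have := mu_pos d
    have h0 : d ≠ 0 := by rintro rfl; simp at h; omega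
    unfold ps
    split_ifs <;> linarith
  have h2 : mu d ≤ mu p := mu_anti (by rwa [Nat.abs_cast])
  have h3 := mu_le_exp p
  rw [Int.natAbs_natCast] at h3
  have h4 : (12360 : ℝ) ≤ (11 / 10) ^ p :=
    le_trans (by norm_num) (pow_le_pow_right₀ (by norm_num : (1 : ℝ) ≤ 11 / 10) hp)
  rw [show (33 / 50 : ℝ) = 11 / 10 * (3 / 5) by norm_num, mul_pow]
  have h5 : (0 : ℝ) < (3 / 5) ^ p := by positivity
  nlinarith

end Vtx

open Vtx in
theorem vtx_bound : VtxStmt := by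
  refine ⟨fun p hp a b d => ?_, 100, fun p hp a b d => ?_⟩
  · rw [show mS p a b true d + mS p a b false d = _ from both hp a b d id]
    exact avg hp a b d
  have hp1 : 1 ≤ p := by omega
  rw [show mS p a b true d ^ 2 + mS p a b false d ^ 2 = _ from both hp1 a b d (· ^ 2)]
  have h1 := avg hp1 a b d
  have h2 := S_le hp1 a b d.natAbs
  have h3 := S_nonneg p a b d.natAbs
  have h4 := ps_nonneg a b d
  have hs : (0 : ℝ) < √3 ^ d.natAbs := by positivity
  have key : (p : ℤ) ≤ |d| → 103 * (((1 / √3 ^ d.natAbs) ^ 2 +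
      (S p a b d.natAbs / √3 ^ d.natAbs) ^ 2) / 2) ≤ (33 / 50) ^ p * ps a b d := by
    intro h
    have h5 := big hp a b d h
    have hA : (0 : ℝ) ≤ 1 / √3 ^ d.natAbs := by positivity
    have hB : (0 : ℝ) ≤ S p a b d.natAbs / √3 ^ d.natAbs := by positivity
    generalize (1 / √3 ^ d.natAbs : ℝ) = A at h1 hA
    generalize (S p a b d.natAbs / √3 ^ d.natAbs : ℝ) = B at h1 hB
    have h6 : (A + B) ^ 2 ≤ (2 * ps a b d) ^ 2 := by gcongr; linarith
    have h7 := mul_le_mul_of_nonneg_right h5 h4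
    nlinarith [mul_nonneg hA hB]
  refine ⟨fun h0 h => ?_, key⟩
  by_cases e : a = b
  · rw [if_pos e] at h2
    obtain ⟨n, hn⟩ : ∃ n, d.natAbs = n + 1 := ⟨d.natAbs - 1, by omega⟩
    have g := grow n
    unfold ps mu
    rw [if_pos e]
    rw [hn] at h2 h3 hs ⊢
    push_cast at h2 ⊢
    have h6 : S p a b (n + 1) ^ 2 ≤ ((n : ℝ) + 2) ^ 2 := by gcongr; linarith
    generalize (√3 : ℝ) ^ (n + 1) = s at g hs
    rw [div_pow, div_pow, ← add_div, ← mul_div_assoc, ← mul_div_assoc]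
    refine div_le_div_of_nonneg_right ?_ zero_le_two
    rw [div_le_div_iff₀ (by positivity) hs]
    nlinarith
  · have h5 := key (h e)
    have h6 : ((33 / 50 : ℝ)) ^ p ≤ 1 := pow_le_one₀ (by norm_num) (by norm_num)
    have h7 := mul_le_mul_of_nonneg_right h6 h4
    have h8 : (0 : ℝ) ≤ ((1 / √3 ^ d.natAbs) ^ 2 + (S p a b d.natAbs / √3 ^ d.natAbs) ^ 2) / 2 := by
      positivity
    linarith

end Pool.Agent.MP_e0ec03_al.Asy

end MrgPart4

-- ======== part 5: formerly Pool.Agent.MP_e0ec03_al.asy.Vy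
section MrgPart5

/-! ROW VY of THEOREM ASY: one step of the induction for nonempty chains of valleys. -/

namespace Pool.Agent.MP_e0ec03_al.Asy

open Classical Finset
open scoped ENNReal

namespace Vy

variable {δ : ℝ} {p q : ℕ}

/-- a predicate on the parts of a nonempty forest -/
def onCons (A B : ℤ → Fo ℤ → Prop) : Fo ℤ → Prop
  | .nil => False
  | .cons _ c' I R => A c' I ∧ B c' R

theorem yy_le2 (P : Fo ℤ → Prop) (A1 B1 A2 B2 : ℤ → Fo ℤ → Prop) (c u : ℤ)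
    (h : ∀ c' I R, P (.cons c c' I R) → (A1 c' I ∧ B1 c' R) ∨ (A2 c' I ∧ B2 c' R)) :
    YY δ p q P c u ≤ ∑' c', KK δ p q (A1 c') c c' * CH δ p q (B1 c') c' u +
      ∑' c', KK δ p q (A2 c') c c' * CH δ p q (B2 c') c' u :=
  (yy_or P (onCons A1 B1) (onCons A2 B2) c u h).trans
    (add_le_add (yy_le _ A1 B1 c u fun _ _ _ h => h) (yy_le _ A2 B2 c u fun _ _ _ h => h))

theorem split {X Y : ℤ → ℤ → ℝ≥0∞} {a b a' b' : ℝ≥0∞} (h : Bd X a b) (h' : Bd Y a' b')
    (c : ℤ) (Z : ℤ → ℝ≥0∞) (z : ℝ≥0∞) (hz : Z c ≤ z) (hZ : ∀ w, Z w ≤ Y w c) :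
    ∑' w, X c w * Z w ≤ X c c * z + b * b' := by
  rw [tsum_split _ c]
  refine add_le_add (by gcongr) (le_trans (ENNReal.tsum_le_tsum fun w => ?_) (h.offoff h' c))
  split_ifs
  · rfl
  · gcongr
    exact hZ w

theorem ht_cons {h : ℕ} {c c' : ℤ} {I R : Fo ℤ} (hh : ht (Fo.cons c c' I R) ≤ h + 1) :
    ht I ≤ h ∧ ht R ≤ h := by
  simp only [ht] at hh
  omega

theorem dep_cons {j : ℕ} {c c' : ℤ} {I R : Fo ℤ} (hh : j + 1 < dep (Fo.cons c c' I R)) :
    j < dep I ∨ j + 1 < dep R := by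
  simp only [dep] at hh
  omega

theorem not_top {c c' : ℤ} {I R : Fo ℤ} (hh : ¬ Top c (Fo.cons c c' I R)) (e : c' = c) :
    ¬ Top c R := fun h => hh ⟨rfl, e, h⟩

variable {J : ℕ} {al1 al2 ga T : ℝ≥0∞} {a b ρ t : ℕ → ℝ≥0∞} {n0 nJ P : ℝ≥0∞} {h : ℕ}

theorem y1_zero (N : Num al1 al2 ga T J a b ρ t n0 nJ P)
    (K : InvK δ p q J al1 ga T a b ρ t n0 nJ P (fun F => ht F ≤ h)) :
    Bd (YY δ p q (fun F => NRF p q F ∧ ht F ≤ h + 1 ∧ 0 < dep F)) (a 0) (b 0) := by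
  refine (K.k2.comp K.c1).mono (fun c u => ?_) N.a0 N.b0
  exact yy_le _ (fun c' I => NRF p q I ∧ ht I ≤ h ∧ NRtop p q c c' I)
    (fun _ R => NRF p q R ∧ ht R ≤ h) c u fun c' I R hP =>
      ⟨⟨hP.1.2.2.2.1, (ht_cons hP.2.1).1, hP.1.2.2.1⟩, hP.1.2.2.2.2, (ht_cons hP.2.1).2⟩

theorem y1_succ (N : Num al1 al2 ga T J a b ρ t n0 nJ P)
    (K : InvK δ p q J al1 ga T a b ρ t n0 nJ P (fun F => ht F ≤ h)) (j : ℕ) (hj : j + 1 ≤ J) :
    Bd (YY δ p q (fun F => NRF p q F ∧ ht F ≤ h + 1 ∧ j + 1 < dep F)) (a (j + 1)) (b (j + 1)) := by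
  have hd : Bd (fun c c' => KK δ p q
      (fun I => (NRF p q I ∧ ht I ≤ h ∧ NRtop p q c c' I) ∧ j < dep I) c c') _ _ :=
    (K.k3 j hj).mono (fun c c' => kk_mono _ _ c c' fun I hI => ⟨hI.1.1, hI.1.2.1, hI.2⟩)
      le_rfl le_rfl
  have hs : Bd (fun c c' => KK δ p q
      (fun I => (NRF p q I ∧ ht I ≤ h ∧ NRtop p q c c' I) ∧ ¬ j < dep I) c c') _ _ :=
    K.k2.mono (fun c c' => kk_mono _ _ c c' fun I hI => hI.1) le_rfl le_rfl
  have key : ∀ c u, YY δ p q (fun F => NRF p q F ∧ ht F ≤ h + 1 ∧ j + 1 < dep F) c u ≤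
      ∑' c', KK δ p q (fun I => (NRF p q I ∧ ht I ≤ h ∧ NRtop p q c c' I) ∧ j < dep I) c c' *
        CH δ p q (fun R => NRF p q R ∧ ht R ≤ h) c' u +
      ∑' c', KK δ p q (fun I => (NRF p q I ∧ ht I ≤ h ∧ NRtop p q c c' I) ∧ ¬ j < dep I) c c' *
        CH δ p q (fun R => NRF p q R ∧ ht R ≤ h ∧ j + 1 < dep R) c' u := by
    intro c u
    refine yy_le2 _ (fun c' I => (NRF p q I ∧ ht I ≤ h ∧ NRtop p q c c' I) ∧ j < dep I)
      (fun _ R => NRF p q R ∧ ht R ≤ h)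
      (fun c' I => (NRF p q I ∧ ht I ≤ h ∧ NRtop p q c c' I) ∧ ¬ j < dep I)
      (fun _ R => NRF p q R ∧ ht R ≤ h ∧ j + 1 < dep R) c u fun c' I R hP => ?_
    have h1 : NRF p q I ∧ ht I ≤ h ∧ NRtop p q c c' I :=
      ⟨hP.1.2.2.2.1, (ht_cons hP.2.1).1, hP.1.2.2.1⟩
    by_cases hI : j < dep I
    · exact Or.inl ⟨⟨h1, hI⟩, hP.1.2.2.2.2, (ht_cons hP.2.1).2⟩
    · exact Or.inr ⟨⟨h1, hI⟩, hP.1.2.2.2.2, (ht_cons hP.2.1).2, (dep_cons hP.2.2).resolve_left hI⟩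
  have hb := ((hd.comp K.c1).add (hs.comp (K.c2 (j + 1) hj))).mono key le_rfl
    (le_trans (le_of_eq (by ring)) (N.bj j hj))
  refine fun c => ⟨?_, (hb c).2⟩
  obtain ⟨H, hH, hle⟩ := N.aj j hj
  have e1 := split hd K.c1 c (fun c' => CH δ p q (fun R => NRF p q R ∧ ht R ≤ h) c' c) _
    (K.c1 c).1 fun _ => le_rfl
  have e2 := split hs (K.c2 (j + 1) hj) c
    (fun c' => CH δ p q (fun R => NRF p q R ∧ ht R ≤ h ∧ j + 1 < dep R) c' c) _
    (K.c2 (j + 1) hj c).1 fun _ => le_rfl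
  have e3 := (kk_add (δ := δ) (fun I => NRF p q I ∧ ht I ≤ h ∧ NRtop p q c c I)
    (fun I => (NRF p q I ∧ ht I ≤ h ∧ NRtop p q c c I) ∧ j < dep I)
    (fun I => (NRF p q I ∧ ht I ≤ h ∧ NRtop p q c c I) ∧ ¬ j < dep I) c c
    (fun _ h => h.1) (fun _ h => h.1) (fun _ h h' => h'.2 h.2)).trans (K.k2 c).1
  have e4 := (hd c).1
  beta_reduce at e4
  refine (key c c).trans ((add_le_add e1 e2).trans (le_trans ?_ hle))
  rw [hH]
  generalize KK δ p q (fun I => (NRF p q I ∧ ht I ≤ h ∧ NRtop p q c c I) ∧ j < dep I) c c = x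
    at e3 e4 ⊢
  generalize KK δ p q (fun I => (NRF p q I ∧ ht I ≤ h ∧ NRtop p q c c I) ∧ ¬ j < dep I) c c = y
    at e3 ⊢
  generalize al1 * (a (j + 1) + T * b (j + 1)) = G
  generalize ga * (T * a j + 9 / 10 * b j) * (al1 * (b 0 + T * a 0 + T * b 0)) = u
  generalize P * (al1 * (b (j + 1) + T * a (j + 1) + T * b (j + 1))) = v
  calc x * (G + H) + u + (y * G + v) = x * H + (x + y) * G + u + v := by ring
    _ ≤ _ := by gcongr

theorem y2 (N : Num al1 al2 ga T J a b ρ t n0 nJ P)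
    (K : InvK δ p q J al1 ga T a b ρ t n0 nJ P (fun F => ht F ≤ h)) (i : ℕ) (hi : i ≤ J + 1)
    (c : ℤ) (hc : Lv p q J i c) :
    YY δ p q (fun F => NRF p q F ∧ ht F ≤ h + 1 ∧ Top c F) c c ≤ t i := by
  refine (yy_le _ (fun c' I => c' = c ∧ NRF p q I ∧ ht I ≤ h ∧ NRtop p q c c I)
    (fun _ R => NRF p q R ∧ ht R ≤ h ∧ Top c R) c c fun c' I R hP => ?_).trans ?_
  · obtain ⟨h1, h2, -, rfl, h3⟩ := hP
    exact ⟨⟨rfl, h1.2.2.2.1, (ht_cons h2).1, h1.2.2.1⟩, h1.2.2.2.2, (ht_cons h2).2, h3⟩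
  · rw [tsum_eq_single c fun c' hc' => by rw [kk_zero _ _ _ fun _ h => hc' h.1, zero_mul]]
    exact (mul_le_mul' ((kk_mono _ _ c c fun _ h => h.2).trans (K.k1 i hi c hc))
      (K.c3 i hi c hc)).trans (N.t0 i hi)

theorem y3 (N : Num al1 al2 ga T J a b ρ t n0 nJ P)
    (K : InvK δ p q J al1 ga T a b ρ t n0 nJ P (fun F => ht F ≤ h)) (c : ℤ) :
    YY δ p q (fun F => NRF p q F ∧ ht F ≤ h + 1 ∧ ¬ Top c F) c c ≤ n0 := by
  refine (yy_le _ (fun c' I => NRF p q I ∧ ht I ≤ h ∧ NRtop p q c c' I)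
    (fun c' R => NRF p q R ∧ ht R ≤ h ∧ (c' = c → ¬ Top c R)) c c fun c' I R hP =>
      ⟨⟨hP.1.2.2.2.1, (ht_cons hP.2.1).1, hP.1.2.2.1⟩, hP.1.2.2.2.2, (ht_cons hP.2.1).2,
        not_top hP.2.2⟩).trans ?_
  refine (split K.k2 K.c1 c
    (fun c' => CH δ p q (fun R => NRF p q R ∧ ht R ≤ h ∧ (c' = c → ¬ Top c R)) c' c) _
    ((ch_mono _ _ c c fun _ h => ⟨h.1, h.2.1, h.2.2 rfl⟩).trans (K.c4 c))
    fun w => ch_mono _ _ w c fun _ h => ⟨h.1, h.2.1⟩).trans (le_trans ?_ N.m0)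
  gcongr
  exact (K.k2 c).1

theorem y4 (N : Num al1 al2 ga T J a b ρ t n0 nJ P)
    (K : InvK δ p q J al1 ga T a b ρ t n0 nJ P (fun F => ht F ≤ h)) (c : ℤ) :
    YY δ p q (fun F => NRF p q F ∧ ht F ≤ h + 1 ∧ J < dep F ∧ ¬ Top c F) c c ≤ nJ := by
  obtain ⟨j, hj⟩ : ∃ j, j + 1 = J := ⟨J - 1, by have := N.hJ; omega⟩
  refine (yy_le2 _ (fun _ I => NRF p q I ∧ ht I ≤ h ∧ j < dep I)
    (fun c' R => NRF p q R ∧ ht R ≤ h ∧ (c' = c → ¬ Top c R))
    (fun c' I => NRF p q I ∧ ht I ≤ h ∧ NRtop p q c c' I)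
    (fun c' R => NRF p q R ∧ ht R ≤ h ∧ J < dep R ∧ (c' = c → ¬ Top c R)) c c
    fun c' I R hP => ?_).trans ?_
  · rcases dep_cons (j := j) (hj ▸ hP.2.2.1) with h1 | h1
    · exact Or.inl ⟨⟨hP.1.2.2.2.1, (ht_cons hP.2.1).1, h1⟩, hP.1.2.2.2.2, (ht_cons hP.2.1).2,
        not_top hP.2.2.2⟩
    · exact Or.inr ⟨⟨hP.1.2.2.2.1, (ht_cons hP.2.1).1, hP.1.2.2.1⟩, hP.1.2.2.2.2,
        (ht_cons hP.2.1).2, hj ▸ h1, not_top hP.2.2.2⟩
  have e1 := split (K.k3 j hj.le) K.c1 c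
    (fun c' => CH δ p q (fun R => NRF p q R ∧ ht R ≤ h ∧ (c' = c → ¬ Top c R)) c' c) _
    ((ch_mono _ _ c c fun _ h => ⟨h.1, h.2.1, h.2.2 rfl⟩).trans (K.c4 c))
    fun w => ch_mono _ _ w c fun _ h => ⟨h.1, h.2.1⟩
  have e2 := split K.k2 (K.c2 J le_rfl) c
    (fun c' => CH δ p q
      (fun R => NRF p q R ∧ ht R ≤ h ∧ J < dep R ∧ (c' = c → ¬ Top c R)) c' c) _
    ((ch_mono _ _ c c fun _ h => ⟨h.1, h.2.1, h.2.2.1, h.2.2.2 rfl⟩).trans (K.c5 c))
    fun w => ch_mono _ _ w c fun _ h => ⟨h.1, h.2.1, h.2.2.1⟩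
  refine (add_le_add e1 e2).trans (le_trans ?_ (N.mJ j hj))
  rw [add_add_add_comm, ← add_assoc]
  gcongr
  · exact (K.k3 j hj.le c).1
  · exact (K.k2 c).1

end Vy

theorem vy : VyStmt := by
  intro δ p q J al1 al2 ga T a b ρ t n0 nJ P N h K
  refine ⟨fun j hj => ?_, Vy.y2 N K, Vy.y3 N K, Vy.y4 N K⟩
  cases j with
  | zero => exact Vy.y1_zero N K
  | succ j => exact Vy.y1_succ N K j hj

end Pool.Agent.MP_e0ec03_al.Asy

end MrgPart5

-- marker of a merged file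
example : 731051 + 380009 = 731051 + 380009 := rfl
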