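import Pool.Agent.MP_e0ec03_al.asy.Ar1
import Pool.Agent.MP_e0ec03_al.asy.Gcan
import Pool.Agent.MP_e0ec03_al.asy.Spa1
import Pool.Agent.MP_e0ec03_al.asy.Vy
import Pool.Agent.MP_e0ec03_al.asy.Parse
import Pool.Agent.MP_e0ec03_al.asy.Spa2
import Pool.Agent.MP_e0ec03_al.asy.Mtail
import Pool.Agent.MP_e0ec03_al.asy.Finu
import Pool.Agent.MP_e0ec03_al.asy.Vk
import Pool.Agent.MP_e0ec03_al.asy.Mb
import Pool.Agent.MP_e0ec03_al.asy.Loc
import Pool.Agent.MP_e0ec03_al.asy.Low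
import Pool.Agent.MP_e0ec03_al.asy.Mcf
import Pool.Agent.MP_e0ec03_al.asy.Shp
import Pool.Agent.MP_e0ec03_al.asy.Val

/-! THEOREM ASY, all rows put together. -/

namespace Pool.Agent.MP_e0ec03_al.Asy

open Filter Topology

theorem mtail : MtailStmt := mtail_of msum mcf

theorem asy_diff :
    ∀ ε : ℝ, 0 < ε → ∃ p0 : ℕ, ∀ p q : ℕ, p0 ≤ p → p < q → ∃ ω : ℝ,
      Tendsto (fun n : ℕ => ((ball p q n).ncard : ℝ) ^ (1 / (n : ℝ))) atTop (𝓝 ω) ∧
      |(3 - ω) * 3 ^ p / p - lead p q| ≤ ε :=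
  final_of (up_of gcan) (low_of ginj) (lowz_of har br jen plc (dec_of parse))
    (finu_of loc blk mb mtail parse)
    (finl_of (che_of vtx_bound) (shp_of vtx_bound) mb mtail
      (spa_of ar1 ar2 ar3 (val_of vnum vk vy) vnm spd1 spd2 spa1 spa2)) mtail

end Pool.Agent.MP_e0ec03_al.Asy
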