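import Pool.Agent.MP_e0ec03_al.asy.Spa1

/-! ROW AR1: geometric estimates for the vertex weights. -/

namespace Pool.Agent.MP_e0ec03_al.Asy

open Classical Finset
open scoped ENNReal

namespace Ar1

theorem geo_nat {A r : ℝ} (hA : 0 ≤ A) (h0 : 0 ≤ r) (h1 : r ≤ 1 / 2) (k : ℕ) :
    ∑' n : ℕ, (if k ≤ n then ENNReal.ofReal (A * r ^ n) else 0) ≤
      ENNReal.ofReal (2 * (A * r ^ k)) := by
  rw [← (add_left_injective k).tsum_eq (f := fun n : ℕ =>
    if k ≤ n then ENNReal.ofReal (A * r ^ n) else 0) (fun n hn => by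
      have : k ≤ n := by
        by_contra h
        exact hn (if_neg h)
      exact ⟨n - k, by simp only; omega⟩)]
  calc _ ≤ ∑' n : ℕ, ENNReal.ofReal (A * r ^ k) * 2⁻¹ ^ n := ENNReal.tsum_le_tsum fun n => by
        rw [if_pos (by omega), pow_add, mul_comm (r ^ n), ← mul_assoc,
          ENNReal.ofReal_mul (by positivity), ENNReal.ofReal_pow h0]
        gcongr
        refine (ENNReal.ofReal_le_ofReal h1).trans (le_of_eq ?_)
        rw [one_div, ENNReal.ofReal_inv_of_pos (by norm_num)]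
        simp
    _ = _ := by
        rw [ENNReal.tsum_mul_left, ENNReal.tsum_geometric, ENNReal.one_sub_inv_two, inv_inv,
          ENNReal.ofReal_mul (p := 2) (by norm_num), mul_comm]
        simp

theorem geo {A r : ℝ} (hA : 0 ≤ A) (h0 : 0 ≤ r) (h1 : r ≤ 1 / 2) (k : ℕ) (n : ℤ)
    (f : ℤ → ℝ≥0∞) (hf : ∀ c, (c - n).natAbs < k → f c = 0)
    (hg : ∀ c, k ≤ (c - n).natAbs → f c ≤ ENNReal.ofReal (A * r ^ (c - n).natAbs)) :
    ∑' c, f c ≤ ENNReal.ofReal (4 * (A * r ^ k)) := by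
  have key : ∀ (j : ℤ) (m : ℕ), m ≤ j.natAbs → j.natAbs ≤ m →
      f (j + n) ≤ if k ≤ m then ENNReal.ofReal (A * r ^ m) else 0 := fun j m a b => by
    obtain rfl : m = j.natAbs := le_antisymm a b
    split_ifs with h
    · simpa using hg (j + n) (by simpa using h)
    · exact (hf (j + n) (by simpa using h)).le
  rw [← (Equiv.addRight n).tsum_eq f,
    tsum_of_nat_of_neg_add_one ENNReal.summable ENNReal.summable]
  have e1 : ∑' m : ℕ, f (Equiv.addRight n (m : ℤ)) ≤ ENNReal.ofReal (2 * (A * r ^ k)) :=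
    (ENNReal.tsum_le_tsum fun m : ℕ => key m m (by simp) (by simp)).trans (geo_nat hA h0 h1 k)
  have e2 : ∑' m : ℕ, f (Equiv.addRight n (-((m : ℤ) + 1))) ≤ ENNReal.ofReal (2 * (A * r ^ k)) := by
    refine le_trans ?_ (geo_nat hA h0 h1 k)
    refine le_trans ?_ (ENNReal.tsum_comp_le_tsum_of_injective (add_left_injective 1) _)
    exact ENNReal.tsum_le_tsum fun m => key _ (m + 1) (by omega) (by omega)
  refine (add_le_add e1 e2).trans (le_of_eq ?_)
  rw [← ENNReal.ofReal_add (by positivity) (by positivity)]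
  congr 1
  ring

theorem mu_le {p k : ℕ} {d : ℤ} (h : p * k ≤ d.natAbs) : mu d ≤ 60 * ((3 / 5) ^ p) ^ k := by
  refine (mu_le_exp d).trans ?_
  rw [← pow_mul]
  exact mul_le_mul_of_nonneg_left (pow_le_pow_of_le_one (by norm_num) (by norm_num) h)
    (by norm_num)

theorem sq_le {p k : ℕ} {d : ℤ} (h : p * k ≤ 2 * d.natAbs) :
    sE d ^ 2 ≤ ENNReal.ofReal (900 * ((3 / 5) ^ p) ^ k) := by
  have h0 := mu_pos d
  rw [sE, ← ENNReal.ofReal_pow (by positivity)]
  refine ENNReal.ofReal_le_ofReal ?_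
  have h1 : mu d ^ 2 ≤ (60 * (3 / 5) ^ d.natAbs) ^ 2 := pow_le_pow_left₀ h0.le (mu_le_exp d) 2
  have h2 : ((3 / 5 : ℝ) ^ d.natAbs) ^ 2 ≤ ((3 / 5) ^ p) ^ k := by
    rw [← pow_mul, ← pow_mul]
    exact pow_le_pow_of_le_one (by norm_num) (by norm_num) (by omega)
  rw [mul_pow] at h1
  rw [div_pow]
  linarith

theorem two_le {x ρ : ℝ} (hρ : 0 ≤ ρ) (k : ℕ) (h : x ≤ 60 * ρ ^ k) :
    ENNReal.ofReal x * 2 ^ k ≤ ENNReal.ofReal (60 * (2 * ρ) ^ k) := by
  rw [mul_pow, mul_comm (2 ^ k), ← mul_assoc, ENNReal.ofReal_mul (by positivity),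
    ENNReal.ofReal_pow (by norm_num), ENNReal.ofReal_ofNat]
  exact mul_le_mul_left (ENNReal.ofReal_le_ofReal h) _

theorem ps_le (a b : Bool) {d : ℤ} (h : d ≠ 0) : ps a b d ≤ mu d := by
  have := mu_pos d
  unfold ps
  split_ifs <;> linarith

theorem ps_two {p m : ℕ} (hp : 1 ≤ p) (hm : p ≤ m) (a b : Bool) {c d : ℤ} (hc : c ≠ 0)
    (hd : d.natAbs = m * c.natAbs) :
    ENNReal.ofReal (ps a b d) * 2 ^ c.natAbs ≤
      ENNReal.ofReal (60 * (2 * (3 / 5) ^ p) ^ c.natAbs) := by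
  have h1 : p * c.natAbs ≤ d.natAbs := hd ▸ Nat.mul_le_mul_right _ hm
  have h2 : 0 < p * c.natAbs := Nat.mul_pos hp (Int.natAbs_pos.2 hc)
  exact two_le (by positivity) _ ((ps_le a b (Int.natAbs_pos.1 (by omega))).trans (mu_le h1))

theorem inn_abs {p q : ℕ} (h : p < q) (e b : Bool) (c : ℤ) :
    ∃ m, p ≤ m ∧ (inn p q (e, c) - out p q (b, 0)).natAbs = m * c.natAbs := by
  cases e
  · exact ⟨q, h.le, by simp [inn, out, Int.natAbs_mul]⟩
  · exact ⟨p, le_rfl, by simp [inn, out, Int.natAbs_mul]⟩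

theorem out_abs {p q : ℕ} (h : p < q) (a e : Bool) (c : ℤ) :
    ∃ m, p ≤ m ∧ (inn p q (a, 0) - out p q (e, c)).natAbs = m * c.natAbs := by
  cases e
  · exact ⟨p, le_rfl, by simp [inn, out, Int.natAbs_mul]⟩
  · exact ⟨q, h.le, by simp [inn, out, Int.natAbs_mul]⟩

end Ar1

open Ar1 in
theorem ar1 : Ar1Stmt := by
  refine ⟨100, fun p q hp hq => ?_⟩
  have hK : (3600 : ℝ) ≤ (11 / 10) ^ p :=
    le_trans (by norm_num) (pow_le_pow_right₀ (by norm_num) hp)
  have hT : (33 / 50 : ℝ) ^ p = (11 / 10) ^ p * (3 / 5) ^ p := by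
    rw [← mul_pow]
    norm_num
  have h0 : (0 : ℝ) < (3 / 5) ^ p := by positivity
  have h4 : (3 / 5 : ℝ) ^ p ≤ 1 / 4 :=
    le_trans (pow_le_pow_of_le_one (by norm_num) (by norm_num) (show 3 ≤ p by omega)) (by norm_num)
  have t1 : ∀ x : ℝ, x ≤ 3600 * (3 / 5) ^ p →
      ENNReal.ofReal x ≤ ENNReal.ofReal ((33 / 50) ^ p) := fun x h =>
    ENNReal.ofReal_le_ofReal (h.trans (hT ▸ mul_le_mul_of_nonneg_right hK h0.le))
  have t2 : ∀ x : ℝ, x ≤ 3600 * ((3 / 5) ^ p) ^ 2 →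
      ENNReal.ofReal x ≤ ENNReal.ofReal ((33 / 50) ^ p) ^ 2 := fun x h => by
    rw [← ENNReal.ofReal_pow (by positivity), hT, mul_pow]
    exact ENNReal.ofReal_le_ofReal (h.trans (mul_le_mul_of_nonneg_right (by nlinarith)
      (by positivity)))
  have hp1 : 1 ≤ p := by omega
  have e1 := fun (a b : Bool) (c d : ℤ) (hc : c ≠ 0) (h : ∃ m, p ≤ m ∧ d.natAbs = m * c.natAbs) =>
    h.elim fun m k => ps_two hp1 k.1 a b hc k.2
  generalize hρ : (3 / 5 : ℝ) ^ p = ρ at h0 h4 t1 t2 e1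
  have h2 : 2 * ρ ≤ 1 / 2 := by linarith
  refine ⟨fun m hm u => ⟨by simp [tE], ?_⟩, fun c n h => ?_, fun c n h => ?_, fun d => ?_,
    fun d h => ?_, fun d h => ?_, fun d h => ?_, fun e b c h => ?_, fun e b c h => ?_,
    fun a e => ?_, fun a e => ?_⟩
  · refine (geo (A := 60) (r := 2 * ρ) (by norm_num) (by positivity) h2 1 u _
      (fun c k => if_pos (by omega)) fun c k => ?_).trans (t1 _ (by linarith))
    have k1 : c - u ≠ 0 := by omega
    have := e1 true false (c - u) (m * u - m * c) k1 ⟨m, hm, by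
      rw [← mul_sub, Int.natAbs_mul, ← Int.natAbs_neg (u - c), neg_sub, Int.natAbs_natCast]⟩
    rw [if_neg (by omega), ← Int.natAbs_neg (u - c), neg_sub, mul_comm]
    simpa [ps, tE] using this
  · refine (geo (A := 900) (r := ρ) (by norm_num) h0.le (by linarith) 1 n _
      (fun c k => if_pos (by omega)) fun c1 k => ?_).trans (t1 _ (by linarith))
    rw [if_neg (by omega), ← hρ]
    refine sq_le ?_
    have k1 : (p * (c1 - n)).natAbs ≤ (q * c - p * n).natAbs + (q * c - p * c1).natAbs := by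
      rw [show (p : ℤ) * (c1 - n) = (q * c - p * n) - (q * c - p * c1) by ring]
      exact Int.natAbs_sub_le _ _
    rw [Int.natAbs_mul, Int.natAbs_natCast] at k1
    have k2 : p * 1 ≤ p * (c1 - n).natAbs := Nat.mul_le_mul_left _ k
    rw [← Int.natCast_natAbs] at h
    omega
  · refine (geo (A := 900) (r := ρ ^ 2) (by norm_num) (by positivity) (by nlinarith) 1 n _
      (fun c k => if_pos (by omega)) fun c1 k => ?_).trans (t2 _ (by linarith))
    rw [if_neg (by omega), ← hρ, ← pow_mul _ 2]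
    refine sq_le (le_of_eq ?_)
    rw [h, ← mul_sub, Int.natAbs_mul, Int.natAbs_natCast, ← Int.natAbs_neg (n - c1), neg_sub]
    ring
  · exact ENNReal.ofReal_le_one.2 (by linarith [mu_le_two d])
  · have k0 := mu_pos d
    have k1 : mu d ^ 2 ≤ √3 ^ 2 := pow_le_pow_left₀ k0.le (mu_le_sqrt h) 2
    rw [Real.sq_sqrt (by norm_num)] at k1
    rw [sE, ← ENNReal.ofReal_pow (by positivity),
      show (3 / 4 : ℝ≥0∞) = ENNReal.ofReal (3 / 4) by
        rw [ENNReal.ofReal_div_of_pos (by norm_num)]; simp]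
    exact ENNReal.ofReal_le_ofReal (by rw [div_pow]; linarith)
  · rw [sE, show (9 / 10 : ℝ≥0∞) = ENNReal.ofReal (9 / 10) by
        rw [ENNReal.ofReal_div_of_pos (by norm_num)]; simp]
    exact ENNReal.ofReal_le_ofReal (by linarith [mu_le_sqrt h, sqrt3_bounds.2])
  · rw [← Int.natCast_natAbs] at h
    have k1 := mu_le (p := p) (k := 1) (d := d) (by omega)
    rw [hρ] at k1
    exact t1 _ (by linarith)
  · refine (e1 e b c _ h (inn_abs hq e b c)).trans (t1 _ ?_)
    have := pow_le_pow_of_le_one (a := 2 * ρ) (by positivity) (by linarith)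
      (show 1 ≤ c.natAbs by omega)
    linarith
  · rw [← Int.natCast_natAbs] at h
    refine (e1 e b c _ (by omega) (inn_abs hq e b c)).trans (t2 _ ?_)
    have := pow_le_pow_of_le_one (a := 2 * ρ) (by positivity) (by linarith)
      (show 2 ≤ c.natAbs by omega)
    nlinarith
  · refine (geo (A := 60) (r := 2 * ρ) (by norm_num) (by positivity) h2 1 0 _
      (fun c k => if_pos (by omega)) fun c k => ?_).trans (t1 _ (by linarith))
    rw [if_neg (by omega), sub_zero]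
    exact e1 a e c _ (by omega) (out_abs hq a e c)
  · refine (geo (A := 60) (r := 2 * ρ) (by norm_num) (by positivity) h2 2 0 _
      (fun c k => if_neg (by rw [← Int.natCast_natAbs]; omega)) fun c k => ?_).trans
      (t2 _ (by nlinarith))
    rw [if_pos (by rw [← Int.natCast_natAbs]; omega), sub_zero]
    exact e1 a e c _ (by omega) (out_abs hq a e c)

end Pool.Agent.MP_e0ec03_al.Asy
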