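import Pool.Agent.MP_e0ec03_al.asy.Parse

-- ======== part 0: formerly Pool.Agent.MP_e0ec03_al.asy.Upp
section MrgPart0

/-! The block argument: many bad blocks lower the growth rate. -/

namespace Pool.Agent.MP_e0ec03_al.Asy

open Classical Finset

namespace Upp

theorem sum_append {α : Type} (s : Finset α) (n : ℕ) : ∀ (m : ℕ) (f : List α → ℝ),
    ∑ l ∈ lists s (m + n), f l = ∑ l ∈ lists s m, ∑ l' ∈ lists s n, f (l ++ l')
  | 0, f => by simp [sum_lists_zero]
  | m + 1, f => by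
    rw [Nat.add_right_comm, sum_lists_succ, sum_lists_succ]
    exact sum_congr rfl fun x _ => sum_append s n m _

theorem av_left {p q : ℕ} {a : Bool} {l l' : List (ℤ × Bool)} (h : Av p q a (l ++ l')) :
    Av p q a l := by
  rintro ds ⟨v, v1, v2, rfl⟩ w
  have e : lastE (a, (0 : ℤ)) v = ((lastE (a, (0 : ℤ)) v).1, 0) := Prod.ext rfl v2
  refine h (dl p q (a, 0) (v ++ (l'.map Prod.snd).map fun e => (e, (0 : ℤ)))) ⟨_, ?_, ?_, rfl⟩ ?_
  · simp [v1, Function.comp_def]
  · rw [lastE_append, e, lastE_map (fun e => (e, (0 : ℤ)))]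
  · rw [dl_append, e, dl_zeros, List.map_append, win_append_zeros]
    · exact w
    · rw [dl_length, ← List.length_map Prod.fst (as := v), v1]
      simp

theorem av_right {p q : ℕ} {a : Bool} {l l' : List (ℤ × Bool)} (h : Av p q a (l ++ l')) :
    Av p q (lastE a (l.map Prod.snd)) l' := by
  rintro ds ⟨v, v1, v2, rfl⟩ w
  refine h (dl p q (a, 0) (((l.map Prod.snd).map fun e => (e, (0 : ℤ))) ++ v)) ⟨_, ?_, ?_, rfl⟩ ?_
  · simp [v1, Function.comp_def]
  · rwa [lastE_append, lastE_map (fun e => (e, (0 : ℤ)))]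
  · rw [dl_append, dl_zeros, lastE_map (fun e => (e, (0 : ℤ))), List.map_append,
      show (l.map Prod.snd).length = (l.map Prod.fst).length by simp, win_zeros_append]
    exact w

theorem geo (z : ℝ) (K : ℕ) : (1 - z) * ∑ x ∈ Icc (-(K : ℤ)) K,
    (if x = 0 then z else 2 * z ^ (x.natAbs + 1)) = z * (1 + 3 * z) - 4 * z ^ (K + 2) := by
  induction K with
  | zero =>
    simp
    ring
  | succ K ih =>
    have e : Icc (-((K + 1 : ℕ) : ℤ)) (K + 1 : ℕ) =
        insert (-((K + 1 : ℕ) : ℤ)) (insert ((K + 1 : ℕ) : ℤ) (Icc (-(K : ℤ)) K)) := by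
      ext x
      simp only [mem_Icc, mem_insert]
      omega
    rw [e, sum_insert (by simp only [mem_Icc, mem_insert]; omega),
      sum_insert (by simp only [mem_Icc]; omega), if_neg (by omega), if_neg (by omega),
      Int.natAbs_neg, Int.natAbs_natCast, mul_add, mul_add, ih]
    ring

theorem tot {z M : ℝ} (h0 : 0 ≤ z) (h1 : z < 1) (hM : z * (1 + 3 * z) ≤ (1 - z) * M) (K : ℕ) :
    ∀ (n : ℕ) (a : Bool), ∑ l ∈ words K n, wt z a l ≤ M ^ n
  | 0, a => by simp [words, sum_lists_zero, wt]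
  | n + 1, a => by
    have M0 : 0 ≤ M := nonneg_of_mul_nonneg_right (le_trans (by positivity) hM) (by linarith)
    have g : ∑ x ∈ Icc (-(K : ℤ)) K, (if x = 0 then z else 2 * z ^ (x.natAbs + 1)) ≤ M := by
      refine le_of_mul_le_mul_left ?_ (sub_pos.2 h1)
      have : 0 ≤ z ^ (K + 2) := by positivity
      rw [geo]
      linarith
    rw [sum_words_succ, pow_succ']
    refine le_trans (sum_le_sum fun x _ => ?_) ((sum_mul _ _ _).symm.le.trans
      (mul_le_mul_of_nonneg_right ((sum_le_sum_of_subset_of_nonneg Ioo_subset_Icc_self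
        fun x _ _ => by split_ifs <;> positivity).trans g) (by positivity)))
    simp only [wt, ← mul_sum]
    refine (sum_le_sum fun b _ => mul_le_mul_of_nonneg_left (tot h0 h1 hM K n b)
      (by split_ifs <;> positivity)).trans ?_
    rw [← sum_mul]
    refine mul_le_mul_of_nonneg_right (le_of_eq ?_) (by positivity)
    by_cases hx : x = 0 <;> cases a <;> simp [hx, two_mul]

variable {p q K n L : ℕ} {z : ℝ}

theorem zav_nonneg (h0 : 0 ≤ z) (a : Bool) : 0 ≤ Zav p q K z n a :=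
  sum_nonneg fun l _ => by
    split_ifs
    exacts [wt_nonneg h0 a l, le_rfl]

theorem zav_add (hK : p ≤ K) (hz : 1 / 3 ≤ z) (a : Bool) :
    Zav p q K z n a + Zbad p q n a ≤ ∑ l ∈ words K n, wt z a l := by
  have h0 : 0 ≤ z := by linarith
  have : Zbad p q n a ≤ ∑ l ∈ words K n, if Av p q a l then 0 else wt z a l :=
    (sum_le_sum fun l _ => by
      split_ifs
      · exact le_rfl
      · rw [wt_eq, wt_eq]
        split_ifs
        exacts [pow_le_pow_left₀ (by norm_num) hz _, le_rfl]).trans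
      (sum_le_sum_of_subset_of_nonneg (fun l hl => mem_words.2 ⟨(mem_words.1 hl).1, fun s hs =>
        ((mem_words.1 hl).2 s hs).trans_le (by exact_mod_cast hK)⟩) fun l _ _ => by
          split_ifs
          exacts [le_rfl, wt_nonneg h0 a l])
  refine (add_le_add_right this _).trans (le_of_eq ?_)
  rw [Zav, ← sum_add_distrib]
  exact sum_congr rfl fun l _ => by split_ifs <;> simp

theorem zav_le (h0 : 0 ≤ z) (a : Bool) : Zav p q K z n a ≤ ∑ l ∈ words K n, wt z a l :=
  sum_le_sum fun l _ => by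
    split_ifs
    exacts [le_rfl, wt_nonneg h0 a l]

theorem block (h0 : 0 ≤ z) {Z : ℝ} (hZ : ∀ b, Zav p q K z n b ≤ Z) (a : Bool) :
    Zav p q K z (L + n) a ≤ Zav p q K z L a * Z := by
  rw [Zav, words, sum_append, Zav, sum_mul]
  refine sum_le_sum fun l _ => ?_
  split_ifs with h
  · refine le_trans ?_ (mul_le_mul_of_nonneg_left (hZ (lastE a (l.map Prod.snd)))
      (wt_nonneg h0 a l))
    rw [Zav, mul_sum]
    refine sum_le_sum fun l' _ => ?_
    split_ifs with h1 h2 h2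
    · exact (wt_append z a l l').le
    · exact absurd (av_right h1) h2
    · exact mul_nonneg (wt_nonneg h0 _ _) (wt_nonneg h0 _ _)
    · simp
  · rw [zero_mul]
    exact (sum_eq_zero fun l' _ => if_neg fun k => h (av_left k)).le

theorem series {Z : ℕ → ℝ} {B C : ℝ} (h0 : ∀ n, 0 ≤ Z n) (h1 : ∀ n < L, Z n ≤ C)
    (h2 : ∀ n, Z (L + n) ≤ B * Z n) (hB : B < 1) (N : ℕ) :
    ∑ n ∈ range N, Z n ≤ L * C / (1 - B) := by
  have a : ∑ n ∈ range N, Z n ≤ ∑ n ∈ range (L + N), Z n :=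
    sum_le_sum_of_subset_of_nonneg (range_mono (by omega)) fun n _ _ => h0 n
  have b := sum_le_card_nsmul (range L) Z C fun n hn => h1 n (mem_range.1 hn)
  have c := sum_le_sum fun n (_ : n ∈ range N) => h2 n
  rw [sum_range_add] at a
  rw [card_range, nsmul_eq_mul] at b
  rw [← mul_sum] at c
  rw [le_div_iff₀ (sub_pos.2 hB)]
  linarith

theorem rate (h : GcanStmt) (hp : 1 ≤ p) (hq : p < q) {ω M β : ℝ} (hω : Rate p q ω)
    (z1 : 1 / 3 ≤ z) (z2 : z ≤ 1 / 2) (M1 : 1 ≤ M) (hM : z * (1 + 3 * z) ≤ (1 - z) * M)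
    (hβ : ∀ a, β ≤ Zbad p q L a) (hB : M ^ L - β < 1) : ω * z ≤ 1 := by
  have z0 : 0 < z := by linarith
  have t := tot z0.le (by linarith) hM
  by_contra k
  obtain ⟨N, n1, n2⟩ := (((tendsto_pow_atTop_atTop_of_one_lt (not_le.1 k)).eventually_gt_atTop
    (3 + 18 * (L * M ^ L / (1 - (M ^ L - β))))).and (Filter.eventually_ge_atTop p)).exists
  have B : ∀ a, Zav p q (N + 1) z L a ≤ M ^ L - β := fun a => by
    linarith [zav_add (q := q) (n := L) (show p ≤ N + 1 by omega) z1 a, t (N + 1) L a, hβ a]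
  have mx : ∀ n b, Zav p q (N + 1) z n b ≤
      max (Zav p q (N + 1) z n true) (Zav p q (N + 1) z n false) := fun n b => by
    cases b
    exacts [le_max_right _ _, le_max_left _ _]
  have s := series (L := L) (B := M ^ L - β) (C := M ^ L)
    (Z := fun n => max (Zav p q (N + 1) z n true) (Zav p q (N + 1) z n false))
    (fun n => (zav_nonneg z0.le true).trans (mx n true))
    (fun n hn => max_le (((zav_le z0.le _).trans (t _ _ _)).trans (pow_le_pow_right₀ M1 hn.le))
      (((zav_le z0.le _).trans (t _ _ _)).trans (pow_le_pow_right₀ M1 hn.le)))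
    (fun n => max_le ((block z0.le (mx n) _).trans (mul_le_mul_of_nonneg_right (B _)
      ((zav_nonneg z0.le true).trans (mx n true)))) ((block z0.le (mx n) _).trans
      (mul_le_mul_of_nonneg_right (B _) ((zav_nonneg z0.le true).trans (mx n true))))) hB (N + 1)
  have g := h p q hp hq N z z0 z2
  have g1 := mul_le_mul_of_nonneg_right (hω.2.1 N) (pow_nonneg z0.le N)
  have g2 := fun b => sum_le_sum fun n (_ : n ∈ range (N + 1)) => mx n b
  rw [Fintype.sum_bool] at g
  rw [mul_pow] at n1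
  linarith [g2 true, g2 false]

theorem pw_lt {u b : ℝ} (hL : 1 ≤ L) (u0 : 0 ≤ u) (u1 : u * L ≤ 1) (h : u + u ^ 2 * L < b) :
    (1 + u) ^ L - b * L < 1 := by
  have L0 : (0 : ℝ) < L := by exact_mod_cast hL
  have a : (1 + u) ^ L ≤ Real.exp (L * u) := by
    rw [Real.exp_nat_mul]
    exact pow_le_pow_left₀ (by linarith) (by linarith [Real.add_one_le_exp u]) L
  have c := (abs_le.1 (Real.abs_exp_sub_one_sub_id_le (x := L * u)
    (by rw [abs_of_nonneg (by positivity)]; linarith))).2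
  have := mul_lt_mul_of_pos_right h L0
  linarith

end Upp

theorem up_of (h : GcanStmt) : UpStmt := by
  intro η0 hη L hL
  obtain ⟨η, e0, e1, e2⟩ : ∃ η : ℝ, 0 < η ∧ η ≤ 1 ∧ η ≤ η0 :=
    ⟨min 1 η0, by positivity, min_le_left _ _, min_le_right _ _⟩
  have L1 : (1 : ℝ) ≤ L := by exact_mod_cast hL
  refine ⟨η / (20 * L), by positivity, fun p q hp hq ω b hω b0 b1 hb => ?_⟩
  rw [le_div_iff₀ (by positivity)] at b1
  have b2 : 20 * b ≤ η := by nlinarith
  obtain ⟨s, hs⟩ : ∃ s, s = (1 / 2 - η / 6) * b := ⟨_, rfl⟩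
  have ηb := mul_pos e0 b0
  have s0 : 0 ≤ s := by nlinarith
  have s1 : s ≤ b / 2 := by linarith
  have s2 : s ^ 2 ≤ b ^ 2 / 4 := by nlinarith
  have s3 : 20 * b ^ 2 ≤ η * b := by nlinarith
  have u1 : 2 * s + 3 * s ^ 2 ≤ 2 * b := by nlinarith
  have u0 : 0 ≤ 2 * s + 3 * s ^ 2 := by positivity
  have r := Upp.rate (z := (1 + s) / 3) (M := 1 + (2 * s + 3 * s ^ 2)) h hp hq hω (by linarith)
    (by linarith) (by linarith) (by nlinarith [mul_nonneg (sq_nonneg s) (show 0 ≤ 1 - s by linarith)])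
    hb (Upp.pw_lt hL u0 (by nlinarith) (by
      have a := mul_le_mul_of_nonneg_right (pow_le_pow_left₀ u0 u1 2) (show (0 : ℝ) ≤ L by linarith)
      have c := mul_le_mul_of_nonneg_left b1 b0.le
      linarith))
  have w : ω ≤ 3 - 3 * s + 3 * s ^ 2 := by
    refine le_of_mul_le_mul_right ?_ (show 0 < 1 + s by linarith)
    have : 0 ≤ s ^ 3 := by positivity
    linarith
  have := mul_le_mul_of_nonneg_right e2 b0.le
  linarith

end Pool.Agent.MP_e0ec03_al.Asy

end MrgPart0

-- ======== part 1: formerly Pool.Agent.MP_e0ec03_al.asy.Low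
section MrgPart1

/-! Short and long words: a large partition function forces a large growth rate. -/

namespace Pool.Agent.MP_e0ec03_al.Asy

open Classical Finset Filter Topology

namespace Low

variable {p q : ℕ}

theorem len_tl (e : Bool) : Len (gA p q) (gT p q) (tl p q e) 1 := by
  cases e
  exacts [Len.gti, Len.gt]

theorem len_evw : ∀ l : List (ℤ × Bool), Len (gA p q) (gT p q) (evw p q l) (wl l)
  | [] => Len.one
  | s :: l => ((Len.zpow s.1).mul (len_tl s.2)).mul (len_evw l)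

theorem long (h : GinjStmt) (hp : 1 ≤ p) (hq : p < q) {ω x : ℝ} (hω : Rate p q ω) (x0 : 0 < x)
    (x1 : x * ω < 1) : ∃ K : ℝ, ∀ n, ∑ a : Bool, Zav p q p x n a ≤ K := by
  have hs := (summable_nat_add_iff 1).2 (hω.2.2 x x0.le x1)
  refine ⟨(∑' m, ((ball p q (m + 1)).ncard : ℝ) * x ^ (m + 1)) / x, fun n => ?_⟩
  obtain ⟨S, hS⟩ : ∃ S, S = ((univ : Finset Bool) ×ˢ words p n).filter
    fun s => Ok s.1 s.2 ∧ Av p q s.1 s.2 := ⟨_, rfl⟩
  have e : ∑ a : Bool, Zav p q p x n a = ∑ s ∈ S, x ^ wl s.2 := by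
    rw [hS, sum_filter, sum_product]
    refine sum_congr rfl fun a _ => sum_congr rfl fun l _ => ?_
    rw [wt_eq]
    by_cases h1 : Ok a l <;> by_cases h2 : Av p q a l <;> simp [h1, h2]
  rw [e, le_div_iff₀ x0, sum_mul, sum_congr rfl fun s _ => (pow_succ x (wl s.2)).symm,
    sum_comp (fun m => x ^ (m + 1)) fun s : Bool × List (ℤ × Bool) => wl s.2]
  refine le_trans (sum_le_sum fun m _ => ?_) (hs.sum_le_tsum _ fun m _ => by positivity)
  rw [nsmul_eq_mul]
  refine mul_le_mul_of_nonneg_right (Nat.cast_le.2 ?_) (by positivity)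
  rw [← Set.ncard_coe_finset]
  refine Set.ncard_le_ncard_of_injOn (fun s => tl p q s.1 * evw p q s.2) (fun s hs => ?_)
    (fun s hs s' hs' k => ?_) (ball_finite _)
  · rw [← (mem_filter.1 (mem_coe.1 hs)).2, add_comm]
    exact mem_ball.2 ((len_tl _).mul (len_evw _))
  · have a := (mem_filter.1 (mem_coe.1 hs)).1
    have b := (mem_filter.1 (mem_coe.1 hs')).1
    rw [hS, mem_filter, mem_product] at a b
    exact Prod.ext_iff.2 (h p q hp hq n _ _ _ _ a.1.2 b.1.2 a.2.1 b.2.1 a.2.2 b.2.2 k)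

theorem point {x y u v : ℝ} (t : ℝ) (m : ℕ) (x0 : 0 ≤ x) (y0 : 0 ≤ y) (u0 : 0 ≤ u) (v0 : 0 ≤ v)
    (h1 : 1 / 3 ≤ Real.exp u * y) (h2 : 1 / 3 ≤ Real.exp (-v) * x) :
    (1 / 3 : ℝ) ^ m ≤ Real.exp (t * u) * y ^ m + Real.exp (t * -v) * x ^ m := by
  rcases le_total (m : ℝ) t with k | k
  · refine (pow_le_pow_left₀ (by norm_num) h1 m).trans (le_add_of_le_of_nonneg ?_ (by positivity))
    rw [mul_pow, ← Real.exp_nat_mul]
    exact mul_le_mul_of_nonneg_right (Real.exp_le_exp.2 (mul_le_mul_of_nonneg_right k u0))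
      (by positivity)
  · refine (pow_le_pow_left₀ (by norm_num) h2 m).trans (le_add_of_nonneg_of_le (by positivity) ?_)
    rw [mul_pow, ← Real.exp_nat_mul]
    exact mul_le_mul_of_nonneg_right (Real.exp_le_exp.2
      (mul_le_mul_of_nonpos_right k (neg_nonpos.2 v0))) (by positivity)

theorem split {x y u v M : ℝ} (t : ℝ) (n : ℕ) (a : Bool) (x0 : 0 ≤ x) (y0 : 0 ≤ y) (y1 : y < 1)
    (u0 : 0 ≤ u) (v0 : 0 ≤ v) (h1 : 1 / 3 ≤ Real.exp u * y) (h2 : 1 / 3 ≤ Real.exp (-v) * x)
    (hM : y * (1 + 3 * y) ≤ (1 - y) * M) : Zav p q p (1 / 3) n a ≤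
      Real.exp (t * u) * M ^ n + Real.exp (t * -v) * Zav p q p x n a := by
  refine le_trans ?_ (add_le_add_left (mul_le_mul_of_nonneg_left (Upp.tot y0 y1 hM p n a)
    (Real.exp_pos _).le) _)
  rw [Zav, Zav, mul_sum, mul_sum, ← sum_add_distrib]
  refine sum_le_sum fun l _ => ?_
  rw [wt_eq, wt_eq, wt_eq]
  split_ifs
  · exact point t _ x0 y0 u0 v0 h1 h2
  · simp
  · positivity
  · simp

theorem lim {c : ℝ} (h : c < 0) (K : ℝ) :
    Tendsto (fun n : ℕ => Real.exp (n * c) * K) atTop (𝓝 0) := by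
  simpa only [Real.exp_nat_mul, zero_mul] using (tendsto_pow_atTop_nhds_zero_of_lt_one
    (Real.exp_pos c).le (Real.exp_lt_one_iff.2 h)).mul_const K

end Low

theorem low_of (h : GinjStmt) : LowStmt := by
  intro η hη
  obtain ⟨u, u0, u1, u2⟩ : ∃ u : ℝ, 0 < u ∧ 24 * u ≤ 1 ∧ 24 * u ≤ η :=
    ⟨min 1 η / 24, by positivity, by linarith [min_le_left 1 η], by linarith [min_le_right 1 η]⟩
  refine ⟨u ^ 2, by positivity, fun p q hp hq ω θ hω t0 t1 H => ?_⟩
  by_contra k
  have w0 : 0 < ω := by linarith [hω.1]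
  have l0 : 0 < 2 - 12 * u := by linarith
  obtain ⟨v, v1, v2⟩ : ∃ v, θ / (2 - 12 * u) < v ∧ v < Real.log (3 / ω) := exists_between (by
    have a : θ / (2 - 12 * u) ≤ (3 / 2 + η) * θ / 3 := by
      rw [div_le_div_iff₀ l0 (by norm_num)]
      have := mul_le_mul_of_nonneg_left u1 hη.le
      have := mul_le_mul_of_nonneg_right
        (show 3 ≤ (3 / 2 + η) * (2 - 12 * u) by linarith) t0
      linarith
    have b := Real.one_sub_inv_le_log_of_pos (show 0 < 3 / ω by positivity)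
    rw [inv_div] at b
    linarith [not_le.1 k])
  have v0 : 0 ≤ v := (div_nonneg t0 l0.le).trans v1.le
  rw [div_lt_iff₀ l0] at v1
  rw [Real.lt_log_iff_exp_lt (by positivity), lt_div_iff₀ w0] at v2
  obtain ⟨K, hK⟩ := Low.long h hp hq hω (x := Real.exp v / 3) (by positivity) (by linarith)
  have sp := fun (n : ℕ) (a : Bool) => Low.split (p := p) (q := q) (x := Real.exp v / 3)
    (y := (1 - u) / 3) (u := u + 2 * u ^ 2) (M := Real.exp (-2 * u + 2 * u ^ 2))
    (n * (2 - 12 * u)) n a (by positivity) (by linarith) (by linarith) (by positivity) v0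
    (by
      have a := mul_le_mul_of_nonneg_right (Real.add_one_le_exp (u + 2 * u ^ 2))
        (show 0 ≤ (1 - u) / 3 by linarith)
      nlinarith [mul_nonneg (sq_nonneg u) (show 0 ≤ 1 - 2 * u by linarith)])
    (by rw [← mul_div_assoc, ← Real.exp_add, neg_add_cancel, Real.exp_zero])
    (by
      have a := mul_le_mul_of_nonneg_left (Real.add_one_le_exp (-2 * u + 2 * u ^ 2))
        (show 0 ≤ 1 - (1 - u) / 3 by linarith)
      nlinarith [pow_pos u0 3, sq_nonneg u])
  have c1 : θ + (2 - 12 * u) * (u + 2 * u ^ 2) + (-2 * u + 2 * u ^ 2) < 0 := by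
    nlinarith [pow_pos u0 3, pow_pos u0 2]
  have c2 : θ + (2 - 12 * u) * -v < 0 := by linarith
  have tt := (Low.lim c1 2).add (Low.lim c2 K)
  rw [add_zero] at tt
  obtain ⟨n, hn⟩ := (tt.eventually_lt_const one_pos).exists
  have a := H n
  have b := mul_le_mul_of_nonneg_left (hK n) (Real.exp_pos (n * (2 - 12 * u) * -v)).le
  rw [Fintype.sum_bool] at a b
  have c := sp n true
  have c' := sp n false
  rw [← Real.exp_nat_mul, ← Real.exp_add] at c c'
  have d := mul_le_mul_of_nonneg_left (show Real.exp (-(θ * n)) ≤ Real.exp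
    (n * (2 - 12 * u) * (u + 2 * u ^ 2) + n * (-2 * u + 2 * u ^ 2)) * 2 +
      Real.exp (n * (2 - 12 * u) * -v) * K by linarith) (Real.exp_pos (θ * n)).le
  rw [mul_add, ← mul_assoc (Real.exp _), ← mul_assoc (Real.exp _), ← Real.exp_add, ← Real.exp_add,
    ← Real.exp_add, add_neg_cancel, Real.exp_zero] at d
  refine absurd hn (not_lt.2 (d.trans (le_of_eq ?_)))
  congr 3 <;> ring

end Pool.Agent.MP_e0ec03_al.Asy

end MrgPart1

-- marker of a merged file
example : 731051 + 318665 = 731051 + 318665 := rfl
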